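import Pool.Agent.AllRank.Lat
import Pool.Agent.MP4d0966.R4Basis

set_option autoImplicit false

/-! ALLRANK, file Adapt: a basis adapted to a hyperbolic pair, rank `4`. -/

namespace Pool.Agent.AllRank

open Pool.Agent.MP4d0966 Module

variable {N : Type*} [AddCommGroup N]

theorem exists_adapted {L : EvenForm N} (b : Basis (Fin 4) ℤ N) {e f : N} (he : L.q e = 0)
    (hf : L.q f = 0) (hef : L.B e f = 1) :
    ∃ c : Basis (Fin 4) ℤ N, c 0 = e ∧ c 1 = f ∧ L.B (c 2) e = 0 ∧ L.B (c 2) f = 0 ∧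
      L.B (c 3) e = 0 ∧ L.B (c 3) f = 0 := by
  have : Module.Free ℤ N := Module.Free.of_basis b
  have : Module.Finite ℤ N := Module.Finite.of_basis b
  have hff : L.B f f = 0 := by rw [L.hq, hf, mul_zero]
  have hfe : L.B f e = 1 := by rw [L.symm, hef]
  have hN : Module.finrank ℤ N = 4 := by
    rw [Module.finrank_eq_card_basis b, Fintype.card_fin]
  have h1 : ∀ x, L.B f e ∣ L.B f x := fun x => by rw [hfe]; exact one_dvd _
  have hk1 : Module.finrank ℤ (LinearMap.ker (L.B f)) = 3 :=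
    R4.split_finrank hN (L.B f) e (by rw [hfe]; exact one_ne_zero) h1
  let K := LinearMap.ker (L.B f)
  let z : K := ⟨f, hff⟩
  let φ : K →ₗ[ℤ] ℤ := (L.B e).comp K.subtype
  have hφz : φ z = 1 := hef
  have h2 : ∀ x, φ z ∣ φ x := fun x => by rw [hφz]; exact one_dvd _
  have hk2 : Module.finrank ℤ (LinearMap.ker φ) = 2 :=
    R4.split_finrank hk1 φ z (by rw [hφz]; exact one_ne_zero) h2
  obtain ⟨c1, hc1, hc2⟩ := R4.split_basis φ z (by rw [hφz]; exact one_ne_zero) h2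
    ((Module.finBasis ℤ (LinearMap.ker φ)).reindex (finCongr hk2))
  obtain ⟨c, hc3, hc4⟩ := R4.split_basis (L.B f) e (by rw [hfe]; exact one_ne_zero) h1 c1
  set d := (Module.finBasis ℤ (LinearMap.ker φ)).reindex (finCongr hk2) with hd
  have hin : ∀ i : Fin 2, L.B (((d i : LinearMap.ker φ) : K) : N) e = 0 ∧
      L.B (((d i : LinearMap.ker φ) : K) : N) f = 0 := by
    intro i
    refine ⟨?_, ?_⟩
    · rw [L.symm]
      exact LinearMap.mem_ker.mp (d i).2
    · rw [L.symm]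
      exact LinearMap.mem_ker.mp ((d i : LinearMap.ker φ) : K).2
  have e1 : c 1 = f := by
    have := hc4 0
    rw [hc1] at this
    exact this
  have e2 : c 2 = (((d 0 : LinearMap.ker φ) : K) : N) := by
    have := hc4 1
    have h5 := hc2 0
    rw [show (1 : Fin 3) = Fin.succ 0 from rfl, h5] at this
    exact this
  have e3 : c 3 = (((d 1 : LinearMap.ker φ) : K) : N) := by
    have := hc4 2
    have h5 := hc2 1
    rw [show (2 : Fin 3) = Fin.succ 1 from rfl, h5] at this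
    exact this
  refine ⟨c, hc3, e1, ?_, ?_, ?_, ?_⟩
  · rw [e2]; exact (hin 0).1
  · rw [e2]; exact (hin 0).2
  · rw [e3]; exact (hin 1).1
  · rw [e3]; exact (hin 1).2

theorem gdet_adapted {L : EvenForm N} (b c : Basis (Fin 4) ℤ N) (he : L.q (c 0) = 0)
    (hf : L.q (c 1) = 0) (hef : L.B (c 0) (c 1) = 1) (h2e : L.B (c 2) (c 0) = 0)
    (h2f : L.B (c 2) (c 1) = 0) (h3e : L.B (c 3) (c 0) = 0) (h3f : L.B (c 3) (c 1) = 0) :
    gdet L b = L.B (c 2) (c 3) ^ 2 - 4 * L.q (c 2) * L.q (c 3) := by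
  have h : (Matrix.of fun i j : Fin 4 => L.B (c i) (c j)) =
      !![0, 1, 0, 0; 1, 0, 0, 0; 0, 0, 2 * L.q (c 2), L.B (c 2) (c 3);
        0, 0, L.B (c 2) (c 3), 2 * L.q (c 3)] := by
    have e00 : L.B (c 0) (c 0) = 0 := by rw [L.hq, he, mul_zero]
    have e11 : L.B (c 1) (c 1) = 0 := by rw [L.hq, hf, mul_zero]
    have e22 : L.B (c 2) (c 2) = 2 * L.q (c 2) := L.hq _
    have e33 : L.B (c 3) (c 3) = 2 * L.q (c 3) := L.hq _
    have e10 : L.B (c 1) (c 0) = 1 := by rw [L.symm, hef]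
    have e02 : L.B (c 0) (c 2) = 0 := by rw [L.symm, h2e]
    have e12 : L.B (c 1) (c 2) = 0 := by rw [L.symm, h2f]
    have e03 : L.B (c 0) (c 3) = 0 := by rw [L.symm, h3e]
    have e13 : L.B (c 1) (c 3) = 0 := by rw [L.symm, h3f]
    have e32 : L.B (c 3) (c 2) = L.B (c 2) (c 3) := L.symm _ _
    ext i j
    fin_cases i <;> fin_cases j <;>
      simp [e00, e11, e22, e33, e10, e02, e12, e03, e13, e32, hef, h2e, h2f, h3e, h3f]
  rw [gdet, R4.det_gram_eq L.B b c, h, Matrix.det_succ_row_zero, Fin.sum_univ_four]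
  simp [Matrix.det_fin_three, Matrix.submatrix, Fin.succAbove]
  ring

/-- If `p` divides `q(m)` for all `m` orthogonal to the hyperbolic pair, then `p²` divides the
discriminant. -/
theorem sq_dvd_gdet {L : EvenForm N} (b : Basis (Fin 4) ℤ N) {e f : N} (he : L.q e = 0)
    (hf : L.q f = 0) (hef : L.B e f = 1) {p : ℤ}
    (hM : ∀ m, L.B m e = 0 → L.B m f = 0 → p ∣ L.q m) : p ^ 2 ∣ gdet L b := by
  obtain ⟨c, h0, h1, h2e, h2f, h3e, h3f⟩ := exists_adapted b he hf hef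
  obtain ⟨x, hx⟩ := hM _ h2e h2f
  obtain ⟨y, hy⟩ := hM _ h3e h3f
  obtain ⟨z, hz⟩ := hM (c 2 + c 3) (by rw [map_add, LinearMap.add_apply, h2e, h3e, add_zero])
    (by rw [map_add, LinearMap.add_apply, h2f, h3f, add_zero])
  rw [L.q_add] at hz
  rw [gdet_adapted b c (by rw [h0, he]) (by rw [h1, hf]) (by rw [h0, h1, hef])
    (by rw [h0, h2e]) (by rw [h1, h2f]) (by rw [h0, h3e]) (by rw [h1, h3f])]
  have hB : L.B (c 2) (c 3) = p * (z - x - y) := by linear_combination hz - hx - hy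
  rw [hB, hx, hy]
  exact ⟨(z - x - y) ^ 2 - 4 * x * y, by ring⟩

end Pool.Agent.AllRank
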