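import Pool.Agent.AllRank.Adapt

set_option autoImplicit false

/-!
ALLRANK, file BinVal: the binary lattice `M = {m | B(m, e) = B(m, f) = 0}`, `(e, f)` a hyperbolic
pair in a lattice of rank `4` with Gram determinant `D = gdet L b`.
TOOL: `exists_adapted` (file Adapt) gives a basis `c` with `c 0 = e`, `c 1 = f`, `c 2, c 3 ∈ M`; an
element of `M` is `s • c 2 + t • c 3` (pair `m = ∑ (c.repr m i) • c i` with `e` and `f`), and
`gdet_adapted` gives `D = B² - 4 A C`, `A = q(c 2)`, `B = B(c 2, c 3)`, `C = q(c 3)`,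
`q(s • c 2 + t • c 3) = A s² + B s t + C t²`.
-/

namespace Pool.Agent.AllRank

open Pool.Agent.MP4d0966 Module
open scoped NumberTheorySymbols

variable {N : Type*} [AddCommGroup N]

/-- A basis of the binary lattice. -/
private theorem bv_frame {L : EvenForm N} (b : Basis (Fin 4) ℤ N) {e f : N} (he : L.q e = 0)
    (hf : L.q f = 0) (hef : L.B e f = 1) :
    ∃ u v : N, L.B u e = 0 ∧ L.B u f = 0 ∧ L.B v e = 0 ∧ L.B v f = 0 ∧
      gdet L b = L.B u v ^ 2 - 4 * L.q u * L.q v ∧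
      ∀ m, L.B m e = 0 → L.B m f = 0 → ∃ s t : ℤ, m = s • u + t • v := by
  obtain ⟨c, h0, h1, h2e, h2f, h3e, h3f⟩ := exists_adapted b he hf hef
  have hee : L.B e e = 0 := by rw [L.hq, he, mul_zero]
  have hff : L.B f f = 0 := by rw [L.hq, hf, mul_zero]
  have hfe : L.B f e = 1 := by rw [L.symm, hef]
  refine ⟨c 2, c 3, h2e, h2f, h3e, h3f, ?_, fun m hme hmf => ?_⟩
  · exact gdet_adapted b c (by rw [h0, he]) (by rw [h1, hf]) (by rw [h0, h1, hef])
      (by rw [h0, h2e]) (by rw [h1, h2f]) (by rw [h0, h3e]) (by rw [h1, h3f])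
  · have hm : m = c.repr m 0 • e + c.repr m 1 • f + c.repr m 2 • c 2 + c.repr m 3 • c 3 := by
      conv_lhs => rw [← c.sum_repr m, Fin.sum_univ_four, h0, h1]
    generalize c.repr m 0 = r0 at hm
    generalize c.repr m 1 = r1 at hm
    generalize c.repr m 2 = r2 at hm
    generalize c.repr m 3 = r3 at hm
    subst hm
    have k0 : r0 = 0 := by
      simp only [map_add, map_smul, LinearMap.add_apply, LinearMap.smul_apply, smul_eq_mul, hef,
        hff, h2f, h3f, mul_zero, mul_one, add_zero] at hmf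
      exact hmf
    have k1 : r1 = 0 := by
      simp only [map_add, map_smul, LinearMap.add_apply, LinearMap.smul_apply, smul_eq_mul, hee,
        hfe, h2e, h3e, mul_zero, mul_one, add_zero, zero_add] at hme
      exact hme
    refine ⟨r2, r3, ?_⟩
    rw [k0, k1, zero_smul, zero_smul, zero_add, zero_add]

private theorem bv_q (L : EvenForm N) (u v : N) (s t : ℤ) :
    L.q (s • u + t • v) = L.q u * s ^ 2 + L.B u v * s * t + L.q v * t ^ 2 := by
  rw [L.q_add, L.q_smul, L.q_smul]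
  simp only [map_smul, LinearMap.smul_apply, smul_eq_mul]
  ring

private theorem bv_B (L : EvenForm N) (u v : N) (s t s' t' : ℤ) :
    L.B (s • u + t • v) (s' • u + t' • v) =
      2 * L.q u * (s * s') + L.B u v * (s * t' + t * s') + 2 * L.q v * (t * t') := by
  simp only [map_add, map_smul, LinearMap.add_apply, LinearMap.smul_apply, smul_eq_mul, L.hq,
    L.symm v u]
  ring

private theorem bv_mem {L : EvenForm N} {u v w : N} (hu : L.B u w = 0) (hv : L.B v w = 0)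
    (s t : ℤ) : L.B (s • u + t • v) w = 0 := by
  simp only [map_add, map_smul, LinearMap.add_apply, LinearMap.smul_apply, smul_eq_mul, hu, hv,
    mul_zero, add_zero]

/-- `D` is not a square modulo `p`. -/
private theorem bv_nonsq {p : ℕ} (hp : p.Prime) {D x t : ℤ} (hJ : J(D | p) = -1)
    (h : (p : ℤ) ∣ x ^ 2 - D * t ^ 2) : (p : ℤ) ∣ t := by
  have : Fact p.Prime := ⟨hp⟩
  rw [← jacobiSym.legendreSym.to_jacobiSym, legendreSym.eq_neg_one_iff] at hJ
  by_contra ht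
  apply hJ
  have ht' : (t : ZMod p) ≠ 0 := by
    rwa [Ne, ZMod.intCast_zmod_eq_zero_iff_dvd]
  have h1 : ((x ^ 2 - D * t ^ 2 : ℤ) : ZMod p) = 0 := by
    rwa [ZMod.intCast_zmod_eq_zero_iff_dvd]
  push_cast at h1
  refine ⟨(x : ZMod p) / t, ?_⟩
  field_simp
  linear_combination -h1

/-- PROOF. `m = s c₂ + t c₃`, `m' = s' c₂ + t' c₃`, and the identity
`B(m, m')² - 4 q(m) q(m') = (B² - 4 A C)(s t' - s' t)²`. -/
theorem disc_pair {L : EvenForm N} (b : Basis (Fin 4) ℤ N) {e f : N} (he : L.q e = 0)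
    (hf : L.q f = 0) (hef : L.B e f = 1) {m m' : N} (hme : L.B m e = 0) (hmf : L.B m f = 0)
    (hme' : L.B m' e = 0) (hmf' : L.B m' f = 0) :
    ∃ Y : ℤ, L.B m m' ^ 2 - 4 * L.q m * L.q m' = gdet L b * Y ^ 2 := by
  obtain ⟨u, v, -, -, -, -, hD, hM⟩ := bv_frame b he hf hef
  obtain ⟨s, t, rfl⟩ := hM m hme hmf
  obtain ⟨s', t', rfl⟩ := hM m' hme' hmf'
  refine ⟨s * t' - s' * t, ?_⟩
  rw [bv_B, bv_q, bv_q, hD]
  ring

/-- PROOF. `m' := B(m, c₃) c₂ - B(m, c₂) c₃`. -/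
theorem exists_perp {L : EvenForm N} (b : Basis (Fin 4) ℤ N) {e f : N} (he : L.q e = 0)
    (hf : L.q f = 0) (hef : L.B e f = 1) {m : N} (hme : L.B m e = 0) (hmf : L.B m f = 0) :
    ∃ m', L.B m' e = 0 ∧ L.B m' f = 0 ∧ L.B m m' = 0 ∧ L.q m' = -(gdet L b) * L.q m := by
  obtain ⟨u, v, hue, huf, hve, hvf, hD, hM⟩ := bv_frame b he hf hef
  obtain ⟨s, t, rfl⟩ := hM m hme hmf
  refine ⟨(L.B u v * s + 2 * L.q v * t) • u + (-(2 * L.q u * s + L.B u v * t)) • v,
    bv_mem hue hve _ _, bv_mem huf hvf _ _, ?_, ?_⟩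
  · rw [bv_B]
    ring
  · rw [bv_q, bv_q, hD]
    ring

/-- PROOF. `D` is not a square modulo `p` (and `p ∤ D`). With `m = s c₂ + t c₃`:
`4 A q(m) = (2 A s + B t)² - D t²`. If `p ∣ A` then `D ≡ B²`, a contradiction; so `p ∤ A`. If
`p ∤ t`, `D ≡ ((2 A s + B t) / t)²`, a contradiction; so `p ∣ t`, `p ∣ 2 A s`, `p ∣ s`. -/
theorem inert_dvd {L : EvenForm N} (b : Basis (Fin 4) ℤ N) {e f : N} (he : L.q e = 0)
    (hf : L.q f = 0) (hef : L.B e f = 1) {p : ℕ} (hp : p.Prime) (hp2 : p ≠ 2)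
    (hJ : J(gdet L b | p) = -1) {m : N} (hme : L.B m e = 0) (hmf : L.B m f = 0)
    (h : (p : ℤ) ∣ L.q m) :
    ∃ m', L.B m' e = 0 ∧ L.B m' f = 0 ∧ m = (p : ℤ) • m' := by
  obtain ⟨u, v, hue, huf, hve, hvf, hD, hM⟩ := bv_frame b he hf hef
  obtain ⟨s, t, rfl⟩ := hM m hme hmf
  have hpz : Prime (p : ℤ) := Nat.prime_iff_prime_int.1 hp
  rw [bv_q] at h
  have ht : (p : ℤ) ∣ t := by
    refine bv_nonsq hp hJ (x := 2 * L.q u * s + L.B u v * t) ?_
    rw [hD]
    have e : (2 * L.q u * s + L.B u v * t) ^ 2 - (L.B u v ^ 2 - 4 * L.q u * L.q v) * t ^ 2 =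
        (L.q u * s ^ 2 + L.B u v * s * t + L.q v * t ^ 2) * (4 * L.q u) := by ring
    rw [e]
    exact h.mul_right _
  obtain ⟨t', rfl⟩ := ht
  have hA : ¬ (p : ℤ) ∣ L.q u := by
    rintro ⟨k, hk⟩
    have h1 : (p : ℤ) ∣ 1 := by
      refine bv_nonsq hp hJ (x := L.B u v) ?_
      rw [hD, hk]
      exact ⟨4 * k * L.q v, by ring⟩
    exact hpz.not_dvd_one h1
  have h1 : (p : ℤ) ∣ L.q u * s ^ 2 := by
    have e : L.q u * s ^ 2 = (L.q u * s ^ 2 + L.B u v * s * (p * t') + L.q v * (p * t') ^ 2) -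
        p * (L.B u v * s * t' + L.q v * p * t' ^ 2) := by ring
    rw [e]
    exact dvd_sub h (dvd_mul_right _ _)
  obtain ⟨s', rfl⟩ := hpz.dvd_of_dvd_pow ((hpz.dvd_or_dvd h1).resolve_left hA)
  refine ⟨s' • u + t' • v, bv_mem hue hve _ _, bv_mem huf hvf _ _, ?_⟩
  rw [smul_add, smul_smul, smul_smul]

/-- PROOF. Strong induction on `(L.q m).natAbs`: if `p ∤ q(m)` the valuation is `0`; otherwise
`m = p m'` (`inert_dvd`), `q(m) = p² q(m')`, and the valuation is `2` plus that of `q(m')`. -/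
theorem inert_even {L : EvenForm N} (b : Basis (Fin 4) ℤ N) {e f : N} (he : L.q e = 0)
    (hf : L.q f = 0) (hef : L.B e f = 1) {p : ℕ} (hp : p.Prime) (hp2 : p ≠ 2)
    (hJ : J(gdet L b | p) = -1) {m : N} (hme : L.B m e = 0) (hmf : L.B m f = 0)
    (h0 : L.q m ≠ 0) : Even (padicValInt p (L.q m)) := by
  have : Fact p.Prime := ⟨hp⟩
  have main : ∀ (n : ℕ) (m : N), (L.q m).natAbs = n → L.B m e = 0 → L.B m f = 0 → L.q m ≠ 0 →
      Even (padicValInt p (L.q m)) := by
    intro n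
    induction n using Nat.strong_induction_on with
    | _ n ih =>
      intro m hn hme hmf h0
      by_cases hdvd : (p : ℤ) ∣ L.q m
      · obtain ⟨m', h1, h2, rfl⟩ := inert_dvd b he hf hef hp hp2 hJ hme hmf hdvd
        rw [L.q_smul] at hn h0 ⊢
        have hp0 : (p : ℤ) ≠ 0 := by exact_mod_cast hp.ne_zero
        have hq0 : L.q m' ≠ 0 := right_ne_zero_of_mul h0
        have hlt : (L.q m').natAbs < n := by
          rw [← hn, Int.natAbs_mul, Int.natAbs_pow, Int.natAbs_natCast]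
          have h3 : 0 < (L.q m').natAbs := Int.natAbs_pos.2 hq0
          have h4 : 1 < p ^ 2 := Nat.one_lt_pow two_ne_zero hp.one_lt
          nlinarith
        have h3 := ih _ hlt m' rfl h1 h2 hq0
        rw [padicValInt.mul (pow_ne_zero 2 hp0) hq0, pow_two, padicValInt.mul hp0 hp0,
          padicValInt_self]
        exact Even.add (by decide) h3
      · rw [padicValInt.eq_zero_of_not_dvd hdvd]
        exact Even.zero
  exact main _ m rfl hme hmf h0

end Pool.Agent.AllRank
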