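import Mathlib

set_option autoImplicit false

/-!
ALLRANK, file Conic: Legendre's theorem for the conic `x² = B y² + T z²`, in the version without
squarefreeness. Everything is elementary (Thue's pigeonhole lemma).

PROOF. Consider the set `Λ` of `(x, y, z)` with `T ∣ x - s1 y` and `B ∣ x - s2 z`, and put
`F = x² - B y² - T z²`. On `Λ`: modulo `T`, `x² ≡ s1² y² ≡ B y²`, so `T ∣ F`; modulo `B`,
`x² ≡ s2² z² ≡ T z²`, so `B ∣ F`; as `B, T` are coprime, `B T ∣ F`.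
PIGEONHOLE. Let `a = ⌊√(B |T|)⌋`, `b = ⌊√|T|⌋`, `c = ⌊√B⌋` (`Nat.sqrt`). The box
`[0, a] × [0, b] × [0, c]` has `(a+1)(b+1)(c+1)` points and `(a+1)² > B|T|`, `(b+1)² > |T|`,
`(c+1)² > B` (`Nat.lt_succ_sqrt'`), so more than `B |T|` points; the map
`(x, y, z) ↦ (x - s1 y mod T, x - s2 z mod B)` has `B |T|` values
(`ZMod T.natAbs × ZMod B.natAbs`). So two distinct points have the same value; their difference
`(x, y, z) ≠ 0` lies in `Λ` and `x² ≤ B |T|`, `y² ≤ |T|`, `z² ≤ B`. Write `F = B T k`.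
CASE `T > 0`: `-2 B T ≤ F ≤ B T`, so `k ∈ {1, 0, -1, -2}`.
 `k = 0`: done. `k = 1`: `x² = B T` and `y = z = 0`; as `B, T` are coprime and `B > 0`, `B` is a
 square (`Int.sq_of_isCoprime` or similar), `B = d²`, and `(d, 1, 0)` is a solution.
 `k = -2`: `x = 0`, `y² = T`, `z² = B`: again `B` is a square, the same solution.
 `k = -1`: `x² - B y² = T (z² - B)`. If `z² = B`, `B` is a square, as before. Otherwise
 `X = x z + B y`, `Y = x + y z`, `Z = z² - B ≠ 0` is a solution: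
 `X² - B Y² = (x² - B y²)(z² - B) = T (z² - B)²`.
CASE `T < 0`: `-B|T| ≤ F ≤ 2 B|T|`, so again `k ∈ {1, 0, -1, -2}` (`B T = - B |T|`).
 `k = 0`: done. `k = -1` (`F = B |T| = - B T`): the same identity as before.
 `k = -2` (`F = 2 B |T|`): `x² = B|T|`, `z² = B`, `y = 0`: `B` is a square.
 `k = 1` (`F = - B|T|`): `x = z = 0`, `y² = |T|`. Then `T ∣ s1 y` (membership in `Λ`), i.e.
 `y² ∣ s1 y`, so `y ∣ s1`; `y² = |T| ∣ s1² - B` and `y² ∣ s1²` give `y² ∣ B`; coprimality gives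
 `y² = 1`, `T = -1`. Then `B ∣ s2² + 1`, so `-1` is a square modulo `B` and `B = u² + v²`
 (`Nat.eq_sq_add_sq_of_isSquare_mod_neg_one`), and `(u, 1, v)` is a solution of
 `x² = B y² - z²`.
-/

namespace Pool.Agent.AllRank

private theorem cn_pigeon {B T : ℤ} (hB : 0 < B) (hT : T ≠ 0) (s1 s2 : ℤ) :
    ∃ x y z : ℤ, (x ≠ 0 ∨ y ≠ 0 ∨ z ≠ 0) ∧ T ∣ x - s1 * y ∧ B ∣ x - s2 * z ∧
      x ^ 2 ≤ B * |T| ∧ y ^ 2 ≤ |T| ∧ z ^ 2 ≤ B := by
  classical
  have hBn : 0 < B.natAbs := Int.natAbs_pos.2 hB.ne'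
  have hTn : 0 < T.natAbs := Int.natAbs_pos.2 hT
  have : NeZero B.natAbs := ⟨hBn.ne'⟩
  have : NeZero T.natAbs := ⟨hTn.ne'⟩
  obtain ⟨m, hm⟩ : ∃ m, m = B.natAbs := ⟨_, rfl⟩
  obtain ⟨n, hn⟩ : ∃ n, n = T.natAbs := ⟨_, rfl⟩
  rw [← hm] at hBn
  rw [← hn] at hTn
  have : NeZero m := ⟨hBn.ne'⟩
  have : NeZero n := ⟨hTn.ne'⟩
  have hBm : B = (m : ℤ) := by
    rw [hm, Int.natCast_natAbs, abs_of_pos hB]
  have hTa : |T| = (n : ℤ) := by
    rw [hn, Int.natCast_natAbs]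
  let a := Nat.sqrt (m * n)
  let b := Nat.sqrt n
  let c := Nat.sqrt m
  let S : Finset (ℕ × ℕ × ℕ) := Finset.range (a + 1) ×ˢ (Finset.range (b + 1) ×ˢ Finset.range (c + 1))
  let f : ℕ × ℕ × ℕ → ZMod n × ZMod m := fun v =>
    (((v.1 : ℤ) - s1 * (v.2.1 : ℤ) : ℤ), ((v.1 : ℤ) - s2 * (v.2.2 : ℤ) : ℤ))
  have hcard : (Finset.univ : Finset (ZMod n × ZMod m)).card < S.card := by
    rw [Finset.card_univ, Fintype.card_prod, ZMod.card, ZMod.card, Finset.card_product,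
      Finset.card_product, Finset.card_range, Finset.card_range, Finset.card_range]
    have h1 : m * n < (a + 1) * (a + 1) := Nat.lt_succ_sqrt _
    have h2 : n < (b + 1) * (b + 1) := Nat.lt_succ_sqrt _
    have h3 : m < (c + 1) * (c + 1) := Nat.lt_succ_sqrt _
    have h4 : n * m < (b + 1) * (b + 1) * ((c + 1) * (c + 1)) :=
      Nat.mul_lt_mul'' h2 h3
    have h5 : m * n * (n * m) < (a + 1) * (a + 1) * ((b + 1) * (b + 1) * ((c + 1) * (c + 1))) :=
      Nat.mul_lt_mul'' h1 h4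
    by_contra hcon
    push Not at hcon
    have h6 := Nat.mul_le_mul hcon hcon
    have h7 : m * n * (n * m) = n * m * (n * m) := by ring
    have h8 : (a + 1) * (a + 1) * ((b + 1) * (b + 1) * ((c + 1) * (c + 1))) =
        (a + 1) * ((b + 1) * (c + 1)) * ((a + 1) * ((b + 1) * (c + 1))) := by ring
    rw [h7, h8] at h5
    omega
  obtain ⟨v, hv, w, hw, hvw, hf⟩ := Finset.exists_ne_map_eq_of_card_lt_of_maps_to hcard
    (f := f) (fun x _ => Finset.mem_univ _)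
  obtain ⟨x1, y1, z1⟩ := v
  obtain ⟨x2, y2, z2⟩ := w
  simp only [S, Finset.mem_product, Finset.mem_range] at hv hw
  have hf1 : (((x1 : ℤ) - s1 * (y1 : ℤ) : ℤ) : ZMod n) = (((x2 : ℤ) - s1 * (y2 : ℤ) : ℤ) : ZMod n) :=
    congrArg Prod.fst hf
  have hf2 : (((x1 : ℤ) - s2 * (z1 : ℤ) : ℤ) : ZMod m) = (((x2 : ℤ) - s2 * (z2 : ℤ) : ℤ) : ZMod m) :=
    congrArg Prod.snd hf
  rw [ZMod.intCast_eq_intCast_iff_dvd_sub] at hf1 hf2
  have hsq : ∀ (p q r : ℕ), p < r + 1 → q < r + 1 → ((p : ℤ) - q) ^ 2 ≤ (r : ℤ) * r := by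
    intro p q r hp hq
    have h1 : (p : ℤ) ≤ r := by exact_mod_cast Nat.lt_succ_iff.1 hp
    have h2 : (q : ℤ) ≤ r := by exact_mod_cast Nat.lt_succ_iff.1 hq
    have h3 : (0 : ℤ) ≤ p := Int.natCast_nonneg p
    have h4 : (0 : ℤ) ≤ q := Int.natCast_nonneg q
    nlinarith
  have hsr : ∀ k : ℕ, ((Nat.sqrt k : ℕ) : ℤ) * (Nat.sqrt k : ℕ) ≤ k := by
    intro k
    exact_mod_cast Nat.sqrt_le k
  refine ⟨(x1 : ℤ) - x2, (y1 : ℤ) - y2, (z1 : ℤ) - z2, ?_, ?_, ?_, ?_, ?_, ?_⟩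
  · by_contra hcon
    push Not at hcon
    obtain ⟨h1, h2, h3⟩ := hcon
    apply hvw
    have e1 : x1 = x2 := by omega
    have e2 : y1 = y2 := by omega
    have e3 : z1 = z2 := by omega
    rw [e1, e2, e3]
  · rw [← Int.natAbs_dvd, ← hn]
    obtain ⟨e, he⟩ := hf1
    exact ⟨-e, by linear_combination -he⟩
  · rw [hBm]
    obtain ⟨e, he⟩ := hf2
    exact ⟨-e, by linear_combination -he⟩
  · rw [hBm, hTa]
    refine (hsq x1 x2 a hv.1 hw.1).trans ?_
    have := hsr (m * n)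
    push_cast at this
    exact this
  · rw [hTa]
    exact (hsq y1 y2 b hv.2.1 hw.2.1).trans (hsr n)
  · rw [hBm]
    exact (hsq z1 z2 c hv.2.2 hw.2.2).trans (hsr m)

private theorem cn_sq {B d : ℤ} (T : ℤ) (h : B = d ^ 2) :
    ∃ x y z : ℤ, (x ≠ 0 ∨ y ≠ 0 ∨ z ≠ 0) ∧ x ^ 2 = B * y ^ 2 + T * z ^ 2 :=
  ⟨d, 1, 0, Or.inr (Or.inl one_ne_zero), by rw [h]; ring⟩

/-- the case `F = - B T` -/
private theorem cn_id {B T x y z : ℤ} (h : x ^ 2 - B * y ^ 2 - T * z ^ 2 = -(B * T)) :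
    ∃ x y z : ℤ, (x ≠ 0 ∨ y ≠ 0 ∨ z ≠ 0) ∧ x ^ 2 = B * y ^ 2 + T * z ^ 2 := by
  by_cases hz : z ^ 2 - B = 0
  · exact cn_sq T (d := z) (by linarith)
  · refine ⟨x * z + B * y, x + y * z, z ^ 2 - B, Or.inr (Or.inr hz), ?_⟩
    linear_combination (z ^ 2 - B) * h

theorem conic {B T : ℤ} (hB : 0 < B) (hT : T ≠ 0) (hco : IsCoprime B T) {s1 s2 : ℤ}
    (h1 : T ∣ s1 ^ 2 - B) (h2 : B ∣ s2 ^ 2 - T) :
    ∃ x y z : ℤ, (x ≠ 0 ∨ y ≠ 0 ∨ z ≠ 0) ∧ x ^ 2 = B * y ^ 2 + T * z ^ 2 := by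
  obtain ⟨x, y, z, h0, hTx, hBx, hx, hy, hz⟩ := cn_pigeon hB hT s1 s2
  have hF1 : T ∣ x ^ 2 - B * y ^ 2 - T * z ^ 2 := by
    have e : x ^ 2 - B * y ^ 2 - T * z ^ 2 =
        (x - s1 * y) * (x + s1 * y) + (s1 ^ 2 - B) * y ^ 2 - T * z ^ 2 := by ring
    rw [e]
    exact dvd_sub (dvd_add (hTx.mul_right _) (h1.mul_right _)) (dvd_mul_right _ _)
  have hF2 : B ∣ x ^ 2 - B * y ^ 2 - T * z ^ 2 := by
    have e : x ^ 2 - B * y ^ 2 - T * z ^ 2 =
        (x - s2 * z) * (x + s2 * z) + (s2 ^ 2 - T) * z ^ 2 - B * y ^ 2 := by ring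
    rw [e]
    exact dvd_sub (dvd_add (hBx.mul_right _) (h2.mul_right _)) (dvd_mul_right _ _)
  obtain ⟨k, hk⟩ := hco.mul_dvd hF2 hF1
  have hBne : B ≠ 0 := hB.ne'
  have hxx := sq_nonneg x
  have hyy := sq_nonneg y
  have hzz := sq_nonneg z
  rcases lt_or_gt_of_ne hT with hT0 | hT0
  · -- `T < 0`
    rw [abs_of_neg hT0] at hx hy
    have hBT : 0 < B * -T := mul_pos hB (by linarith)
    have hBy : B * y ^ 2 ≤ B * -T := mul_le_mul_of_nonneg_left hy hB.le
    have hTz : -T * z ^ 2 ≤ -T * B := mul_le_mul_of_nonneg_left hz (by linarith)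
    have hBy0 : 0 ≤ B * y ^ 2 := mul_nonneg hB.le hyy
    have hTz0 : 0 ≤ -T * z ^ 2 := mul_nonneg (by linarith) hzz
    have hk1 : k ≤ 1 := by
      by_contra hcon
      push Not at hcon
      nlinarith
    have hk2 : -2 ≤ k := by
      by_contra hcon
      push Not at hcon
      nlinarith
    interval_cases k
    · -- `k = -2`
      have e1 : z ^ 2 = B := by
        have e2 : -T * z ^ 2 = -T * B := by nlinarith
        exact mul_left_cancel₀ (by linarith : -T ≠ 0) e2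
      exact cn_sq T e1.symm
    · exact cn_id (x := x) (y := y) (z := z) (by rw [hk]; ring)
    · exact ⟨x, y, z, h0, by rw [mul_zero] at hk; linarith⟩
    · -- `k = 1`
      have e1 : x ^ 2 = 0 := by nlinarith
      have e2 : B * y ^ 2 = B * -T := by nlinarith
      have e3 : y ^ 2 = -T := mul_left_cancel₀ hBne e2
      have e4 : x = 0 := by
        exact pow_eq_zero_iff (two_ne_zero) |>.1 e1
      have hy0 : y ≠ 0 := by
        rintro rfl
        rw [zero_pow two_ne_zero] at e3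
        exact hT (by linarith)
      have e5 : y ^ 2 ∣ s1 * y := by
        rw [e4, zero_sub] at hTx
        rw [e3]
        exact (neg_dvd).2 ((dvd_neg).1 hTx)
      have e6 : y ∣ s1 := by
        rw [pow_two] at e5
        exact (mul_dvd_mul_iff_right hy0).1 e5
      have e7 : y ^ 2 ∣ s1 ^ 2 := pow_dvd_pow_of_dvd e6 2
      have e8 : y ^ 2 ∣ s1 ^ 2 - B := by
        rw [e3]
        exact (neg_dvd).2 h1
      have e9 : y ^ 2 ∣ B := by
        have := dvd_sub e7 e8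
        rwa [sub_sub_cancel] at this
      have e10 : y ^ 2 ∣ T := by
        rw [e3]
        exact (neg_dvd).2 dvd_rfl
      have e11 : IsUnit (y ^ 2) := hco.isUnit_of_dvd' e9 e10
      have e12 : y ^ 2 = 1 := by
        rcases Int.isUnit_iff.1 e11 with h | h
        · exact h
        · rw [h] at hyy
          norm_num at hyy
      have e13 : T = -1 := by linarith
      rw [e13] at h2
      have e14 : IsSquare (-1 : ZMod B.natAbs) := by
        refine ⟨(s2 : ZMod B.natAbs), ?_⟩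
        have h3 : ((s2 ^ 2 - -1 : ℤ) : ZMod B.natAbs) = 0 := by
          rw [ZMod.intCast_zmod_eq_zero_iff_dvd]
          exact (Int.natAbs_dvd).2 h2
        push_cast at h3
        linear_combination -h3
      obtain ⟨u, v, huv⟩ := Nat.eq_sq_add_sq_of_isSquare_mod_neg_one e14
      have hBm : B = (u : ℤ) ^ 2 + (v : ℤ) ^ 2 := by
        have h3 : ((B.natAbs : ℕ) : ℤ) = B := by
          rw [Int.natCast_natAbs, abs_of_pos hB]
        rw [← h3, huv]
        push_cast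
        ring
      exact ⟨u, 1, v, Or.inr (Or.inl one_ne_zero), by rw [e13, hBm]; ring⟩
  · -- `T > 0`
    rw [abs_of_pos hT0] at hx hy
    have hBT : 0 < B * T := mul_pos hB hT0
    have hBy : B * y ^ 2 ≤ B * T := mul_le_mul_of_nonneg_left hy hB.le
    have hTz : T * z ^ 2 ≤ T * B := mul_le_mul_of_nonneg_left hz hT0.le
    have hBy0 : 0 ≤ B * y ^ 2 := mul_nonneg hB.le hyy
    have hTz0 : 0 ≤ T * z ^ 2 := mul_nonneg hT0.le hzz
    have hk1 : k ≤ 1 := by
      by_contra hcon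
      push Not at hcon
      nlinarith
    have hk2 : -2 ≤ k := by
      by_contra hcon
      push Not at hcon
      nlinarith
    interval_cases k
    · have e1 : z ^ 2 = B := by
        have e2 : T * z ^ 2 = T * B := by nlinarith
        exact mul_left_cancel₀ hT e2
      exact cn_sq T e1.symm
    · exact cn_id (x := x) (y := y) (z := z) (by rw [hk]; ring)
    · exact ⟨x, y, z, h0, by rw [mul_zero] at hk; linarith⟩
    · have e1 : B * T = x ^ 2 := by nlinarith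
      obtain ⟨d, hd⟩ := Int.sq_of_isCoprime hco e1
      rcases hd with hd | hd
      · exact cn_sq T hd
      · exfalso
        have := sq_nonneg d
        linarith

end Pool.Agent.AllRank
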