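import Pool.Agent.AllRank.OrthB

set_option autoImplicit false

/-!
ALLRANK, file FNeg.
NOTATION: `M = {m | B(m, e) = B(m, f) = 0}`, `λ = l - α e - β f ∈ M`, `α = B(f, l)`,
`β = B(e, l)`, `q(λ) = 1 - α β`.
-/

namespace Pool.Agent.AllRank

open Pool.Agent.MP4d0966
open scoped NumberTheorySymbols

variable {N : Type*} [AddCommGroup N]

/-- The Gram matrix of four vectors. -/
private theorem gram_eq {L : EvenForm N} (b : Module.Basis (Fin 4) ℤ N) (u : Fin 4 → N) :
    (Matrix.of fun i j => L.B (u i) (u j)).det =
      gdet L b * (Matrix.of fun i j => b.repr (u i) j).det ^ 2 := by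
  have h1 : (Matrix.of fun i j => L.B (u i) (u j)) =
      (Matrix.of fun i j => b.repr (u i) j) * (Matrix.of fun i j => L.B (b i) (b j)) *
        (Matrix.of fun i j => b.repr (u i) j).transpose := by
    ext i j
    have hi : u i = ∑ k, b.repr (u i) k • b k := (b.sum_repr (u i)).symm
    have hj : u j = ∑ k, b.repr (u j) k • b k := (b.sum_repr (u j)).symm
    rw [Matrix.of_apply, hi, hj]
    simp only [map_sum, map_smul, LinearMap.sum_apply, LinearMap.smul_apply, smul_eq_mul,
      Matrix.mul_apply, Matrix.of_apply, Matrix.transpose_apply]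
    simp only [Finset.sum_mul, Finset.mul_sum]
    refine Finset.sum_congr rfl fun k _ => Finset.sum_congr rfl fun l _ => ?_
    ring
  rw [h1, Matrix.det_mul, Matrix.det_mul, Matrix.det_transpose]
  unfold gdet
  ring

/-- A vector of negative norm in `M`. PROOF. `N` has rank `4`, so there is `x ≠ 0` orthogonal to
`e, f, m` (three linear conditions on `ℤ⁴`). `q(x) ≠ 0`: otherwise `x` is orthogonal to
`e, f, m, x`; these are linearly independent (Gram matrix; `q(m) ≠ 0`: if
`a e + b f + c m + d x = 0` then pair with `f, e, m` to get `a = b = c = 0`, then `d = 0`), so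
they span a sublattice of finite index, and `x = 0` by nondegeneracy (`gdet ≠ 0`),
contradiction. The Gram matrix of `(e, f, m, x)` has determinant `-(2 q(m)) (2 q(x))`
`= gdet * P²` with `P` the determinant of the coordinates; so `q(m) q(x) ≤ 0`, and `q(x) < 0`. -/
theorem exists_m_neg {L : EvenForm N} {b : Module.Basis (Fin 4) ℤ N} (hD : 0 < gdet L b)
    {e f m : N} (he : L.q e = 0) (hf : L.q f = 0) (hef : L.B e f = 1) (hme : L.B m e = 0)
    (hmf : L.B m f = 0) (hm : 0 < L.q m) : ∃ x, L.B x e = 0 ∧ L.B x f = 0 ∧ L.q x < 0 := by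
  classical
  -- a nonzero vector orthogonal to `e, f, m`
  set A : Matrix (Fin 4) (Fin 4) ℤ :=
    Matrix.of ![fun j => L.B (b j) e, fun j => L.B (b j) f, fun j => L.B (b j) m, fun _ => 0]
    with hA
  have hdet : A.det = 0 := Matrix.det_eq_zero_of_row_eq_zero 3 fun j => by simp [hA]
  obtain ⟨v, hv0, hv⟩ := Matrix.exists_mulVec_eq_zero_iff.2 hdet
  set x : N := ∑ j, v j • b j with hx
  have hpair : ∀ y : N, L.B x y = ∑ j, L.B (b j) y * v j := by
    intro y
    rw [hx]
    simp only [map_sum, map_smul, LinearMap.sum_apply, LinearMap.smul_apply, smul_eq_mul]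
    exact Finset.sum_congr rfl fun j _ => mul_comm _ _
  have hxe : L.B x e = 0 := by
    rw [hpair]
    have := congrFun hv 0
    simpa [hA, Matrix.mulVec, dotProduct] using this
  have hxf : L.B x f = 0 := by
    rw [hpair]
    have := congrFun hv 1
    simpa [hA, Matrix.mulVec, dotProduct] using this
  have hxm : L.B x m = 0 := by
    rw [hpair]
    have := congrFun hv 2
    simpa [hA, Matrix.mulVec, dotProduct] using this
  have hrep : ∀ j, b.repr x j = v j := by
    intro j
    rw [hx, b.repr_sum_self]
  refine ⟨x, hxe, hxf, ?_⟩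
  set u : Fin 4 → N := ![e, f, m, x] with hu
  have hg := gram_eq (L := L) b u
  have hee : L.B e e = 0 := by rw [L.hq, he, mul_zero]
  have hff : L.B f f = 0 := by rw [L.hq, hf, mul_zero]
  have hfe : L.B f e = 1 := by rw [L.symm, hef]
  have hem : L.B e m = 0 := by rw [L.symm, hme]
  have hfm : L.B f m = 0 := by rw [L.symm, hmf]
  have hex : L.B e x = 0 := by rw [L.symm, hxe]
  have hfx : L.B f x = 0 := by rw [L.symm, hxf]
  have hmx : L.B m x = 0 := by rw [L.symm, hxm]
  have hmm : L.B m m = 2 * L.q m := L.hq m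
  have hxx : L.B x x = 2 * L.q x := L.hq x
  have hdet2 : (Matrix.of fun i j => L.B (u i) (u j)).det = -(4 * L.q m * L.q x) := by
    have h1 : (Matrix.of fun i j => L.B (u i) (u j)) =
        !![0, 1, 0, 0; 1, 0, 0, 0; 0, 0, 2 * L.q m, 0; 0, 0, 0, 2 * L.q x] := by
      ext i j
      fin_cases i <;> fin_cases j <;>
        simp [hu, hee, hff, hfe, hef, hem, hfm, hex, hfx, hmx, hmm, hxx, hme, hmf, hxe, hxf, hxm]
    rw [h1]
    simp [Matrix.det_succ_row_zero, Fin.sum_univ_succ, Fin.succAbove]
    ring
  have hP : (Matrix.of fun i j => b.repr (u i) j).det ≠ 0 := by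
    intro h0
    obtain ⟨w, hw0, hw⟩ := Matrix.exists_vecMul_eq_zero_iff.2 h0
    have hsum : ∑ i, w i • u i = 0 := by
      apply b.repr.injective
      ext j
      have := congrFun hw j
      simpa [Matrix.vecMul, dotProduct, map_sum] using this
    have hs : w 0 • e + w 1 • f + w 2 • m + w 3 • x = 0 := by
      have := hsum
      simpa [Fin.sum_univ_four, hu] using this
    have hs1 : ∀ y, w 0 * L.B e y + w 1 * L.B f y + w 2 * L.B m y + w 3 * L.B x y = 0 := by
      intro y
      have := congrArg (fun z => L.B z y) hs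
      simpa using this
    have e1 := hs1 f
    have e2 := hs1 e
    have e3 := hs1 m
    rw [hef, hff, hmf, hxf] at e1
    rw [hee, hfe, hme, hxe] at e2
    rw [hem, hfm, hmm, hxm] at e3
    have w0 : w 0 = 0 := by linarith
    have w1 : w 1 = 0 := by linarith
    have w2 : w 2 = 0 := by
      have : w 2 * (2 * L.q m) = 0 := by linarith
      rcases mul_eq_zero.1 this with h | h
      · exact h
      · omega
    rw [w0, w1, w2, zero_smul, zero_smul, zero_smul, zero_add, zero_add, zero_add] at hs
    have w3 : w 3 = 0 := by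
      obtain ⟨j, hj⟩ := Function.ne_iff.1 hv0
      have h5 := congrArg (fun z => b.repr z j) hs
      simp only [map_smul, Finsupp.smul_apply, smul_eq_mul, map_zero, Finsupp.zero_apply] at h5
      rw [hrep] at h5
      rcases mul_eq_zero.1 h5 with h | h
      · exact h
      · exact absurd h hj
    apply hw0
    ext i
    fin_cases i
    · exact w0
    · exact w1
    · exact w2
    · exact w3
  rw [hdet2] at hg
  have hpos : 0 < gdet L b * (Matrix.of fun i j => b.repr (u i) j).det ^ 2 :=
    mul_pos hD (by positivity)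
  rw [← hg] at hpos
  by_contra hneg
  push Not at hneg
  have : 0 ≤ 4 * L.q m * L.q x := by positivity
  omega

end Pool.Agent.AllRank
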