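import Mathlib

set_option autoImplicit false

/-!
ALLRANK, file Recip: primes in arithmetic progressions and the reciprocity law of the Jacobi
symbol. `IsCoprime` is over `ℤ`. Dirichlet's theorem: `Nat.forall_exists_prime_gt_and_eq_mod`
(for `a : ZMod q` a unit and every `n` there is a prime `p > n` with `(p : ZMod q) = a`).
-/

namespace Pool.Agent.AllRank

open scoped NumberTheorySymbols

private theorem zmod_dvd {W : ℤ} {u v : ℤ} (h : (u : ZMod W.natAbs) = v) : W ∣ u - v := by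
  have h1 := (ZMod.intCast_eq_intCast_iff_dvd_sub v u W.natAbs).1 h.symm
  exact (Int.natAbs_dvd).1 h1

private theorem isUnit_of {W u : ℤ} (h : IsCoprime u W) : IsUnit (u : ZMod W.natAbs) := by
  obtain ⟨a, c, hac⟩ := h
  have h1 : (W : ZMod W.natAbs) = 0 :=
    (ZMod.intCast_zmod_eq_zero_iff_dvd W W.natAbs).2 (Int.natAbs_dvd.2 dvd_rfl)
  have h2 := congrArg (fun z : ℤ => (z : ZMod W.natAbs)) hac
  simp only [Int.cast_add, Int.cast_mul, Int.cast_one, h1, mul_zero, add_zero] at h2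
  exact IsUnit.of_mul_eq_one (a : ZMod W.natAbs) (by rw [mul_comm]; exact h2)

private theorem dirichlet {W u : ℤ} (hW : W ≠ 0) (h : IsCoprime u W) (K : ℕ) :
    ∃ n : ℕ, n.Prime ∧ K < n ∧ W ∣ (n : ℤ) - u := by
  have : NeZero W.natAbs := ⟨Int.natAbs_ne_zero.2 hW⟩
  obtain ⟨n, hn, hp, h1⟩ := Nat.forall_exists_prime_gt_and_eq_mod (isUnit_of h) K
  refine ⟨n, hp, hn, zmod_dvd ?_⟩
  rw [Int.cast_natCast]
  exact h1

private theorem exists_sq {a : ℤ} {r : ℕ} (hr : r.Prime) (h : J(a | r) = 1) :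
    ∃ s : ℤ, (r : ℤ) ∣ s ^ 2 - a := by
  have : Fact r.Prime := ⟨hr⟩
  obtain ⟨y, hy⟩ := ZMod.isSquare_of_jacobiSym_eq_one h
  obtain ⟨s, rfl⟩ := ZMod.intCast_surjective y
  refine ⟨s, (ZMod.intCast_zmod_eq_zero_iff_dvd _ r).1 ?_⟩
  push_cast
  rw [hy]
  ring

/-- If `b ≡ 1` modulo `8 D` then `(D / b) = 1`. PROOF. `b` is odd (`2 ∣ 8 D`), and
`jacobiSym.mod_right' : J(a | b) = J(a | b % (4 * a.natAbs))` for odd `b`;
`b % (4 |D|) = 1` (as `1 < 4 |D|`), and `J(D | 1) = 1`. -/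
theorem jacobi_eq_one {D : ℤ} {b : ℕ} (hD : D ≠ 0) (hb : 8 * D ∣ (b : ℤ) - 1) :
    J(D | b) = 1 := by
  have hodd : Odd b := by
    have h1 : (2 : ℤ) ∣ (b : ℤ) - 1 := (Dvd.intro (4 * D) (by ring)).trans hb
    rcases Nat.even_or_odd b with h2 | h2
    · obtain ⟨c, rfl⟩ := h2
      push_cast at h1
      omega
    · exact h2
  rw [jacobiSym.mod_right D hodd]
  have h1 : 1 ≤ b := hodd.pos
  have h2 : 4 * D.natAbs ∣ b - 1 := by
    have h3 : (4 * D) ∣ (b : ℤ) - 1 := (Dvd.intro 2 (by ring)).trans hb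
    have h4 := Int.natAbs_dvd_natAbs.2 h3
    rw [Int.natAbs_mul] at h4
    have h5 : ((b : ℤ) - 1).natAbs = b - 1 := by omega
    rw [h5] at h4
    exact h4
  have h3 : b % (4 * D.natAbs) = 1 := by
    have h4 : 0 < D.natAbs := Int.natAbs_pos.2 hD
    obtain ⟨c, hc⟩ := h2
    have h5 : b = 1 + 4 * D.natAbs * c := by omega
    rw [h5, Nat.add_mul_mod_self_left]
    exact Nat.mod_eq_of_lt (by omega)
  rw [h3, jacobiSym.one_right]

/-- The first prime. PROOF. `W ≠ 0` and `β` is a unit modulo `|W|`; choose by Dirichlet a prime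
`n > K` with `n = β⁻¹` in `ZMod W.natAbs`; then `W ∣ β n - 1`, so `8 D ∣ β n - 1` and
`J(D | β n) = 1` by `jacobi_eq_one`; multiplicativity (`jacobiSym.mul_right`) and `J(D | β) = 1`
give `J(D | n) = 1`. (`β ≠ 0` since otherwise `W` is a unit, but `8 ∣ W`.) -/
theorem exists_n {β : ℕ} {D W : ℤ} (hD : D ≠ 0) (hW : W ≠ 0) (hDW : 8 * D ∣ W)
    (hβ : IsCoprime (β : ℤ) W) (hJ : J(D | β) = 1) (K : ℕ) :
    ∃ n : ℕ, n.Prime ∧ K < n ∧ W ∣ (β : ℤ) * n - 1 ∧ J(D | n) = 1 := by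
  obtain ⟨a, c, hac⟩ := hβ
  have hcop : IsCoprime a W := ⟨β, c, by rw [mul_comm]; exact hac⟩
  obtain ⟨n, hn, hK, h1⟩ := dirichlet hW hcop K
  have h2 : W ∣ (β : ℤ) * n - 1 := by
    have h3 : (β : ℤ) * n - 1 = β * (n - a) - c * W := by rw [← hac]; ring
    rw [h3]
    exact dvd_sub (h1.mul_left _) (dvd_mul_left _ _)
  refine ⟨n, hn, hK, h2, ?_⟩
  have h4 : J(D | β * n) = 1 := jacobi_eq_one hD (by
    push_cast
    exact hDW.trans h2)
  have hn0 : n ≠ 0 := hn.ne_zero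
  have hβ0 : β ≠ 0 := by
    rintro rfl
    have h5 : (8 : ℤ) ∣ -1 := ((Dvd.intro D rfl).trans hDW).trans (by simpa using h2)
    omega
  have : NeZero β := ⟨hβ0⟩
  have : NeZero n := ⟨hn0⟩
  rw [jacobiSym.mul_right, hJ, one_mul] at h4
  exact h4

/-- The second prime. PROOF. `b` is prime to `8 A D` (as `8 A D ∣ b - 1`), `b ≠ 0`. By the Chinese
remainder theorem there is a class modulo `|8 D b|` which is `1` modulo `8 D` and `A⁻¹` modulo
`b`; it is a unit; Dirichlet gives a prime `r > max K b |A| |D|` in it. So `8 D ∣ r - 1`,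
`b ∣ A r - 1`.
(1) `J(D | r) = 1` by `jacobi_eq_one`, `r` is prime and does not divide `D`, so `D` is a square
modulo `r`.
(2) `b ≡ 1 mod 4`, `r` and `b` are odd and coprime, so `J(b | r) = J(r | b)`
(`jacobiSym.quadratic_reciprocity_one_mod_four`); `J(A | b) J(r | b) = J(A r | b) = J(1 | b) = 1`
(`A r ≡ 1` modulo `b`) and `J(A | b) = 1` by `jacobi_eq_one` (`8 A ∣ b - 1`), so `J(b | r) = 1`
and `b` is a square modulo `r` (`ZMod.isSquare_of_jacobiSym_eq_one` or via `legendreSym`). -/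
theorem exists_r {b : ℕ} {D A : ℤ} (hD : D ≠ 0) (hA : A ≠ 0)
    (hb : 8 * A * D ∣ (b : ℤ) - 1) (K : ℕ) :
    ∃ r : ℕ, r.Prime ∧ K < r ∧ 8 * D ∣ (r : ℤ) - 1 ∧ (b : ℤ) ∣ A * r - 1 ∧
      (∃ s : ℤ, (r : ℤ) ∣ s ^ 2 - D) ∧ ∃ s : ℤ, (r : ℤ) ∣ s ^ 2 - b := by
  have hb0 : b ≠ 0 := by
    rintro rfl
    have h0 : (8 : ℤ) ∣ 8 * A * D := ⟨A * D, by ring⟩
    have h1 : (8 : ℤ) ∣ -1 := h0.trans (by simpa using hb)
    omega
  obtain ⟨c, hc⟩ := hb
  have hcD : IsCoprime (8 * D) (b : ℤ) := ⟨-(A * c), 1, by linear_combination hc⟩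
  have hcA : IsCoprime A (b : ℤ) := ⟨-(8 * D * c), 1, by linear_combination hc⟩
  obtain ⟨x, y, hxy⟩ := hcD
  obtain ⟨a', b', hab⟩ := hcA
  set u : ℤ := y * b + a' * (x * (8 * D)) with hu
  have hu1 : u - 1 = (8 * D) * (x * (a' - 1)) := by rw [hu]; linear_combination hxy
  have hu2 : A * u - 1 = b * (A * y - b' - A * a' * y) := by
    rw [hu]; linear_combination hab + A * a' * hxy
  have hcop1 : IsCoprime u (8 * D) := ⟨1, -(x * (a' - 1)), by linear_combination hu1⟩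
  have hcop2 : IsCoprime u (b : ℤ) := ⟨A, -(A * y - b' - A * a' * y), by linear_combination hu2⟩
  have hcop : IsCoprime u (8 * D * b) := hcop1.mul_right hcop2
  have hW : 8 * D * (b : ℤ) ≠ 0 := by
    simp [hD, hb0]
  obtain ⟨r, hr, hK, h1⟩ := dirichlet hW hcop K
  have h2 : 8 * D ∣ (r : ℤ) - 1 := by
    have h3 : (r : ℤ) - 1 = (r - u) + (u - 1) := by ring
    rw [h3, hu1]
    exact dvd_add ((dvd_mul_right _ _).trans h1) (dvd_mul_right _ _)
  have h3 : (b : ℤ) ∣ A * r - 1 := by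
    have h4 : A * (r : ℤ) - 1 = A * (r - u) + (A * u - 1) := by ring
    rw [h4, hu2]
    exact dvd_add (((dvd_mul_left _ _).trans h1).mul_left _) (dvd_mul_right _ _)
  refine ⟨r, hr, hK, h2, h3, exists_sq hr (jacobi_eq_one hD h2), ?_⟩
  have hrodd : Odd r := by
    have h5 : (2 : ℤ) ∣ (r : ℤ) - 1 := (Dvd.intro (4 * D) (by ring)).trans h2
    rcases Nat.even_or_odd r with h6 | h6
    · obtain ⟨e, rfl⟩ := h6
      push_cast at h5
      omega
    · exact h6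
  have hb4 : b % 4 = 1 := by
    have h5 : (4 : ℤ) ∣ (b : ℤ) - 1 := ⟨2 * A * D * c, by linear_combination hc⟩
    omega
  have hrec : J((b : ℤ) | r) = J((r : ℤ) | b) :=
    jacobiSym.quadratic_reciprocity_one_mod_four hb4 hrodd
  have hA1 : J(A | b) = 1 := jacobi_eq_one hA ⟨D * c, by linear_combination hc⟩
  have hAr : J(A * r | b) = 1 := by
    have h6 : (A * (r : ℤ)) % b = 1 % b := ((Int.modEq_iff_dvd).2 h3).symm
    rw [jacobiSym.mod_left' h6, jacobiSym.one_left]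
  rw [jacobiSym.mul_left, hA1, one_mul] at hAr
  have h7 := exists_sq (a := (b : ℤ)) hr (hrec.trans hAr)
  exact h7

end Pool.Agent.AllRank
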