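import Pool.Agent.AllRank.FMove
import Pool.Agent.AllRank.FNeg
import Pool.Agent.AllRank.Recip

set_option autoImplicit false

/-! ALLRANK, file FlipTwo: if `N` contains `A_2` and the `2`-adic valuation of the discriminant is
odd, the sign of the Jacobi symbol can be changed. -/

namespace Pool.Agent.AllRank

open Pool.Agent.MP4d0966
open scoped NumberTheorySymbols

variable {N : Type*} [AddCommGroup N]

/-- The vector `z` of odd norm orthogonal to the hyperbolic pair. -/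
theorem exists_odd_vec {L : EvenForm N} {e f l l2 : N} (he : L.q e = 0)
    (hef : L.B e f = 1) (hl : L.q l = 1) (hl2 : L.q l2 = 1) (h12 : L.B l l2 = -1)
    (hodd : ¬ (2 : ℤ) ∣ L.B e l) :
    ∃ z, L.B z e = 0 ∧ L.B z f = 0 ∧ ¬ (2 : ℤ) ∣ L.q z := by
  have hee : L.B e e = 0 := by rw [L.hq, he, mul_zero]
  set κ := L.B e l • l2 - L.B e l2 • l with hκ
  have hκe : L.B κ e = 0 := by
    simp only [hκ, map_sub, map_smul, LinearMap.sub_apply, LinearMap.smul_apply, smul_eq_mul,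
      L.symm l e, L.symm l2 e]
    ring
  refine ⟨κ - L.B κ f • e, ?_, ?_, ?_⟩
  · simp only [map_sub, map_smul, LinearMap.sub_apply, LinearMap.smul_apply, smul_eq_mul, hκe, hee]
    ring
  · simp only [map_sub, map_smul, LinearMap.sub_apply, LinearMap.smul_apply, smul_eq_mul, hef]
    ring
  · rw [L.q_sub, L.q_smul, he, map_smul, smul_eq_mul, hκe, hκ, L.q_sub, L.q_smul, L.q_smul, hl,
      hl2]
    simp only [map_smul, LinearMap.smul_apply, smul_eq_mul, L.symm l2 l, h12]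
    obtain ⟨b, hb⟩ : ∃ b, L.B e l = 2 * b + 1 := ⟨L.B e l / 2, by omega⟩
    obtain ⟨c, hc | hc⟩ := Int.even_or_odd' (L.B e l2)
    · rw [hb, hc]
      rintro ⟨w, hw⟩
      have : 2 * w = 2 * (2 * b ^ 2 + 2 * b + 2 * c ^ 2 + (2 * b + 1) * c) + 1 := by
        rw [← hw]; ring
      omega
    · rw [hb, hc]
      rintro ⟨w, hw⟩
      have : 2 * w = 2 * (2 * b ^ 2 + 2 * b + 2 * c ^ 2 + 2 * c + 2 * b * c + b + c + 1) + 1 := by
        rw [← hw]; ring
      omega

/-- Positivity. -/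
private theorem neg_large (L : EvenForm N) {μ0 x : N} {c K : ℤ} (hc : c ≠ 0)
    (hx : L.q x < 0) (hK : K = |L.q μ0| + |L.B μ0 x| + 1) : L.q (μ0 + (c * K) • x) < 0 := by
  rw [L.q_add, L.q_smul, map_smul, smul_eq_mul]
  have hK1 : 1 ≤ K := by
    have := abs_nonneg (L.q μ0)
    have := abs_nonneg (L.B μ0 x)
    omega
  have hc1 : 1 ≤ |c| := Int.one_le_abs hc
  have h2 : (c * K) ^ 2 = (|c| * K) ^ 2 := by rw [mul_pow, mul_pow, sq_abs]
  have h3 : |c * K * L.B μ0 x| = |c| * K * |L.B μ0 x| := by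
    rw [abs_mul, abs_mul, abs_of_pos (by omega : 0 < K)]
  have h4 := le_abs_self (c * K * L.B μ0 x)
  have h5 := le_abs_self (L.q μ0)
  rw [h3] at h4
  rw [h2]
  set X := |c| * K with hX
  have hX1 : K ≤ X := by nlinarith
  have h6 : X * |L.B μ0 x| + |L.q μ0| < X ^ 2 := by
    have h7 : |L.B μ0 x| ≤ K - 1 - |L.q μ0| := by omega
    have h8 := abs_nonneg (L.q μ0)
    nlinarith
  have h7 : X ^ 2 * L.q x ≤ -X ^ 2 := by nlinarith [sq_nonneg X]
  linarith

theorem exists_flip_two {L : EvenForm N} {b : Module.Basis (Fin 4) ℤ N} (hD : 0 < gdet L b)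
    {e f l l2 mneg : N} (he : L.q e = 0) (hf : L.q f = 0) (hef : L.B e f = 1) (hl : L.q l = 1)
    (hl2 : L.q l2 = 1) (h12 : L.B l l2 = -1)
    (hco : IsCoprime (L.B e l) (2 * gdet L b)) (hJ : J(gdet L b | (L.B e l).natAbs) = -1)
    (hv : Odd (padicValInt 2 (gdet L b)))
    (hne : L.B mneg e = 0) (hnf : L.B mneg f = 0) (hn : L.q mneg < 0) :
    ∃ e' f' : N, L.q e' = 0 ∧ L.q f' = 0 ∧ L.B e' f' = 1 ∧
      IsCoprime (L.B e' l) (2 * gdet L b) ∧ J(gdet L b | (L.B e' l).natAbs) = 1 := by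
  have hodd : ¬ (2 : ℤ) ∣ L.B e l := by
    intro h
    have h2 : IsCoprime (2 : ℤ) 2 :=
      (hco.of_isCoprime_of_dvd_left h).of_isCoprime_of_dvd_right (dvd_mul_right _ _)
    rw [isCoprime_self, Int.isUnit_iff] at h2
    omega
  obtain ⟨z, hze, hzf, hz⟩ := exists_odd_vec he hef hl hl2 h12 hodd
  have hee : L.B e e = 0 := by rw [L.hq, he, mul_zero]
  have hff : L.B f f = 0 := by rw [L.hq, hf, mul_zero]
  have hfe : L.B f e = 1 := by rw [L.symm, hef]
  -- the odd part of the discriminant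
  obtain ⟨D, hDD⟩ : ∃ D : ℕ, gdet L b = D := ⟨(gdet L b).toNat, by omega⟩
  rw [hDD] at hD hco hJ hv ⊢
  have hD0 : D ≠ 0 := by
    rintro rfl
    simp at hD
  obtain ⟨v, D1, hD1, hvD⟩ := Nat.exists_eq_pow_mul_and_not_dvd hD0 2 (by norm_num)
  have hD10 : D1 ≠ 0 := by
    rintro rfl
    exact hD0 (by rw [hvD, mul_zero])
  have hvv : padicValInt 2 (D : ℤ) = v := by
    rw [padicValInt.of_nat, hvD, padicValNat.mul (pow_ne_zero _ two_ne_zero) hD10,
      padicValNat.prime_pow, padicValNat.eq_zero_of_not_dvd hD1, add_zero]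
  rw [hvv] at hv
  have hD1odd : Odd D1 := by
    rw [Nat.odd_iff]
    omega
  -- an inverse of `β` modulo `8 D1`
  have hco2 : IsCoprime (L.B e l) (8 * (D1 : ℤ)) := by
    have h1 : IsCoprime (L.B e l) 2 := hco.of_isCoprime_of_dvd_right (dvd_mul_right _ _)
    have h2 : IsCoprime (L.B e l) (D1 : ℤ) := hco.of_isCoprime_of_dvd_right (by
      rw [hvD]
      push_cast
      exact ⟨2 * 2 ^ v, by ring⟩)
    have h3 : IsCoprime (L.B e l) (2 ^ 3) := h1.pow_right
    norm_num at h3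
    exact h3.mul_right h2
  obtain ⟨r, w, hrw⟩ := hco2
  set lam := l - L.B f l • e - L.B e l • f with hlam
  have hlame : L.B lam e = 0 := by
    simp only [hlam, map_sub, map_smul, LinearMap.sub_apply, LinearMap.smul_apply, smul_eq_mul,
      hee, hfe, L.symm l e]
    ring
  have hlamf : L.B lam f = 0 := by
    simp only [hlam, map_sub, map_smul, LinearMap.sub_apply, LinearMap.smul_apply, smul_eq_mul,
      hff, hef, L.symm l f]
    ring
  set s : ℤ := (D1 : ℤ) ^ 2 with hs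
  have hs8 : ∃ s', s = 8 * s' + 1 := by
    obtain ⟨k, hk⟩ := hD1odd
    rcases Nat.even_or_odd' k with ⟨j, hj | hj⟩
    · exact ⟨2 * j ^ 2 + j, by rw [hs, hk, hj]; push_cast; ring⟩
    · exact ⟨2 * j ^ 2 + 3 * j + 1, by rw [hs, hk, hj]; push_cast; ring⟩
  obtain ⟨s', hs'⟩ := hs8
  -- the vector `m`
  set y0 : N := w • (lam - (2 * s) • z) with hy0
  set K : ℤ := |L.q ((2 * s) • z + (8 * (D1 : ℤ)) • y0)|
    + |L.B ((2 * s) • z + (8 * (D1 : ℤ)) • y0) mneg| + 1 with hK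
  set m : N := r • (lam - (2 * s) • z) - (8 * (D1 : ℤ) * K) • mneg with hm
  have hme : L.B m e = 0 := by
    simp only [hm, map_sub, map_smul, LinearMap.sub_apply, LinearMap.smul_apply, smul_eq_mul,
      hlame, hze, hne]
    ring
  have hmf : L.B m f = 0 := by
    simp only [hm, map_sub, map_smul, LinearMap.sub_apply, LinearMap.smul_apply, smul_eq_mul,
      hlamf, hzf, hnf]
    ring
  obtain ⟨e', f', he', hf', hef', hprod⟩ := exists_move (L := L) he hf hef hl hme hmf (x := 1)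
    (by rw [one_pow]; exact isCoprime_one_left)
  set y : N := y0 + (L.B e l * K) • mneg with hy
  have hμ : (1 : ℤ) • (l - L.B f l • e - L.B e l • f) - L.B e l • m
      = (2 * s) • z + (8 * (D1 : ℤ)) • y := by
    have h1 : L.B e l • (r • (lam - (2 * s) • z)) =
        (lam - (2 * s) • z) - (8 * (D1 : ℤ)) • (w • (lam - (2 * s) • z)) := by
      rw [smul_smul, smul_smul, show L.B e l * r = 1 - (8 * (D1 : ℤ)) * w by linarith]
      module
    rw [← hlam, one_smul, hm, smul_sub (L.B e l) (r • (lam - (2 * s) • z))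
      ((8 * (D1 : ℤ) * K) • mneg), h1, hy, hy0]
    module
  rw [hμ] at hprod
  set μ := (2 * s) • z + (8 * (D1 : ℤ)) • y with hμd
  have hqμ : L.q μ = 4 * s ^ 2 * L.q z + 16 * s * D1 * L.B z y + 64 * D1 ^ 2 * L.q y := by
    rw [hμd, L.q_add, L.q_smul, L.q_smul]
    simp only [map_smul, LinearMap.smul_apply, smul_eq_mul]
    ring
  -- positivity
  have hneg : L.q μ < 0 := by
    have h1 : μ = ((2 * s) • z + (8 * (D1 : ℤ)) • y0) + (8 * (D1 : ℤ) * L.B e l * K) • mneg := by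
      rw [hμd, hy]
      module
    rw [h1]
    refine neg_large L ?_ hn hK
    have hβ0 : L.B e l ≠ 0 := by
      intro h
      exact hodd (by rw [h]; exact dvd_zero _)
    have hD11 : (D1 : ℤ) ≠ 0 := by exact_mod_cast hD10
    exact mul_ne_zero (mul_ne_zero (by norm_num) hD11) hβ0
  -- the number `n`
  obtain ⟨n, hn1⟩ : ∃ n : ℕ, L.B e l * L.B e' l = n :=
    ⟨(L.B e l * L.B e' l).toNat, by omega⟩
  have hn8 : n % 8 = 5 := by
    obtain ⟨q0, hq0⟩ : ∃ q0, L.q z = 2 * q0 + 1 := ⟨L.q z / 2, by omega⟩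
    have h2 : (n : ℤ) = 8 * (-((8 * s' + 1) ^ 2 * q0 + 32 * s' ^ 2 + 8 * s'
        + 2 * s * D1 * L.B z y + 8 * D1 ^ 2 * L.q y)) - 3 := by
      rw [← hn1, hprod, hqμ, hq0, hs']
      ring
    omega
  have hnD1 : (n : ℤ) = 1 + D1 * (-(4 * D1 ^ 3 * L.q z + 16 * s * L.B z y
      + 64 * D1 * L.q y)) := by
    rw [← hn1, hprod, hqμ, hs]
    ring
  have hnco : IsCoprime (n : ℤ) (2 * (D : ℤ)) := by
    have h1 : IsCoprime (n : ℤ) 2 := by
      refine ⟨1, -(n / 2 : ℕ), ?_⟩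
      have : n = 2 * (n / 2) + 1 := by omega
      push_cast
      omega
    have h2 : IsCoprime (n : ℤ) (D1 : ℤ) :=
      ⟨1, (4 * D1 ^ 3 * L.q z + 16 * s * L.B z y + 64 * D1 * L.q y), by rw [hnD1]; ring⟩
    rw [hvD]
    push_cast
    exact h1.mul_right ((h1.pow_right).mul_right h2)
  have hJn : J((D : ℤ) | n) = -1 := by
    have hnodd : Odd n := by rw [Nat.odd_iff]; omega
    rw [hvD]
    push_cast
    rw [jacobiSym.mul_left, jacobiSym.pow_left]
    have h1 : J(2 | n) = -1 := by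
      rw [jacobiSym.at_two hnodd, ZMod.χ₈_nat_eq_if_mod_eight]
      simp [hn8]
      omega
    have h2 : J((D1 : ℤ) | n) = 1 := by
      rw [jacobiSym.quadratic_reciprocity_one_mod_four' hD1odd (by omega)]
      rw [jacobiSym.mod_left]
      have h3 : (n : ℤ) % (D1 : ℤ) = 1 % (D1 : ℤ) := by
        rw [hnD1, Int.add_mul_emod_self_left]
      rw [h3, ← jacobiSym.mod_left, jacobiSym.one_left]
    rw [h1, h2, Odd.neg_one_pow hv, mul_one]
  refine ⟨e', f', he', hf', hef', ?_, ?_⟩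
  · exact hnco.of_isCoprime_of_dvd_left ⟨L.B e l, by rw [← hn1]; ring⟩
  · have h1 : n = (L.B e l).natAbs * (L.B e' l).natAbs := by
      rw [← Int.natAbs_mul, hn1, Int.natAbs_natCast]
    have hn0 : n ≠ 0 := by omega
    rw [h1] at hJn hn0
    rw [jacobiSym.mul_right' _ (left_ne_zero_of_mul hn0) (right_ne_zero_of_mul hn0), hJ] at hJn
    linarith

end Pool.Agent.AllRank
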