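import Pool.Agent.AllRank.Sym

set_option autoImplicit false

/-!
ALLRANK, file SymNorm: a number `z` with `k² z = X² - d Y²` has all symbols `hs d p z` equal
to `1`.
-/

namespace Pool.Agent.AllRank

open scoped NumberTheorySymbols

private theorem sq_odd {X : ℤ} (h : X % 2 = 1) : X ^ 2 % 8 = 1 := by
  have h1 : X % 8 = 1 ∨ X % 8 = 3 ∨ X % 8 = 5 ∨ X % 8 = 7 := by omega
  rcases h1 with h1 | h1 | h1 | h1 <;> rw [pow_two, Int.mul_emod, h1] <;> rfl

private theorem sq_even {X : ℤ} (h : X % 2 = 0) : X ^ 2 % 4 = 0 := by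
  have h1 : X % 4 = 0 ∨ X % 4 = 2 := by omega
  rcases h1 with h1 | h1 <;> rw [pow_two, Int.mul_emod, h1] <;> rfl

private theorem two_case {d : ℕ} (hd : Odd d) {X Y : ℤ} (h : ¬ (X % 2 = 0 ∧ Y % 2 = 0)) :
    hs d 2 (X ^ 2 - d * Y ^ 2) = 1 := by
  have h4 : d % 8 = 1 ∨ d % 8 = 5 ∨ d % 8 = 3 ∨ d % 8 = 7 := by
    rw [Nat.odd_iff] at hd
    omega
  rcases Int.emod_two_eq_zero_or_one X with hX | hX <;>
    rcases Int.emod_two_eq_zero_or_one Y with hY | hY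
  · exact absurd ⟨hX, hY⟩ h
  · have e1 := sq_even hX
    have e2 := sq_odd hY
    have e3 : (d : ℤ) * Y ^ 2 % 4 = (d : ℤ) % 4 := by
      rw [Int.mul_emod, show Y ^ 2 % 4 = 1 by omega, mul_one, Int.emod_emod_of_dvd _ (dvd_refl _)]
    generalize X ^ 2 = A at e1
    generalize (d : ℤ) * Y ^ 2 = B at e3
    have hw : ¬ (2 : ℤ) ∣ A - B := by omega
    rcases h4 with h4 | h4 | h4 | h4
    · exact hs_two_one h4 _
    · have h5 := hs_two_five h4 0 hw
      rwa [pow_zero, one_mul, pow_zero] at h5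
    · have h5 := hs_two_three (d := d) (by omega) 0 hw
      rwa [pow_zero, one_mul, pow_zero, mul_one,
        ZMod.χ₄_int_one_mod_four (by omega : (A - B) % 4 = 1)] at h5
    · have h5 := hs_two_three (d := d) (by omega) 0 hw
      rwa [pow_zero, one_mul, pow_zero, mul_one,
        ZMod.χ₄_int_one_mod_four (by omega : (A - B) % 4 = 1)] at h5
  · have e1 := sq_odd hX
    have e2 := sq_even hY
    have e3 : (d : ℤ) * Y ^ 2 % 4 = 0 := by
      rw [Int.mul_emod, e2, mul_zero]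
      rfl
    generalize X ^ 2 = A at e1
    generalize (d : ℤ) * Y ^ 2 = B at e3
    have hw : ¬ (2 : ℤ) ∣ A - B := by omega
    rcases h4 with h4 | h4 | h4 | h4
    · exact hs_two_one h4 _
    · have h5 := hs_two_five h4 0 hw
      rwa [pow_zero, one_mul, pow_zero] at h5
    · have h5 := hs_two_three (d := d) (by omega) 0 hw
      rwa [pow_zero, one_mul, pow_zero, mul_one,
        ZMod.χ₄_int_one_mod_four (by omega : (A - B) % 4 = 1)] at h5
    · have h5 := hs_two_three (d := d) (by omega) 0 hw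
      rwa [pow_zero, one_mul, pow_zero, mul_one,
        ZMod.χ₄_int_one_mod_four (by omega : (A - B) % 4 = 1)] at h5
  · have e1 := sq_odd hX
    have e2 := sq_odd hY
    have e3 : (d : ℤ) * Y ^ 2 % 8 = (d : ℤ) % 8 := by
      rw [Int.mul_emod, e2, mul_one, Int.emod_emod_of_dvd _ (dvd_refl _)]
    generalize X ^ 2 = A at e1
    generalize (d : ℤ) * Y ^ 2 = B at e3
    rcases h4 with h4 | h4 | h4 | h4
    · exact hs_two_one h4 _
    · obtain ⟨w, hw⟩ : ∃ w, A - B = 2 ^ 2 * w := ⟨(A - B) / 4, by omega⟩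
      have h5 := hs_two_five h4 2 (n := w) (by omega)
      rw [hw, h5]
      norm_num
    · obtain ⟨w, hw⟩ : ∃ w, A - B = 2 ^ 1 * w := ⟨(A - B) / 2, by omega⟩
      have h5 := hs_two_three (d := d) (by omega) 1 (n := w) (by omega)
      rw [hw, h5, ZMod.χ₄_int_three_mod_four (by omega : w % 4 = 3),
        ZMod.χ₈_nat_eq_if_mod_eight, if_neg (by omega), if_neg (by omega)]
      norm_num
    · obtain ⟨w, hw⟩ : ∃ w, A - B = 2 ^ 1 * w := ⟨(A - B) / 2, by omega⟩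
      have h5 := hs_two_three (d := d) (by omega) 1 (n := w) (by omega)
      rw [hw, h5, ZMod.χ₄_int_one_mod_four (by omega : w % 4 = 1),
        ZMod.χ₈_nat_eq_if_mod_eight, if_neg (by omega), if_pos (by omega)]
      norm_num

private theorem jac_sq {p : ℕ} (hp : p.Prime) {a : ℤ} (ha : ¬ (p : ℤ) ∣ a) : J(a ^ 2 | p) = 1 := by
  refine jacobiSym.sq_one' ?_
  rw [Int.gcd_comm]
  exact Int.isCoprime_iff_gcd_eq_one.mp
    (((Nat.prime_iff_prime_int.mp hp).coprime_iff_not_dvd).mpr ha)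

private theorem prim {d p : ℕ} (hp : p.Prime) (hd : Odd d) (hsq : Squarefree d) {X Y : ℤ}
    (h : ¬ ((p : ℤ) ∣ X ∧ (p : ℤ) ∣ Y)) (hw : X ^ 2 - d * Y ^ 2 ≠ 0) :
    hs d p (X ^ 2 - d * Y ^ 2) = 1 := by
  have hpp := Nat.prime_iff_prime_int.mp hp
  by_cases hp2 : p = 2
  · subst hp2
    refine two_case hd fun h1 => h ⟨?_, ?_⟩
    · exact_mod_cast Int.dvd_of_emod_eq_zero h1.1
    · exact_mod_cast Int.dvd_of_emod_eq_zero h1.2
  by_cases hpd : p ∣ d
  · obtain ⟨d1, rfl⟩ := hpd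
    have hd1 : ¬ (p : ℤ) ∣ d1 := by
      intro h1
      have h2 : p ∣ d1 := by exact_mod_cast h1
      obtain ⟨c, rfl⟩ := h2
      have h3 := hsq p ⟨c, by ring⟩
      exact hp.one_lt.ne' (Nat.isUnit_iff.mp h3)
    by_cases hX : (p : ℤ) ∣ X
    · obtain ⟨X1, rfl⟩ := hX
      have hY : ¬ (p : ℤ) ∣ Y := fun h1 => h ⟨dvd_mul_right _ _, h1⟩
      have e : ((p : ℤ) * X1) ^ 2 - ((p * d1 : ℕ) : ℤ) * Y ^ 2 =
          (p : ℤ) ^ 1 * (p * X1 ^ 2 - d1 * Y ^ 2) := by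
        push_cast
        ring
      have hn : ¬ (p : ℤ) ∣ p * X1 ^ 2 - d1 * Y ^ 2 := by
        intro h1
        have h2 : (p : ℤ) ∣ d1 * Y ^ 2 := by
          have h3 := dvd_sub (dvd_mul_right (p : ℤ) (X1 ^ 2)) h1
          rwa [sub_sub_cancel] at h3
        rcases hpp.dvd_or_dvd h2 with h3 | h3
        · exact hd1 h3
        · exact hY (hpp.dvd_of_dvd_pow h3)
      rw [e, hs_ram hp hp2 (dvd_mul_right p d1) 1 hn, Nat.mul_div_cancel_left _ hp.pos]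
      have h5 : ((p * X1 ^ 2 - d1 * Y ^ 2) * (-(d1 : ℤ)) ^ 1) % (p : ℤ) =
          ((d1 * Y) ^ 2) % (p : ℤ) := by
        refine Int.ModEq.symm ((Int.modEq_iff_dvd).2 ⟨-(d1 * X1 ^ 2), ?_⟩)
        ring
      rw [jacobiSym.mod_left' h5]
      refine jac_sq hp fun h6 => ?_
      rcases hpp.dvd_or_dvd h6 with h7 | h7
      · exact hd1 h7
      · exact hY h7
    · have h5 : (X ^ 2 - ((p * d1 : ℕ) : ℤ) * Y ^ 2) % (p : ℤ) = (X ^ 2) % (p : ℤ) := by
        refine Int.ModEq.symm ((Int.modEq_iff_dvd).2 ⟨-(d1 * Y ^ 2), ?_⟩)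
        push_cast
        ring
      have hn : ¬ (p : ℤ) ∣ X ^ 2 - ((p * d1 : ℕ) : ℤ) * Y ^ 2 := by
        intro h1
        rw [Int.dvd_iff_emod_eq_zero, h5, ← Int.dvd_iff_emod_eq_zero] at h1
        exact hX (hpp.dvd_of_dvd_pow h1)
      rw [hs_ram_unit hp hp2 (dvd_mul_right p d1) hn, jacobiSym.mod_left' h5]
      exact jac_sq hp hX
  · by_cases hn : (p : ℤ) ∣ X ^ 2 - d * Y ^ 2
    · have hY : ¬ (p : ℤ) ∣ Y := by
        intro h1
        refine h ⟨?_, h1⟩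
        have h2 := dvd_add hn (((dvd_pow h1 two_ne_zero)).mul_left (d : ℤ))
        rw [sub_add_cancel] at h2
        exact hpp.dvd_of_dvd_pow h2
      have hX : ¬ (p : ℤ) ∣ X := by
        intro h1
        have h2 := dvd_sub (dvd_pow h1 two_ne_zero) hn
        rw [sub_sub_cancel] at h2
        rcases hpp.dvd_or_dvd h2 with h3 | h3
        · exact hpd (by exact_mod_cast h3)
        · exact hY (hpp.dvd_of_dvd_pow h3)
      have h5 : (d * Y ^ 2) % (p : ℤ) = (X ^ 2) % (p : ℤ) := (Int.modEq_iff_dvd).2 hn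
      have h6 : J(d * Y ^ 2 | p) = 1 := by
        rw [jacobiSym.mod_left' h5]
        exact jac_sq hp hX
      rw [jacobiSym.mul_left, jac_sq hp hY, mul_one] at h6
      obtain ⟨v, n, hv, hn'⟩ := exists_pow_mul hp hw
      rw [hv, hs_unr hp hp2 hpd v hn', h6, one_pow]
    · exact hs_unit hp hp2 hpd hn

private theorem norm_aux {d p : ℕ} (hp : p.Prime) (hd : Odd d) (hsq : Squarefree d) (n : ℕ) :
    ∀ X Y : ℤ, X.natAbs + Y.natAbs = n → X ^ 2 - d * Y ^ 2 ≠ 0 →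
      hs d p (X ^ 2 - d * Y ^ 2) = 1 := by
  induction n using Nat.strong_induction_on with
  | _ n ih =>
    intro X Y hn hw
    by_cases h : (p : ℤ) ∣ X ∧ (p : ℤ) ∣ Y
    · obtain ⟨⟨X1, rfl⟩, ⟨Y1, rfl⟩⟩ := h
      have hp0 : (p : ℤ) ≠ 0 := by exact_mod_cast hp.ne_zero
      have e : ((p : ℤ) * X1) ^ 2 - d * (p * Y1) ^ 2 = (p : ℤ) ^ 2 * (X1 ^ 2 - d * Y1 ^ 2) := by
        ring
      rw [e] at hw ⊢
      have hw1 : X1 ^ 2 - d * Y1 ^ 2 ≠ 0 := right_ne_zero_of_mul hw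
      rw [hs_mul hp hd (pow_ne_zero 2 hp0) hw1, hs_sq hp hd hsq hp0, one_mul]
      refine ih (X1.natAbs + Y1.natAbs) ?_ X1 Y1 rfl hw1
      rw [← hn, Int.natAbs_mul, Int.natAbs_mul, Int.natAbs_natCast, ← mul_add]
      have h1 : 0 < X1.natAbs + Y1.natAbs := by
        by_contra h2
        have h3 : X1 = 0 := by omega
        have h4 : Y1 = 0 := by omega
        apply hw1
        rw [h3, h4]
        ring
      calc X1.natAbs + Y1.natAbs = 1 * (X1.natAbs + Y1.natAbs) := (one_mul _).symm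
        _ < p * (X1.natAbs + Y1.natAbs) := Nat.mul_lt_mul_of_pos_right hp.one_lt h1
    · exact prim hp hd hsq h hw

/-- PROOF. By `hs_mul` and `hs_sq`, `hs d p z = hs d p (k² z)`; so it suffices to show
`hs d p w = 1` for `w = X² - d Y² ≠ 0`. Strong induction on `X.natAbs + Y.natAbs`: if `p` divides
`X` and `Y`, `X = p X1`, `Y = p Y1`, then `w = p² w1`, `w1 = X1² - d Y1²`, and
`hs d p w = hs d p w1` (`hs_mul`, `hs_sq`), `(X, Y) ≠ (0, 0)`, so the induction hypothesis applies.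
Now `p` does not divide both.
* `p` odd, `p ∤ d`: if `p ∤ w` use `hs_unit`. If `p ∣ w` then `p ∤ Y` (otherwise `p ∣ X`), so
  `d ≡ (X/Y)²` is a nonzero square modulo `p` and `J(d | p) = 1`; use `hs_unr` (with
  `exists_pow_mul`).
* `p` odd, `d = p d1` (`p ∤ d1`): if `p ∤ X`, `w ≡ X²` modulo `p` and `hs_ram_unit` gives
  `J(X² | p) = 1`. If `X = p X1`, then `p ∤ Y`, `w = p w'`, `w' = p X1² - d1 Y²`, and `hs_ram`
  (`v = 1`) gives `J(w' (-d1) | p) = J((d1 Y)² | p) = 1` (`d / p = d1`).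
* `p = 2`, `d ≡ 1 (8)`: `hs_two_one`. `d ≡ 5 (8)`: if one of `X, Y` is even, `w` is odd; if both
  are odd, `w ≡ 1 - 5 ≡ 4 (8)`, `w = 2² w'` with `w'` odd; `hs_two_five`.
* `p = 2`, `d ≡ 3 (4)`: if exactly one of `X, Y` is even, `w ≡ 1 (4)`: `hs_two_three` with `v = 0`
  gives `χ₄ w = 1`. If both are odd: for `d ≡ 3 (8)`, `w ≡ 6 (8)`, `w = 2 w'`, `w' ≡ 3 (4)`,
  `χ₄ w' = -1`, `χ₈ d = -1`; for `d ≡ 7 (8)`, `w ≡ 2 (8)`, `w' ≡ 1 (4)`, `χ₄ w' = 1`,
  `χ₈ d = 1`. (`ZMod.χ₄_int_one_mod_four`, `ZMod.χ₄_int_three_mod_four`,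
  `ZMod.χ₈_nat_eq_if_mod_eight`.) -/
theorem hs_norm {d p : ℕ} (hp : p.Prime) (hd : Odd d) (hsq : Squarefree d) {k z X Y : ℤ}
    (hk : k ≠ 0) (hz : z ≠ 0) (h : k ^ 2 * z = X ^ 2 - d * Y ^ 2) : hs d p z = 1 := by
  have hw : X ^ 2 - d * Y ^ 2 ≠ 0 := by
    rw [← h]
    exact mul_ne_zero (pow_ne_zero 2 hk) hz
  have h1 := norm_aux hp hd hsq _ X Y rfl hw
  rwa [← h, hs_mul hp hd (pow_ne_zero 2 hk) hz, hs_sq hp hd hsq hk, one_mul] at h1

end Pool.Agent.AllRank
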