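import Pool.Agent.AllRank.SymJac
import Pool.Agent.AllRank.SymNorm
import Pool.Agent.AllRank.BinVal
import Pool.Agent.AllRank.FlipTwo

set_option autoImplicit false

/-!
ALLRANK, file Conv: the converse: in the frozen case the Jacobi symbol `-1` excludes an isotropic
`w` with `(w, l) = 1`. BLACK BOXES: files Sym, SymJac, SymNorm, BinVal.
NOTATION: `M = {m | B(m, e) = B(m, f) = 0}`, `α = B(f, l)`, `β = B(e, l)`,
`λ = l - α e - β f ∈ M`, `q(λ) = 1 - α β`, `D = gdet L b = d³ t²`.
-/

namespace Pool.Agent.AllRank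

open Pool.Agent.MP4d0966
open scoped NumberTheorySymbols

variable {N : Type*} [AddCommGroup N]

private theorem cv_frame {L : EvenForm N} (b : Module.Basis (Fin 4) ℤ N) {e f : N}
    (he : L.q e = 0) (hf : L.q f = 0) (hef : L.B e f = 1) :
    ∃ u v : N, gdet L b = L.B u v ^ 2 - 4 * L.q u * L.q v ∧
      ∀ m, L.B m e = 0 → L.B m f = 0 → ∃ s t : ℤ, m = s • u + t • v := by
  obtain ⟨c, h0, h1, h2e, h2f, h3e, h3f⟩ := exists_adapted b he hf hef
  have hee : L.B e e = 0 := by rw [L.hq, he, mul_zero]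
  have hff : L.B f f = 0 := by rw [L.hq, hf, mul_zero]
  have hfe : L.B f e = 1 := by rw [L.symm, hef]
  refine ⟨c 2, c 3, ?_, fun m hme hmf => ?_⟩
  · exact gdet_adapted b c (by rw [h0, he]) (by rw [h1, hf]) (by rw [h0, h1, hef])
      (by rw [h0, h2e]) (by rw [h1, h2f]) (by rw [h0, h3e]) (by rw [h1, h3f])
  · have hm : m = c.repr m 0 • e + c.repr m 1 • f + c.repr m 2 • c 2 + c.repr m 3 • c 3 := by
      conv_lhs => rw [← c.sum_repr m, Fin.sum_univ_four, h0, h1]
    generalize c.repr m 0 = r0 at hm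
    generalize c.repr m 1 = r1 at hm
    generalize c.repr m 2 = r2 at hm
    generalize c.repr m 3 = r3 at hm
    subst hm
    have k0 : r0 = 0 := by
      simp only [map_add, map_smul, LinearMap.add_apply, LinearMap.smul_apply, smul_eq_mul, hef,
        hff, h2f, h3f, mul_zero, mul_one, add_zero] at hmf
      exact hmf
    have k1 : r1 = 0 := by
      simp only [map_add, map_smul, LinearMap.add_apply, LinearMap.smul_apply, smul_eq_mul, hee,
        hfe, h2e, h3e, mul_zero, mul_one, add_zero, zero_add] at hme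
      exact hme
    refine ⟨r2, r3, ?_⟩
    rw [k0, k1, zero_smul, zero_smul, zero_add, zero_add]

private theorem cv_q (L : EvenForm N) (u v : N) (s t : ℤ) :
    L.q (s • u + t • v) = L.q u * s ^ 2 + L.B u v * s * t + L.q v * t ^ 2 := by
  rw [L.q_add, L.q_smul, L.q_smul]
  simp only [map_smul, LinearMap.smul_apply, smul_eq_mul]
  ring

private theorem cv_nonsq {d : ℕ} {t D : ℤ} (hsq : Squarefree d) (hd1 : 1 < d) (ht : t ≠ 0)
    (hD : D = d ^ 3 * t ^ 2) {X Y : ℤ} (h : X ^ 2 = D * Y ^ 2) : Y = 0 := by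
  by_contra hY
  have hd0 : (d : ℤ) ≠ 0 := by
    exact_mod_cast (by omega : d ≠ 0)
  have h1 : X ^ 2 = d * (d * t * Y) ^ 2 := by
    rw [h, hD]
    ring
  have h2 : (d * t * Y) ^ 2 ∣ X ^ 2 := ⟨d, by rw [h1]; ring⟩
  have h3 : (d * t * Y) ∣ X := (Int.pow_dvd_pow_iff two_ne_zero).1 h2
  obtain ⟨c, hc⟩ := h3
  have h4 : (d * t * Y) ^ 2 ≠ 0 := pow_ne_zero 2 (mul_ne_zero (mul_ne_zero hd0 ht) hY)
  have h5 : c ^ 2 = (d : ℤ) := by
    have h6 : (d * t * Y) ^ 2 * c ^ 2 = (d * t * Y) ^ 2 * d := by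
      rw [← mul_pow, ← hc, h1]
      ring
    exact mul_left_cancel₀ h4 h6
  have h6 : c.natAbs * c.natAbs = d := by
    have h7 : ((c.natAbs * c.natAbs : ℕ) : ℤ) = (d : ℤ) := by
      rw [← h5]
      push_cast
      rw [abs_mul_abs_self]
      ring
    exact_mod_cast h7
  have h7 := hsq c.natAbs ⟨1, by rw [h6, mul_one]⟩
  rw [Nat.isUnit_iff] at h7
  rw [h7] at h6
  omega

/-- The form is anisotropic on the binary lattice. -/
private theorem cv_aniso {d : ℕ} {t : ℤ} (hsq : Squarefree d) (hd1 : 1 < d) (ht : t ≠ 0)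
    {L : EvenForm N} {b : Module.Basis (Fin 4) ℤ N} (hD : gdet L b = d ^ 3 * t ^ 2) {e f : N}
    (he : L.q e = 0) (hf : L.q f = 0) (hef : L.B e f = 1) {m : N} (hme : L.B m e = 0)
    (hmf : L.B m f = 0) (h0 : L.q m = 0) : m = 0 := by
  obtain ⟨u, v, hDD, hM⟩ := cv_frame b he hf hef
  obtain ⟨s, r, rfl⟩ := hM m hme hmf
  rw [cv_q] at h0
  have h1 : (2 * L.q u * s + L.B u v * r) ^ 2 = gdet L b * r ^ 2 := by
    rw [hDD]
    linear_combination 4 * L.q u * h0
  have hr := cv_nonsq hsq hd1 ht hD h1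
  have hu : L.q u ≠ 0 := by
    intro hu
    have h2 : (L.B u v) ^ 2 = gdet L b * 1 ^ 2 := by
      rw [hDD, hu]
      ring
    exact one_ne_zero (cv_nonsq hsq hd1 ht hD h2)
  subst hr
  have hs : s = 0 := by
    have h3 : L.q u * s ^ 2 = 0 := by linarith
    rcases mul_eq_zero.1 h3 with h4 | h4
    · exact absurd h4 hu
    · exact pow_eq_zero_iff two_ne_zero |>.1 h4
  rw [hs, zero_smul, zero_smul, add_zero]

/-- PROOF. `z ∈ M` with `q(z)` odd: `exists_odd_vec` (file FlipTwo; `β` is odd). `disc_pair`: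
`B(m, z)² - 4 q(m) q(z) = D Y²` and `16 ∣ D`; so `B(m, z) = 2 c` is even, and
`c² - q(m) q(z) ≡ 0 (4)`; `q(z)` is odd. If `q(m)` is even, `c` is even and `4 ∣ q(m)`. -/
theorem four_dvd_of_even {L : EvenForm N} {b : Module.Basis (Fin 4) ℤ N} (h16 : 16 ∣ gdet L b)
    {e f l l2 m : N} (he : L.q e = 0) (hf : L.q f = 0) (hef : L.B e f = 1) (hl : L.q l = 1)
    (hl2 : L.q l2 = 1) (h12 : L.B l l2 = -1) (hodd : ¬ (2 : ℤ) ∣ L.B e l)
    (hme : L.B m e = 0) (hmf : L.B m f = 0) (hev : 2 ∣ L.q m) : 4 ∣ L.q m := by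
  obtain ⟨z, hze, hzf, hz⟩ := exists_odd_vec (f := f) he hef hl hl2 h12 hodd
  obtain ⟨Y, hY⟩ := disc_pair b he hf hef hme hmf hze hzf
  obtain ⟨D1, hD1⟩ := h16
  rw [hD1] at hY
  generalize L.B m z = B at hY
  generalize L.q z = C at hY hz
  obtain ⟨A, hA⟩ := hev
  rw [hA] at hY ⊢
  have h1 : Even (B ^ 2) := ⟨4 * A * C + 8 * D1 * Y ^ 2, by linarith⟩
  have h2 : Even B := (Int.even_pow' two_ne_zero).1 h1
  obtain ⟨c, hc⟩ := h2
  have hc' : B = 2 * c := by linarith
  subst hc'
  have h3 : c ^ 2 = 2 * (A * C) + 4 * (D1 * Y ^ 2) := by linarith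
  have h4 : Even (c ^ 2) := ⟨A * C + 2 * (D1 * Y ^ 2), by linarith⟩
  have h5 : Even c := (Int.even_pow' two_ne_zero).1 h4
  obtain ⟨c1, hc1⟩ := h5
  have hc1' : c = 2 * c1 := by linarith
  subst hc1'
  have h6 : A * C = 2 * (c1 ^ 2 - D1 * Y ^ 2) := by linarith
  have h7 : (2 : ℤ) ∣ A * C := ⟨_, h6⟩
  rcases Int.prime_two.dvd_or_dvd h7 with h8 | h8
  · obtain ⟨A1, rfl⟩ := h8
    exact ⟨A1, by ring⟩
  · exact absurd h8 hz

/-- The data of a vector `w`. -/
private theorem cv_data {L : EvenForm N} {e f l w : N} (he : L.q e = 0) (hf : L.q f = 0)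
    (hef : L.B e f = 1) (hl : L.q l = 1) (hw : L.q w = 0) (hwl : L.B w l = 1) :
    ∃ m lam : N, L.B m e = 0 ∧ L.B m f = 0 ∧ L.B lam e = 0 ∧ L.B lam f = 0 ∧
      L.q m = -(L.B w f * L.B w e) ∧ L.q lam = 1 - L.B f l * L.B e l ∧
      L.B m lam = 1 - L.B w f * L.B e l - L.B w e * L.B f l ∧ L.B m l = L.B m lam := by
  have hee : L.B e e = 0 := by rw [L.hq, he, mul_zero]
  have hff : L.B f f = 0 := by rw [L.hq, hf, mul_zero]
  have hfe : L.B f e = 1 := by rw [L.symm, hef]
  have hle : L.B l e = L.B e l := L.symm _ _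
  have hlf : L.B l f = L.B f l := L.symm _ _
  have hll : L.B l l = 2 := by rw [L.hq, hl, mul_one]
  have hww : L.B w w = 0 := by rw [L.hq, hw, mul_zero]
  have hew : L.B e w = L.B w e := L.symm _ _
  have hfw : L.B f w = L.B w f := L.symm _ _
  have hlw : L.B l w = 1 := by rw [L.symm, hwl]
  refine ⟨w - L.B w f • e - L.B w e • f, l - L.B f l • e - L.B e l • f, ?_, ?_, ?_, ?_, ?_, ?_,
    ?_, ?_⟩
  · simp only [map_sub, map_smul, LinearMap.sub_apply, LinearMap.smul_apply, smul_eq_mul, hee, hfe]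
    ring
  · simp only [map_sub, map_smul, LinearMap.sub_apply, LinearMap.smul_apply, smul_eq_mul, hff, hef]
    ring
  · simp only [map_sub, map_smul, LinearMap.sub_apply, LinearMap.smul_apply, smul_eq_mul, hee, hfe,
      hle]
    ring
  · simp only [map_sub, map_smul, LinearMap.sub_apply, LinearMap.smul_apply, smul_eq_mul, hff, hef,
      hlf]
    ring
  · have h := L.hq (w - L.B w f • e - L.B w e • f)
    simp only [map_sub, map_smul, LinearMap.sub_apply, LinearMap.smul_apply, smul_eq_mul, hff, hef,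
      hee, hfe, hww, hew, hfw] at h
    linarith
  · have h := L.hq (l - L.B f l • e - L.B e l • f)
    simp only [map_sub, map_smul, LinearMap.sub_apply, LinearMap.smul_apply, smul_eq_mul, hff, hef,
      hee, hfe, hll, hle, hlf] at h
    linarith
  · simp only [map_sub, map_smul, LinearMap.sub_apply, LinearMap.smul_apply, smul_eq_mul, hff, hef,
      hee, hfe, hwl]
    ring
  · simp only [map_sub, map_smul, LinearMap.sub_apply, LinearMap.smul_apply, smul_eq_mul, hff, hef,
      hee, hfe, hwl]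
    ring

/-- The value of the form on `μ`. -/
private theorem cv_mu {L : EvenForm N} {m lam : N} {x y α β : ℤ} (h1 : L.q m = -(x * y))
    (h2 : L.q lam = 1 - α * β) (h3 : L.B m lam = 1 - x * β - y * α) :
    L.q (β • m - y • lam) = y * (y - β) := by
  rw [L.q_sub, L.q_smul, L.q_smul]
  simp only [map_smul, LinearMap.smul_apply, smul_eq_mul]
  rw [h1, h2, h3]
  ring

private theorem cv_unit_absurd {d : ℕ} {β : ℤ} (hJ : J(d | β.natAbs) = -1) (h : β ∣ 1) :
    False := by
  have h1 : β.natAbs = 1 := Int.natAbs_of_isUnit (isUnit_of_dvd_one h)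
  rw [h1, jacobiSym.one_right] at hJ
  norm_num at hJ

private theorem cv_hs_eq {d p : ℕ} (hp : p.Prime) (hd : Odd d) (hsq : Squarefree d) {β y z : ℤ}
    (hβ : β ≠ 0) (hy : y ≠ 0) (hz : z ≠ 0) (h : hs d p (y * z) = 1) :
    hs d p (β * y) = hs d p (β * z) := by
  rw [hs_mul hp hd hy hz] at h
  rw [hs_mul hp hd hβ hy, hs_mul hp hd hβ hz]
  rcases hs_eq hp hd hsq hy with h1 | h1 <;> rcases hs_eq hp hd hsq hz with h2 | h2
  · rw [h1, h2]
  · rw [h1, h2] at h
    norm_num at h
  · rw [h1, h2] at h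
    norm_num at h
  · rw [h1, h2]

/-- PROOF. Suppose `q(w) = 0`, `B(w, l) = 1`. Let `y := B(w, e)`, `x := B(w, f)`,
`m := w - x e - y f ∈ M`: `x y = -q(m)`, `x β + y α + B(m, λ) = 1`. Put `μ := β m - y λ ∈ M`. Then
(*) `y (y - β) = q(μ)` (identity: `q(μ) = β² q(m) - β y B(m, λ) + y² (1 - α β)
= - β² x y - β y (1 - x β - y α) + y² - y² α β = y² - β y`).
`D = d³ t²` is not a square (`d > 1` squarefree), so `q` is anisotropic on `M`: if `q(m') = 0` for
`m' ∈ M` then `disc_pair` for `m'` and every `m'' ∈ M` gives `B(m', m'')² = D Y²`, so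
`B(m', m'') = 0`, and `disc_pair`/`exists_perp`... simplest: if `m' ≠ 0` use an odd prime `p ∤ D`
with `J(D | p) = -1`, or the basis of `exists_adapted`: `4 A q(m') = (2 A s + B t)² - D t²`.
(1) `y ≠ 0` and `y ≠ β`: otherwise `q(μ) = 0`, `μ = 0`. If `y = 0`, `m = 0`, `w = x e`,
`1 = x β`. If `y = β`, `m = λ` (`β ≠ 0`), and `l - w = (α - x) e`, `1 = B(l - w, l) = (α - x) β`
(`B(l, l) = 2`). In both cases `|β| = 1`, `J(d | 1) = 1`, a contradiction.
(2) NORMS: `disc_pair` for `μ, m1`: `B(μ, m1)² + 4 k² q(μ) = D Y²`, i.e.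
`(2 k)² (y (β - y)) = B(μ, m1)² - d (d t Y)²`. So `hs d p (y (β - y)) = 1` for all primes `p`
(`hs_norm`).
(3) For a prime `p ∤ 2 D`: `hs d p y = 1`. It is `J(d | p) ^ v`, `v = padicValInt p y`; if
`J(d | p) = -1` then `J(D | p) = -1`, and `v` is even: otherwise `p ∣ y`, `p ∣ q(m)`, `m = p m'`
(`inert_dvd`), `padicValInt p (q(m))` is even (`inert_even`) and equals `v + padicValInt p x`, so
`p ∣ x` and `w = x e + y f + m ∈ p N`, a contradiction with `B(w, l) = 1` (if `q(m) = 0` then
`x = 0` as `y ≠ 0`, again `p ∣ x`).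
So `∏ p ∈ S, hs d p y = 1` for `S := (2 * D).natAbs.primeFactors` (`hs_prod_of_trivial`).
(4) `∏ p ∈ S, hs d p β = J(d | |β|) = -1` (`hs_jacobi`). So `∏ p ∈ S, hs d p (β y) = -1`
(`hs_mul`). But
(5) `hs d p (β y) = 1` for every `p ∈ S`. `p ∤ β`. Note that
`hs d p (β y) = hs d p (β (β - y)) * hs d p (y (β - y)) = hs d p (β (β - y))` by (2)
(multiplicativity, `hs_mul_self`).
* `p` odd, `p ∣ d`: `p ∣ q(μ)` by `hrad`, so `p ∣ y` or `p ∣ y - β`. If `p ∣ y - β`,
  `β y ≡ β²`, `hs d p (β y) = hs d p (β²) = 1` (`hs_congr`, `hs_sq`). If `p ∣ y`,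
  `β (β - y) ≡ β²`, `hs d p (β (β - y)) = 1`.
* `p` odd, `p ∤ d`: if `p ∤ y`, `hs_unit`. If `p ∣ y`, `p ∤ β (β - y)`, `hs_unit`.
* `p = 2` (`β` is odd): `d ≡ 1 (8)`: `hs_two_one`. `d ≡ 5 (8)`: if `y` is odd,
  `hs_two_five` with `v = 0`; if `y` is even, `β (β - y)` is odd, the same. `d ≡ 3 (4)`: `16 ∣ D`
  and exactly one of `y, β - y` is even, so `q(μ)` is even and `4 ∣ q(μ)`
  (`four_dvd_of_even`). If `y` is odd, `4 ∣ β - y`, `β y ≡ β² (4)`, `hs_congr_two`, `hs_sq`. If
  `y` is even, `4 ∣ y`, `β (β - y) ≡ β² (4)`, the same. -/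
theorem no_gs {d : ℕ} {t : ℤ} (hd : Odd d) (hsq : Squarefree d) (hd1 : 1 < d) {L : EvenForm N}
    {b : Module.Basis (Fin 4) ℤ N} (hD : gdet L b = d ^ 3 * t ^ 2) (ht : t ≠ 0)
    (h4 : d % 4 = 3 → (4 : ℤ) ∣ t) {e f l l2 m1 : N}
    (he : L.q e = 0) (hf : L.q f = 0) (hef : L.B e f = 1) (hl : L.q l = 1)
    (hl2 : L.q l2 = 1) (h12 : L.B l l2 = -1)
    (hrad : ∀ p : ℕ, p.Prime → p ∣ d → ∀ m, L.B m e = 0 → L.B m f = 0 → (p : ℤ) ∣ L.q m)
    (hco : IsCoprime (L.B e l) (2 * gdet L b)) (hJ : J(d | (L.B e l).natAbs) = -1)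
    {k : ℤ} (hk : k ≠ 0) (h1e : L.B m1 e = 0) (h1f : L.B m1 f = 0) (h1 : L.q m1 = -k ^ 2) :
    ¬ ∃ w, L.q w = 0 ∧ L.B w l = 1 := by
  rintro ⟨w, hw, hwl⟩
  have hfour := h4
  clear h4
  obtain ⟨m, lam, hme, hmf, hle, hlf, hqm, hql, hml, hmll⟩ := cv_data he hf hef hl hw hwl
  have hel : L.B e l ≠ 0 := by
    intro h0
    rw [h0] at hJ
    have hdn : d ≠ 1 := by omega
    rw [Int.natAbs_zero, jacobiSym.zero_right] at hJ
    norm_num at hJ
  generalize hβ : L.B e l = β at *
  generalize hα : L.B f l = α at *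
  generalize hx : L.B w f = x at *
  generalize hy : L.B w e = y at *
  have hqm' : L.q m = -(x * y) := hqm
  have hqmu := cv_mu hqm' hql hml
  have hmue : L.B (β • m - y • lam) e = 0 := by
    simp only [map_sub, map_smul, LinearMap.sub_apply, LinearMap.smul_apply, smul_eq_mul, hme, hle]
    ring
  have hmuf : L.B (β • m - y • lam) f = 0 := by
    simp only [map_sub, map_smul, LinearMap.sub_apply, LinearMap.smul_apply, smul_eq_mul, hmf, hlf]
    ring
  have hy0 : y ≠ 0 := by
    intro h0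
    rw [h0, mul_zero, neg_zero] at hqm
    have h1 := cv_aniso hsq hd1 ht hD he hf hef hme hmf hqm
    rw [h1, h0, map_zero, LinearMap.zero_apply, zero_mul] at hml
    exact cv_unit_absurd hJ ⟨x, by linarith⟩
  have hyβ : β - y ≠ 0 := by
    intro h0
    have h1 : y = β := by linarith
    rw [h1, sub_self, mul_zero] at hqmu
    have h2 : β • m - β • lam = β • (m - lam) := (smul_sub _ _ _).symm
    rw [h2, L.q_smul] at hqmu
    have h3 : L.q (m - lam) = 0 := by
      rcases mul_eq_zero.1 hqmu with h4 | h4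
      · exact absurd ((pow_eq_zero_iff two_ne_zero).1 h4) hel
      · exact h4
    have h4 : m - lam = 0 := by
      refine cv_aniso hsq hd1 ht hD he hf hef ?_ ?_ h3
      · rw [map_sub, LinearMap.sub_apply, hme, hle, sub_zero]
      · rw [map_sub, LinearMap.sub_apply, hmf, hlf, sub_zero]
    rw [sub_eq_zero.1 h4, hql, h1] at hqm
    exact cv_unit_absurd hJ ⟨α - x, by linarith⟩
  -- norms
  have hnorm : ∀ p : ℕ, p.Prime → hs d p (y * (β - y)) = 1 := by
    intro p hp
    obtain ⟨Y, hY⟩ := disc_pair b he hf hef hmue hmuf h1e h1f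
    rw [hqmu, h1, hD] at hY
    refine hs_norm hp hd hsq (k := 2 * k) (X := L.B (β • m - y • lam) m1) (Y := d * t * Y)
      (mul_ne_zero two_ne_zero hk) (mul_ne_zero hy0 hyβ) ?_
    linear_combination -hY
  have hD0 : gdet L b ≠ 0 := by
    rw [hD]
    have hd0 : (d : ℤ) ≠ 0 := by exact_mod_cast (by omega : d ≠ 0)
    exact mul_ne_zero (pow_ne_zero 3 hd0) (pow_ne_zero 2 ht)
  -- primes outside 2 D
  have hout : ∀ p : ℕ, p.Prime → ¬ (p : ℤ) ∣ 2 * gdet L b → hs d p y = 1 := by
    intro p hp hpD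
    have hpp := Nat.prime_iff_prime_int.mp hp
    have hp2 : p ≠ 2 := by
      rintro rfl
      exact hpD (by simp)
    have hpd : ¬ p ∣ d := by
      intro h
      apply hpD
      rw [hD]
      have h' : (p : ℤ) ∣ d := by exact_mod_cast h
      exact ((h'.pow (by norm_num : (3 : ℕ) ≠ 0)).mul_right _).mul_left _
    have hpt : ¬ (p : ℤ) ∣ t := by
      intro h
      apply hpD
      rw [hD]
      exact ((h.pow two_ne_zero).mul_left _).mul_left _
    obtain ⟨v, y', hyv, hy'⟩ := exists_pow_mul hp hy0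
    have hv : padicValInt p y = v := by
      rw [hyv]
      exact padic_pow_mul hp hy'
    have h1 : hs d p y = J(d | p) ^ v := by
      rw [hyv]
      exact hs_unr hp hp2 hpd v hy'
    rw [h1]
    have h2 : J(d | p) = 1 ∨ J(d | p) = -1 := by
      refine jacobiSym.eq_one_or_neg_one ?_
      rw [Int.gcd_comm]
      exact Int.isCoprime_iff_gcd_eq_one.mp
        ((Nat.isCoprime_iff_coprime).mpr ((Nat.Prime.coprime_iff_not_dvd hp).mpr hpd))
    rcases h2 with h2 | h2
    · rw [h2, one_pow]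
    · rw [h2]
      have hJD : J(gdet L b | p) = -1 := by
        have h3 : J(t ^ 2 | p) = 1 := by
          refine jacobiSym.sq_one' ?_
          rw [Int.gcd_comm]
          exact Int.isCoprime_iff_gcd_eq_one.mp ((hpp.coprime_iff_not_dvd).mpr hpt)
        rw [hD, jacobiSym.mul_left, h3, jacobiSym.pow_left, h2]
        norm_num
      have hev : Even v := by
        by_contra hodd
        have hpy : (p : ℤ) ∣ y := by
          rw [hyv]
          refine Dvd.dvd.mul_right (dvd_pow_self _ ?_) _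
          rintro rfl
          exact hodd Even.zero
        have hpm : (p : ℤ) ∣ L.q m := by
          rw [hqm', dvd_neg]
          exact hpy.mul_left _
        obtain ⟨m', -, -, hm'⟩ := inert_dvd b he hf hef hp hp2 hJD hme hmf hpm
        have hpx : (p : ℤ) ∣ x := by
          by_cases hx0 : x = 0
          · rw [hx0]
            exact dvd_zero _
          · have hq0 : L.q m ≠ 0 := by
              rw [hqm']
              exact neg_ne_zero.2 (mul_ne_zero hx0 hy0)
            have h3 := inert_even b he hf hef hp hp2 hJD hme hmf hq0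
            have : Fact p.Prime := ⟨hp⟩
            have h4 : padicValInt p (L.q m) = padicValInt p x + v := by
              have h5 : padicValInt p (-(x * y)) = padicValInt p (x * y) := by
                simp [padicValInt]
              rw [hqm', h5, padicValInt.mul hx0 hy0, hv]
            rw [h4] at h3
            by_contra hpx
            rw [padicValInt.eq_zero_of_not_dvd hpx, zero_add] at h3
            exact hodd h3
        have h5 : L.B m lam = p * L.B m' l := by
          rw [← hmll, hm', map_smul, LinearMap.smul_apply, smul_eq_mul]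
        obtain ⟨x', rfl⟩ := hpx
        obtain ⟨y1, rfl⟩ := hpy
        refine hpp.not_dvd_one ⟨L.B m' l + x' * β + y1 * α, ?_⟩
        linear_combination h5 - hml
      exact hev.neg_one_pow
  -- the product formula
  have hS : ∀ p ∈ (2 * gdet L b).natAbs.primeFactors, p.Prime := fun p hp =>
    Nat.prime_of_mem_primeFactors hp
  have hmemS : ∀ p : ℕ, p.Prime → (p : ℤ) ∣ 2 * gdet L b →
      p ∈ (2 * gdet L b).natAbs.primeFactors := fun p hp h =>
    Nat.mem_primeFactors.2 ⟨hp, Int.natCast_dvd.1 h,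
      Int.natAbs_ne_zero.2 (mul_ne_zero two_ne_zero hD0)⟩
  have hS2 : ∀ p : ℕ, p.Prime → p ∣ 2 * d → p ∈ (2 * gdet L b).natAbs.primeFactors := by
    intro p hp h
    refine hmemS p hp ?_
    rw [hD]
    have h' : (p : ℤ) ∣ 2 * d := by exact_mod_cast h
    have e : 2 * ((d : ℤ) ^ 3 * t ^ 2) = 2 * d * (d ^ 2 * t ^ 2) := by ring
    rw [e]
    exact h'.mul_right _
  have hβS : ∀ p ∈ (2 * gdet L b).natAbs.primeFactors, ¬ (p : ℤ) ∣ β := by
    intro p hp h
    have hpp := Nat.prime_iff_prime_int.mp (hS p hp)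
    have h2 : (p : ℤ) ∣ 2 * gdet L b := Int.natCast_dvd.2 (Nat.dvd_of_mem_primeFactors hp)
    obtain ⟨r, s, hrs⟩ := hco
    apply hpp.not_dvd_one
    rw [← hrs]
    exact dvd_add (h.mul_left _) (h2.mul_left _)
  have hprod1 : ∏ p ∈ (2 * gdet L b).natAbs.primeFactors, hs d p y = 1 := by
    refine hs_prod_of_trivial hd hsq hS hS2 hy0 fun p hp hpS => hout p hp fun h => hpS ?_
    exact hmemS p hp h
  have hprod2 := hs_jacobi hd hsq hS hS2 hβS
  rw [hJ] at hprod2
  have hprod3 : ∏ p ∈ (2 * gdet L b).natAbs.primeFactors, hs d p (β * y) = -1 := by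
    rw [Finset.prod_congr rfl fun p hp => hs_mul (hS p hp) hd hel hy0, Finset.prod_mul_distrib,
      hprod1, hprod2]
    norm_num
  have hall : ∀ p ∈ (2 * gdet L b).natAbs.primeFactors, hs d p (β * y) = 1 := by
    intro p hpS
    have hp := hS p hpS
    have hpp := Nat.prime_iff_prime_int.mp hp
    have hpβ := hβS p hpS
    have hpβ2 : ¬ (p : ℤ) ∣ β ^ 2 := fun h => hpβ (hpp.dvd_of_dvd_pow h)
    have hA := cv_hs_eq hp hd hsq hel hy0 hyβ (hnorm p hp)
    by_cases hp2 : p = 2
    · subst hp2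
      rw [Nat.cast_two] at hpβ hpβ2
      have h4 : d % 8 = 1 ∨ d % 8 = 5 ∨ d % 4 = 3 := by
        have hd' := hd
        rw [Nat.odd_iff] at hd'
        omega
      rcases h4 with h4 | h4 | h4
      · exact hs_two_one h4 _
      · by_cases hy2 : (2 : ℤ) ∣ y
        · rw [hA]
          have hn : ¬ (2 : ℤ) ∣ β * (β - y) := by
            intro h
            rcases Int.prime_two.dvd_or_dvd h with h | h
            · exact hpβ h
            · exact hpβ (by simpa using dvd_add h hy2)
          have h5 := hs_two_five h4 0 hn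
          rwa [pow_zero, one_mul, pow_zero] at h5
        · have hn : ¬ (2 : ℤ) ∣ β * y := by
            intro h
            rcases Int.prime_two.dvd_or_dvd h with h | h
            · exact hpβ h
            · exact hy2 h
          have h5 := hs_two_five h4 0 hn
          rwa [pow_zero, one_mul, pow_zero] at h5
      · have h16 : 16 ∣ gdet L b := by
          obtain ⟨t', ht'⟩ := hfour h4
          rw [hD, ht']
          exact ⟨d ^ 3 * t' ^ 2, by ring⟩
        have hodd : ¬ (2 : ℤ) ∣ L.B e l := by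
          rw [hβ]
          exact hpβ
        have hev : 2 ∣ L.q (β • m - y • lam) := by
          rw [hqmu]
          by_cases hy2 : (2 : ℤ) ∣ y
          · exact hy2.mul_right _
          · exact Dvd.dvd.mul_left (by omega) _
        have h5 := four_dvd_of_even h16 he hf hef hl hl2 h12 hodd hmue hmuf hev
        rw [hqmu] at h5
        by_cases hy2 : (2 : ℤ) ∣ y
        · rw [hA]
          have h6 : (4 : ℤ) ∣ y := by
            have h7 : IsCoprime (4 : ℤ) (y - β) := by
              have h8 : IsCoprime (2 : ℤ) (y - β) :=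
                (Int.prime_two.coprime_iff_not_dvd).2 (by omega)
              have h9 := IsCoprime.pow_left (m := 2) h8
              norm_num at h9
              exact h9
            exact h7.dvd_of_dvd_mul_right h5
          have h7 := hs_congr_two hd (n := β ^ 2) (n' := β * (β - y)) hpβ2
            (by
              have e : β ^ 2 - β * (β - y) = y * β := by ring
              rw [e]
              exact h6.mul_right _)
          rw [← h7]
          exact hs_sq hp hd hsq hel
        · have h6 : (4 : ℤ) ∣ y - β := by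
            have h7 : IsCoprime (4 : ℤ) y := by
              have h8 : IsCoprime (2 : ℤ) y :=
                (Int.prime_two.coprime_iff_not_dvd).2 hy2
              have h9 := IsCoprime.pow_left (m := 2) h8
              norm_num at h9
              exact h9
            exact h7.dvd_of_dvd_mul_left h5
          have h7 := hs_congr_two hd (n := β ^ 2) (n' := β * y) hpβ2
            (by
              have e : β ^ 2 - β * y = (y - β) * (-β) := by ring
              rw [e]
              exact h6.mul_right _)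
          rw [← h7]
          exact hs_sq hp hd hsq hel
    · by_cases hpd : p ∣ d
      · have h5 := hrad p hp hpd _ hmue hmuf
        rw [hqmu] at h5
        rcases hpp.dvd_or_dvd h5 with h6 | h6
        · rw [hA]
          have h7 := hs_congr (d := d) hp hp2 (n := β ^ 2) (n' := β * (β - y)) hpβ2
            (by
              have e : β ^ 2 - β * (β - y) = y * β := by ring
              rw [e]
              exact h6.mul_right _)
          rw [← h7]
          exact hs_sq hp hd hsq hel
        · have h7 := hs_congr (d := d) hp hp2 (n := β ^ 2) (n' := β * y) hpβ2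
            (by
              have e : β ^ 2 - β * y = (y - β) * (-β) := by ring
              rw [e]
              exact h6.mul_right _)
          rw [← h7]
          exact hs_sq hp hd hsq hel
      · by_cases hpy : (p : ℤ) ∣ y
        · rw [hA]
          refine hs_unit hp hp2 hpd fun h => ?_
          rcases hpp.dvd_or_dvd h with h6 | h6
          · exact hpβ h6
          · exact hpβ (by simpa using dvd_add h6 hpy)
        · refine hs_unit hp hp2 hpd fun h => ?_
          rcases hpp.dvd_or_dvd h with h6 | h6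
          · exact hpβ h6
          · exact hpy h6
  rw [Finset.prod_congr rfl hall, Finset.prod_const_one] at hprod3
  norm_num at hprod3

end Pool.Agent.AllRank
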