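import Mathlib
import Pool.Agent.MP4d0966.Core

set_option autoImplicit false

/-! ALLRANK: definitions. See the docstrings of the other files. -/

namespace Pool.Agent.AllRank

open scoped NumberTheorySymbols

/-- The binary quadratic form `A s² + B s t + C t²`. -/
def bq (A B C s t : ℤ) : ℤ := A * s ^ 2 + B * s * t + C * t ^ 2

/-! ### Integral quaternions `a + b i + c j + d k` with `i² = δ`, `j² = c`, `k = i j` -/

/-- The ring of integral quaternions with `i² = δ`, `j² = c`. -/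
abbrev Q (δ c : ℤ) : Type := QuaternionAlgebra ℤ δ 0 c

/-- The reduced norm. -/
def nrd {δ c : ℤ} (x : Q δ c) : ℤ :=
  x.re ^ 2 - δ * x.imI ^ 2 - c * x.imJ ^ 2 + δ * c * x.imK ^ 2

theorem nrd_mul {δ c : ℤ} (x y : Q δ c) : nrd (x * y) = nrd x * nrd y := by
  simp only [nrd, QuaternionAlgebra.re_mul, QuaternionAlgebra.imI_mul, QuaternionAlgebra.imJ_mul,
    QuaternionAlgebra.imK_mul]
  ring

theorem nrd_star {δ c : ℤ} (x : Q δ c) : nrd (star x) = nrd x := by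
  simp only [nrd, QuaternionAlgebra.re_star, QuaternionAlgebra.imI_star,
    QuaternionAlgebra.imJ_star, QuaternionAlgebra.imK_star]
  ring

theorem mul_star_eq {δ c : ℤ} (x : Q δ c) : x * star x = (nrd x : Q δ c) := by
  ext
  · simp
    rw [nrd]
    ring
  all_goals
    simp
    ring

theorem star_mul_eq {δ c : ℤ} (x : Q δ c) : star x * x = (nrd x : Q δ c) := by
  ext
  · simp
    rw [nrd]
    ring
  all_goals
    simp
    ring

/-- The quaternion `x` is `q ^ j` times an element of the congruence subgroup of level `M` of the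
group of elements of norm `1` with coordinates in `ℤ[1/q]`. -/
def InG (q : ℕ) {δ c : ℤ} (M : ℤ) (j : ℕ) (x : Q δ c) : Prop :=
  nrd x = (q : ℤ) ^ (2 * j) ∧ M ∣ x.re - (q : ℤ) ^ j ∧ M ∣ x.imI ∧ M ∣ x.imJ ∧ M ∣ x.imK

theorem InG.one (q : ℕ) (δ c M : ℤ) : InG q M 0 (1 : Q δ c) := by
  simp [InG, nrd]

theorem InG.mul {q : ℕ} {δ c M : ℤ} {j j' : ℕ} {x y : Q δ c} (hx : InG q M j x)
    (hy : InG q M j' y) : InG q M (j + j') (x * y) := by
  obtain ⟨h0, ⟨x1, h1⟩, ⟨x2, h2⟩, ⟨x3, h3⟩, ⟨x4, h4⟩⟩ := hx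
  obtain ⟨k0, ⟨y1, k1⟩, ⟨y2, k2⟩, ⟨y3, k3⟩, ⟨y4, k4⟩⟩ := hy
  have hx1 : x.re = M * x1 + (q : ℤ) ^ j := by linarith
  have hy1 : y.re = M * y1 + (q : ℤ) ^ j' := by linarith
  refine ⟨?_, ?_, ?_, ?_, ?_⟩
  · rw [nrd_mul, h0, k0]; ring
  · rw [QuaternionAlgebra.re_mul, hx1, hy1, h2, h3, h4, k2, k3, k4, pow_add]
    exact ⟨M * x1 * y1 + x1 * (q : ℤ) ^ j' + (q : ℤ) ^ j * y1 + δ * x2 * M * y2 + c * x3 * M * y3
      - δ * c * x4 * M * y4, by ring⟩
  · rw [QuaternionAlgebra.imI_mul, hx1, hy1, h2, h3, h4, k2, k3, k4]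
    exact ⟨(M * x1 + (q : ℤ) ^ j) * y2 + x2 * (M * y1 + (q : ℤ) ^ j')
      - c * x3 * M * y4 + c * x4 * M * y3, by ring⟩
  · rw [QuaternionAlgebra.imJ_mul, hx1, hy1, h2, h3, h4, k2, k3, k4]
    exact ⟨(M * x1 + (q : ℤ) ^ j) * y3 + δ * x2 * M * y4 + x3 * (M * y1 + (q : ℤ) ^ j')
      - δ * x4 * M * y2, by ring⟩
  · rw [QuaternionAlgebra.imK_mul, hx1, hy1, h2, h3, h4, k2, k3, k4]
    exact ⟨(M * x1 + (q : ℤ) ^ j) * y4 + x2 * M * y3 - x3 * M * y2
      + x4 * (M * y1 + (q : ℤ) ^ j'), by ring⟩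

theorem InG.star {q : ℕ} {δ c M : ℤ} {j : ℕ} {x : Q δ c} (hx : InG q M j x) :
    InG q M j (star x) := by
  obtain ⟨h0, h1, h2, h3, h4⟩ := hx
  refine ⟨by rw [nrd_star, h0], ?_, ?_, ?_, ?_⟩
  · simpa using h1
  · simpa using h2
  · simpa using h3
  · simpa using h4

variable {q : ℕ} [Fact q.Prime]

/-- The matrix of a quaternion over `ℚ_q`, `θ² = δ`:
`i = diag (θ, -θ)`, `j = (0, c; 1, 0)`, `k = i j = (0, c θ; -θ, 0)`. -/
noncomputable def mat (θ : ℚ_[q]) (c : ℤ) (a b d e : ℤ) : Matrix (Fin 2) (Fin 2) ℚ_[q] :=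
  !![(a : ℚ_[q]) + b * θ, c * (d + e * θ); d - e * θ, a - b * θ]

/-- The ring homomorphism from the integral quaternions to the matrices over `ℚ_q`. -/
noncomputable def iota (δ c : ℤ) (θ : ℚ_[q]) (hθ : θ ^ 2 = δ) :
    Q δ c →+* Matrix (Fin 2) (Fin 2) ℚ_[q] where
  toFun x := mat θ c x.re x.imI x.imJ x.imK
  map_one' := by
    ext i j
    fin_cases i <;> fin_cases j <;> simp [mat]
  map_zero' := by
    ext i j
    fin_cases i <;> fin_cases j <;> simp [mat]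
  map_add' x y := by
    ext i j
    fin_cases i <;> fin_cases j <;> simp [mat] <;> ring
  map_mul' x y := by
    ext i j
    fin_cases i <;> fin_cases j <;> simp [mat, Matrix.mul_apply, Fin.sum_univ_two] <;>
      rw [← hθ] <;> ring

theorem iota_apply {δ c : ℤ} {θ : ℚ_[q]} (hθ : θ ^ 2 = δ) (x : Q δ c) :
    iota δ c θ hθ x = mat θ c x.re x.imI x.imJ x.imK := rfl

theorem iota_star {δ c : ℤ} {θ : ℚ_[q]} (hθ : θ ^ 2 = δ) (x : Q δ c) :
    iota δ c θ hθ (star x) = (iota δ c θ hθ x).adjugate := by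
  rw [iota_apply, iota_apply, mat, mat, Matrix.adjugate_fin_two_of]
  ext i j
  fin_cases i <;> fin_cases j <;> simp <;> ring

theorem iota_det {δ c : ℤ} {θ : ℚ_[q]} (hθ : θ ^ 2 = δ) (x : Q δ c) :
    (iota δ c θ hθ x).det = nrd x := by
  rw [iota_apply, mat, Matrix.det_fin_two_of, nrd]
  push_cast
  rw [← hθ]
  ring

/-- The congruence subgroup of level `M` of the group of quaternions of norm `1` with coordinates
in `ℤ[1/q]`, as a submonoid of the matrices over `ℚ_q`. -/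
noncomputable def Gam (δ c M : ℤ) (θ : ℚ_[q]) (hθ : θ ^ 2 = δ) :
    Submonoid (Matrix (Fin 2) (Fin 2) ℚ_[q]) where
  carrier := {g | ∃ (j : ℕ) (x : Q δ c), InG q M j x ∧
    g = ((q : ℚ_[q]) ^ j)⁻¹ • iota δ c θ hθ x}
  one_mem' := ⟨0, 1, InG.one q δ c M, by simp⟩
  mul_mem' := by
    rintro _ _ ⟨j, x, hx, rfl⟩ ⟨j', y, hy, rfl⟩
    refine ⟨j + j', x * y, hx.mul hy, ?_⟩
    rw [map_mul, smul_mul_smul_comm, pow_add, mul_inv]

/-- The closure of `Gam`. -/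
noncomputable def GamBar (δ c M : ℤ) (θ : ℚ_[q]) (hθ : θ ^ 2 = δ) :
    Submonoid (Matrix (Fin 2) (Fin 2) ℚ_[q]) := (Gam δ c M θ hθ).topologicalClosure

end Pool.Agent.AllRank
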