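import Pool.Agent.AllRank.Step

set_option autoImplicit false

/-!
ALLRANK, file Desc: removing all primes from `(E, l)`.

PROOF. Strong induction on the natural number `(L.B E l).toNat`. Let `a = B(E, l) > 0`. If
`a = 1` take `w = E`. Otherwise let `p` be a prime dividing `a`; `p ≠ 2`, `p ∤ D = gdet L b`
(coprimality). Write `a = p^k a'`, `p ∤ a'`, `k = padicValInt p a ≥ 1`. `J(D | p) = ±1`; if it
is `-1`, `k` is even by `heven`. `step` gives `E'` isotropic with `B(E', l) = a'`, `0 < a' < a`.
`E'` is primitive: a prime `p' ≠ p` with `E' ∈ p' N` would give `E ∈ p' N`; and `E' ∈ p N` would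
give `p ∣ a'`. `a'` is coprime to `2 D`, and for primes `p'` with `J(D | p') = -1`:
`padicValInt p' a' = padicValInt p' a` if `p' ≠ p`, and `= 0` if `p' = p`. Apply the induction
hypothesis to `E'`.
-/

namespace Pool.Agent.AllRank

open Pool.Agent.MP4d0966
open scoped NumberTheorySymbols

variable {N : Type*} [AddCommGroup N]

theorem descent {L : EvenForm N} {b : Module.Basis (Fin 4) ℤ N} {l : N} (hl : L.q l = 1)
    (hpos : ∃ u, L.B u l = 0 ∧ 0 < L.q u) (hneg : ∃ u, L.B u l = 0 ∧ L.q u < 0) {E : N}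
    (hE : L.q E = 0) (hprim : ∀ p : ℕ, p.Prime → ¬ ∃ E', E = (p : ℤ) • E')
    (h0 : 0 < L.B E l) (hco : IsCoprime (L.B E l) (2 * gdet L b))
    (heven : ∀ p : ℕ, p.Prime → J(gdet L b | p) = -1 → Even (padicValInt p (L.B E l))) :
    ∃ w : N, L.q w = 0 ∧ L.B w l = 1 := by
  obtain ⟨n, hn⟩ : ∃ n : ℕ, L.B E l = n := ⟨(L.B E l).toNat, by omega⟩
  induction n using Nat.strong_induction_on generalizing E with
  | _ n ih =>
    rw [hn] at h0 hco heven
    by_cases h1 : n = 1
    · exact ⟨E, hE, by rw [hn, h1, Nat.cast_one]⟩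
    have hn0 : n ≠ 0 := by
      rintro rfl
      simp at h0
    obtain ⟨p, hp, hpn⟩ := Nat.exists_prime_and_dvd h1
    have hpn' : (p : ℤ) ∣ n := by exact_mod_cast hpn
    have hcop : ∀ {y : ℤ}, (p : ℤ) ∣ y → y ∣ 2 * gdet L b → False := by
      intro y hy1 hy2
      have h2 : IsCoprime (p : ℤ) (p : ℤ) :=
        (hco.of_isCoprime_of_dvd_left hpn').of_isCoprime_of_dvd_right (hy1.trans hy2)
      have h3 := isCoprime_self.mp h2
      rw [Int.isUnit_iff] at h3
      have := hp.two_le
      omega
    have hp2 : p ≠ 2 := by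
      rintro rfl
      exact hcop (y := 2) (by norm_num) (dvd_mul_right _ _)
    have hpD : ¬ (p : ℤ) ∣ gdet L b := fun h => hcop h (dvd_mul_left _ _)
    obtain ⟨k, m, hpm, hkm⟩ := Nat.exists_eq_pow_mul_and_not_dvd hn0 p hp.ne_one
    have hm0 : m ≠ 0 := by
      rintro rfl
      exact hn0 (by rw [hkm, mul_zero])
    have hpk0 : p ^ k ≠ 0 := pow_ne_zero _ hp.ne_zero
    have : Fact p.Prime := ⟨hp⟩
    have hk1 : 1 ≤ k := by
      by_contra hk
      have : k = 0 := by omega
      rw [this, pow_zero, one_mul] at hkm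
      exact hpm (hkm ▸ hpn)
    have hval : padicValInt p (n : ℤ) = k := by
      rw [padicValInt.of_nat, hkm, padicValNat.mul hpk0 hm0, padicValNat.prime_pow,
        padicValNat.eq_zero_of_not_dvd hpm, add_zero]
    have hk : Even k ∨ J(gdet L b | p) = 1 := by
      rcases jacobiSym.eq_one_or_neg_one (a := gdet L b) (b := p) (by
        rw [← Int.isCoprime_iff_gcd_eq_one]
        exact ((Nat.prime_iff_prime_int.mp hp).coprime_iff_not_dvd.mpr hpD).symm) with h | h
      · exact Or.inr h
      · left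
        have := heven p hp h
        rwa [hval] at this
    have ha : L.B E l = (p : ℤ) ^ k * (m : ℤ) := by
      rw [hn, hkm]
      push_cast
      ring
    obtain ⟨E', hE', hEl, hpr⟩ := step (b := b) hl hpos hneg hp hp2 hpD hE (hprim p hp) ha
      (by exact_mod_cast hpm) hk
    have hmn : m < n := by
      rw [hkm]
      have h2 : 1 < p ^ k := Nat.one_lt_pow (by omega) hp.one_lt
      have h3 : 0 < m := Nat.pos_of_ne_zero hm0
      nlinarith
    refine ih m hmn hE' ?_ ?_ ?_ ?_ hEl
    · intro p' hp' hE2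
      by_cases hpp : p' = p
      · obtain ⟨E'', hE''⟩ := hE2
        apply hpm
        have h2 : (p : ℤ) ∣ m := by
          rw [← hEl, hE'', hpp, map_smul, LinearMap.smul_apply, smul_eq_mul]
          exact dvd_mul_right _ _
        exact_mod_cast h2
      · exact hprim p' hp' (hpr p' hp' hpp hE2)
    · rw [hEl]
      exact_mod_cast Nat.pos_of_ne_zero hm0
    · rw [hEl]
      exact hco.of_isCoprime_of_dvd_left ⟨(p : ℤ) ^ k, by rw [hkm]; push_cast; ring⟩
    · intro p' hp' hJ
      have : Fact p'.Prime := ⟨hp'⟩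
      rw [hEl]
      by_cases hpp : p' = p
      · rw [padicValInt.of_nat, hpp, padicValNat.eq_zero_of_not_dvd hpm]
        exact Even.zero
      · have h2 := heven p' hp' hJ
        rw [padicValInt.of_nat, hkm, padicValNat.mul hpk0 hm0,
          padicValNat.eq_zero_of_not_dvd (fun h => hpp
            ((Nat.prime_dvd_prime_iff_eq hp' hp).mp (hp'.dvd_of_dvd_pow h))), zero_add] at h2
        rw [padicValInt.of_nat]
        exact h2

end Pool.Agent.AllRank
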