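import Pool.Agent.AllRank.Orth

set_option autoImplicit false

/-!
ALLRANK, file FMove.
NOTATION: `M = {m | B(m, e) = B(m, f) = 0}`, `λ = l - α e - β f ∈ M`, `α = B(f, l)`,
`β = B(e, l)`, `q(λ) = 1 - α β`.
-/

namespace Pool.Agent.AllRank

open Pool.Agent.MP4d0966
open scoped NumberTheorySymbols

variable {N : Type*} [AddCommGroup N]

/-- THE MOVE. For an integer `x` and `m ∈ M` put `e' := x² f + x m - q(m) e`. It is isotropic, and
`β B(e', l) = x² - q(x λ - β m)`. If `x²` and `q(m)` are coprime there is an isotropic `f'` with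
`B(e', f') = 1`. PROOF. `B(e', l) = x² α + x B(m, l) - β q(m)` and
`q(x λ - β m) = x² q(λ) - x β B(λ, m) + β² q(m)`, `q(λ) = 1 - α β`, `B(λ, m) = B(l, m)`. If
`a x² + c q(m) = 1` then `z := a e - c f` has `B(e', z) = a x² + c q(m) = 1`, and
`f' := z - q(z) e'` is isotropic with `B(e', f') = 1`. -/
theorem exists_move {L : EvenForm N} {e f l m : N} (he : L.q e = 0) (hf : L.q f = 0)
    (hef : L.B e f = 1) (hl : L.q l = 1) (hme : L.B m e = 0) (hmf : L.B m f = 0) {x : ℤ}
    (hx : IsCoprime (x ^ 2) (L.q m)) :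
    ∃ e' f' : N, L.q e' = 0 ∧ L.q f' = 0 ∧ L.B e' f' = 1 ∧
      L.B e l * L.B e' l =
        x ^ 2 - L.q (x • (l - L.B f l • e - L.B e l • f) - L.B e l • m) := by
  obtain ⟨a, c, hac⟩ := hx
  have hee : L.B e e = 0 := by rw [L.hq, he, mul_zero]
  have hff : L.B f f = 0 := by rw [L.hq, hf, mul_zero]
  have hfe : L.B f e = 1 := by rw [L.symm, hef]
  have hem : L.B e m = 0 := by rw [L.symm, hme]
  have hfm : L.B f m = 0 := by rw [L.symm, hmf]
  have hmm := L.hq m
  have hll : L.B l l = 2 := by rw [L.hq, hl, mul_one]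
  have hle : L.B l e = L.B e l := L.symm l e
  have hlf : L.B l f = L.B f l := L.symm l f
  have hml : L.B m l = L.B l m := L.symm m l
  have h1 : L.q (x ^ 2 • f + x • m - L.q m • e) = 0 := by
    have h := L.hq (x ^ 2 • f + x • m - L.q m • e)
    simp only [map_add, map_sub, map_smul, LinearMap.add_apply, LinearMap.sub_apply,
      LinearMap.smul_apply, smul_eq_mul, hee, hff, hfe, hef, hem, hfm, hme, hmf, hmm] at h
    linarith
  have h2 : L.B (x ^ 2 • f + x • m - L.q m • e) (a • e - c • f) = 1 := by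
    simp only [map_add, map_sub, map_smul, LinearMap.add_apply, LinearMap.sub_apply,
      LinearMap.smul_apply, smul_eq_mul, hee, hff, hfe, hef, hme, hmf]
    linear_combination hac
  refine ⟨x ^ 2 • f + x • m - L.q m • e,
    (a • e - c • f) - L.q (a • e - c • f) • (x ^ 2 • f + x • m - L.q m • e), h1, ?_, ?_, ?_⟩
  · rw [L.q_sub, L.q_smul, h1, map_smul, L.symm, h2, smul_eq_mul]
    ring
  · rw [map_sub, map_smul, h2, L.hq, h1]
    simp
  · have h := L.hq (x • (l - L.B f l • e - L.B e l • f) - L.B e l • m)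
    simp only [map_add, map_sub, map_smul, LinearMap.add_apply, LinearMap.sub_apply,
      LinearMap.smul_apply, smul_eq_mul, hee, hff, hfe, hef, hem, hfm, hme, hmf, hmm, hll, hle,
      hlf, hml] at h
    simp only [map_add, map_sub, map_smul, LinearMap.add_apply, LinearMap.sub_apply,
      LinearMap.smul_apply, smul_eq_mul, hml]
    linarith

/-- PROOF. Let `M = {m | B(m, e) = B(m, f) = 0}`, a subgroup, and suppose `p ∣ q(m)` for all
`m ∈ M`; then `p ∣ B(m, m')` for `m, m' ∈ M`; every `x ∈ N` is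
`B(x, f) e + B(x, e) f + (element of M)`, so `p ∣ B(m, x)` for `m ∈ M`, `x ∈ N`. `M` is a free
group of rank `2`
(`N = ℤ e ⊕ ℤ f ⊕ M`; finrank of a direct sum, or the kernel of the surjective map
`x ↦ (B(x, e), B(x, f))` from `N` to `ℤ²`); let `u, v` be a basis of `M`. If
`i u + j v = p x` with `x ∈ N`, then `x ∈ M` (pair with `e`, `f`: `p B(x, e) = 0`), so
`x = i' u + j' v`, `i = p i'`, `j = p j'`. -/
theorem exists_unit_or_radical {L : EvenForm N} (b : Module.Basis (Fin 4) ℤ N) {e f : N}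
    (he : L.q e = 0) (hf : L.q f = 0) (hef : L.B e f = 1) {p : ℕ} (hp : p.Prime) :
    (∃ m, L.B m e = 0 ∧ L.B m f = 0 ∧ ¬ (p : ℤ) ∣ L.q m) ∨
    ∃ u v : N, (∀ x, (p : ℤ) ∣ L.B u x) ∧ (∀ x, (p : ℤ) ∣ L.B v x) ∧
      ∀ (i j : ℤ) (x : N), i • u + j • v = (p : ℤ) • x → (p : ℤ) ∣ i ∧ (p : ℤ) ∣ j := by
  by_cases hM : ∃ m, L.B m e = 0 ∧ L.B m f = 0 ∧ ¬ (p : ℤ) ∣ L.q m
  · exact Or.inl hM
  refine Or.inr ?_
  push Not at hM
  have := Module.Free.of_basis b
  have := Module.Finite.of_basis b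
  have hee : L.B e e = 0 := by rw [L.hq, he, mul_zero]
  have hff : L.B f f = 0 := by rw [L.hq, hf, mul_zero]
  have hfe : L.B f e = 1 := by rw [L.symm, hef]
  set φ : N →ₗ[ℤ] ℤ × ℤ := (L.B.flip e).prod (L.B.flip f) with hφ
  have hφx : ∀ x, φ x = (L.B x e, L.B x f) := fun x => rfl
  have hsurj : Function.Surjective φ := by
    rintro ⟨i, j⟩
    refine ⟨j • e + i • f, ?_⟩
    rw [hφx]
    simp only [map_add, map_smul, LinearMap.add_apply, LinearMap.smul_apply, smul_eq_mul, hee,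
      hff, hfe, hef]
    simp
  have hrank : Module.finrank ℤ (LinearMap.ker φ) = 2 := by
    have h1 := Submodule.finrank_quotient_add_finrank (LinearMap.ker φ)
    rw [(φ.quotKerEquivOfSurjective hsurj).finrank_eq, Module.finrank_prod, Module.finrank_self,
      Module.finrank_eq_card_basis b, Fintype.card_fin] at h1
    omega
  have hker : ∀ x, x ∈ LinearMap.ker φ ↔ L.B x e = 0 ∧ L.B x f = 0 := by
    intro x
    rw [LinearMap.mem_ker, hφx, Prod.mk_eq_zero]
  let c : Module.Basis (Fin 2) ℤ (LinearMap.ker φ) := Module.finBasisOfFinrankEq ℤ _ hrank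
  have hdiv : ∀ m ∈ LinearMap.ker φ, ∀ x, (p : ℤ) ∣ L.B m x := by
    intro m hm x
    obtain ⟨m1, m2⟩ := (hker m).1 hm
    have hy : x - L.B x f • e - L.B x e • f ∈ LinearMap.ker φ := by
      rw [hker]
      simp only [map_sub, map_smul, LinearMap.sub_apply, LinearMap.smul_apply, smul_eq_mul, hee,
        hff, hfe, hef]
      constructor <;> ring
    set y := x - L.B x f • e - L.B x e • f with hyd
    obtain ⟨y1, y2⟩ := (hker y).1 hy
    have e1 : L.B m x = L.B m y := by
      rw [hyd, map_sub, map_sub, map_smul, map_smul, m1, m2]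
      simp
    obtain ⟨s1, s2⟩ := (hker _).1 ((LinearMap.ker φ).add_mem hm hy)
    have e2 := L.q_add m y
    have e3 : L.B m y = L.q (m + y) - L.q m - L.q y := by linarith
    rw [e1, e3]
    exact dvd_sub (dvd_sub (hM _ s1 s2) (hM _ m1 m2)) (hM _ y1 y2)
  refine ⟨c 0, c 1, hdiv _ (c 0).2, hdiv _ (c 1).2, ?_⟩
  intro i j x hx
  have hp0 : (p : ℤ) ≠ 0 := by exact_mod_cast hp.ne_zero
  have hxk : x ∈ LinearMap.ker φ := by
    have h1 : (p : ℤ) • x ∈ LinearMap.ker φ := by
      rw [← hx]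
      exact (LinearMap.ker φ).add_mem ((LinearMap.ker φ).smul_mem _ (c 0).2)
        ((LinearMap.ker φ).smul_mem _ (c 1).2)
    rw [hker] at h1 ⊢
    simp only [map_smul, LinearMap.smul_apply, smul_eq_mul] at h1
    exact ⟨(mul_eq_zero.1 h1.1).resolve_left hp0, (mul_eq_zero.1 h1.2).resolve_left hp0⟩
  have h2 : i • c 0 + j • c 1 = (p : ℤ) • (⟨x, hxk⟩ : LinearMap.ker φ) := Subtype.ext hx
  have h3 := congrArg c.repr h2
  rw [map_add, map_smul, map_smul, map_smul, c.repr_self, c.repr_self] at h3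
  have h4 := DFunLike.congr_fun h3 0
  have h5 := DFunLike.congr_fun h3 1
  simp at h4 h5
  exact ⟨⟨_, h4⟩, ⟨_, h5⟩⟩

end Pool.Agent.AllRank
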