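import Pool.Agent.AllRank.FMove
import Pool.Agent.AllRank.FNeg
import Pool.Agent.AllRank.Recip

set_option autoImplicit false

/-!
ALLRANK, file Flip: rank `4`; if `p` is an odd prime with `v_p(D)` odd (`D = gdet L b > 0`) and `M`
contains a vector
with `p ∤ q`, the sign of the Jacobi symbol can be changed.
NOTATION: `M = {m | B(m, e) = B(m, f) = 0}`, `λ = l - α e - β f ∈ M`, `α = B(f, l)`, `β = B(e, l)`,
`q(λ) = 1 - α β`.
-/

namespace Pool.Agent.AllRank

open Pool.Agent.MP4d0966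
open scoped NumberTheorySymbols

variable {N : Type*} [AddCommGroup N]

private theorem flip_nonres {p : ℕ} (hp : p.Prime) (hp2 : p ≠ 2) : ∃ ν : ℤ, J(ν | p) = -1 := by
  have : Fact p.Prime := ⟨hp⟩
  obtain ⟨a, ha⟩ := FiniteField.exists_nonsquare (F := ZMod p)
    (by rw [ZMod.ringChar_zmod_n]; exact hp2)
  obtain ⟨ν, rfl⟩ := ZMod.intCast_surjective a
  refine ⟨ν, ?_⟩
  rw [← jacobiSym.legendreSym.to_jacobiSym]
  exact (legendreSym.eq_neg_one_iff p).2 ha

private theorem flip_conic {p : ℕ} (hp : p.Prime) (hp2 : p ≠ 2) {u ν : ℤ}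
    (hu : ¬ (p : ℤ) ∣ u) : ∃ x t : ℤ, (p : ℤ) ∣ x ^ 2 - u * t ^ 2 - ν := by
  have : Fact p.Prime := ⟨hp⟩
  have hu' : (u : ZMod p) ≠ 0 := by
    rw [Ne, ZMod.intCast_zmod_eq_zero_iff_dvd]
    exact hu
  obtain ⟨a, b, hab⟩ := FiniteField.exists_root_sum_quadratic (R := ZMod p)
    (f := Polynomial.X ^ 2 - Polynomial.C (ν : ZMod p))
    (g := Polynomial.C (-(u : ZMod p)) * Polynomial.X ^ 2)
    (Polynomial.degree_X_pow_sub_C two_pos _)
    (Polynomial.degree_C_mul_X_pow 2 (neg_ne_zero.2 hu'))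
    (by rw [ZMod.card]; exact (hp.eq_two_or_odd).resolve_left hp2)
  obtain ⟨x, rfl⟩ := ZMod.intCast_surjective a
  obtain ⟨t, rfl⟩ := ZMod.intCast_surjective b
  refine ⟨x, t, (ZMod.intCast_zmod_eq_zero_iff_dvd _ p).1 ?_⟩
  simp only [Polynomial.eval_sub, Polynomial.eval_pow, Polynomial.eval_X, Polynomial.eval_C,
    Polynomial.eval_mul] at hab
  push_cast
  linear_combination hab

private theorem flip_vec {L : EvenForm N} {e f m1 mneg lam : N}
    (h1e : L.B m1 e = 0) (h1f : L.B m1 f = 0) (hne : L.B mneg e = 0) (hnf : L.B mneg f = 0)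
    (hn : L.q mneg < 0) (hle : L.B lam e = 0) (hlf : L.B lam f = 0) {β T x tp : ℤ} {p : ℕ}
    (hp : p.Prime) (hβT : IsCoprime β T) (hβp : IsCoprime β (p : ℤ))
    (hTp : IsCoprime T (p : ℤ)) (hTx : IsCoprime T x) (hβ0 : β ≠ 0) (hT0 : T ≠ 0) (hx0 : x ≠ 0)
    (hr : ∀ r : ℕ, r.Prime → (r : ℤ) ∣ x → r ≠ p →
      ∃ mr, L.B mr e = 0 ∧ L.B mr f = 0 ∧ ¬ (r : ℤ) ∣ L.q mr) :
    ∃ m, L.B m e = 0 ∧ L.B m f = 0 ∧ (∃ w, x • lam - β • m = T • w) ∧
      (∃ w, x • lam - β • m = tp • m1 + (p : ℤ) • w) ∧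
      (∀ r : ℕ, r.Prime → (r : ℤ) ∣ x → r ≠ p → ¬ (r : ℤ) ∣ L.q m) ∧
      L.q (x • lam - β • m) < 0 := by
  classical
  have : Nonempty N := ⟨0⟩
  have hp0 : (p : ℤ) ≠ 0 := by exact_mod_cast hp.ne_zero
  let M : Submodule ℤ N := LinearMap.ker (L.B e) ⊓ LinearMap.ker (L.B f)
  have hM : ∀ z : N, z ∈ M ↔ L.B z e = 0 ∧ L.B z f = 0 := fun z => by
    rw [Submodule.mem_inf, LinearMap.mem_ker, LinearMap.mem_ker, L.symm e z, L.symm f z]
  choose! mr hmr using hr
  obtain ⟨β', γ, h1⟩ := hβT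
  obtain ⟨β'', δ, h2⟩ := hβp
  obtain ⟨s, t, h3⟩ := hTp.mul_right hTx
  obtain ⟨z, hz⟩ : ∃ z : ℕ → N, ∀ r, z r = if r = p then β'' • (x • lam - tp • m1) else mr r :=
    ⟨_, fun _ => rfl⟩
  have hlam : lam ∈ M := (hM _).2 ⟨hle, hlf⟩
  have hm1 : m1 ∈ M := (hM _).2 ⟨h1e, h1f⟩
  have hmn : mneg ∈ M := (hM _).2 ⟨hne, hnf⟩
  have hzp : z p ∈ M := by
    rw [hz, if_pos rfl]
    exact M.smul_mem _ (M.sub_mem (M.smul_mem _ hlam) (M.smul_mem _ hm1))
  have hzr : ∀ r : ℕ, r.Prime → (r : ℤ) ∣ x → r ≠ p → z r ∈ M := by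
    intro r h4 h5 h6
    rw [hz, if_neg h6]
    exact (hM _).2 ⟨(hmr r h4 h5 h6).1, (hmr r h4 h5 h6).2.1⟩
  obtain ⟨z0, hz0⟩ := exists_crt (G := M) ((p : ℤ) * x).natAbs.primeFactors
    (fun r hr => Nat.prime_of_mem_primeFactors hr)
    (fun r => if h : z r ∈ M then ⟨z r, h⟩ else 0)
  have hpx0 : ((p : ℤ) * x).natAbs ≠ 0 := Int.natAbs_ne_zero.2 (mul_ne_zero hp0 hx0)
  obtain ⟨up, hup⟩ : ∃ u : N, (z0 : N) = β'' • (x • lam - tp • m1) + (p : ℤ) • u := by
    obtain ⟨u, hu⟩ := hz0 p (Nat.mem_primeFactors.2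
      ⟨hp, Int.natCast_dvd.1 (Dvd.intro _ rfl), hpx0⟩)
    rw [dif_pos hzp] at hu
    refine ⟨u, ?_⟩
    rw [hu]
    change z p + (p : ℤ) • (u : N) = _
    rw [hz, if_pos rfl]
  have hur : ∀ r : ℕ, r.Prime → (r : ℤ) ∣ x → r ≠ p → ∃ u : N, (z0 : N) = mr r + (r : ℤ) • u := by
    intro r h4 h5 h6
    obtain ⟨u, hu⟩ := hz0 r (Nat.mem_primeFactors.2
      ⟨h4, Int.natCast_dvd.1 (h5.mul_left _), hpx0⟩)
    rw [dif_pos (hzr r h4 h5 h6)] at hu
    refine ⟨u, ?_⟩
    rw [hu]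
    change z r + (r : ℤ) • (u : N) = _
    rw [hz, if_neg h6]
  obtain ⟨m0, hm0⟩ : ∃ m0 : N, m0 = (s * T) • (z0 : N) + (t * (p * x) * β' * x) • lam := ⟨_, rfl⟩
  have hm0M : m0 ∈ M := by
    rw [hm0]
    exact M.add_mem (M.smul_mem _ z0.2) (M.smul_mem _ hlam)
  have hγ : β' * β = 1 - γ * T := by linarith
  have hδ : β'' * β = 1 - δ * p := by linarith
  have hs : s * T = 1 - t * (p * x) := by linarith
  have ht : t * (p * x) = 1 - s * T := by linarith
  have e1 : x • lam - β • m0 = T • (((s + γ - s * γ * T) * x) • lam - (β * s) • (z0 : N)) := by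
    have h4 : β * (t * (p * x) * β' * x) = x - T * ((s + γ - s * γ * T) * x) := by
      linear_combination (x * β * β') * ht + x * (1 - s * T) * hγ
    have h5 : β • m0 = (β * (s * T)) • (z0 : N) + (β * (t * (p * x) * β' * x)) • lam := by
      rw [hm0]
      module
    rw [h5, h4]
    module
  have e2 : x • lam - β • m0 = tp • m1 + (p : ℤ) •
      (δ • (x • lam - tp • m1) - β • up - (β * t * x) • ((β' * x) • lam - (z0 : N))) := by
    have h5 : m0 = (z0 : N) + (p : ℤ) • ((t * x) • ((β' * x) • lam - (z0 : N))) := by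
      rw [hm0, hs]
      module
    have h6 : β • (z0 : N) = (x • lam - tp • m1) - (p : ℤ) • (δ • (x • lam - tp • m1)) +
        (p : ℤ) • (β • up) := by
      rw [hup, smul_add, smul_smul, mul_comm β β'', hδ]
      module
    have h7 : β • m0 = β • (z0 : N) +
        (p : ℤ) • ((β * t * x) • ((β' * x) • lam - (z0 : N))) := by
      nth_rewrite 1 [h5]
      module
    rw [h7, h6]
    module
  obtain ⟨μ, hμ⟩ : ∃ μ : N, μ = x • lam - β • m0 := ⟨_, rfl⟩
  obtain ⟨K, hK⟩ : ∃ K : ℤ, K = |L.q μ| + |L.B μ mneg| + 1 := ⟨_, rfl⟩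
  obtain ⟨C, hC⟩ : ∃ C : ℤ, C = β * (T * p * x) := ⟨_, rfl⟩
  have hC0 : C ≠ 0 := by
    rw [hC]
    exact mul_ne_zero hβ0 (mul_ne_zero (mul_ne_zero hT0 hp0) hx0)
  have e3 : x • lam - β • (m0 + (T * p * x * K) • mneg) = μ - (C * K) • mneg := by
    rw [hμ, hC]
    module
  refine ⟨m0 + (T * p * x * K) • mneg, ?_, ?_, ?_, ?_, ?_, ?_⟩
  · exact ((hM _).1 (M.add_mem hm0M (M.smul_mem _ hmn))).1
  · exact ((hM _).1 (M.add_mem hm0M (M.smul_mem _ hmn))).2
  · refine ⟨(((s + γ - s * γ * T) * x) • lam - (β * s) • (z0 : N)) -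
      (β * (p * x) * K) • mneg, ?_⟩
    rw [e3, hμ, e1, hC]
    module
  · refine ⟨(δ • (x • lam - tp • m1) - β • up - (β * t * x) • ((β' * x) • lam - (z0 : N))) -
      (β * (T * x) * K) • mneg, ?_⟩
    rw [e3, hμ, e2, hC]
    module
  · intro r h4 h5 h6 h7
    obtain ⟨u, hu⟩ := hur r h4 h5 h6
    obtain ⟨x', hx'⟩ := h5
    have h8 : m0 + (T * p * x * K) • mneg = mr r + (r : ℤ) •
        (u + (t * p * x') • ((β' * x) • lam - (z0 : N)) + (T * p * x' * K) • mneg) := by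
      have h9 : m0 = (z0 : N) + (r : ℤ) • ((t * p * x') • ((β' * x) • lam - (z0 : N))) := by
        have h10 : t * (p * x) = r * (t * p * x') := by rw [hx']; ring
        rw [hm0, hs, h10]
        module
      have h11 : T * p * x * K = r * (T * p * x' * K) := by rw [hx']; ring
      rw [h9, h11]
      nth_rewrite 1 [hu]
      module
    rw [h8, L.q_add, L.q_smul, map_smul, smul_eq_mul] at h7
    apply (hmr r h4 ⟨x', hx'⟩ h6).2.2
    have h12 : ∀ a b c : ℤ, (r : ℤ) ∣ a + (r : ℤ) ^ 2 * b + r * c → (r : ℤ) ∣ a := by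
      intro a b c h13
      have h14 : a = (a + (r : ℤ) ^ 2 * b + r * c) - r * (r * b + c) := by ring
      rw [h14]
      exact dvd_sub h13 (Dvd.intro _ rfl)
    exact h12 _ _ _ h7
  · rw [e3, L.q_sub, L.q_smul, map_smul, smul_eq_mul]
    obtain ⟨X, hX⟩ : ∃ X : ℤ, X = C * K := ⟨_, rfl⟩
    rw [← hX]
    have hK1 : 1 ≤ K := by
      have := abs_nonneg (L.q μ)
      have := abs_nonneg (L.B μ mneg)
      omega
    have hC1 : 1 ≤ |C| := Int.one_le_abs hC0
    have hX1 : K ≤ |X| := by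
      rw [hX, abs_mul, abs_of_pos (by omega : 0 < K)]
      nlinarith
    have h4 : -(X * L.B μ mneg) ≤ |X| * |L.B μ mneg| := by
      rw [← abs_mul]
      exact neg_le_abs _
    have h5 := le_abs_self (L.q μ)
    have h6 : X ^ 2 * L.q mneg ≤ -(|X| ^ 2) := by
      rw [sq_abs]
      nlinarith [sq_nonneg X]
    have h7 := abs_nonneg (L.q μ)
    have h8 : |X| * (|L.q μ| + |L.B μ mneg| + 1) ≤ |X| ^ 2 := by
      rw [← hK, pow_two]
      exact mul_le_mul_of_nonneg_left hX1 (abs_nonneg _)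
    have h9 : |L.q μ| ≤ |X| * |L.q μ| := by nlinarith
    nlinarith

private theorem flip_pos {L : EvenForm N} {b : Module.Basis (Fin 4) ℤ N} (hD : 0 < gdet L b)
    {e f l m1 mneg : N} (he : L.q e = 0) (hf : L.q f = 0) (hef : L.B e f = 1) (hl : L.q l = 1)
    (hβ : 0 < L.B e l)
    (hco : IsCoprime (L.B e l) (2 * gdet L b)) (hJ : J(gdet L b | (L.B e l).natAbs) = -1)
    {p : ℕ} (hp : p.Prime) (hp2 : p ≠ 2) (hv : Odd (padicValInt p (gdet L b)))
    (h1e : L.B m1 e = 0) (h1f : L.B m1 f = 0) (h1 : ¬ (p : ℤ) ∣ L.q m1)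
    (hne : L.B mneg e = 0) (hnf : L.B mneg f = 0) (hn : L.q mneg < 0) :
    ∃ e' f' : N, L.q e' = 0 ∧ L.q f' = 0 ∧ L.B e' f' = 1 ∧
      IsCoprime (L.B e' l) (2 * gdet L b) ∧ J(gdet L b | (L.B e' l).natAbs) = 1 := by
  classical
  have hfp : Fact p.Prime := ⟨hp⟩
  have hpp := Nat.prime_iff_prime_int.1 hp
  have hfree := Module.Free.of_basis b
  have hfin := Module.Finite.of_basis b
  obtain ⟨D, hDd⟩ : ∃ D : ℤ, D = gdet L b := ⟨_, rfl⟩
  obtain ⟨β, hβd⟩ : ∃ β : ℤ, β = L.B e l := ⟨_, rfl⟩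
  have hunim : ∀ r : ℕ, r.Prime → ¬ (r : ℤ) ∣ D →
      ∀ x, (∀ y, (r : ℤ) ∣ L.B x y) → ∃ x', x = (r : ℤ) • x' := by
    intro r hr hrD x hx
    rw [hDd] at hrD
    exact unim hr hrD hx
  rw [← hDd] at hD hco hJ hv ⊢
  rw [← hβd] at hβ hco hJ
  -- the decomposition of `D`
  obtain ⟨v, D1, hv1, hD1p, hD1, hDe⟩ : ∃ (v : ℕ) (D1 : ℤ), Odd v ∧ ¬ (p : ℤ) ∣ D1 ∧ 0 < D1 ∧
      D = (p : ℤ) ^ v * D1 := by
    obtain ⟨v, n', hnd, hne'⟩ := Nat.exists_eq_pow_mul_and_not_dvd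
      (Int.natAbs_ne_zero.2 hD.ne') p hp.ne_one
    have hn0 : n' ≠ 0 := by
      rintro rfl
      exact hnd (dvd_zero _)
    have h2 : padicValInt p D = v := by
      unfold padicValInt
      rw [hne', padicValNat.mul (pow_ne_zero _ hp.ne_zero) hn0, padicValNat.prime_pow,
        padicValNat.eq_zero_of_not_dvd hnd, add_zero]
    refine ⟨v, n', h2 ▸ hv, fun h => hnd (by exact_mod_cast h), by omega, ?_⟩
    have h3 : (D.natAbs : ℤ) = D := Int.natAbs_of_nonneg hD.le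
    rw [← h3, hne']
    push_cast
    rfl
  obtain ⟨T, hT⟩ : ∃ T : ℤ, T = 8 * D1 := ⟨_, rfl⟩
  have hT0 : T ≠ 0 := by omega
  have hp8 : ¬ (p : ℤ) ∣ 8 := by
    intro h
    have h2 : p ∣ 2 ^ 3 := by exact_mod_cast h
    exact hp2 ((Nat.prime_dvd_prime_iff_eq hp Nat.prime_two).1 (hp.dvd_of_dvd_pow h2))
  have hTp : IsCoprime T (p : ℤ) := by
    refine IsCoprime.symm ((Prime.coprime_iff_not_dvd hpp).2 ?_)
    rw [hT]
    intro h
    rcases hpp.dvd_or_dvd h with h | h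
    · exact hp8 h
    · exact hD1p h
  have hβ2 : IsCoprime β 2 := hco.of_mul_right_left
  have hβD : IsCoprime β D := hco.of_mul_right_right
  have hβD1 : IsCoprime β D1 := by
    rw [hDe] at hβD
    exact hβD.of_mul_right_right
  have hβp : IsCoprime β (p : ℤ) := by
    rw [hDe] at hβD
    have h2 := hβD.of_mul_right_left
    obtain ⟨k, rfl⟩ := hv1
    rw [pow_succ] at h2
    exact h2.of_mul_right_right
  have hβT : IsCoprime β T := by
    rw [hT, show (8 : ℤ) = 2 ^ 3 by norm_num]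
    exact (hβ2.pow_right).mul_right hβD1
  -- the integers `ν`, `x`, `tp`
  obtain ⟨ν, hν⟩ := flip_nonres hp hp2
  obtain ⟨xp, tp, hxt⟩ := flip_conic (ν := ν) hp hp2 h1
  have hνp : ¬ (p : ℤ) ∣ ν := by
    intro h
    have h2 : J(ν | p) = J((0 : ℤ) | p) := jacobiSym.mod_left' (by
      rw [Int.emod_eq_zero_of_dvd h, Int.zero_emod])
    rw [h2, jacobiSym.zero_left hp.one_lt] at hν
    norm_num at hν
  obtain ⟨s, t, hst⟩ : IsCoprime (p : ℤ) (T * β) := (hTp.mul_left hβp).symm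
  obtain ⟨x, hx⟩ : ∃ x : ℤ, x = xp * (t * (T * β)) + s * p := ⟨_, rfl⟩
  have hxp : (p : ℤ) ∣ x - xp := ⟨s * (1 - xp), by rw [hx]; linear_combination xp * hst⟩
  have hxT : (T * β) ∣ x - 1 := ⟨t * (xp - 1), by rw [hx]; linear_combination hst⟩
  have hxT' : T ∣ x - 1 := (Dvd.intro _ rfl).trans hxT
  have h8T : (8 : ℤ) ∣ T := ⟨D1, hT⟩
  have hx0 : x ≠ 0 := by
    intro h0
    have h2 := h8T.trans hxT'
    rw [h0] at h2
    omega
  have hTx : IsCoprime T x := by
    obtain ⟨c, hc⟩ := hxT'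
    exact ⟨-c, 1, by linear_combination hc⟩
  -- the vector `λ`
  have hee : L.B e e = 0 := by rw [L.hq, he, mul_zero]
  have hff : L.B f f = 0 := by rw [L.hq, hf, mul_zero]
  have hfe : L.B f e = 1 := by rw [L.symm, hef]
  have hle : L.B l e = L.B e l := L.symm l e
  have hlf : L.B l f = L.B f l := L.symm l f
  have hlame : L.B (l - L.B f l • e - L.B e l • f) e = 0 := by
    simp only [map_sub, map_smul, LinearMap.sub_apply, LinearMap.smul_apply, smul_eq_mul, hee,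
      hfe, hle]
    ring
  have hlamf : L.B (l - L.B f l • e - L.B e l • f) f = 0 := by
    simp only [map_sub, map_smul, LinearMap.sub_apply, LinearMap.smul_apply, smul_eq_mul, hff,
      hef, hlf]
    ring
  -- the vectors `m_r`
  have hmr : ∀ r : ℕ, r.Prime → (r : ℤ) ∣ x → r ≠ p →
      ∃ mr, L.B mr e = 0 ∧ L.B mr f = 0 ∧ ¬ (r : ℤ) ∣ L.q mr := by
    intro r hr hrx hrp
    have hrp' := Nat.prime_iff_prime_int.1 hr
    have hrT : ¬ (r : ℤ) ∣ T := by
      intro h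
      exact hrp'.not_isUnit (hTx.isUnit_of_dvd' h hrx)
    have hr2 : ¬ (r : ℤ) ∣ 2 := by
      intro h
      apply hrT
      rw [hT]
      exact (h.trans ⟨4, by norm_num⟩).mul_right _
    have hrD : ¬ (r : ℤ) ∣ D := by
      rw [hDe]
      intro h
      rcases hrp'.dvd_or_dvd h with h | h
      · have h2 := hrp'.dvd_of_dvd_pow h
        have h3 : r ∣ p := by exact_mod_cast h2
        exact hrp ((Nat.prime_dvd_prime_iff_eq hr hp).1 h3)
      · apply hrT
        rw [hT]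
        exact h.mul_left _
    have hq1 : L.q (e + f) = 1 := by rw [L.q_add, he, hf, hef]; norm_num
    have hq2 : L.q (e - f) = -1 := by rw [L.q_sub, he, hf, hef]; norm_num
    have hB12 : L.B (e + f) (e - f) = 0 := by
      simp only [map_add, map_sub, LinearMap.add_apply, hee, hff, hfe, hef]
      norm_num
    have hB21 : L.B (e - f) (e + f) = 0 := by rw [L.symm, hB12]
    obtain ⟨y, hy1, hy2⟩ := exists_orth hr (hunim r hr hrD) (k := 2)
      (by rw [Module.finrank_eq_card_basis b, Fintype.card_fin]; norm_num)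
      ![e + f, e - f]
      (by
        intro i j hij
        fin_cases i <;> fin_cases j
        · exact absurd rfl hij
        · exact hB12
        · exact hB21
        · exact absurd rfl hij)
      (by
        intro i
        fin_cases i
        · change ¬ (r : ℤ) ∣ 2 * L.q (e + f)
          rw [hq1, mul_one]
          exact hr2
        · change ¬ (r : ℤ) ∣ 2 * L.q (e - f)
          rw [hq2, mul_neg_one, dvd_neg]
          exact hr2)
    have hy3 : L.B y (e + f) = 0 := hy1 0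
    have hy4 : L.B y (e - f) = 0 := hy1 1
    rw [map_add] at hy3
    rw [map_sub] at hy4
    exact ⟨y, by linarith, by linarith, hy2⟩
  obtain ⟨m, hme, hmf, ⟨w1, hw1⟩, ⟨w2, hw2⟩, hmr2, hneg⟩ := flip_vec (tp := tp) h1e h1f hne hnf hn
    hlame hlamf hp hβT hβp hTp hTx hβ.ne' hT0 hx0 hmr
  -- the move
  have hcop : IsCoprime (x ^ 2) (L.q m) := by
    refine IsCoprime.pow_left (IsCoprime.symm (isCoprime_of_primes hx0 fun r hr hrx hrm => ?_))
    by_cases hrp : r = p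
    · subst hrp
      have h2 : (r : ℤ) ∣ xp := by
        have h3 : xp = x - (x - xp) := by ring
        rw [h3]
        exact dvd_sub hrx hxp
      have h3 : L.q (x • (l - L.B f l • e - L.B e l • f) - (tp • m1 + (r : ℤ) • w2)) =
          β ^ 2 * L.q m := by
        rw [← hw2, sub_sub_cancel, L.q_smul]
      obtain ⟨x', hx'⟩ := hrx
      have h4 : x • (l - L.B f l • e - L.B e l • f) - (tp • m1 + (r : ℤ) • w2) =
          (r : ℤ) • (x' • (l - L.B f l • e - L.B e l • f) - w2) - tp • m1 := by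
        rw [hx']
        module
      rw [h4, L.q_sub, L.q_smul, L.q_smul, map_smul, smul_eq_mul, map_smul,
        LinearMap.smul_apply, smul_eq_mul] at h3
      generalize x' • (l - L.B f l • e - L.B e l • f) - w2 = g at h3
      have h5 : (r : ℤ) ∣ tp ^ 2 * L.q m1 := by
        have h6 : tp ^ 2 * L.q m1 = β ^ 2 * L.q m - r * (r * L.q g - tp * L.B g m1) := by
          linear_combination h3
        rw [h6]
        exact dvd_sub (hrm.mul_left _) (Dvd.intro _ rfl)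
      apply hνp
      have h6 : ν = (xp * xp - tp ^ 2 * L.q m1) - (xp ^ 2 - L.q m1 * tp ^ 2 - ν) := by ring
      rw [h6]
      exact dvd_sub (dvd_sub (h2.mul_right _) h5) hxt
    · exact hmr2 r hr hrx hrp hrm
  obtain ⟨e', f', he', hf', hef', hmove⟩ := exists_move he hf hef hl hme hmf hcop
  rw [← hβd] at hmove hneg hw1 hw2
  obtain ⟨n, hn'⟩ : ∃ n : ℤ, n = β * L.B e' l := ⟨_, rfl⟩
  have hnpos : 0 < n := by
    rw [hn', hmove]
    nlinarith [sq_nonneg x]
  have hnT : T ∣ n - 1 := by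
    rw [hn', hmove, hw1, L.q_smul]
    obtain ⟨c, hc⟩ := hxT'
    refine ⟨c * (x + 1) - T * L.q w1, ?_⟩
    linear_combination (x + 1) * hc
  have hnp : (p : ℤ) ∣ n - ν := by
    rw [hn', hmove, hw2, L.q_add, L.q_smul, L.q_smul, map_smul, smul_eq_mul]
    obtain ⟨c, hc⟩ := hxp
    obtain ⟨c', hc'⟩ := hxt
    refine ⟨c * (x + xp) + c' - p * L.q w2 - L.B (tp • m1) w2, ?_⟩
    linear_combination (x + xp) * hc + hc'
  have hBpos : 0 < L.B e' l := by
    rw [hn'] at hnpos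
    exact (pos_iff_pos_of_mul_pos hnpos).1 hβ
  -- Jacobi symbols
  have hnnat : ((n.natAbs : ℕ) : ℤ) = n := Int.natAbs_of_nonneg hnpos.le
  have hJ1 : J(D1 | n.natAbs) = 1 := jacobi_eq_one hD1.ne' (by
    rw [hnnat, ← hT]
    exact hnT)
  have hn4 : n.natAbs % 4 = 1 := by
    have h2 := h8T.trans hnT
    omega
  have hpodd : Odd p := hp.odd_of_ne_two hp2
  have hJp : J((p : ℤ) | n.natAbs) = -1 := by
    rw [← jacobiSym.quadratic_reciprocity_one_mod_four hn4 hpodd, ← hν, hnnat]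
    exact jacobiSym.mod_left' ((Int.modEq_iff_dvd).2 hnp).symm
  have hJn : J(D | n.natAbs) = -1 := by
    rw [hDe, jacobiSym.mul_left, jacobiSym.pow_left, hJ1, hJp, hv1.neg_one_pow, mul_one]
  have hnn : n.natAbs = β.natAbs * (L.B e' l).natAbs := by rw [hn', Int.natAbs_mul]
  have : NeZero β.natAbs := ⟨Int.natAbs_ne_zero.2 hβ.ne'⟩
  have : NeZero (L.B e' l).natAbs := ⟨Int.natAbs_ne_zero.2 hBpos.ne'⟩
  rw [hnn, jacobiSym.mul_right, hJ] at hJn
  -- coprimality
  have hnc : IsCoprime n (2 * D) := by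
    have h2 : IsCoprime n T := by
      obtain ⟨c, hc⟩ := hnT
      exact ⟨1, -c, by linear_combination hc⟩
    have h3 : IsCoprime n (p : ℤ) := by
      refine IsCoprime.symm ((Prime.coprime_iff_not_dvd hpp).2 fun h => hνp ?_)
      have h4 : ν = n - (n - ν) := by ring
      rw [h4]
      exact dvd_sub h hnp
    rw [hT] at h2
    have h4 : IsCoprime n 2 := by
      have h5 := h2.of_mul_right_left
      rw [show (8 : ℤ) = 2 * 4 by norm_num] at h5
      exact h5.of_mul_right_left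
    rw [hDe]
    exact h4.mul_right ((h3.pow_right).mul_right h2.of_mul_right_right)
  rw [hn'] at hnc
  exact ⟨e', f', he', hf', hef', hnc.of_mul_left_right, by linarith⟩

/-- PROOF. Write `D = gdet L b = p^v D1`, `v` odd, `p ∤ D1`, `D1 > 0`, `T := 8 D1`. Replacing
`(e, f)` by `(-e, -f)` we may assume `β = B(e, l) > 0` (`β ≠ 0`). `β, T, p` are pairwise coprime.
(1) Let `ν` be a quadratic non-residue modulo `p` (`exists_nonresidue` in
`Pool.Agent.MP4d0966.R4Local` or `FiniteField.exists_nonsquare`), `u1 := q(m1)`; there are integers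
`xp, tp` with `xp² - u1 tp² ≡ ν` modulo `p` (`FiniteField.exists_root_sum_quadratic` for
`X² - ν` and `-u1 Y²`, `p` odd). Choose an integer `x > 0` with `x ≡ xp` modulo `p`, `x ≡ 1` modulo
`T` and
modulo `β`.
(2) For a prime `r ∣ x`, `r ≠ p`: `r ∤ T β`, so `r ∤ 2 D`, and `exists_orth` (`k = 2`, vectors
`e + f, e - f`, `unim`) gives `m_r ∈ M` with `r ∤ q(m_r)`.
(3) CHINESE REMAINDERS: there is `m ∈ M` with `β m ≡ x λ` modulo `T M` (for instance
`m ≡ β' λ`, `β' β ≡ 1` modulo `T`), `β m ≡ x λ - tp m1` modulo `p M`, `m ≡ m_r` modulo `r M` for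
the primes
`r ∣ x`, `r ≠ p`. (Do it as follows: find `m'` for the primes `p` and `r ∣ x` by `exists_crt`, and
combine with the class modulo `T` by Bezout, `T` being coprime to `p x`; all combinations stay
in `M`.) Adding to `m` a multiple `T p x K` of a vector `x_- ∈ M` of negative norm, `K` large, does
not
change the congruences and makes `q(x λ - β m)` negative.
(4) `x²` and `q(m)` are coprime: for a prime `r ∣ x`, `r ≠ p`, `q(m) ≡ q(m_r)` is not
divisible by `r`; if `p ∣ x` then `xp ≡ 0`, `-u1 tp² ≡ ν`, and `β m ≡ -tp m1` gives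
`β² q(m) ≡ tp² u1 ≡ -ν`, not divisible by `p`.
(5) `exists_move`: `e', f'` with `n := β B(e', l) = x² - q(μ) > 0`, `μ = x λ - β m`. Modulo `T`:
`μ ∈ T M`, so `n ≡ x² ≡ 1`. Modulo `p`: `μ ≡ tp m1`, `n ≡ xp² - u1 tp² ≡ ν`.
So `n` (a positive integer) is coprime to `2 D`, `J(D1 | n) = 1` (`jacobi_eq_one`, `8 D1 ∣ n - 1`),
`J(p | n) = J(n | p) = -1` (`n ≡ 1` modulo `4`, `n ≡ ν` modulo `p`), `J(D | n) = J(p | n)^v J(D1 |
n) = -1`.
As `n = β B(e', l)` with both factors positive, `J(D | n) = J(D | β) J(D | B(e', l))`, so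
`J(D | B(e', l)) = 1`, and `B(e', l)` is coprime to `2 D`. -/
theorem exists_flip {L : EvenForm N} {b : Module.Basis (Fin 4) ℤ N} (hD : 0 < gdet L b)
    {e f l m1 mneg : N} (he : L.q e = 0) (hf : L.q f = 0) (hef : L.B e f = 1) (hl : L.q l = 1)
    (hco : IsCoprime (L.B e l) (2 * gdet L b)) (hJ : J(gdet L b | (L.B e l).natAbs) = -1)
    {p : ℕ} (hp : p.Prime) (hp2 : p ≠ 2) (hv : Odd (padicValInt p (gdet L b)))
    (h1e : L.B m1 e = 0) (h1f : L.B m1 f = 0) (h1 : ¬ (p : ℤ) ∣ L.q m1)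
    (hne : L.B mneg e = 0) (hnf : L.B mneg f = 0) (hn : L.q mneg < 0) :
    ∃ e' f' : N, L.q e' = 0 ∧ L.q f' = 0 ∧ L.B e' f' = 1 ∧
      IsCoprime (L.B e' l) (2 * gdet L b) ∧ J(gdet L b | (L.B e' l).natAbs) = 1 := by
  have hβ0 : L.B e l ≠ 0 := by
    intro h0
    rw [h0, isCoprime_zero_left, Int.isUnit_iff] at hco
    omega
  rcases lt_or_gt_of_ne hβ0 with h | h
  · have e1 : L.q (-e) = 0 := by
      have h2 := L.q_smul (-1) e
      rw [he, mul_zero, neg_one_smul] at h2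
      exact h2
    have e2 : L.q (-f) = 0 := by
      have h2 := L.q_smul (-1) f
      rw [hf, mul_zero, neg_one_smul] at h2
      exact h2
    have e3 : L.B (-e) (-f) = 1 := by
      rw [map_neg, map_neg, LinearMap.neg_apply, neg_neg, hef]
    have e4 : L.B (-e) l = -L.B e l := by
      rw [map_neg, LinearMap.neg_apply]
    refine flip_pos hD e1 e2 e3 hl (by rw [e4]; linarith) (by rw [e4]; exact hco.neg_left)
      (by rw [e4, Int.natAbs_neg]; exact hJ) hp hp2 hv (m1 := m1) (mneg := mneg) ?_ ?_ h1 ?_ ?_ hn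
    · rw [map_neg, h1e, neg_zero]
    · rw [map_neg, h1f, neg_zero]
    · rw [map_neg, hne, neg_zero]
    · rw [map_neg, hnf, neg_zero]
  · exact flip_pos hD he hf hef hl h hco hJ hp hp2 hv h1e h1f h1 hne hnf hn

end Pool.Agent.AllRank
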