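import Pool.Agent.AllRank.FMove
import Pool.Agent.AllRank.FNeg
import Pool.Agent.AllRank.Recip
import Pool.Agent.AllRank.Adapt

set_option autoImplicit false

/-!
ALLRANK, file FlipFour: rank `4`, discriminant `4 D1` with `D1 > 0`, `D1 ≡ 3 (4)`: the sign of the
Jacobi symbol can be changed. MODEL: the proof of `exists_flip_two` in file FlipTwo (same
structure; copy and adapt).
NOTATION: `M = {m | B(m, e) = B(m, f) = 0}`, `λ = l - α e - β f ∈ M`, `α = B(f, l)`, `β = B(e, l)`.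
-/

namespace Pool.Agent.AllRank

open Pool.Agent.MP4d0966
open scoped NumberTheorySymbols

variable {N : Type*} [AddCommGroup N]

/-- PROOF. `exists_adapted`, `gdet_adapted` (file Adapt): `u, v ∈ M` with
`4 D1 = B² - 4 A C`, `A = q(u)`, `B = B(u, v)`, `C = q(v)`. So `B = 2 B'` and
`A C = B'² - D1 ≡ B'² + 1 (4)`. If `B'` is odd, `A C ≡ 2 (4)` and one of `A, C` is `≡ 2 (4)`. If
`B'` is even, `A C ≡ 1 (4)`, `A ≡ C ≡ ± 1 (4)`, and `q(u + v) = A + C + 2 B' ≡ 2 (4)`. -/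
theorem exists_two_mod_four {L : EvenForm N} {b : Module.Basis (Fin 4) ℤ N} {D1 : ℤ}
    (hD : gdet L b = 4 * D1) (h3 : D1 % 4 = 3) {e f : N} (he : L.q e = 0) (hf : L.q f = 0)
    (hef : L.B e f = 1) : ∃ z, L.B z e = 0 ∧ L.B z f = 0 ∧ L.q z % 4 = 2 := by
  obtain ⟨c, h0, h1, h2e, h2f, h3e, h3f⟩ := exists_adapted b he hf hef
  have hg := gdet_adapted b c (by rw [h0, he]) (by rw [h1, hf]) (by rw [h0, h1, hef])
    (by rw [h0, h2e]) (by rw [h1, h2f]) (by rw [h0, h3e]) (by rw [h1, h3f])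
  rw [hD] at hg
  set A := L.q (c 2) with hA
  set C := L.q (c 3) with hC
  set B := L.B (c 2) (c 3) with hB
  -- `B` is even
  obtain ⟨B', hB' | hB'⟩ := Int.even_or_odd' B
  swap
  · exfalso
    rw [hB'] at hg
    have h4 : 4 * D1 = 2 * (2 * B' ^ 2 + 2 * B' - 2 * (A * C)) + 1 := by rw [hg]; ring
    omega
  have hAC : A * C = B' ^ 2 - D1 := by
    have h4 : 4 * D1 = 4 * (B' ^ 2 - A * C) := by rw [hg, hB']; ring
    linarith
  have hm := Int.mul_emod A C 4
  have hA4 : A % 4 = 0 ∨ A % 4 = 1 ∨ A % 4 = 2 ∨ A % 4 = 3 := by omega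
  have hC4 : C % 4 = 0 ∨ C % 4 = 1 ∨ C % 4 = 2 ∨ C % 4 = 3 := by omega
  rcases Int.even_or_odd' B' with ⟨k, hk | hk⟩
  · -- `B'` even
    have h5 : (A * C) % 4 = 1 := by
      rw [hAC, hk]
      have h6 : (2 * k) ^ 2 = 4 * k ^ 2 := by ring
      rw [h6]
      omega
    rw [h5] at hm
    refine ⟨c 2 + c 3, by rw [map_add, LinearMap.add_apply, h2e, h3e, add_zero],
      by rw [map_add, LinearMap.add_apply, h2f, h3f, add_zero], ?_⟩
    rw [L.q_add, ← hA, ← hB, ← hC, hB', hk]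
    rcases hA4 with h | h | h | h <;> rcases hC4 with h' | h' | h' | h' <;>
      rw [h, h'] at hm <;> omega
  · -- `B'` odd
    have h5 : (A * C) % 4 = 2 := by
      rw [hAC, hk]
      have h6 : (2 * k + 1) ^ 2 = 4 * (k ^ 2 + k) + 1 := by ring
      rw [h6]
      omega
    rw [h5] at hm
    by_cases h : A % 4 = 2
    · exact ⟨c 2, h2e, h2f, h⟩
    · refine ⟨c 3, h3e, h3f, ?_⟩
      rcases hA4 with h7 | h7 | h7 | h7 <;> rcases hC4 with h' | h' | h' | h' <;>
        rw [h7, h'] at hm <;> omega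

/-- Positivity. -/
private theorem neg_large4 (L : EvenForm N) {μ0 x : N} {c K : ℤ} (hc : c ≠ 0)
    (hx : L.q x < 0) (hK : K = |L.q μ0| + |L.B μ0 x| + 1) : L.q (μ0 + (c * K) • x) < 0 := by
  rw [L.q_add, L.q_smul, map_smul, smul_eq_mul]
  have hK1 : 1 ≤ K := by
    have := abs_nonneg (L.q μ0)
    have := abs_nonneg (L.B μ0 x)
    omega
  have hc1 : 1 ≤ |c| := Int.one_le_abs hc
  have h2 : (c * K) ^ 2 = (|c| * K) ^ 2 := by rw [mul_pow, mul_pow, sq_abs]
  have h3 : |c * K * L.B μ0 x| = |c| * K * |L.B μ0 x| := by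
    rw [abs_mul, abs_mul, abs_of_pos (by omega : 0 < K)]
  have h4 := le_abs_self (c * K * L.B μ0 x)
  have h5 := le_abs_self (L.q μ0)
  rw [h3] at h4
  rw [h2]
  set X := |c| * K with hX
  have hX1 : K ≤ X := by nlinarith
  have h6 : X * |L.B μ0 x| + |L.q μ0| < X ^ 2 := by
    have h7 : |L.B μ0 x| ≤ K - 1 - |L.q μ0| := by omega
    have h8 := abs_nonneg (L.q μ0)
    nlinarith
  have h7 : X ^ 2 * L.q x ≤ -X ^ 2 := by nlinarith [sq_nonneg X]
  linarith

/-- PROOF. Let `z ∈ M` with `q(z) ≡ 2 (4)` (`exists_two_mod_four`). `W := 4 D1` is coprime to `β`: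
`r β + w W = 1`. Put `m := r • (λ - D1 • z) - (W K) • mneg`, `K` large, so that
`μ := λ - β m = D1 • z + W • y`, `y = w • (λ - D1 • z) + (β K) • mneg`, and `q(μ) < 0` for `K`
large (`neg_large` in FlipTwo; copy it). `exists_move` with `x = 1`:
`β B(e', l) = 1 - q(μ) = n > 0`. `q(μ) = D1² q(z) + W D1 B(z, y) + W² q(y)` is divisible by `D1`
and is `≡ 2 (4)` (`D1` odd), so `n ≡ 1` modulo `D1`, `n ≡ 3 (4)`; `n` is coprime to `2 D`, and
`J(4 D1 | n) = J(D1 | n) = - J(n | D1) = -J(1 | D1) = -1` (quadratic reciprocity for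
`D1 ≡ n ≡ 3 (4)`, `jacobiSym.quadratic_reciprocity_three_mod_four`; `J(4 | n) = 1`,
`jacobiSym.sq_one'`). `n = |β| |B(e', l)|`, so `J(D | |B(e', l)|) = 1`. -/
theorem exists_flip_four {L : EvenForm N} {b : Module.Basis (Fin 4) ℤ N} {D1 : ℤ} (hD1 : 0 < D1)
    (hD : gdet L b = 4 * D1) (h3 : D1 % 4 = 3)
    {e f l mneg : N} (he : L.q e = 0) (hf : L.q f = 0) (hef : L.B e f = 1) (hl : L.q l = 1)
    (hco : IsCoprime (L.B e l) (2 * gdet L b)) (hJ : J(gdet L b | (L.B e l).natAbs) = -1)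
    (hne : L.B mneg e = 0) (hnf : L.B mneg f = 0) (hn : L.q mneg < 0) :
    ∃ e' f' : N, L.q e' = 0 ∧ L.q f' = 0 ∧ L.B e' f' = 1 ∧
      IsCoprime (L.B e' l) (2 * gdet L b) ∧ J(gdet L b | (L.B e' l).natAbs) = 1 := by
  obtain ⟨z, hze, hzf, hz⟩ := exists_two_mod_four hD h3 he hf hef
  have hee : L.B e e = 0 := by rw [L.hq, he, mul_zero]
  have hff : L.B f f = 0 := by rw [L.hq, hf, mul_zero]
  have hfe : L.B f e = 1 := by rw [L.symm, hef]
  obtain ⟨D, rfl⟩ : ∃ D : ℕ, D1 = D := ⟨D1.toNat, by omega⟩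
  rw [hD] at hco hJ ⊢
  have hD0 : (D : ℤ) ≠ 0 := hD1.ne'
  have hD3 : D % 4 = 3 := by omega
  -- `β` is not zero
  have hβ0 : L.B e l ≠ 0 := by
    intro h
    rw [h] at hco
    have h1 := isCoprime_zero_left.1 hco
    rw [Int.isUnit_iff] at h1
    omega
  have hco2 : IsCoprime (L.B e l) (4 * (D : ℤ)) :=
    hco.of_isCoprime_of_dvd_right (dvd_mul_left _ _)
  obtain ⟨r, w, hrw⟩ := hco2
  set lam := l - L.B f l • e - L.B e l • f with hlam
  have hlame : L.B lam e = 0 := by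
    simp only [hlam, map_sub, map_smul, LinearMap.sub_apply, LinearMap.smul_apply, smul_eq_mul,
      hee, hfe, L.symm l e]
    ring
  have hlamf : L.B lam f = 0 := by
    simp only [hlam, map_sub, map_smul, LinearMap.sub_apply, LinearMap.smul_apply, smul_eq_mul,
      hff, hef, L.symm l f]
    ring
  -- the vector `m`
  set y0 : N := w • (lam - (D : ℤ) • z) with hy0
  set K : ℤ := |L.q ((D : ℤ) • z + (4 * (D : ℤ)) • y0)|
    + |L.B ((D : ℤ) • z + (4 * (D : ℤ)) • y0) mneg| + 1 with hK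
  set m : N := r • (lam - (D : ℤ) • z) - (4 * (D : ℤ) * K) • mneg with hm
  have hme : L.B m e = 0 := by
    simp only [hm, map_sub, map_smul, LinearMap.sub_apply, LinearMap.smul_apply, smul_eq_mul,
      hlame, hze, hne]
    ring
  have hmf : L.B m f = 0 := by
    simp only [hm, map_sub, map_smul, LinearMap.sub_apply, LinearMap.smul_apply, smul_eq_mul,
      hlamf, hzf, hnf]
    ring
  obtain ⟨e', f', he', hf', hef', hprod⟩ := exists_move (L := L) he hf hef hl hme hmf (x := 1)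
    (by rw [one_pow]; exact isCoprime_one_left)
  set y : N := y0 + (L.B e l * K) • mneg with hy
  have hμ : (1 : ℤ) • (l - L.B f l • e - L.B e l • f) - L.B e l • m
      = (D : ℤ) • z + (4 * (D : ℤ)) • y := by
    have h1 : L.B e l • (r • (lam - (D : ℤ) • z)) =
        (lam - (D : ℤ) • z) - (4 * (D : ℤ)) • (w • (lam - (D : ℤ) • z)) := by
      rw [smul_smul, smul_smul, show L.B e l * r = 1 - (4 * (D : ℤ)) * w by linarith]
      module
    rw [← hlam, one_smul, hm, smul_sub (L.B e l) (r • (lam - (D : ℤ) • z))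
      ((4 * (D : ℤ) * K) • mneg), h1, hy, hy0]
    module
  rw [hμ] at hprod
  set μ := (D : ℤ) • z + (4 * (D : ℤ)) • y with hμd
  have hqμ : L.q μ = D ^ 2 * L.q z + 4 * D ^ 2 * L.B z y + 16 * D ^ 2 * L.q y := by
    rw [hμd, L.q_add, L.q_smul, L.q_smul]
    simp only [map_smul, LinearMap.smul_apply, smul_eq_mul]
    ring
  -- positivity
  have hneg : L.q μ < 0 := by
    have h1 : μ = ((D : ℤ) • z + (4 * (D : ℤ)) • y0) + (4 * (D : ℤ) * L.B e l * K) • mneg := by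
      rw [hμd, hy]
      module
    rw [h1]
    refine neg_large4 L ?_ hn hK
    exact mul_ne_zero (mul_ne_zero (by norm_num) hD0) hβ0
  -- the number `n`
  obtain ⟨n, hn1⟩ : ∃ n : ℕ, L.B e l * L.B e' l = n :=
    ⟨(L.B e l * L.B e' l).toNat, by omega⟩
  have hn4 : n % 4 = 3 := by
    obtain ⟨q0, hq0⟩ : ∃ q0, L.q z = 4 * q0 + 2 := ⟨L.q z / 4, by omega⟩
    obtain ⟨d, hd⟩ : ∃ d : ℤ, (D : ℤ) = 4 * d + 3 := ⟨(D : ℤ) / 4, by omega⟩
    have h2 : (n : ℤ) = 4 * (-(D ^ 2 * q0 + (8 * d ^ 2 + 12 * d + 4) + D ^ 2 * L.B z y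
        + 4 * D ^ 2 * L.q y)) - 1 := by
      rw [← hn1, hprod, hqμ, hq0]
      have h4 : (D : ℤ) ^ 2 = 16 * d ^ 2 + 24 * d + 9 := by rw [hd]; ring
      linear_combination (-2 : ℤ) * h4
    omega
  have hnD : (n : ℤ) = 1 + D * (-(D * L.q z + 4 * D * L.B z y + 16 * D * L.q y)) := by
    rw [← hn1, hprod, hqμ]
    ring
  have hnodd : Odd n := by rw [Nat.odd_iff]; omega
  have hn2 : IsCoprime (n : ℤ) 2 := by
    refine ⟨1, -(n / 2 : ℕ), ?_⟩
    have : n = 2 * (n / 2) + 1 := by omega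
    push_cast
    omega
  have hnco : IsCoprime (n : ℤ) (2 * (4 * (D : ℤ))) := by
    have h2 : IsCoprime (n : ℤ) (D : ℤ) :=
      ⟨1, D * L.q z + 4 * D * L.B z y + 16 * D * L.q y, by rw [hnD]; ring⟩
    have h4 : IsCoprime (n : ℤ) (2 ^ 2) := hn2.pow_right
    norm_num at h4
    exact hn2.mul_right (h4.mul_right h2)
  have hJn : J(4 * (D : ℤ) | n) = -1 := by
    rw [jacobiSym.mul_left]
    have h1 : J(4 | n) = 1 := by
      have h2 : Int.gcd 2 (n : ℤ) = 1 := Int.isCoprime_iff_gcd_eq_one.1 hn2.symm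
      have h4 := jacobiSym.sq_one' (a := 2) (b := n) h2
      norm_num at h4
      exact h4
    have h2 : J((D : ℤ) | n) = -1 := by
      rw [jacobiSym.quadratic_reciprocity_three_mod_four hD3 hn4, jacobiSym.mod_left]
      have h4 : (n : ℤ) % (D : ℤ) = 1 % (D : ℤ) := by
        rw [hnD, Int.add_mul_emod_self_left]
      rw [h4, ← jacobiSym.mod_left, jacobiSym.one_left]
    rw [h1, h2, one_mul]
  refine ⟨e', f', he', hf', hef', ?_, ?_⟩
  · exact hnco.of_isCoprime_of_dvd_left ⟨L.B e l, by rw [← hn1]; ring⟩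
  · have h1 : n = (L.B e l).natAbs * (L.B e' l).natAbs := by
      rw [← Int.natAbs_mul, hn1, Int.natAbs_natCast]
    have hn0 : n ≠ 0 := by omega
    rw [h1] at hJn hn0
    rw [jacobiSym.mul_right' _ (left_ne_zero_of_mul hn0) (right_ne_zero_of_mul hn0), hJ] at hJn
    linarith

end Pool.Agent.AllRank
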