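import Pool.Agent.AllRank.FMove
import Pool.Agent.AllRank.FNeg
import Pool.Agent.AllRank.Recip

set_option autoImplicit false

/-!
ALLRANK, file FlipNeg: rank `4`, negative discriminant: the sign of the Jacobi symbol can be
changed. MODEL: the proof of `exists_flip_two` in file FlipTwo (same structure; copy and adapt).
NOTATION: `M = {m | B(m, e) = B(m, f) = 0}`, `λ = l - α e - β f ∈ M`, `α = B(f, l)`, `β = B(e, l)`.
-/

namespace Pool.Agent.AllRank

open Pool.Agent.MP4d0966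
open scoped NumberTheorySymbols

variable {N : Type*} [AddCommGroup N]

/-- Positivity. -/
private theorem pos_large (L : EvenForm N) {μ0 x : N} {c K : ℤ} (hc : c ≠ 0)
    (hx : 0 < L.q x) (hK : K = |L.q μ0| + |L.B μ0 x| + 1) : 0 < L.q (μ0 + (c * K) • x) := by
  rw [L.q_add, L.q_smul, map_smul, smul_eq_mul]
  have hK1 : 1 ≤ K := by
    have := abs_nonneg (L.q μ0)
    have := abs_nonneg (L.B μ0 x)
    omega
  have hc1 : 1 ≤ |c| := Int.one_le_abs hc
  have h2 : (c * K) ^ 2 = (|c| * K) ^ 2 := by rw [mul_pow, mul_pow, sq_abs]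
  have h3 : |c * K * L.B μ0 x| = |c| * K * |L.B μ0 x| := by
    rw [abs_mul, abs_mul, abs_of_pos (by omega : 0 < K)]
  have h4 := neg_abs_le (c * K * L.B μ0 x)
  have h5 := neg_abs_le (L.q μ0)
  rw [h3] at h4
  rw [h2]
  set X := |c| * K with hX
  have hX1 : K ≤ X := by nlinarith
  have h6 : X * |L.B μ0 x| + |L.q μ0| < X ^ 2 := by
    have h7 : |L.B μ0 x| ≤ K - 1 - |L.q μ0| := by omega
    have h8 := abs_nonneg (L.q μ0)
    nlinarith
  have h7 : X ^ 2 ≤ X ^ 2 * L.q x := by nlinarith [sq_nonneg X]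
  linarith

/-- `n ≡ -1` modulo `8 D'`: the symbol `J(D' | n)` is `1`. -/
private theorem jac_one {D' n : ℕ} (hD0 : D' ≠ 0) {Y : ℤ}
    (hn : (n : ℤ) = 64 * (D' : ℤ) ^ 2 * Y - 1) : J((D' : ℤ) | n) = 1 := by
  obtain ⟨v, D1, hD1, hvD⟩ := Nat.exists_eq_pow_mul_and_not_dvd hD0 2 (by norm_num)
  have hn8 : n % 8 = 7 := by
    have h : (n : ℤ) = 8 * (8 * (D' : ℤ) ^ 2 * Y) - 1 := by rw [hn]; ring
    omega
  have hnodd : Odd n := by rw [Nat.odd_iff]; omega
  have hD1odd : Odd D1 := by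
    rw [Nat.odd_iff]
    omega
  have h2 : J(2 | n) = 1 := by
    rw [jacobiSym.at_two hnodd, ZMod.χ₈_nat_eq_if_mod_eight]
    simp [hn8]
    omega
  have h3 : J((n : ℤ) | D1) = J(-1 | D1) := by
    rw [jacobiSym.mod_left]
    have h4 : (n : ℤ) % (D1 : ℤ) = (-1) % (D1 : ℤ) := by
      have h5 : (n : ℤ) = -1 + (D1 : ℤ) * (64 * 2 ^ v * D' * Y) := by
        have h6 : (D' : ℤ) = 2 ^ v * D1 := by exact_mod_cast hvD
        rw [hn]
        nth_rewrite 1 [pow_two]
        nth_rewrite 1 [h6]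
        ring
      rw [h5, Int.add_mul_emod_self_left]
    rw [h4, ← jacobiSym.mod_left]
  have h4 : J((D1 : ℤ) | n) = 1 := by
    have h5 : D1 % 4 = 1 ∨ D1 % 4 = 3 := by
      rw [Nat.odd_iff] at hD1odd
      omega
    rcases h5 with h5 | h5
    · rw [jacobiSym.quadratic_reciprocity_one_mod_four h5 hnodd, h3,
        jacobiSym.at_neg_one hD1odd, ZMod.χ₄_nat_one_mod_four h5]
    · rw [jacobiSym.quadratic_reciprocity_three_mod_four h5 (by omega), h3,
        jacobiSym.at_neg_one hD1odd, ZMod.χ₄_nat_three_mod_four h5]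
      norm_num
  rw [hvD]
  push_cast
  rw [jacobiSym.mul_left, jacobiSym.pow_left, h2, h4, one_pow, mul_one]

/-- PROOF. `D = gdet L b = -D'`, `D' > 0`, `W := 8 D'`; `β` is coprime to `W`: `r β + w W = 1`.
Put `m := r • λ - (W K) • mp`, `K` a large integer, so that
`μ := λ - β m = W • (w • λ + (β K) • mp)`. For `K` large `q(μ) > 1` (`β ≠ 0`, `q(mp) > 0`; compare
`neg_large` in FlipTwo). `exists_move` with `x = 1` gives `e', f'` with
`β B(e', l) = 1 - q(μ) = -n`, `n > 0` a natural number, and `W² ∣ q(μ)`, so `n ≡ -1` modulo `8 D'`.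
So `n` is coprime to `2 D`, and `J(D | n) = J(-1 | n) J(D' | n)`, `J(-1 | n) = -1` (`n ≡ 3 (4)`).
`J(D' | n) = 1`: write `D' = 2 ^ a D''`, `D''` odd; `J(2 | n) = 1` as `n ≡ 7 (8)`
(`jacobiSym.at_two`); for `D'' ≡ 1 (4)`: `J(D'' | n) = J(n | D'') = J(-1 | D'') = 1`; for
`D'' ≡ 3 (4)`: `J(D'' | n) = -J(n | D'') = -J(-1 | D'') = 1` (quadratic reciprocity; `n ≡ -1`
modulo `D''`). So `J(D | n) = -1`, `n = |β| |B(e', l)|`, `J(D | |β|) = -1`, so
`J(D | |B(e', l)|) = 1`. -/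
theorem exists_flip_neg {L : EvenForm N} {b : Module.Basis (Fin 4) ℤ N} (hD : gdet L b < 0)
    {e f l mp : N} (he : L.q e = 0) (hf : L.q f = 0) (hef : L.B e f = 1) (hl : L.q l = 1)
    (hco : IsCoprime (L.B e l) (2 * gdet L b)) (hJ : J(gdet L b | (L.B e l).natAbs) = -1)
    (hpe : L.B mp e = 0) (hpf : L.B mp f = 0) (hmp : 0 < L.q mp) :
    ∃ e' f' : N, L.q e' = 0 ∧ L.q f' = 0 ∧ L.B e' f' = 1 ∧
      IsCoprime (L.B e' l) (2 * gdet L b) ∧ J(gdet L b | (L.B e' l).natAbs) = 1 := by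
  have hodd : ¬ (2 : ℤ) ∣ L.B e l := by
    intro h
    have h2 : IsCoprime (2 : ℤ) 2 :=
      (hco.of_isCoprime_of_dvd_left h).of_isCoprime_of_dvd_right (dvd_mul_right _ _)
    rw [isCoprime_self, Int.isUnit_iff] at h2
    omega
  have hβ0 : L.B e l ≠ 0 := by
    intro h
    exact hodd (by rw [h]; exact dvd_zero _)
  have hee : L.B e e = 0 := by rw [L.hq, he, mul_zero]
  have hff : L.B f f = 0 := by rw [L.hq, hf, mul_zero]
  have hfe : L.B f e = 1 := by rw [L.symm, hef]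
  obtain ⟨D, hDD⟩ : ∃ D : ℕ, gdet L b = -(D : ℤ) := ⟨(-gdet L b).toNat, by omega⟩
  rw [hDD] at hD hco hJ ⊢
  have hD0 : D ≠ 0 := by
    rintro rfl
    simp at hD
  have hco2 : IsCoprime (L.B e l) (8 * (D : ℤ)) := by
    have h1 : IsCoprime (L.B e l) 2 := hco.of_isCoprime_of_dvd_right (dvd_mul_right _ _)
    have h2 : IsCoprime (L.B e l) (D : ℤ) := hco.of_isCoprime_of_dvd_right ⟨-2, by ring⟩
    have h3 : IsCoprime (L.B e l) (2 ^ 3) := h1.pow_right
    norm_num at h3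
    exact h3.mul_right h2
  obtain ⟨r, w, hrw⟩ := hco2
  set lam := l - L.B f l • e - L.B e l • f with hlam
  have hlame : L.B lam e = 0 := by
    simp only [hlam, map_sub, map_smul, LinearMap.sub_apply, LinearMap.smul_apply, smul_eq_mul,
      hee, hfe, L.symm l e]
    ring
  have hlamf : L.B lam f = 0 := by
    simp only [hlam, map_sub, map_smul, LinearMap.sub_apply, LinearMap.smul_apply, smul_eq_mul,
      hff, hef, L.symm l f]
    ring
  set K : ℤ := |L.q (w • lam)| + |L.B (w • lam) mp| + 1 with hK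
  set m : N := r • lam - (8 * (D : ℤ) * K) • mp with hm
  have hme : L.B m e = 0 := by
    simp only [hm, map_sub, map_smul, LinearMap.sub_apply, LinearMap.smul_apply, smul_eq_mul,
      hlame, hpe]
    ring
  have hmf : L.B m f = 0 := by
    simp only [hm, map_sub, map_smul, LinearMap.sub_apply, LinearMap.smul_apply, smul_eq_mul,
      hlamf, hpf]
    ring
  obtain ⟨e', f', he', hf', hef', hprod⟩ := exists_move (L := L) he hf hef hl hme hmf (x := 1)
    (by rw [one_pow]; exact isCoprime_one_left)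
  set y : N := w • lam + (L.B e l * K) • mp with hy
  have hμ : (1 : ℤ) • (l - L.B f l • e - L.B e l • f) - L.B e l • m = (8 * (D : ℤ)) • y := by
    have h1 : L.B e l • (r • lam) = lam - (8 * (D : ℤ)) • (w • lam) := by
      rw [smul_smul, smul_smul, show L.B e l * r = 1 - (8 * (D : ℤ)) * w by linarith]
      module
    rw [← hlam, one_smul, hm, smul_sub (L.B e l) (r • lam) ((8 * (D : ℤ) * K) • mp), h1, hy]
    module
  rw [hμ, L.q_smul] at hprod
  have hpos : 0 < L.q y := pos_large L hβ0 hmp hK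
  have hD1 : (1 : ℤ) ≤ (D : ℤ) := by
    have := Nat.one_le_iff_ne_zero.2 hD0
    exact_mod_cast this
  have hbig : (64 : ℤ) ≤ (8 * (D : ℤ)) ^ 2 * L.q y := by
    have h1 : (1 : ℤ) ≤ (D : ℤ) ^ 2 * L.q y := by
      have h2 : (1 : ℤ) ≤ (D : ℤ) ^ 2 := one_le_pow₀ hD1
      have h3 : (1 : ℤ) ≤ L.q y := hpos
      nlinarith
    nlinarith
  -- the number `n`
  obtain ⟨n, hn1⟩ : ∃ n : ℕ, L.B e l * L.B e' l = -(n : ℤ) :=
    ⟨(-(L.B e l * L.B e' l)).toNat, by omega⟩
  have hn2 : (n : ℤ) = 64 * (D : ℤ) ^ 2 * L.q y - 1 := by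
    linear_combination -hprod + hn1
  have hnco : IsCoprime (n : ℤ) (2 * -(D : ℤ)) :=
    ⟨-1, -32 * D * L.q y, by rw [hn2]; ring⟩
  have hn8 : n % 8 = 7 := by
    have h : (n : ℤ) = 8 * (8 * (D : ℤ) ^ 2 * L.q y) - 1 := by rw [hn2]; ring
    omega
  have hnodd : Odd n := by rw [Nat.odd_iff]; omega
  have hJn : J(-(D : ℤ) | n) = -1 := by
    rw [neg_eq_neg_one_mul, jacobiSym.mul_left, jac_one hD0 hn2, mul_one,
      jacobiSym.at_neg_one hnodd, ZMod.χ₄_nat_three_mod_four (by omega)]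
  refine ⟨e', f', he', hf', hef', ?_, ?_⟩
  · refine hnco.of_isCoprime_of_dvd_left ⟨-L.B e l, ?_⟩
    linear_combination hn1
  · have h1 : n = (L.B e l).natAbs * (L.B e' l).natAbs := by
      rw [← Int.natAbs_mul, hn1, Int.natAbs_neg, Int.natAbs_natCast]
    have hn0 : n ≠ 0 := by omega
    rw [h1] at hJn hn0
    rw [jacobiSym.mul_right' _ (left_ne_zero_of_mul hn0) (right_ne_zero_of_mul hn0), hJ] at hJn
    linarith

end Pool.Agent.AllRank
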