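import Pool.Agent.AllRank.SymProd

set_option autoImplicit false

/-!
ALLRANK, file SymJac: two consequences of the product formula `hs_prod` (file SymProd, a black
box). `S` is a finite set of primes containing the prime divisors of `2 d`.
-/

namespace Pool.Agent.AllRank

open scoped NumberTheorySymbols

private theorem prime_mem_union {S : Finset ℕ} (hS : ∀ p ∈ S, p.Prime) (n : ℤ) :
    ∀ p ∈ S ∪ n.natAbs.primeFactors, p.Prime := by
  intro p hp
  rcases Finset.mem_union.1 hp with h | h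
  · exact hS p h
  · exact Nat.prime_of_mem_primeFactors h

private theorem mem_union_of_dvd {d : ℕ} {S : Finset ℕ}
    (hS2 : ∀ p : ℕ, p.Prime → p ∣ 2 * d → p ∈ S) {n : ℤ} (hn : n ≠ 0) :
    ∀ p : ℕ, p.Prime → (p : ℤ) ∣ 2 * d * n → p ∈ S ∪ n.natAbs.primeFactors := by
  intro p hp h
  rcases (Nat.prime_iff_prime_int.mp hp).dvd_or_dvd h with h | h
  · exact Finset.mem_union_left _ (hS2 p hp (by exact_mod_cast h))
  · refine Finset.mem_union_right _ ((Nat.mem_primeFactors).2
      ⟨hp, Int.natCast_dvd.1 h, Int.natAbs_ne_zero.2 hn⟩)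

private theorem jac_prod (a : ℤ) (s : Finset ℕ) (f : ℕ → ℕ) (hf : ∀ i ∈ s, f i ≠ 0) :
    J(a | ∏ i ∈ s, f i) = ∏ i ∈ s, J(a | f i) := by
  classical
  induction s using Finset.induction_on with
  | empty => simp
  | insert i s hi ih =>
    rw [Finset.prod_insert hi, Finset.prod_insert hi,
      jacobiSym.mul_right' a (hf i (Finset.mem_insert_self _ _))
        (Finset.prod_ne_zero_iff.2 fun j hj => hf j (Finset.mem_insert_of_mem hj)),
      ih fun j hj => hf j (Finset.mem_insert_of_mem hj)]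

private theorem jac_factor (a : ℤ) {m : ℕ} (hm : m ≠ 0) :
    J(a | m) = ∏ p ∈ m.primeFactors, J(a | p) ^ m.factorization p := by
  have h1 : m = ∏ p ∈ m.primeFactors, p ^ m.factorization p :=
    Nat.prod_primeFactors_pow_factorization hm
  conv_lhs => rw [h1]
  rw [jac_prod a _ _ fun p hp =>
    pow_ne_zero _ (Nat.prime_of_mem_primeFactors hp).ne_zero]
  exact Finset.prod_congr rfl fun p _ => jacobiSym.pow_right a p _

/-- PROOF. Apply `hs_prod` to `T = S ∪ n.natAbs.primeFactors`: the product over `T` is the product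
over `S` times the product over `T \ S`, where all factors are `1`. -/
theorem hs_prod_of_trivial {d : ℕ} (hd : Odd d) (hsq : Squarefree d) {S : Finset ℕ}
    (hS : ∀ p ∈ S, p.Prime) (hS2 : ∀ p : ℕ, p.Prime → p ∣ 2 * d → p ∈ S) {n : ℤ} (hn : n ≠ 0)
    (h : ∀ p : ℕ, p.Prime → p ∉ S → hs d p n = 1) : ∏ p ∈ S, hs d p n = 1 := by
  have hT := prime_mem_union hS n
  have h1 := hs_prod hd hsq hn hT (mem_union_of_dvd hS2 hn)
  rwa [← Finset.prod_subset (Finset.subset_union_left (s₂ := n.natAbs.primeFactors))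
    fun p hp hpS => h p (hT p hp) hpS] at h1

/-- PROOF. `2 ∈ S`, so `β ≠ 0` is odd. Apply `hs_prod` to `T = S ∪ β.natAbs.primeFactors` (a
disjoint union). For `p ∈ β.natAbs.primeFactors`, `p ∤ 2 d` and
`hs d p β = J(d | p) ^ padicValInt p β` (definition `hs`), and the product of these over the prime
factors of `β.natAbs` is `J(d | β.natAbs)` (`Nat.factorization_prod_pow_eq_self`,
`jacobiSym.mul_right`, `jacobiSym.pow_right`; or induction on `β.natAbs`). So
`(∏ p ∈ S, hs d p β) J(d | β.natAbs) = 1`, and `J(d | β.natAbs) = ± 1`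
(`jacobiSym.eq_one_or_neg_one`: `d` and `β` are coprime). -/
theorem hs_jacobi {d : ℕ} (hd : Odd d) (hsq : Squarefree d) {S : Finset ℕ}
    (hS : ∀ p ∈ S, p.Prime) (hS2 : ∀ p : ℕ, p.Prime → p ∣ 2 * d → p ∈ S) {β : ℤ}
    (hβ : ∀ p ∈ S, ¬ (p : ℤ) ∣ β) : ∏ p ∈ S, hs d p β = J(d | β.natAbs) := by
  have h2S : 2 ∈ S := hS2 2 Nat.prime_two (dvd_mul_right 2 d)
  have hβ0 : β ≠ 0 := by
    rintro rfl
    exact hβ 2 h2S (dvd_zero _)
  have hm0 : β.natAbs ≠ 0 := Int.natAbs_ne_zero.2 hβ0
  have h1 := hs_prod hd hsq hβ0 (prime_mem_union hS β) (mem_union_of_dvd hS2 hβ0)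
  have hdisj : Disjoint S β.natAbs.primeFactors := by
    rw [Finset.disjoint_left]
    intro p hp hp2
    exact hβ p hp (Int.natCast_dvd.2 (Nat.dvd_of_mem_primeFactors hp2))
  rw [Finset.prod_union hdisj] at h1
  have h2 : ∏ p ∈ β.natAbs.primeFactors, hs d p β = J(d | β.natAbs) := by
    rw [jac_factor d hm0]
    refine Finset.prod_congr rfl fun p hp => ?_
    have hpp := Nat.prime_of_mem_primeFactors hp
    have hpS : p ∉ S := fun h => (Finset.disjoint_left.1 hdisj h) hp
    have hp2 : p ≠ 2 := by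
      rintro rfl
      exact hpS h2S
    have hpd : ¬ p ∣ d := fun h => hpS (hS2 p hpp (dvd_mul_of_dvd_right h 2))
    rw [hs, if_neg hp2, if_neg hpd, Nat.factorization_def _ hpp]
    rfl
  rw [h2] at h1
  have hcop : Int.gcd (d : ℤ) (β.natAbs : ℤ) = 1 := by
    rw [Int.gcd_natCast_natCast]
    refine Nat.Coprime.gcd_eq_one (Nat.coprime_of_dvd fun p hp h3 h4 => ?_)
    exact hβ p (hS2 p hp (dvd_mul_of_dvd_right h3 2)) (Int.natCast_dvd.2 h4)
  rcases jacobiSym.eq_one_or_neg_one hcop with h | h <;> rw [h] at h1 ⊢ <;> linarith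

end Pool.Agent.AllRank
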