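import Pool.Agent.AllRank.PairMk
import Pool.Agent.AllRank.SymJac
import Pool.Agent.AllRank.BinVal

set_option autoImplicit false

/-!
ALLRANK, file FlipSwap: rank `4`, `D = gdet L b = d³ t²`; if `(-q(m), d)_p = -1` for some odd prime
`p ∣ D` and some `m ∈ M = {m | B(m, e) = B(m, f) = 0}`, the sign of the Jacobi symbol can be
changed. BLACK BOXES: files Sym, SymJac, PairMk, BinVal.
-/

namespace Pool.Agent.AllRank

open Pool.Agent.MP4d0966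
open scoped NumberTheorySymbols

variable {N : Type*} [AddCommGroup N]

/-- PROOF. Induction on the finite set `S` (for `insert ℓ S` split the `ℓ`-part off from `x`,
`exists_pow_mul` in file Sym). -/
theorem exists_split {n : ℤ} (hn : n ≠ 0) (S : Finset ℕ) (hS : ∀ ℓ ∈ S, ℓ.Prime) :
    ∃ x y : ℤ, x * y = n ∧ IsCoprime x y ∧ (∀ ℓ ∈ S, ¬ (ℓ : ℤ) ∣ x) ∧
      ∀ ℓ : ℕ, ℓ.Prime → (ℓ : ℤ) ∣ y → ℓ ∈ S := by
  classical
  induction S using Finset.induction_on with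
  | empty =>
    refine ⟨n, 1, mul_one n, isCoprime_one_right, fun ℓ hℓ => absurd hℓ (Finset.notMem_empty ℓ),
      fun ℓ hℓ h => ?_⟩
    exfalso
    have h1 := Int.eq_one_of_dvd_one (Int.natCast_nonneg ℓ) h
    exact hℓ.one_lt.ne' (by exact_mod_cast h1)
  | insert ℓ S hℓS ih =>
    obtain ⟨x, y, hxy, hco, h1, h2⟩ := ih fun q hq => hS q (Finset.mem_insert_of_mem hq)
    have hℓ : ℓ.Prime := hS ℓ (Finset.mem_insert_self ℓ S)
    have hx : x ≠ 0 := by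
      rintro rfl
      rw [zero_mul] at hxy
      exact hn hxy.symm
    obtain ⟨v, x', rfl, hx'⟩ := exists_pow_mul hℓ hx
    have hpp := Nat.prime_iff_prime_int.mp hℓ
    refine ⟨x', (ℓ : ℤ) ^ v * y, by rw [← hxy]; ring, ?_, ?_, ?_⟩
    · refine IsCoprime.mul_right ?_ (IsCoprime.of_mul_left_right hco)
      exact ((hpp.coprime_iff_not_dvd).mpr hx').symm.pow_right
    · intro q hq hqx
      rcases Finset.mem_insert.1 hq with rfl | hq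
      · exact hx' hqx
      · exact h1 q hq (dvd_mul_of_dvd_right hqx _)
    · intro q hq hqy
      rcases (Nat.prime_iff_prime_int.mp hq).dvd_or_dvd hqy with h | h
      · have h3 := (Nat.prime_iff_prime_int.mp hq).dvd_of_dvd_pow h
        have h4 : q ∣ ℓ := by exact_mod_cast h3
        rw [(Nat.prime_dvd_prime_iff_eq hq hℓ).1 h4]
        exact Finset.mem_insert_self ℓ S
      · exact Finset.mem_insert_of_mem (h2 q hq h)

/-- PROOF. `D = gdet L b ≠ 0`, `S := (2 * D).natAbs.primeFactors`, `T := 4 D`. By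
`exists_adapt_pair` (`W = T`; `β := B(e, l)` is coprime to `4 D`) we may assume
`T ∣ α β - 1`, `α = B(f, l)` (replace `f` by `f1`, `m` by `m'`; `q(m)` and `β` do not change).
Let `n := -q(m)`; `exists_split` for `T² n = -q(T • m)` and `S.erase p` gives coprime `x, y` with
`x y = T² n`, no `ℓ ∈ S`, `ℓ ≠ p`, divides `x`, and all primes dividing `y` are in `S.erase p`. So:
every `ℓ ∈ S.erase p` divides `y`; `4 ∣ y` (`2 ∈ S.erase p`, so `x` is odd and `16 ∣ x y`);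
`p ∣ x`, `p ∤ y`. `exists_pair` for `x, y, T • m`: `e2, f2` with
`β2 := B(e2, l) = x β + y α + T B(m, l)`, so `β β2 = x β² + y α β + T β B(m, l)`.
Put `h(ℓ, a) := hs d ℓ a`.
* `ℓ ∈ S.erase p`, `ℓ ≠ 2`: `β β2 ≡ x β²` modulo `ℓ`, not divisible by `ℓ`, so
  `h(ℓ, β β2) = h(ℓ, x β²) = h(ℓ, x)` (`hs_congr`, `hs_mul`, `hs_sq`).
* `ℓ = 2`: `β β2 ≡ x β²` modulo `4`: the same (`hs_congr_two`).
* `ℓ = p`: `β β2 ≡ y` modulo `p`, not divisible by `p`: `h(p, β β2) = h(p, y)`.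
So no prime of `S` divides `β β2`, and `β2` is coprime to `2 D`.
* `h(p, y) h(p, x) = h(p, T² n) = h(p, n) = -1`.
* for a prime `ℓ ∉ S`: `ℓ ∤ 2 D`, so `ℓ ∤ 2 d T y`, `h(ℓ, y) = 1`, `h(ℓ, x) = h(ℓ, n)`, which is
  `J(d | ℓ) ^ v`, `v = padicValInt ℓ n`: it is `1` if `J(d | ℓ) = 1`; if `J(d | ℓ) = -1` then
  `J(D | ℓ) = J(d | ℓ)³ J(t | ℓ)² = -1` and `v` is even (`inert_even`). So `h(ℓ, x) = 1`, and
  `∏ ℓ ∈ S, h(ℓ, x) = 1` (`hs_prod_of_trivial`).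
Therefore `∏ ℓ ∈ S, h(ℓ, β β2) = h(p, y) ∏ ℓ ∈ S.erase p, h(ℓ, x) = h(p, y) h(p, x) = -1`
(`h(p, x)² = 1`). By `hs_jacobi`, `∏ ℓ ∈ S, h(ℓ, β) = J(d | |β|) = -1` and
`∏ ℓ ∈ S, h(ℓ, β2) = J(d | |β2|)`; so `J(d | |β2|) = 1`. -/
theorem exists_flip_swap {d : ℕ} {t : ℤ} (hd : Odd d) (hsq : Squarefree d) {L : EvenForm N}
    {b : Module.Basis (Fin 4) ℤ N} (hD : gdet L b = d ^ 3 * t ^ 2) (ht : t ≠ 0) {e f l m : N}
    (he : L.q e = 0) (hf : L.q f = 0) (hef : L.B e f = 1) (hl : L.q l = 1)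
    (hco : IsCoprime (L.B e l) (2 * gdet L b)) (hJ : J(d | (L.B e l).natAbs) = -1)
    {p : ℕ} (hp : p.Prime) (hp2 : p ≠ 2) (hpD : (p : ℤ) ∣ gdet L b)
    (hme : L.B m e = 0) (hmf : L.B m f = 0) (hm : L.q m ≠ 0) (hs1 : hs d p (-L.q m) = -1) :
    ∃ e' f' : N, L.q e' = 0 ∧ L.q f' = 0 ∧ L.B e' f' = 1 ∧
      IsCoprime (L.B e' l) (2 * gdet L b) ∧ J(d | (L.B e' l).natAbs) = 1 := by
  classical
  have hd0 : d ≠ 0 := hsq.ne_zero
  have hd0' : (d : ℤ) ≠ 0 := by exact_mod_cast hd0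
  obtain ⟨D, hDdef⟩ : ∃ D, D = gdet L b := ⟨_, rfl⟩
  rw [← hDdef] at hD hco hpD
  have hD0 : D ≠ 0 := by
    rw [hD]
    exact mul_ne_zero (pow_ne_zero _ hd0') (pow_ne_zero _ ht)
  have hdD : (d : ℤ) ∣ D := ⟨(d : ℤ) ^ 2 * t ^ 2, by rw [hD]; ring⟩
  set S : Finset ℕ := (2 * D).natAbs.primeFactors with hSdef
  have hmem : ∀ ℓ : ℕ, ℓ.Prime → (ℓ ∈ S ↔ (ℓ : ℤ) ∣ 2 * D) := by
    intro ℓ hℓ
    rw [hSdef, Nat.mem_primeFactors, Int.natCast_dvd]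
    constructor
    · exact fun h => h.2.1
    · intro h
      refine ⟨hℓ, h, ?_⟩
      rw [Int.natAbs_ne_zero]
      exact mul_ne_zero two_ne_zero hD0
  have hS : ∀ ℓ ∈ S, ℓ.Prime := fun ℓ hℓ => Nat.prime_of_mem_primeFactors hℓ
  have hS2 : ∀ ℓ : ℕ, ℓ.Prime → ℓ ∣ 2 * d → ℓ ∈ S := by
    intro ℓ hℓ h
    rw [hmem ℓ hℓ]
    have h1 : (ℓ : ℤ) ∣ 2 * d := by exact_mod_cast h
    exact h1.trans (mul_dvd_mul_left 2 hdD)
  have hpS : p ∈ S := (hmem p hp).2 (dvd_mul_of_dvd_right hpD 2)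
  have h2S : 2 ∈ S := (hmem 2 Nat.prime_two).2 ⟨D, by norm_num⟩
  have h2E : 2 ∈ S.erase p := Finset.mem_erase.2 ⟨Ne.symm hp2, h2S⟩
  obtain ⟨β, hβdef⟩ : ∃ β, β = L.B e l := ⟨_, rfl⟩
  rw [← hβdef] at hco hJ
  have hβS : ∀ ℓ ∈ S, ¬ (ℓ : ℤ) ∣ β := by
    intro ℓ hℓ h
    have h1 := (hmem ℓ (hS ℓ hℓ)).1 hℓ
    have h2 : (ℓ : ℤ) ∣ 1 := by
      obtain ⟨u, v, huv⟩ := hco
      rw [← huv]
      exact dvd_add (dvd_mul_of_dvd_right h _) (dvd_mul_of_dvd_right h1 _)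
    have h3 := Int.eq_one_of_dvd_one (Int.natCast_nonneg ℓ) h2
    exact (hS ℓ hℓ).one_lt.ne' (by exact_mod_cast h3)
  have hβ0 : β ≠ 0 := by
    rintro rfl
    exact hβS p hpS (dvd_zero _)
  have hW : IsCoprime (L.B e l) (4 * D) := by
    rw [← hβdef]
    have h1 : IsCoprime β ((2 * D) * (2 * D)) := hco.mul_right hco
    exact IsCoprime.of_isCoprime_of_dvd_right h1 ⟨D, by ring⟩
  obtain ⟨f1, hf1, hef1, hdiv, hmm⟩ := exists_adapt_pair he hf hef hl hW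
  obtain ⟨m', hme', hmf', hqm'⟩ := hmm m hme hmf
  obtain ⟨α, hαdef⟩ : ∃ α, α = L.B f1 l := ⟨_, rfl⟩
  rw [← hβdef, ← hαdef] at hdiv
  obtain ⟨k, hk⟩ := hdiv
  obtain ⟨n, hndef⟩ : ∃ n, n = -L.q m := ⟨_, rfl⟩
  have hn0 : n ≠ 0 := by
    rw [hndef]
    exact neg_ne_zero.2 hm
  rw [← hndef] at hs1
  have hT0 : (4 * D : ℤ) ≠ 0 := mul_ne_zero (by norm_num) hD0
  obtain ⟨x, y, hxy, hcoxy, hx1, hy1⟩ := exists_split
    (n := (4 * D) ^ 2 * n) (mul_ne_zero (pow_ne_zero _ hT0) hn0) (S.erase p)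
    (fun ℓ hℓ => hS ℓ (Finset.mem_of_mem_erase hℓ))
  have hxy0 : x * y ≠ 0 := by
    rw [hxy]
    exact mul_ne_zero (pow_ne_zero _ hT0) hn0
  have hx0 : x ≠ 0 := left_ne_zero_of_mul hxy0
  have hy0 : y ≠ 0 := right_ne_zero_of_mul hxy0
  have hST : ∀ ℓ ∈ S, (ℓ : ℤ) ∣ 4 * D := by
    intro ℓ hℓ
    have h1 := (hmem ℓ (hS ℓ hℓ)).1 hℓ
    exact h1.trans ⟨2, by ring⟩
  have hSxy : ∀ ℓ ∈ S, (ℓ : ℤ) ∣ x * y := by
    intro ℓ hℓ
    rw [hxy]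
    exact dvd_mul_of_dvd_left (dvd_pow (hST ℓ hℓ) two_ne_zero) _
  have hEy : ∀ ℓ ∈ S.erase p, (ℓ : ℤ) ∣ y := by
    intro ℓ hℓ
    have hℓS := Finset.mem_of_mem_erase hℓ
    exact ((Nat.prime_iff_prime_int.mp (hS ℓ hℓS)).dvd_or_dvd (hSxy ℓ hℓS)).resolve_left
      (hx1 ℓ hℓ)
  have hpy : ¬ (p : ℤ) ∣ y := fun h => (Finset.mem_erase.1 (hy1 p hp h)).1 rfl
  have hpx : (p : ℤ) ∣ x :=
    ((Nat.prime_iff_prime_int.mp hp).dvd_or_dvd (hSxy p hpS)).resolve_right hpy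
  have hx2 : ¬ (2 : ℤ) ∣ x := by
    have h1 := hx1 2 h2E
    exact_mod_cast h1
  have h4y : (4 : ℤ) ∣ y := by
    have h1 : IsCoprime (4 : ℤ) x := by
      have h2 : IsCoprime (2 : ℤ) x := (Int.prime_two.coprime_iff_not_dvd).mpr hx2
      have h3 : (4 : ℤ) = 2 * 2 := by norm_num
      rw [h3]
      exact h2.mul_left h2
    refine h1.dvd_of_dvd_mul_left ?_
    rw [hxy]
    exact ⟨4 * D ^ 2 * n, by ring⟩
  have hqT : x * y = -L.q ((4 * D) • m') := by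
    rw [EvenForm.q_smul, hqm', hxy, hndef]
    ring
  have hTe : L.B ((4 * D) • m') e = 0 := by
    rw [map_smul, LinearMap.smul_apply, hme', smul_zero]
  have hTf : L.B ((4 * D) • m') f1 = 0 := by
    rw [map_smul, LinearMap.smul_apply, hmf', smul_zero]
  obtain ⟨e2, f2, he2, hf2, hef2, hB⟩ := exists_pair he hf1 hef1 hTe hTf hqT hcoxy
  have hBl := hB l
  rw [map_smul, LinearMap.smul_apply, smul_eq_mul, ← hβdef, ← hαdef] at hBl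
  obtain ⟨β₂, hβ₂⟩ : ∃ β₂, β₂ = L.B e2 l := ⟨_, rfl⟩
  obtain ⟨ν, hν⟩ : ∃ ν, ν = L.B m' l := ⟨_, rfl⟩
  rw [← hβ₂, ← hν] at hBl
  have hββ : β * β₂ = x * β ^ 2 + y + 4 * D * (y * k + β * ν) := by
    rw [hBl]
    linear_combination y * hk
  -- the local symbols
  have hE : ∀ ℓ ∈ S.erase p, ¬ (ℓ : ℤ) ∣ β * β₂ ∧ hs d ℓ (β * β₂) = hs d ℓ x := by
    intro ℓ hℓ
    have hℓS := Finset.mem_of_mem_erase hℓ
    have hℓp := hS ℓ hℓS
    have hpp := Nat.prime_iff_prime_int.mp hℓp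
    have h1 : ¬ (ℓ : ℤ) ∣ x * β ^ 2 := by
      intro h
      rcases hpp.dvd_or_dvd h with h | h
      · exact hx1 ℓ hℓ h
      · exact hβS ℓ hℓS (hpp.dvd_of_dvd_pow h)
    have h2 : x * β ^ 2 - β * β₂ = -(y + 4 * D * (y * k + β * ν)) := by
      rw [hββ]
      ring
    have h3 : (ℓ : ℤ) ∣ x * β ^ 2 - β * β₂ := by
      rw [h2, dvd_neg]
      exact dvd_add (hEy ℓ hℓ) (dvd_mul_of_dvd_left (hST ℓ hℓS) _)
    refine ⟨fun h => h1 ?_, ?_⟩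
    · have h4 : x * β ^ 2 = (x * β ^ 2 - β * β₂) + β * β₂ := by ring
      rw [h4]
      exact dvd_add h3 h
    · have h5 : hs d ℓ (x * β ^ 2) = hs d ℓ x := by
        rw [hs_mul hℓp hd hx0 (pow_ne_zero _ hβ0), hs_sq hℓp hd hsq hβ0, mul_one]
      rw [← h5]
      symm
      by_cases hℓ2 : ℓ = 2
      · subst hℓ2
        refine hs_congr_two hd (by exact_mod_cast h1) ?_
        rw [h2, dvd_neg]
        exact dvd_add h4y ⟨D * (y * k + β * ν), by ring⟩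
      · exact hs_congr hℓp hℓ2 h1 h3
  have hP : ¬ (p : ℤ) ∣ β * β₂ ∧ hs d p (β * β₂) = hs d p y := by
    have h2 : y - β * β₂ = -(x * β ^ 2 + 4 * D * (y * k + β * ν)) := by
      rw [hββ]
      ring
    have h3 : (p : ℤ) ∣ y - β * β₂ := by
      rw [h2, dvd_neg]
      exact dvd_add (dvd_mul_of_dvd_left hpx _) (dvd_mul_of_dvd_left (hST p hpS) _)
    refine ⟨fun h => hpy ?_, (hs_congr hp hp2 hpy h3).symm⟩
    have h4 : y = (y - β * β₂) + β * β₂ := by ring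
    rw [h4]
    exact dvd_add h3 h
  have hnS : ∀ ℓ ∈ S, ¬ (ℓ : ℤ) ∣ β * β₂ := by
    intro ℓ hℓ
    by_cases h : ℓ = p
    · rw [h]
      exact hP.1
    · exact (hE ℓ (Finset.mem_erase.2 ⟨h, hℓ⟩)).1
  have hβ₂S : ∀ ℓ ∈ S, ¬ (ℓ : ℤ) ∣ β₂ := fun ℓ hℓ h => hnS ℓ hℓ (dvd_mul_of_dvd_right h _)
  have hβ₂0 : β₂ ≠ 0 := by
    rintro rfl
    exact hβ₂S p hpS (dvd_zero _)
  have hco2 : IsCoprime β₂ (2 * D) := by
    rw [Int.isCoprime_iff_gcd_eq_one]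
    by_contra hg
    obtain ⟨ℓ, hℓ, hℓg⟩ := Nat.exists_prime_and_dvd hg
    have h1 : (ℓ : ℤ) ∣ β₂ := (Int.natCast_dvd_natCast.2 hℓg).trans (Int.gcd_dvd_left _ _)
    have h2 : (ℓ : ℤ) ∣ 2 * D := (Int.natCast_dvd_natCast.2 hℓg).trans (Int.gcd_dvd_right _ _)
    exact hβ₂S ℓ ((hmem ℓ hℓ).2 h2) h1
  -- the product over all places
  have htriv : ∀ ℓ : ℕ, ℓ.Prime → ℓ ∉ S → hs d ℓ x = 1 := by
    intro ℓ hℓ hℓS
    have hℓD : ¬ (ℓ : ℤ) ∣ 2 * D := fun h => hℓS ((hmem ℓ hℓ).2 h)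
    have hℓ2 : ℓ ≠ 2 := by
      rintro rfl
      exact hℓS h2S
    have hℓD' : ¬ (ℓ : ℤ) ∣ D := fun h => hℓD (dvd_mul_of_dvd_right h 2)
    have hℓd : ¬ ℓ ∣ d := fun h => hℓD' ((Int.natCast_dvd_natCast.2 h).trans hdD)
    have hℓt : ¬ (ℓ : ℤ) ∣ t := fun h => hℓD' (by
      rw [hD]
      exact dvd_mul_of_dvd_right (dvd_pow h two_ne_zero) _)
    have hℓy : ¬ (ℓ : ℤ) ∣ y := fun h => hℓS (Finset.mem_of_mem_erase (hy1 ℓ hℓ h))
    have h1 : hs d ℓ (x * y) = hs d ℓ x := by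
      rw [hs_mul hℓ hd hx0 hy0, hs_unit hℓ hℓ2 hℓd hℓy, mul_one]
    rw [← h1, hxy, hs_mul hℓ hd (pow_ne_zero _ hT0) hn0, hs_sq hℓ hd hsq hT0, one_mul]
    have h2 : hs d ℓ n = J(d | ℓ) ^ padicValInt ℓ n := by
      rw [hs, if_neg hℓ2, if_neg hℓd]
    rw [h2]
    have hcop : ∀ z : ℤ, ¬ (ℓ : ℤ) ∣ z → z.gcd ℓ = 1 := by
      intro z hz
      rw [Int.gcd_comm]
      exact Int.isCoprime_iff_gcd_eq_one.mp
        (((Nat.prime_iff_prime_int.mp hℓ).coprime_iff_not_dvd).mpr hz)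
    rcases jacobiSym.eq_one_or_neg_one (hcop (d : ℤ) (fun h => hℓd (by exact_mod_cast h)))
      with h3 | h3
    · rw [h3, one_pow]
    · have h4 : J(gdet L b | ℓ) = -1 := by
        rw [← hDdef, hD, jacobiSym.mul_left, jacobiSym.pow_left, jacobiSym.pow_left, h3,
          jacobiSym.sq_one (hcop t hℓt)]
        norm_num
      have h5 := inert_even b he hf hef hℓ hℓ2 h4 hme hmf hm
      have h6 : padicValInt ℓ n = padicValInt ℓ (L.q m) := by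
        rw [hndef, padicValInt, padicValInt, Int.natAbs_neg]
      rw [h3, h6, h5.neg_one_pow]
  have hprod := hs_prod_of_trivial hd hsq hS hS2 hx0 htriv
  rw [← Finset.mul_prod_erase S _ hpS] at hprod
  have hJ1 := hs_jacobi hd hsq hS hS2 hβS
  have hJ2 := hs_jacobi hd hsq hS hS2 hβ₂S
  have hmulprod : ∏ ℓ ∈ S, hs d ℓ (β * β₂) = (∏ ℓ ∈ S, hs d ℓ β) * ∏ ℓ ∈ S, hs d ℓ β₂ := by
    rw [← Finset.prod_mul_distrib]
    exact Finset.prod_congr rfl fun ℓ hℓ => hs_mul (hS ℓ hℓ) hd hβ0 hβ₂0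
  rw [hJ1, hJ2, hJ, ← Finset.mul_prod_erase S _ hpS, hP.2,
    Finset.prod_congr rfl fun ℓ hℓ => (hE ℓ hℓ).2] at hmulprod
  have hyx : hs d p y * hs d p x = -1 := by
    rw [mul_comm, ← hs_mul hp hd hx0 hy0, hxy, hs_mul hp hd (pow_ne_zero _ hT0) hn0,
      hs_sq hp hd hsq hT0, one_mul, hs1]
  have hxx := hs_mul_self hp hd hsq hx0
  refine ⟨e2, f2, he2, hf2, hef2, ?_, ?_⟩
  · rw [← hβ₂, ← hDdef]
    exact hco2
  · rw [← hβ₂]
    have h1 : ∏ ℓ ∈ S.erase p, hs d ℓ x = hs d p x := by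
      have h2 : hs d p x * (hs d p x * ∏ ℓ ∈ S.erase p, hs d ℓ x) = hs d p x * 1 := by
        rw [hprod]
      rw [← mul_assoc, hxx, one_mul, mul_one] at h2
      exact h2
    rw [h1, hyx] at hmulprod
    linarith

end Pool.Agent.AllRank
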