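import Pool.Agent.AllRank.OrthB

set_option autoImplicit false

/-!
ALLRANK, file Frm: existence of a frame adapted to the prime `q`.

PROOF. `q` is odd and prime to `D = gdet L b`.
(0) `unim` gives the hypothesis `hun` of `exists_orth`; `Module.finrank ℤ N = 4`
(`Module.finrank_eq_card_basis b`), `Module.Free.of_basis b`, `Module.Finite.of_basis b`.
(1) `exists_orth` with the vectors `l` (`k = 1`; `2 q(l) = 2`) and then `l, a` (`k = 2`) gives
`a, a'` orthogonal to `l` and to each other with `q ∤ q(a) q(a')`.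
(2) There are integers `s, t` with `q(a) s² + q(a') t² ≡ -D` modulo `q`
(`FiniteField.exists_root_sum_quadratic` or `ZMod.exists_...` for the polynomials
`q(a) X² + D`, `q(a') X²` over `ZMod q`). `w := s a + t a'`, `q(w) ≡ -D`.
(3) SIGN. Let `u` be a vector orthogonal to `l` with `q(u)` of the sign of `D` (`hpos` if `D > 0`,
`hneg` if `D < 0`). `v0 := w + (q T) • u` for a large natural number `T`:
`q(v0) = q(w) + q T B(w, u) + q² T² q(u)` has the sign of `D` for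
`T := |q(w)| + |B(w,u)| + 1` (check: `q² T² |q(u)| ≥ q T · q T > q T |B| + |q(w)|`, as
`q T ≥ T + 2` ...; choose `T` generously, any large `T` will do), and
`q(v0) ≡ q(w) ≡ -D` modulo `q`, in particular `q ∤ q(v0)`.
(4) `exists_orth` with `l, v0` gives `v1`, with `l, v0, v1` gives `v2`; `q ∤ q(v1) q(v2)`.
(5) `gdet_mul_sq`: `D P² = 16 A1 A2 A3` (`A_i = q(v_(i-1))`). So `A1 A2 A3` has the sign of `D`
(`P ≠ 0`), i.e. of `A1`, and `A2 A3 > 0`. If `A1 A3 > 0` then all three `A_i` have the same sign;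
by `span_eq` and orthogonality, `16 (A1 A2 A3)² q(x) = 4 A1 A2 A3 (A2 A3 p1² + A1 A3 p2² + A1 A2
p3²)`
for `x` orthogonal to `l` (`p_i = B(x, v_(i-1))`), so `q` would be semidefinite on the complement
of `l`, contradicting `hpos`, `hneg`. So `A1 A3 < 0`.
(6) `-A2 A3` is a square modulo `q`: `16 A1 · (−A2 A3) · A1 = -A1 D P² ≡ D² P²`, i.e.
`(4 A1)² (-A2 A3) ≡ (D P)²` modulo `q` and `q ∤ 4 A1`: `s := (4 A1)⁻¹ D P`.
The field `span` of `Frame` is `span_eq`.
-/

namespace Pool.Agent.AllRank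

open Pool.Agent.MP4d0966

variable {N : Type*} [AddCommGroup N]

private theorem frm_ext1 [Module.Free ℤ N] [Module.Finite ℤ N] {L : EvenForm N} {p : ℕ}
    (hp : p.Prime) (hun : ∀ x, (∀ y, (p : ℤ) ∣ L.B x y) → ∃ x', x = (p : ℤ) • x')
    (hk : Module.finrank ℤ N = 4) {l : N} (hl : ¬ (p : ℤ) ∣ 2 * L.q l) :
    ∃ x : N, L.B x l = 0 ∧ ¬ (p : ℤ) ∣ L.q x := by
  obtain ⟨x, hx, hx'⟩ := exists_orth hp hun (k := 1) (by omega) ![l]
    (fun i j hij => absurd (Subsingleton.elim i j) hij) (fun i => by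
      have h : i = 0 := Subsingleton.elim _ _
      subst h
      simpa using hl)
  exact ⟨x, by simpa using hx 0, hx'⟩

private theorem frm_ext2 [Module.Free ℤ N] [Module.Finite ℤ N] {L : EvenForm N} {p : ℕ}
    (hp : p.Prime) (hun : ∀ x, (∀ y, (p : ℤ) ∣ L.B x y) → ∃ x', x = (p : ℤ) • x')
    (hk : Module.finrank ℤ N = 4) {l y : N} (hl : ¬ (p : ℤ) ∣ 2 * L.q l)
    (hy : ¬ (p : ℤ) ∣ 2 * L.q y) (hyl : L.B y l = 0) :
    ∃ x : N, L.B x l = 0 ∧ L.B x y = 0 ∧ ¬ (p : ℤ) ∣ L.q x := by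
  have hly : L.B l y = 0 := by rw [L.symm, hyl]
  obtain ⟨x, hx, hx'⟩ := exists_orth hp hun (k := 2) (by omega) ![l, y]
    (by
      intro i j hij
      fin_cases i <;> fin_cases j <;> simp_all)
    (by
      intro i
      fin_cases i
      · simpa using hl
      · simpa using hy)
  exact ⟨x, by simpa using hx 0, by simpa using hx 1, hx'⟩

private theorem frm_ext3 [Module.Free ℤ N] [Module.Finite ℤ N] {L : EvenForm N} {p : ℕ}
    (hp : p.Prime) (hun : ∀ x, (∀ y, (p : ℤ) ∣ L.B x y) → ∃ x', x = (p : ℤ) • x')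
    (hk : Module.finrank ℤ N = 4) {l y z : N} (hl : ¬ (p : ℤ) ∣ 2 * L.q l)
    (hy : ¬ (p : ℤ) ∣ 2 * L.q y) (hz : ¬ (p : ℤ) ∣ 2 * L.q z) (hyl : L.B y l = 0)
    (hzl : L.B z l = 0) (hzy : L.B z y = 0) :
    ∃ x : N, L.B x l = 0 ∧ L.B x y = 0 ∧ L.B x z = 0 ∧ ¬ (p : ℤ) ∣ L.q x := by
  have hly : L.B l y = 0 := by rw [L.symm, hyl]
  have hlz : L.B l z = 0 := by rw [L.symm, hzl]
  have hyz : L.B y z = 0 := by rw [L.symm, hzy]
  obtain ⟨x, hx, hx'⟩ := exists_orth hp hun (k := 3) (by omega) ![l, y, z]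
    (by
      intro i j hij
      fin_cases i <;> fin_cases j <;> simp_all)
    (by
      intro i
      fin_cases i
      · simpa using hl
      · simpa using hy
      · simpa using hz)
  exact ⟨x, by simpa using hx 0, by simpa using hx 1, by simpa using hx 2, hx'⟩

private theorem frm_zmod {q : ℕ} (hqp : q.Prime) (hq2 : q ≠ 2) {α β D : ℤ}
    (hα : ¬ (q : ℤ) ∣ α) (hβ : ¬ (q : ℤ) ∣ β) :
    ∃ s t : ℤ, (q : ℤ) ∣ α * s ^ 2 + β * t ^ 2 + D := by
  have : Fact q.Prime := ⟨hqp⟩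
  have h1 : (α : ZMod q) ≠ 0 := fun h => hα ((ZMod.intCast_zmod_eq_zero_iff_dvd α q).1 h)
  have h2 : (β : ZMod q) ≠ 0 := fun h => hβ ((ZMod.intCast_zmod_eq_zero_iff_dvd β q).1 h)
  have hcard : Fintype.card (ZMod q) % 2 = 1 := by
    rw [ZMod.card]
    exact (hqp.eq_two_or_odd).resolve_left hq2
  obtain ⟨s, t, hst⟩ := FiniteField.exists_root_sum_quadratic
    (f := Polynomial.C (α : ZMod q) * Polynomial.X ^ 2 + Polynomial.C 0 * Polynomial.X
      + Polynomial.C (D : ZMod q))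
    (g := Polynomial.C (β : ZMod q) * Polynomial.X ^ 2 + Polynomial.C 0 * Polynomial.X
      + Polynomial.C 0)
    (Polynomial.degree_quadratic h1) (Polynomial.degree_quadratic h2) hcard
  obtain ⟨s', rfl⟩ := ZMod.intCast_surjective s
  obtain ⟨t', rfl⟩ := ZMod.intCast_surjective t
  refine ⟨s', t', ?_⟩
  rw [← ZMod.intCast_zmod_eq_zero_iff_dvd]
  push_cast
  simp at hst
  linear_combination hst

private theorem frm_big {q : ℕ} (hqp : q.Prime) {D w c u : ℤ} (hu : 0 < D * u) :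
    ∃ T : ℤ, 0 < D * (w + (q * T) * c + (q * T) ^ 2 * u) := by
  refine ⟨|D * w| + |D * c| + 1, ?_⟩
  set A := |D * w| with hA
  set C := |D * c| with hC
  have h1 : -A ≤ D * w := neg_abs_le _
  have h2 : -C ≤ D * c := neg_abs_le _
  have hA0 : 0 ≤ A := abs_nonneg _
  have hC0 : 0 ≤ C := abs_nonneg _
  have hq1 : (1 : ℤ) ≤ q := by exact_mod_cast hqp.one_lt.le
  set X : ℤ := q * (A + C + 1) with hX
  have hX1 : A + C + 1 ≤ X := by
    rw [hX]
    nlinarith
  have h3 : 1 ≤ D * u := hu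
  have h4 : D * (w + X * c + X ^ 2 * u) = D * w + X * (D * c) + X ^ 2 * (D * u) := by ring
  rw [h4]
  have h5 : X * (-C) ≤ X * (D * c) := mul_le_mul_of_nonneg_left h2 (by linarith)
  have h6 : X ^ 2 * 1 ≤ X ^ 2 * (D * u) := mul_le_mul_of_nonneg_left h3 (by positivity)
  have h7 : X * (A + 1) ≤ X * (X - C) := mul_le_mul_of_nonneg_left (by linarith) (by linarith)
  have h8 : (A + 1) ≤ X * (A + 1) := by nlinarith
  nlinarith

theorem exists_frame {L : EvenForm N} {b : Module.Basis (Fin 4) ℤ N} {l : N} (hl : L.q l = 1)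
    (hpos : ∃ u, L.B u l = 0 ∧ 0 < L.q u) (hneg : ∃ u, L.B u l = 0 ∧ L.q u < 0) {q : ℕ}
    (hqp : q.Prime) (hq2 : q ≠ 2) (hq : ¬ (q : ℤ) ∣ gdet L b) :
    ∃ v : Fin 3 → N, Frame L l v ∧ ¬ (q : ℤ) ∣ L.q (v 0) ∧ ¬ (q : ℤ) ∣ L.q (v 1) ∧
      ¬ (q : ℤ) ∣ L.q (v 2) ∧ 0 < L.q (v 1) * L.q (v 2) ∧ L.q (v 0) * L.q (v 2) < 0 ∧
      (∃ s : ℤ, (q : ℤ) ∣ s ^ 2 - dl L v) ∧
      ∃ P : ℤ, gdet L b * P ^ 2 = 16 * L.q (v 0) * L.q (v 1) * L.q (v 2) := by
  have := Module.Free.of_basis b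
  have := Module.Finite.of_basis b
  have hfr : Module.finrank ℤ N = 4 := by
    rw [Module.finrank_eq_card_basis b, Fintype.card_fin]
  have hun : ∀ x, (∀ y, (q : ℤ) ∣ L.B x y) → ∃ x', x = (q : ℤ) • x' := fun x h =>
    unim hqp hq h
  have hqZ : Prime (q : ℤ) := Nat.prime_iff_prime_int.1 hqp
  have h2q : ¬ (q : ℤ) ∣ 2 := by
    intro h
    have h1 : q ∣ 2 := by exact_mod_cast h
    exact hq2 ((Nat.prime_dvd_prime_iff_eq hqp Nat.prime_two).1 h1)
  have h2n : ∀ {n : ℤ}, ¬ (q : ℤ) ∣ n → ¬ (q : ℤ) ∣ 2 * n := fun h h' =>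
    (hqZ.dvd_or_dvd h').elim h2q h
  have hl2 : ¬ (q : ℤ) ∣ 2 * L.q l := by
    rw [hl, mul_one]
    exact h2q
  set D := gdet L b with hDdef
  have hD0 : D ≠ 0 := by
    rintro h
    rw [h] at hq
    exact hq (dvd_zero _)
  -- the vector `w`
  obtain ⟨a, hal, haq⟩ := frm_ext1 hqp hun hfr hl2
  obtain ⟨a', hal', haa, haq'⟩ := frm_ext2 hqp hun hfr hl2 (h2n haq) hal
  obtain ⟨s, t, hst⟩ := frm_zmod hqp hq2 (D := D) haq haq'
  have haa' : L.B a a' = 0 := by rw [L.symm, haa]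
  obtain ⟨w, hwl, hwq⟩ : ∃ w, L.B w l = 0 ∧ (q : ℤ) ∣ L.q w + D := by
    refine ⟨s • a + t • a', ?_, ?_⟩
    · simp only [map_add, map_smul, LinearMap.add_apply, LinearMap.smul_apply, hal, hal',
        smul_zero, add_zero]
    · have h1 : L.q (s • a + t • a') = L.q a * s ^ 2 + L.q a' * t ^ 2 := by
        rw [L.q_add, L.q_smul, L.q_smul]
        simp only [map_smul, LinearMap.smul_apply, haa', smul_zero, add_zero]
        ring
      rw [h1]
      exact hst
  -- the sign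
  obtain ⟨u, hul, huD⟩ : ∃ u, L.B u l = 0 ∧ 0 < D * L.q u := by
    rcases lt_or_gt_of_ne hD0 with h | h
    · obtain ⟨u, h1, h2⟩ := hneg
      exact ⟨u, h1, mul_pos_of_neg_of_neg h h2⟩
    · obtain ⟨u, h1, h2⟩ := hpos
      exact ⟨u, h1, mul_pos h h2⟩
  obtain ⟨T, hT⟩ := frm_big hqp (w := L.q w) (c := L.B w u) huD
  obtain ⟨v0, h0l, h0D, h0q⟩ : ∃ v0, L.B v0 l = 0 ∧ 0 < D * L.q v0 ∧ (q : ℤ) ∣ L.q v0 + D := by
    have h1 : L.q (w + ((q : ℤ) * T) • u) =
        L.q w + ((q : ℤ) * T) * L.B w u + ((q : ℤ) * T) ^ 2 * L.q u := by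
      rw [L.q_add, L.q_smul, map_smul, smul_eq_mul]
      ring
    refine ⟨w + ((q : ℤ) * T) • u, ?_, ?_, ?_⟩
    · simp only [map_add, map_smul, LinearMap.add_apply, LinearMap.smul_apply, hwl, hul,
        smul_zero, add_zero]
    · rw [h1]
      exact hT
    · rw [h1]
      obtain ⟨k, hk⟩ := hwq
      exact ⟨k + T * L.B w u + q * T ^ 2 * L.q u, by linear_combination hk⟩
  have h0q' : ¬ (q : ℤ) ∣ L.q v0 := fun h => hq ((dvd_add_right h).1 h0q)
  obtain ⟨v1, h1l, h10, h1q⟩ := frm_ext2 hqp hun hfr hl2 (h2n h0q') h0l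
  obtain ⟨v2, h2l, h20, h21, h2q'⟩ := frm_ext3 hqp hun hfr hl2 (h2n h0q') (h2n h1q) h0l h1l h10
  have h01 : L.B v0 v1 = 0 := by rw [L.symm, h10]
  have h02 : L.B v0 v2 = 0 := by rw [L.symm, h20]
  have h12 : L.B v1 v2 = 0 := by rw [L.symm, h21]
  have n0 : L.q v0 ≠ 0 := fun h => h0q' (by rw [h]; exact dvd_zero _)
  have n1 : L.q v1 ≠ 0 := fun h => h1q (by rw [h]; exact dvd_zero _)
  have n2 : L.q v2 ≠ 0 := fun h => h2q' (by rw [h]; exact dvd_zero _)
  obtain ⟨P, hP⟩ := gdet_mul_sq (b := b) hl h0l h1l h2l h01 h02 h12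
  have hspan := span_eq (b := b) hl h0l h1l h2l h01 h02 h12 n0 n1 n2 hD0
  rw [← hDdef] at hP
  set A1 := L.q v0 with hA1
  set A2 := L.q v1 with hA2
  set A3 := L.q v2 with hA3
  have hP0 : P ≠ 0 := by
    rintro rfl
    have h1 : 16 * A1 * A2 * A3 = 0 := by rw [← hP]; ring
    have h2 : 16 * A1 * A2 * A3 ≠ 0 :=
      mul_ne_zero (mul_ne_zero (mul_ne_zero (by norm_num) n0) n1) n2
    exact h2 h1
  have hP2 : 0 < P ^ 2 := by positivity
  have h23 : 0 < A2 * A3 := by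
    have h1 : (D * A1) * P ^ 2 = 16 * A1 ^ 2 * (A2 * A3) := by linear_combination A1 * hP
    have h2 : 0 < 16 * A1 ^ 2 * (A2 * A3) := by
      rw [← h1]
      exact mul_pos h0D hP2
    exact pos_of_mul_pos_right h2 (by positivity)
  have h13 : A1 * A3 < 0 := by
    by_contra hcon
    have h13' : 0 < A1 * A3 := lt_of_le_of_ne (not_lt.1 hcon) (mul_ne_zero n0 n2).symm
    have h12' : 0 < A1 * A2 := by
      have h1 : 0 < (A1 * A2) * (A3 ^ 2) := by
        have : (A1 * A2) * (A3 ^ 2) = (A2 * A3) * (A1 * A3) := by ring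
        rw [this]
        exact mul_pos h23 h13'
      exact pos_of_mul_pos_left h1 (by positivity)
    have hsemi : ∀ x, L.B x l = 0 → 0 ≤ A1 * L.q x := by
      intro x hx
      have h1 := congrArg L.q (hspan x)
      rw [hx, mul_zero, zero_smul, zero_add, L.q_smul, L.q_add, L.q_add, L.q_smul, L.q_smul,
        L.q_smul] at h1
      simp only [map_add, map_smul, LinearMap.add_apply, LinearMap.smul_apply, h01, h02, h12,
        smul_zero, add_zero, ← hA1, ← hA2, ← hA3] at h1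
      have h2 : 16 * (A1 * A2 * A3) ^ 2 * (A1 * L.q x) =
          4 * A1 ^ 2 * (A2 * A3) * ((A2 * A3) * L.B x v0 ^ 2 + (A1 * A3) * L.B x v1 ^ 2
            + (A1 * A2) * L.B x v2 ^ 2) := by
        linear_combination A1 * h1
      have h3 : 0 ≤ 4 * A1 ^ 2 * (A2 * A3) * ((A2 * A3) * L.B x v0 ^ 2 + (A1 * A3) * L.B x v1 ^ 2
            + (A1 * A2) * L.B x v2 ^ 2) := by
        have := h23.le
        have := h13'.le
        have := h12'.le
        positivity
      rw [← h2] at h3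
      have h4 : 0 < 16 * (A1 * A2 * A3) ^ 2 := by
        have : A1 * A2 * A3 ≠ 0 := mul_ne_zero (mul_ne_zero n0 n1) n2
        positivity
      exact nonneg_of_mul_nonneg_right h3 h4
    obtain ⟨u1, hu1, hu1'⟩ := hpos
    obtain ⟨u2, hu2, hu2'⟩ := hneg
    have h1 := hsemi u1 hu1
    have h2 := hsemi u2 hu2
    rcases lt_or_gt_of_ne n0 with h3 | h3
    · nlinarith
    · nlinarith
  have hsq : ∃ s : ℤ, (q : ℤ) ∣ s ^ 2 + A2 * A3 := by
    have h4A : ¬ (q : ℤ) ∣ 4 * A1 := by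
      have h1 := h2n (h2n h0q')
      have h2 : 2 * (2 * A1) = 4 * A1 := by ring
      rwa [h2] at h1
    obtain ⟨c, m, hcm⟩ := (hqZ.irreducible.coprime_iff_not_dvd).2 h4A
    obtain ⟨k, hk⟩ := h0q
    refine ⟨D * P * m, ?_⟩
    have hDk : D = q * k - A1 := by linear_combination hk
    have h1 : (D * P * m) ^ 2 + A2 * A3 = A2 * A3 * (16 * m ^ 2 * D * A1 + 1) := by
      linear_combination (D * m ^ 2) * hP
    rw [h1]
    refine Dvd.dvd.mul_left ?_ _
    refine ⟨c * (m * (4 * A1) + 1) + 16 * m ^ 2 * A1 * k, ?_⟩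
    rw [hDk]
    linear_combination (-(m * (4 * A1)) - 1) * hcm
  refine ⟨![v0, v1, v2], ?_, ?_, ?_, ?_, ?_, ?_, ?_, ?_⟩
  · exact
      { hl := hl
        ol := by
          intro i
          fin_cases i
          · simpa using h0l
          · simpa using h1l
          · simpa using h2l
        o01 := by simpa using h01
        o02 := by simpa using h02
        o12 := by simpa using h12
        n0 := by simpa using n0
        n1 := by simpa using n1
        n2 := by simpa using n2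
        span := by
          intro x
          simpa using hspan x }
  · simpa using h0q'
  · simpa using h1q
  · simpa using h2q'
  · simpa using h23
  · simpa using h13
  · obtain ⟨s, hs⟩ := hsq
    refine ⟨s, ?_⟩
    have h1 : s ^ 2 - dl L ![v0, v1, v2] = s ^ 2 + A2 * A3 := by
      simp [dl, hA2, hA3]
    rw [h1]
    exact hs
  · exact ⟨P, by simpa using hP⟩

end Pool.Agent.AllRank
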