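import Pool.Agent.AllRank.Lat

set_option autoImplicit false

/-!
ALLRANK, file Good: hyperbolic pairs `(e, f)` such that `(e, l)` is prime to a given number.
Useful: `exists_crt`, `isCoprime_of_primes` in `Pool.Agent.MP4d0966.Arith`; model: `exists_good` in
`Pool.Agent.MP4d0966.Core`.
-/

namespace Pool.Agent.AllRank

open Pool.Agent.MP4d0966

variable {N : Type*} [AddCommGroup N]

/-- Unimodularity at almost all primes. PROOF. Let `b` be a basis (`Module.finBasis ℤ N`),
`W` the determinant of the Gram matrix; `W ≠ 0` because the form is nondegenerate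
(`Matrix.exists_mulVec_eq_zero_iff`). If `p ∤ W` and `p ∣ L.B x y` for all `y`, multiply by the
adjugate
matrix: `p` divides `W` times all coordinates of `x`. -/
theorem exists_disc [Module.Free ℤ N] [Module.Finite ℤ N] {L : EvenForm N}
    (hnd : ∀ x, (∀ y, L.B x y = 0) → x = 0) :
    ∃ W : ℤ, W ≠ 0 ∧ ∀ p : ℕ, p.Prime → ¬ (p : ℤ) ∣ W →
      ∀ x, (∀ y, (p : ℤ) ∣ L.B x y) → ∃ x', x = (p : ℤ) • x' := by
  classical
  let b := Module.finBasis ℤ N
  let G : Matrix (Fin (Module.finrank ℤ N)) (Fin (Module.finrank ℤ N)) ℤ :=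
    Matrix.of fun i j => L.B (b i) (b j)
  -- the product of the Gram matrix with a coordinate vector
  have hG : ∀ (c : Fin (Module.finrank ℤ N) → ℤ) i,
      G.mulVec c i = L.B (∑ j, c j • b j) (b i) := by
    intro c i
    simp only [Matrix.mulVec, dotProduct, G, Matrix.of_apply, map_sum, map_smul,
      LinearMap.sum_apply, LinearMap.smul_apply, smul_eq_mul]
    refine Finset.sum_congr rfl fun j _ => ?_
    rw [L.symm (b i) (b j), mul_comm]
  refine ⟨G.det, ?_, ?_⟩
  · intro h0
    obtain ⟨v, hv, hGv⟩ := Matrix.exists_mulVec_eq_zero_iff.2 h0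
    apply hv
    have hx : ∑ j, v j • b j = 0 := by
      apply hnd
      intro y
      rw [← b.sum_repr y, map_sum]
      refine Finset.sum_eq_zero fun i _ => ?_
      rw [map_smul, ← hG v i, hGv]
      simp
    funext i
    exact Fintype.linearIndependent_iff.1 b.linearIndependent v hx i
  · intro p hp hpW x hx
    have hpz : Prime (p : ℤ) := Nat.prime_iff_prime_int.mp hp
    have hc : ∀ i, (p : ℤ) ∣ b.repr x i := by
      intro i
      have h1 : G.adjugate.mulVec (G.mulVec (b.repr x)) i = G.det * b.repr x i := by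
        rw [Matrix.mulVec_mulVec, Matrix.adjugate_mul, Matrix.smul_mulVec, Matrix.one_mulVec]
        rfl
      have h2 : (p : ℤ) ∣ G.det * b.repr x i := by
        rw [← h1]
        rw [Matrix.mulVec, dotProduct]
        refine Finset.dvd_sum fun j _ => Dvd.dvd.mul_left ?_ _
        rw [hG, b.sum_repr]
        exact hx _
      exact (hpz.dvd_or_dvd h2).resolve_left hpW
    choose d hd using hc
    refine ⟨∑ i, d i • b i, ?_⟩
    rw [Finset.smul_sum]
    conv_lhs => rw [← b.sum_repr x]
    refine Finset.sum_congr rfl fun i _ => ?_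
    rw [hd i, mul_smul]

/-- PROOF. Put `α = B(f, l)`, `β = B(e, l)`, `M = {m | B(m, e) = B(m, f) = 0}` (a subgroup),
`λ := l - α e - β f ∈ M`; `1 = q(l) = α β + q(λ)`, `B(λ, l) = 2 q(λ)`. For `m ∈ M` put
`e_m := f + m - q(m) e`: `q(e_m) = 0`, `B(e_m, e) = 1`, `B(e_m, l) = α + B(m, l) - β q(m)`.
CLAIM: for every prime `p` there is `m ∈ M` with `p ∤ α + B(m, l) - β q(m)`. Suppose not; `m = 0`:
`p ∣ α`; so `p ∣ B(m, l) - β q(m)` for all `m ∈ M`, and with `-m`: `p ∣ 2 B(m, l)`. If `p` is odd:
`p ∣ B(λ, l) = 2 q(λ)`, so `p ∣ α β + q(λ) = 1`, contradiction. If `p = 2` and `β` is odd: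
`2 ∣ B(λ, l) - β q(λ) = (2 - β) q(λ)`, so `2 ∣ q(λ)`, `2 ∣ α`: contradiction to `α β + q(λ) = 1`. If
`p = 2` and `β` is even: `B(m, l)` is even for all `m ∈ M`; write `l2 = x e + y f + m` with
`x = B(l2, f)`, `y = B(l2, e)`, `m ∈ M`: `B(l2, l) = x β + y α + B(m, l)` is even, contradiction
to `hl2`.
By `exists_crt` in the group `M` (for the finite set of primes dividing `W`) there is `m ∈ M`
congruent modulo `p M` to the chosen vector for every prime `p ∣ W`; the number
`α + B(m, l) - β q(m)` modulo `p` only depends on `m` modulo `p M`. So it is prime to `W`; take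
`e' := e_m`, `f' := e`. -/
theorem exists_good_pair {L : EvenForm N} {e f l l2 : N} (he : L.q e = 0) (hf : L.q f = 0)
    (hef : L.B e f = 1) (hl : L.q l = 1) (hl2 : L.B l l2 = -1) {W : ℤ} (hW : W ≠ 0) :
    ∃ e' f' : N, L.q e' = 0 ∧ L.q f' = 0 ∧ L.B e' f' = 1 ∧ IsCoprime (L.B e' l) W := by
  classical
  set α := L.B f l with hα
  set β := L.B e l with hβ
  have hee : L.B e e = 0 := by rw [L.hq, he, mul_zero]
  have hff : L.B f f = 0 := by rw [L.hq, hf, mul_zero]
  have hfe : L.B f e = 1 := by rw [L.symm, hef]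
  have hll : L.B l l = 2 := by rw [L.hq, hl, mul_one]
  let M : Submodule ℤ N := LinearMap.ker (L.B e) ⊓ LinearMap.ker (L.B f)
  have hM : ∀ z : N, z ∈ M ↔ L.B e z = 0 ∧ L.B f z = 0 := fun z => by
    simp only [M, Submodule.mem_inf, LinearMap.mem_ker]
  have hproj : ∀ x : N, x - L.B x f • e - L.B x e • f ∈ M := by
    intro x
    rw [hM]
    have h1 := L.symm e x
    have h2 := L.symm f x
    simp only [map_sub, map_smul, smul_eq_mul, hee, hff, hef, hfe, h1, h2]
    constructor <;> ring
  have hle : L.B l e = β := L.symm _ _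
  have hlf : L.B l f = α := L.symm _ _
  let F : N → ℤ := fun z => α + L.B z l - β * L.q z
  have hFadd : ∀ (z u : N) (n : ℤ), F (z + n • u) =
      F z + n * (L.B u l - β * (n * L.q u + L.B z u)) := by
    intro z u n
    simp only [F, L.q_add, L.q_smul, map_add, map_smul, LinearMap.add_apply,
      LinearMap.smul_apply, smul_eq_mul]
    ring
  set m := l - α • e - β • f with hm
  have hmM : m ∈ M := by
    have := hproj l
    rwa [hle, hlf] at this
  have hqm : L.q m = 1 - α * β := by
    simp only [hm, L.q_sub, L.q_smul, map_sub, map_smul, LinearMap.sub_apply,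
      LinearMap.smul_apply, smul_eq_mul, hl, he, hf, hef, hle, hlf]
    ring
  have hlm : L.B m l = 2 * (1 - α * β) := by
    simp only [hm, map_sub, map_smul, LinearMap.sub_apply, LinearMap.smul_apply, smul_eq_mul,
      hll, ← hα, ← hβ]
    ring
  have hlocal : ∀ p : ℕ, p.Prime → ∃ z : M, ¬ (p : ℤ) ∣ F z := by
    intro p hp
    by_contra hcon
    push Not at hcon
    have h0 : (p : ℤ) ∣ α := by
      have h := hcon 0
      simpa [F, L.q_zero] using h
    have h1 : (p : ℤ) ∣ α + 2 * (1 - α * β) - β * (1 - α * β) := by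
      have h := hcon ⟨m, hmM⟩
      simpa only [F, hqm, hlm] using h
    have h2 : (p : ℤ) ∣ α - 2 * (1 - α * β) - β * (1 - α * β) := by
      have h := hcon ⟨(-1 : ℤ) • m, M.smul_mem _ hmM⟩
      simp only [F, L.q_smul, map_smul, LinearMap.smul_apply, smul_eq_mul, hqm, hlm] at h
      convert h using 1
      ring
    obtain ⟨a', ha'⟩ := h0
    have h4 : (p : ℤ) ∣ 4 := by
      have h := dvd_sub h1 h2
      have h5 : (α + 2 * (1 - α * β) - β * (1 - α * β)) -
          (α - 2 * (1 - α * β) - β * (1 - α * β)) = 4 - p * (4 * a' * β) := by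
        rw [ha']
        ring
      rw [h5] at h
      exact (dvd_sub_left (dvd_mul_right _ _)).mp h
    have hp2 : p = 2 := by
      have h5 : p ∣ 2 ^ 2 := by
        have : (p : ℤ) ∣ ((2 ^ 2 : ℕ) : ℤ) := by simpa using h4
        exact_mod_cast this
      exact (Nat.prime_dvd_prime_iff_eq hp Nat.prime_two).mp (hp.dvd_of_dvd_pow h5)
    subst hp2
    have h5 := hcon ⟨_, hproj l2⟩
    have hl2' : L.B l2 l = -1 := by rw [L.symm, hl2]
    simp only [F, map_sub, map_smul, LinearMap.sub_apply, LinearMap.smul_apply, smul_eq_mul,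
      hl2', ← hα, ← hβ] at h5
    have h6 : (2 : ℤ) ∣ β := by
      obtain ⟨c, hc⟩ := h1
      push_cast at ha' hc
      refine ⟨a' + (1 - α * β) + a' * β * β - c, ?_⟩
      rw [ha'] at hc ⊢
      linear_combination (-1 : ℤ) * hc
    obtain ⟨b', hb'⟩ := h6
    obtain ⟨c, hc⟩ := h5
    push_cast at ha' hc
    generalize L.q (l2 - L.B l2 f • e - L.B l2 e • f) = Q at hc
    generalize L.B l2 f = r at hc
    generalize L.B l2 e = s at hc
    have h7 : (-1 : ℤ) = 2 * (c - a' + r * b' + s * a' + Q * b') := by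
      rw [hb', ha'] at hc
      linear_combination hc
    omega
  choose! zp hzp using hlocal
  obtain ⟨z0, hz0⟩ := exists_crt (G := M) W.natAbs.primeFactors
    (fun p hp => Nat.prime_of_mem_primeFactors hp) zp
  have hz0cop : IsCoprime (F z0) W := by
    apply isCoprime_of_primes hW
    intro p hp hpD hpF
    have hpS : p ∈ W.natAbs.primeFactors := by
      rw [Nat.mem_primeFactors]
      exact ⟨hp, Int.natCast_dvd.mp hpD, Int.natAbs_ne_zero.mpr hW⟩
    obtain ⟨u, hu⟩ := hz0 p hpS
    have h1 : (z0 : N) = (zp p : N) + (p : ℤ) • (u : N) := by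
      rw [hu]
      rfl
    rw [h1, hFadd] at hpF
    exact hzp p hp ((dvd_add_left (dvd_mul_right _ _)).mp hpF)
  obtain ⟨hz1, hz2⟩ := (hM z0).1 z0.2
  have hz1' : L.B z0 e = 0 := by rw [L.symm, hz1]
  have hz2' : L.B z0 f = 0 := by rw [L.symm, hz2]
  refine ⟨f + z0 - L.q z0 • e, e, ?_, he, ?_, ?_⟩
  · simp only [L.q_sub, L.q_add, L.q_smul, map_add, map_smul, LinearMap.add_apply,
      smul_eq_mul, he, hf, hfe, hz1', hz2]
    ring
  · simp only [map_sub, map_add, map_smul, LinearMap.sub_apply, LinearMap.add_apply,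
      LinearMap.smul_apply, smul_eq_mul, hfe, hz1', hee]
    ring
  · have h1 : L.B (f + z0 - L.q z0 • e) l = F z0 := by
      simp only [F, map_sub, map_add, map_smul, LinearMap.sub_apply, LinearMap.add_apply,
        LinearMap.smul_apply, smul_eq_mul, ← hα, ← hβ]
      ring
    rw [h1]
    exact hz0cop

end Pool.Agent.AllRank
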