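import Pool.Agent.AllRank.Defs

set_option autoImplicit false

/-!
ALLRANK, file Lat: definitions for lattices of rank `4`.
`L : EvenForm N` is an even symmetric bilinear form `L.B` with quadratic form `L.q`,
`L.B x x = 2 * L.q x` (file `Pool.Agent.MP4d0966.Core`, lemmas `q_add`, `q_smul`, `q_sub`).
-/

namespace Pool.Agent.AllRank

open Pool.Agent.MP4d0966

variable {N : Type*} [AddCommGroup N]

/-- The Gram determinant. -/
noncomputable def gdet (L : EvenForm N) (b : Module.Basis (Fin 4) ℤ N) : ℤ :=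
  (Matrix.of fun i j => L.B (b i) (b j)).det

/-- `v 0, v 1, v 2` is an orthogonal basis of the rational orthogonal complement of `l`,
`q(l) = 1`. -/
structure Frame (L : EvenForm N) (l : N) (v : Fin 3 → N) : Prop where
  hl : L.q l = 1
  ol : ∀ i, L.B (v i) l = 0
  o01 : L.B (v 0) (v 1) = 0
  o02 : L.B (v 0) (v 2) = 0
  o12 : L.B (v 1) (v 2) = 0
  n0 : L.q (v 0) ≠ 0
  n1 : L.q (v 1) ≠ 0
  n2 : L.q (v 2) ≠ 0
  span : ∀ x, (4 * L.q (v 0) * L.q (v 1) * L.q (v 2)) • x =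
    (2 * L.q (v 0) * L.q (v 1) * L.q (v 2) * L.B x l) • l
      + (2 * L.q (v 1) * L.q (v 2) * L.B x (v 0)) • v 0
      + (2 * L.q (v 0) * L.q (v 2) * L.B x (v 1)) • v 1
      + (2 * L.q (v 0) * L.q (v 1) * L.B x (v 2)) • v 2

/-- `δ = i²`. -/
def dl (L : EvenForm N) (v : Fin 3 → N) : ℤ := -(L.q (v 1) * L.q (v 2))

/-- `c = j²`. -/
def cc (L : EvenForm N) (v : Fin 3 → N) : ℤ := -(L.q (v 0) * L.q (v 2))

/-- The pure quaternion attached to a vector (`2 A₃` times the image of its component orthogonal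
to `l` under `v₁ ↦ A₁ i`, `v₂ ↦ A₂ j`, `v₃ ↦ -k`, where `A_i = q(v_i)`). -/
def yq (L : EvenForm N) (v : Fin 3 → N) (x : N) : Q (dl L v) (cc L v) :=
  ⟨0, L.q (v 2) * L.B x (v 0), L.q (v 2) * L.B x (v 1), -L.B x (v 2)⟩

end Pool.Agent.AllRank
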