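import Mathlib

set_option autoImplicit false

/-!
ALLRANK, file Loc: the local computation at `q`.

PROOF. Put `y1 = Y 0 0`, `y2 = Y 0 1`, `y3 = Y 1 0`, `Y 1 1 = -y1`, and
`d := -det Y = y1² + y2 y3 = q^(2k) u`; `Y * Y = d • 1`.
(1) A CYCLIC VECTOR: `v = (1,0)`, `(0,1)` or `(1,1)` such that `P := (v | Y v)` (columns) has
determinant of norm `1`: the three determinants are `y3`, `-y2`, `y3 - y2 - 2 y1`. If the first
two have norm `< 1` then `‖y1‖ = 1` by `hprim`, and `‖2 y1‖ = 1` (`q ≠ 2`), so the third has norm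
`1`. All entries of `P` and of `P⁻¹` (adjugate divided by a unit) have norm at most `1`. Put
`c0 := (0, d; 1, 0)`; then `Y * P = P * c0` (`Y v = v2`, `Y v2 = d v`).
(2) `k = 2 j` EVEN: `g := P * diag (q^(-j), q^j) * P⁻¹`, `det g = 1`, `g⁻¹ = adjugate g`,
`g Y g⁻¹ = P * (0, q^(-2j) d; q^(2j), 0) * P⁻¹`, and `q^(-2j) d = q^(-k) q^(2k) u = q^k u`. So all
entries have norm at most `q^(-k)` (ultrametric inequality).
(3) `u = ω²` A SQUARE, `‖ω‖ = 1`: let `x := (1 + q^(-k)) / 2`, `y := (q^(-k) - 1) / (2 q^k ω)`,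
`T := diag (1, q^k) * (x + y c0)`. `det (x + y c0) = x² - y² d = (x - y q^k ω)(x + y q^k ω)
= 1 · q^(-k)`, so `det T = 1`; `x + y c0` commutes with `c0`, so
`T c0 T⁻¹ = diag (1, q^k) c0 diag (1, q^(-k)) = (0, q^(-k) d; q^k, 0) = (0, q^k u; q^k, 0)`. Take
`g := P * T * P⁻¹`.
-/

namespace Pool.Agent.AllRank

private theorem norm_add_le' {q : ℕ} [Fact q.Prime] {a b : ℚ_[q]} {r : ℝ} (ha : ‖a‖ ≤ r)
    (hb : ‖b‖ ≤ r) : ‖a + b‖ ≤ r :=
  (Padic.nonarchimedean a b).trans (max_le ha hb)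

private theorem norm_mul_entry {q : ℕ} [Fact q.Prime] {A B : Matrix (Fin 2) (Fin 2) ℚ_[q]}
    {a b : ℝ} (ha : 0 ≤ a) (hA : ∀ i j, ‖A i j‖ ≤ a) (hB : ∀ i j, ‖B i j‖ ≤ b) (i j : Fin 2) :
    ‖(A * B) i j‖ ≤ a * b := by
  rw [Matrix.mul_apply, Fin.sum_univ_two]
  refine norm_add_le' ?_ ?_
  · rw [norm_mul]
    exact mul_le_mul (hA _ _) (hB _ _) (norm_nonneg _) ha
  · rw [norm_mul]
    exact mul_le_mul (hA _ _) (hB _ _) (norm_nonneg _) ha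

private theorem adj_entry {q : ℕ} [Fact q.Prime] {A : Matrix (Fin 2) (Fin 2) ℚ_[q]}
    {a : ℝ} (hA : ∀ i j, ‖A i j‖ ≤ a) (i j : Fin 2) : ‖A.adjugate i j‖ ≤ a := by
  rw [Matrix.adjugate_fin_two]
  fin_cases i <;> fin_cases j
  · exact hA 1 1
  · show ‖-A 0 1‖ ≤ a
    rw [norm_neg]
    exact hA 0 1
  · show ‖-A 1 0‖ ≤ a
    rw [norm_neg]
    exact hA 1 0
  · exact hA 0 0

/-- a cyclic vector -/
private theorem cyc_aux {q : ℕ} [Fact q.Prime] {Y : Matrix (Fin 2) (Fin 2) ℚ_[q]}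
    (hY : ∀ i j, ‖Y i j‖ ≤ 1) (htr : Y 1 1 = - Y 0 0) {v w : ℚ_[q]} (hv : ‖v‖ ≤ 1) (hw : ‖w‖ ≤ 1)
    (h : ‖v * (Y 1 0 * v + Y 1 1 * w) - (Y 0 0 * v + Y 0 1 * w) * w‖ = 1) :
    ∃ P : Matrix (Fin 2) (Fin 2) ℚ_[q], (∀ i j, ‖P i j‖ ≤ 1) ∧ ‖P.det‖ = 1 ∧
      Y * P = P * !![0, -Y.det; 1, 0] := by
  have hm : ∀ a b : ℚ_[q], ‖a‖ ≤ 1 → ‖b‖ ≤ 1 → ‖a * b‖ ≤ 1 := by
    intro a b ha hb
    rw [norm_mul]
    exact mul_le_one₀ ha (norm_nonneg _) hb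
  refine ⟨!![v, Y 0 0 * v + Y 0 1 * w; w, Y 1 0 * v + Y 1 1 * w], ?_, ?_, ?_⟩
  · intro i j
    fin_cases i <;> fin_cases j
    · exact hv
    · exact norm_add_le' (hm _ _ (hY 0 0) hv) (hm _ _ (hY 0 1) hw)
    · exact hw
    · exact norm_add_le' (hm _ _ (hY 1 0) hv) (hm _ _ (hY 1 1) hw)
  · rw [Matrix.det_fin_two_of]
    exact h
  · rw [Matrix.det_fin_two, Matrix.eta_fin_two Y, Matrix.mul_fin_two, Matrix.mul_fin_two]
    simp only [Matrix.of_apply, Matrix.cons_val', Matrix.cons_val_zero, Matrix.cons_val_one,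
      Matrix.cons_val_fin_one]
    rw [htr]
    ext i j
    fin_cases i <;> fin_cases j
    · simp
    · simp
      ring
    · simp
    · simp
      ring

private theorem cyc {q : ℕ} [Fact q.Prime] (hq2 : q ≠ 2) {Y : Matrix (Fin 2) (Fin 2) ℚ_[q]}
    (hY : ∀ i j, ‖Y i j‖ ≤ 1) (htr : Y 1 1 = - Y 0 0) (hprim : ∃ i j, ‖Y i j‖ = 1) :
    ∃ P : Matrix (Fin 2) (Fin 2) ℚ_[q], (∀ i j, ‖P i j‖ ≤ 1) ∧ ‖P.det‖ = 1 ∧
      Y * P = P * !![0, -Y.det; 1, 0] := by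
  have h0 : ‖(0 : ℚ_[q])‖ ≤ 1 := by
    rw [norm_zero]
    exact zero_le_one
  have h1 : ‖(1 : ℚ_[q])‖ ≤ 1 := by
    rw [norm_one]
  by_cases h10 : ‖Y 1 0‖ = 1
  · refine cyc_aux hY htr h1 h0 ?_
    simpa using h10
  by_cases h01 : ‖Y 0 1‖ = 1
  · refine cyc_aux hY htr h0 h1 ?_
    simpa using h01
  have h00 : ‖Y 0 0‖ = 1 := by
    obtain ⟨i, j, hij⟩ := hprim
    fin_cases i <;> fin_cases j
    · exact hij
    · exact absurd hij h01
    · exact absurd hij h10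
    · replace hij : ‖Y 1 1‖ = 1 := hij
      rw [htr, norm_neg] at hij
      exact hij
  have hlt10 : ‖Y 1 0‖ < 1 := lt_of_le_of_ne (hY 1 0) h10
  have hlt01 : ‖Y 0 1‖ < 1 := lt_of_le_of_ne (hY 0 1) h01
  have h2 : ‖(2 : ℚ_[q])‖ = 1 := by
    have h3 : ‖((2 : ℕ) : ℚ_[q])‖ = 1 := by
      rw [Padic.norm_natCast_eq_one_iff, Nat.coprime_primes Fact.out Nat.prime_two]
      exact hq2
    simpa using h3
  refine cyc_aux hY htr h1 h1 ?_
  have e : (1 : ℚ_[q]) * (Y 1 0 * 1 + Y 1 1 * 1) - (Y 0 0 * 1 + Y 0 1 * 1) * 1 =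
      (Y 1 0 - Y 0 1) + -(2 * Y 0 0) := by
    rw [htr]
    ring
  rw [e]
  have h3 : ‖-(2 * Y 0 0)‖ = 1 := by
    rw [norm_neg, norm_mul, h2, h00, mul_one]
  have h4 : ‖Y 1 0 - Y 0 1‖ < 1 := by
    rw [sub_eq_add_neg]
    refine lt_of_le_of_lt (Padic.nonarchimedean _ _) (max_lt hlt10 ?_)
    rw [norm_neg]
    exact hlt01
  have h5 : ‖Y 1 0 - Y 0 1‖ ≠ ‖-(2 * Y 0 0)‖ := by
    rw [h3]
    exact h4.ne
  rw [Padic.add_eq_max_of_ne h5, h3]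
  exact max_eq_right h4.le

private theorem exT {q : ℕ} [Fact q.Prime] {k : ℕ} {u : ℚ_[q]} (hu : ‖u‖ = 1)
    (hk : Even k ∨ IsSquare u) :
    ∃ T : Matrix (Fin 2) (Fin 2) ℚ_[q], T.det = 1 ∧
      T * !![0, (q : ℚ_[q]) ^ (2 * k) * u; 1, 0] =
        !![0, (q : ℚ_[q]) ^ k * u; (q : ℚ_[q]) ^ k, 0] * T := by
  have hq : (q : ℚ_[q]) ≠ 0 := Nat.cast_ne_zero.2 (Fact.out : q.Prime).ne_zero
  rcases hk with ⟨j, rfl⟩ | ⟨ω, rfl⟩
  · have hj : (q : ℚ_[q]) ^ j ≠ 0 := pow_ne_zero _ hq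
    refine ⟨!![((q : ℚ_[q]) ^ j)⁻¹, 0; 0, (q : ℚ_[q]) ^ j], ?_, ?_⟩
    · rw [Matrix.det_fin_two_of, inv_mul_cancel₀ hj]
      ring
    · rw [Matrix.mul_fin_two, Matrix.mul_fin_two]
      have e1 : (q : ℚ_[q]) ^ (2 * (j + j)) = (q : ℚ_[q]) ^ j * ((q : ℚ_[q]) ^ j *
          ((q : ℚ_[q]) ^ j * (q : ℚ_[q]) ^ j)) := by ring
      have e2 : (q : ℚ_[q]) ^ (j + j) = (q : ℚ_[q]) ^ j * (q : ℚ_[q]) ^ j := by ring
      rw [e1, e2]
      ext a b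
      fin_cases a <;> fin_cases b
      · simp
      · simp
        field_simp
      · simp [mul_assoc, hj]
      · simp
  · have hω : ω ≠ 0 := by
      rintro rfl
      rw [mul_zero, norm_zero] at hu
      exact zero_ne_one hu
    have hk0 : (q : ℚ_[q]) ^ k ≠ 0 := pow_ne_zero _ hq
    have h2 : (2 : ℚ_[q]) ≠ 0 := two_ne_zero
    obtain ⟨Q, hQ⟩ : ∃ Q, Q = (q : ℚ_[q]) ^ k := ⟨_, rfl⟩
    have e1 : (q : ℚ_[q]) ^ (2 * k) = Q * Q := by
      rw [hQ]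
      ring
    rw [← hQ] at hk0
    rw [e1, ← hQ]
    refine ⟨!![(1 + Q⁻¹) / 2, (Q⁻¹ - 1) / (2 * (Q * ω)) * (Q * Q * (ω * ω));
      Q * ((Q⁻¹ - 1) / (2 * (Q * ω))), Q * ((1 + Q⁻¹) / 2)], ?_, ?_⟩
    · rw [Matrix.det_fin_two_of]
      field_simp
      ring
    · rw [Matrix.mul_fin_two, Matrix.mul_fin_two]
      ext a b
      fin_cases a <;> fin_cases b
      · simp
        ring
      · simp
        ring
      · simp
      · simp [mul_assoc]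

theorem loc {q : ℕ} [Fact q.Prime] (hq2 : q ≠ 2) {Y : Matrix (Fin 2) (Fin 2) ℚ_[q]}
    (hY : ∀ i j, ‖Y i j‖ ≤ 1) (htr : Y 1 1 = - Y 0 0) (hprim : ∃ i j, ‖Y i j‖ = 1) {k : ℕ}
    {u : ℚ_[q]} (hu : ‖u‖ = 1) (hdet : Y.det = -((q : ℚ_[q]) ^ (2 * k) * u))
    (hk : Even k ∨ IsSquare u) :
    ∃ g : Matrix (Fin 2) (Fin 2) ℚ_[q], g.det = 1 ∧
      ∀ i j, ‖(g * Y * g.adjugate) i j‖ ≤ ((q : ℝ) ^ k)⁻¹ := by
  obtain ⟨P, hP, hPd, hYP⟩ := cyc hq2 hY htr hprim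
  obtain ⟨T, hTd, hT⟩ := exT (k := k) hu hk
  rw [hdet, neg_neg] at hYP
  have hδ : P.det ≠ 0 := by
    intro h0
    rw [h0, norm_zero] at hPd
    exact zero_ne_one hPd
  have hadj : (P.adjugate).adjugate = P := by
    rw [Matrix.adjugate_adjugate _ (by simp)]
    simp
  have hg : (P.det⁻¹ • (P * T * P.adjugate)).adjugate =
      P.det⁻¹ • (P * T.adjugate * P.adjugate) := by
    rw [Matrix.adjugate_smul, Matrix.adjugate_mul_distrib, Matrix.adjugate_mul_distrib, hadj,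
      Fintype.card_fin, pow_one, Matrix.mul_assoc]
  have hmain : (P.det⁻¹ • (P * T * P.adjugate)) * Y * (P.det⁻¹ • (P * T * P.adjugate)).adjugate =
      P.det⁻¹ • (P * !![0, (q : ℚ_[q]) ^ k * u; (q : ℚ_[q]) ^ k, 0] * P.adjugate) := by
    rw [hg, Matrix.smul_mul, Matrix.smul_mul, Matrix.mul_smul, smul_smul]
    have e1 : P * T * P.adjugate * Y * (P * T.adjugate * P.adjugate) =
        P.det • (P * !![0, (q : ℚ_[q]) ^ k * u; (q : ℚ_[q]) ^ k, 0] * P.adjugate) := by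
      calc P * T * P.adjugate * Y * (P * T.adjugate * P.adjugate)
          = P * T * P.adjugate * (Y * P) * T.adjugate * P.adjugate := by
            simp only [Matrix.mul_assoc]
        _ = P * T * (P.adjugate * P) * !![0, (q : ℚ_[q]) ^ (2 * k) * u; 1, 0] * T.adjugate *
            P.adjugate := by
            rw [hYP]
            simp only [Matrix.mul_assoc]
        _ = P.det • (P * (T * !![0, (q : ℚ_[q]) ^ (2 * k) * u; 1, 0]) * T.adjugate *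
            P.adjugate) := by
            rw [Matrix.adjugate_mul]
            simp only [Matrix.mul_smul, Matrix.smul_mul, Matrix.mul_one, Matrix.mul_assoc]
        _ = P.det • (P * !![0, (q : ℚ_[q]) ^ k * u; (q : ℚ_[q]) ^ k, 0] * (T * T.adjugate) *
            P.adjugate) := by
            rw [hT]
            simp only [Matrix.mul_assoc]
        _ = P.det • (P * !![0, (q : ℚ_[q]) ^ k * u; (q : ℚ_[q]) ^ k, 0] * P.adjugate) := by
            rw [Matrix.mul_adjugate, hTd, one_smul, Matrix.mul_one]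
    rw [e1, smul_smul, mul_assoc, inv_mul_cancel₀ hδ, mul_one]
  refine ⟨P.det⁻¹ • (P * T * P.adjugate), ?_, ?_⟩
  · rw [Matrix.det_smul, Matrix.det_mul, Matrix.det_mul, Matrix.det_adjugate, hTd,
      Fintype.card_fin]
    have e2 : P.det ^ (2 - 1) = P.det := pow_one _
    rw [e2]
    field_simp
  · intro i j
    rw [hmain, Matrix.smul_apply, smul_eq_mul, norm_mul, norm_inv, hPd, inv_one, one_mul]
    have hqk : ‖(q : ℚ_[q]) ^ k‖ = ((q : ℝ) ^ k)⁻¹ := by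
      rw [norm_pow, Padic.norm_p, inv_pow]
    have hc : ∀ i j, ‖(!![0, (q : ℚ_[q]) ^ k * u; (q : ℚ_[q]) ^ k, 0] :
        Matrix (Fin 2) (Fin 2) ℚ_[q]) i j‖ ≤ ((q : ℝ) ^ k)⁻¹ := by
      intro i j
      fin_cases i <;> fin_cases j
      · simp
      · show ‖(q : ℚ_[q]) ^ k * u‖ ≤ _
        rw [norm_mul, hu, mul_one, hqk]
      · show ‖(q : ℚ_[q]) ^ k‖ ≤ _
        rw [hqk]
      · simp
    have h1 := norm_mul_entry (a := 1) zero_le_one hP hc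
    have h2 := norm_mul_entry (a := 1 * ((q : ℝ) ^ k)⁻¹) (b := 1) (by positivity) h1
      (adj_entry hP) i j
    rwa [one_mul, mul_one] at h2

end Pool.Agent.AllRank
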