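import Pool.Agent.AllRank.Lat

set_option autoImplicit false

/-!
ALLRANK, file Orth: lattices of rank `4` which are unimodular at `q`.
-/

namespace Pool.Agent.AllRank

open Pool.Agent.MP4d0966

variable {N : Type*} [AddCommGroup N]

/-- PROOF. Let `G` be the Gram matrix, `x = ∑ x_i b_i`; `q` divides all coordinates of `G x`, so of
`adj(G) G x = det(G) x`; `q ∤ det G`, so `q` divides all `x_i`. -/
theorem unim {L : EvenForm N} {b : Module.Basis (Fin 4) ℤ N} {q : ℕ} (hqp : q.Prime)
    (hq : ¬ (q : ℤ) ∣ gdet L b) {x : N} (h : ∀ y, (q : ℤ) ∣ L.B x y) :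
    ∃ x', x = (q : ℤ) • x' := by
  set G : Matrix (Fin 4) (Fin 4) ℤ := Matrix.of fun i j => L.B (b i) (b j) with hG
  have hdet : ¬ (q : ℤ) ∣ G.det := hq
  have h1 : ∀ j, (q : ℤ) ∣ Matrix.vecMul (b.repr x) G j := by
    intro j
    have h2 : Matrix.vecMul (b.repr x) G j = L.B x (b j) := by
      conv_rhs => rw [← b.sum_repr x]
      simp only [Matrix.vecMul, dotProduct, hG, Matrix.of_apply, map_sum, LinearMap.coe_sum,
        Finset.sum_apply, map_smul, LinearMap.smul_apply, smul_eq_mul]
    rw [h2]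
    exact h _
  have h3 : Matrix.vecMul (Matrix.vecMul (b.repr x) G) G.adjugate = G.det • ⇑(b.repr x) := by
    rw [Matrix.vecMul_vecMul, Matrix.mul_adjugate, Matrix.vecMul_smul, Matrix.vecMul_one]
  have h4 : ∀ i, (q : ℤ) ∣ b.repr x i := by
    intro i
    have h5 : (q : ℤ) ∣ G.det * b.repr x i := by
      have h6 := congrFun h3 i
      rw [Pi.smul_apply, smul_eq_mul] at h6
      rw [← h6, Matrix.vecMul, dotProduct]
      exact Finset.dvd_sum fun j _ => (h1 j).mul_right _
    exact ((Nat.prime_iff_prime_int.1 hqp).dvd_or_dvd h5).resolve_left hdet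
  choose c hc using h4
  refine ⟨∑ i, c i • b i, ?_⟩
  conv_lhs => rw [← b.sum_repr x]
  rw [Finset.smul_sum]
  refine Finset.sum_congr rfl fun i _ => ?_
  rw [hc i, mul_smul]

/-- Orthogonal vectors can be extended, `N` any lattice unimodular at `p`. PROOF. Put
`c := ∏ i, 2 * L.q (v i)` (prime to `p`), and let
`π x := c • x - ∑ i, (∏ j ≠ i, 2 * L.q (v j)) * L.B x (v i) • v i`, a linear map with values in the
orthogonal complement of the `v i` (`L.B (v i) (v i) = 2 * L.q (v i)`). Suppose that `p ∣ L.q (π x)`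
for all `x`. Then `p ∣ L.B (π x) (π y)` for all `x, y` (`q_add`), and
`L.B (π x) (π y) = c * L.B (π x) y`, so `p ∣ L.B (π x) y` for all `y` and `π x ∈ p N` by `hun`. So
`c • x` is congruent modulo `p N` to a combination of the vectors `v i`, for all `x`, and so is
`x` (`c` is invertible modulo `p`): with respect to a basis of `N` (`Module.finBasis ℤ N`), in
`Fin n → ZMod p`, `n = Module.finrank ℤ N`, the `k < n` reductions of the `v i` span
everything, contradiction with the dimension (`finrank_range_le_card`,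
`Module.finrank_fin_fun`). -/
theorem exists_orth [Module.Free ℤ N] [Module.Finite ℤ N] {L : EvenForm N} {p : ℕ}
    (hp : p.Prime) (hun : ∀ x, (∀ y, (p : ℤ) ∣ L.B x y) → ∃ x', x = (p : ℤ) • x') {k : ℕ}
    (hk : k < Module.finrank ℤ N) (v : Fin k → N) (ho : ∀ i j, i ≠ j → L.B (v i) (v j) = 0)
    (hv : ∀ i, ¬ (p : ℤ) ∣ 2 * L.q (v i)) :
    ∃ x : N, (∀ i, L.B x (v i) = 0) ∧ ¬ (p : ℤ) ∣ L.q x := by
  classical
  have : Fact p.Prime := ⟨hp⟩
  by_contra hcon
  push Not at hcon
  have hpp := Nat.prime_iff_prime_int.1 hp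
  set c : ℤ := ∏ i, 2 * L.q (v i) with hc
  set e : Fin k → ℤ := fun i => ∏ j ∈ Finset.univ.erase i, 2 * L.q (v j) with he
  have hce : ∀ i, e i * (2 * L.q (v i)) = c := fun i =>
    Finset.prod_erase_mul _ _ (Finset.mem_univ i)
  have hcp : ¬ (p : ℤ) ∣ c := by
    intro h
    obtain ⟨i, -, hi⟩ := (Prime.dvd_finsetProd_iff hpp _).1 h
    exact hv i hi
  set π : N → N := fun x => c • x - ∑ i, (e i * L.B x (v i)) • v i with hπ
  have hB : ∀ x y, L.B (π x) y = c * L.B x y - ∑ i, e i * L.B x (v i) * L.B (v i) y := by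
    intro x y
    simp only [hπ, map_sub, map_smul, map_sum, LinearMap.sub_apply, LinearMap.smul_apply,
      LinearMap.coe_sum, Finset.sum_apply, smul_eq_mul]
  have hort : ∀ x i, L.B (π x) (v i) = 0 := by
    intro x i
    rw [hB, Finset.sum_eq_single i]
    · rw [L.hq, ← hce i]
      ring
    · intro j _ hj
      rw [ho j i hj, mul_zero]
    · intro h
      exact absurd (Finset.mem_univ i) h
  have hdiv : ∀ x y, (p : ℤ) ∣ L.B (π x) y := by
    intro x y
    have h1 : L.B (π x) (π y) = c * L.B (π x) y := by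
      rw [L.symm, hB, L.symm y (π x), Finset.sum_eq_zero, sub_zero]
      intro i _
      rw [L.symm (v i) (π x), hort, mul_zero]
    have h2 : (p : ℤ) ∣ L.B (π x) (π y) := by
      have h3 := hcon (π x + π y) fun i => by
        rw [map_add, LinearMap.add_apply, hort, hort, add_zero]
      rw [L.q_add] at h3
      exact (dvd_add_right (dvd_add (hcon _ (hort x)) (hcon _ (hort y)))).1 h3
    rw [h1] at h2
    exact (hpp.dvd_or_dvd h2).resolve_left hcp
  have hx' : ∀ x, ∃ x', π x = (p : ℤ) • x' := fun x => hun _ (hdiv x)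
  set b := Module.finBasis ℤ N with hb
  let r : N →+ (Fin (Module.finrank ℤ N) → ZMod p) :=
    { toFun := fun x i => ((b.repr x i : ℤ) : ZMod p)
      map_zero' := by
        funext i
        simp
      map_add' := fun x y => by
        funext i
        simp }
  have hr : ∀ (x : N) i, r x i = ((b.repr x i : ℤ) : ZMod p) := fun x i => rfl
  have hrs : ∀ (m : ℤ) (x : N), r (m • x) = (m : ZMod p) • r x := by
    intro m x
    funext i
    rw [hr, Pi.smul_apply, hr, map_smul, Finsupp.smul_apply, smul_eq_mul, smul_eq_mul]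
    push_cast
    rfl
  have hsurj : ∀ w : Fin (Module.finrank ℤ N) → ZMod p, ∃ x, r x = w := by
    intro w
    choose z hz using fun i => ZMod.intCast_surjective (w i)
    refine ⟨∑ i, z i • b i, ?_⟩
    funext i
    rw [hr, b.repr_sum_self z, hz]
  have hcz : (c : ZMod p) ≠ 0 := by
    rw [Ne, ZMod.intCast_zmod_eq_zero_iff_dvd]
    exact hcp
  have htop : ⊤ ≤ Submodule.span (ZMod p) (Set.range fun i : Fin k => r (v i)) := by
    intro w _
    obtain ⟨x, rfl⟩ := hsurj w
    obtain ⟨x', hx'⟩ := hx' x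
    have h1 : c • x = ∑ i, (e i * L.B x (v i)) • v i + (p : ℤ) • x' := by
      rw [← hx']
      simp only [hπ]
      abel
    have h2 : (c : ZMod p) • r x =
        ∑ i, ((e i * L.B x (v i) : ℤ) : ZMod p) • r (v i) := by
      rw [← hrs, h1, map_add, map_sum, hrs (p : ℤ) x']
      simp only [hrs, Int.cast_natCast, CharP.cast_eq_zero, zero_smul, add_zero]
    have h3 : r x = (c : ZMod p)⁻¹ • ∑ i, ((e i * L.B x (v i) : ℤ) : ZMod p) • r (v i) := by
      rw [← h2, smul_smul, inv_mul_cancel₀ hcz, one_smul]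
    rw [h3]
    refine Submodule.smul_mem _ _ (Submodule.sum_mem _ fun i _ => Submodule.smul_mem _ _ ?_)
    exact Submodule.subset_span ⟨i, rfl⟩
  have h1 := finrank_range_le_card (R := ZMod p) (fun i : Fin k => r (v i))
  rw [Set.finrank, top_le_iff.1 htop, finrank_top, Module.finrank_fin_fun, Fintype.card_fin] at h1
  omega

end Pool.Agent.AllRank
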