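import Pool.Agent.AllRank.Sub
import Pool.Agent.AllRank.Orth

set_option autoImplicit false

/-!
ALLRANK, file MCrt: the choice of the vector `m`.
NOTATION: `M = {m | B(m, e) = B(m, f) = 0}`, `β = B(e, l) ≠ 0`.
-/

namespace Pool.Agent.AllRank

open Pool.Agent.MP4d0966
open scoped NumberTheorySymbols

variable {N : Type*} [AddCommGroup N]

/-- A vector of positive norm in `M`. PROOF. `κ := B(u, e) l - B(e, l) u` is orthogonal to `e`, and
`q(κ) = B(u, e)² + B(e, l)² q(u) > 0` (`q(l) = 1`, `B(u, l) = 0`, `B(e, l) ≠ 0`). Put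
`m := κ - B(κ, f) e`: orthogonal to `e` and `f`, `q(m) = q(κ)`. -/
theorem exists_m_pos {L : EvenForm N} {e f l : N} (he : L.q e = 0) (hef : L.B e f = 1)
    (hl : L.q l = 1) (hβ : L.B e l ≠ 0) (hpos : ∃ u, L.B u l = 0 ∧ 0 < L.q u) :
    ∃ m, L.B m e = 0 ∧ L.B m f = 0 ∧ 0 < L.q m := by
  obtain ⟨u, hul, hu⟩ := hpos
  have hee : L.B e e = 0 := by rw [L.hq, he, mul_zero]
  have hlu : L.B l u = 0 := by rw [L.symm, hul]
  set κ := L.B u e • l - L.B e l • u with hκ
  have hκe : L.B κ e = 0 := by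
    simp only [hκ, map_sub, map_smul, LinearMap.sub_apply, LinearMap.smul_apply, smul_eq_mul,
      L.symm l e]
    ring
  have hqκ : L.q κ = L.B u e ^ 2 + L.B e l ^ 2 * L.q u := by
    rw [hκ, L.q_sub, L.q_smul, L.q_smul, hl]
    simp only [map_smul, LinearMap.smul_apply, smul_eq_mul, hlu]
    ring
  refine ⟨κ - L.B κ f • e, ?_, ?_, ?_⟩
  · simp only [map_sub, map_smul, LinearMap.sub_apply, LinearMap.smul_apply, smul_eq_mul, hκe, hee]
    ring
  · simp only [map_sub, map_smul, LinearMap.sub_apply, LinearMap.smul_apply, smul_eq_mul, hef]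
    ring
  · rw [L.q_sub, L.q_smul, he, map_smul, smul_eq_mul, hκe, hqκ]
    have h1 : 0 < L.B e l ^ 2 * L.q u := mul_pos (by positivity) hu
    have h2 : 0 ≤ L.B u e ^ 2 := sq_nonneg _
    linarith

private theorem dm_congr {L : EvenForm N} {e f l m m' u : N} {p : ℤ} (h : m = m' + p • u) :
    p ∣ dm L e f l m - dm L e f l m' := by
  rw [dm, dm, h, L.q_add, L.q_smul]
  simp only [map_add, map_smul, smul_eq_mul]
  refine ⟨2 * L.B l m' * L.B l u + p * L.B l u ^ 2
    - 4 * (1 - L.B f l * L.B e l) * (p * L.q u + L.B m' u), ?_⟩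
  ring

/-- Chinese remainder theorem and positivity. PROOF. `exists_crt` (file
`Pool.Agent.MP4d0966.Arith`) for the set of primes dividing `β`, in the subgroup `M` of
`N`: `m0 ∈ M` with `m0 ≡ mp p` modulo `p M` for all primes `p ∣ β`. Let `m1 ∈ M` with `q(m1) > 0`
(`exists_m_pos`) and `m := m0 + (β T) m1`, `T` large:
`q(m) = q(m0) + β T B(m0, m1) + β² T² q(m1) > 0` for `T := |q(m0)| + |B(m0, m1)| + 1`.
`m ≡ mp p` modulo `p M`, and `dm` is a quadratic polynomial with integral coefficients in the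
vector, so `p ∣ dm m - dm (mp p)`. -/
theorem exists_m {L : EvenForm N} {e f l : N} (he : L.q e = 0) (hef : L.B e f = 1)
    (hl : L.q l = 1) (hβ : L.B e l ≠ 0) (hpos : ∃ u, L.B u l = 0 ∧ 0 < L.q u) (mp : ℕ → N)
    (hmp : ∀ p : ℕ, p.Prime → (p : ℤ) ∣ L.B e l → L.B (mp p) e = 0 ∧ L.B (mp p) f = 0) :
    ∃ m, L.B m e = 0 ∧ L.B m f = 0 ∧ 0 < L.q m ∧
      ∀ p : ℕ, p.Prime → (p : ℤ) ∣ L.B e l → (p : ℤ) ∣ dm L e f l m - dm L e f l (mp p) := by
  classical
  let M : Submodule ℤ N := LinearMap.ker (L.B e) ⊓ LinearMap.ker (L.B f)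
  have hM : ∀ z : N, z ∈ M ↔ L.B z e = 0 ∧ L.B z f = 0 := fun z => by
    rw [Submodule.mem_inf, LinearMap.mem_ker, LinearMap.mem_ker, L.symm e z, L.symm f z]
  obtain ⟨z0, hz0⟩ := exists_crt (G := M) (L.B e l).natAbs.primeFactors
    (fun p hp => Nat.prime_of_mem_primeFactors hp)
    (fun p => if h : mp p ∈ M then ⟨mp p, h⟩ else 0)
  obtain ⟨m1, h1e, h1f, h1⟩ := exists_m_pos he hef hl hβ hpos
  obtain ⟨h0e, h0f⟩ := (hM _).mp z0.2
  set m0 : N := (z0 : N) with hm0
  set β := L.B e l with hβdef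
  set T : ℤ := |L.q m0| + |L.B m0 m1| + 1 with hT
  refine ⟨m0 + (β * T) • m1, ?_, ?_, ?_, ?_⟩
  · simp only [map_add, map_smul, LinearMap.add_apply, LinearMap.smul_apply, smul_eq_mul, h0e, h1e]
    ring
  · simp only [map_add, map_smul, LinearMap.add_apply, LinearMap.smul_apply, smul_eq_mul, h0f, h1f]
    ring
  · rw [L.q_add, L.q_smul, map_smul, smul_eq_mul]
    have hT1 : 1 ≤ T := by
      have := abs_nonneg (L.q m0)
      have := abs_nonneg (L.B m0 m1)
      omega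
    have hβ1 : 1 ≤ |β| := Int.one_le_abs hβ
    have h2 : (β * T) ^ 2 = (|β| * T) ^ 2 := by rw [mul_pow, mul_pow, sq_abs]
    have h3 : |β * T * L.B m0 m1| = |β| * T * |L.B m0 m1| := by
      rw [abs_mul, abs_mul, abs_of_pos (by omega : 0 < T)]
    have h4 := neg_abs_le (β * T * L.B m0 m1)
    have h5 := neg_abs_le (L.q m0)
    rw [h3] at h4
    rw [h2]
    set X := |β| * T with hX
    have hX1 : T ≤ X := by nlinarith
    have h6 : X * |L.B m0 m1| + |L.q m0| < X ^ 2 := by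
      have h7 : |L.B m0 m1| ≤ T - 1 - |L.q m0| := by omega
      have h8 := abs_nonneg (L.q m0)
      nlinarith
    have h7 : X ^ 2 ≤ X ^ 2 * L.q m1 := by nlinarith [sq_nonneg X]
    linarith
  · intro p hp hpβ
    have hpS : p ∈ β.natAbs.primeFactors := by
      rw [Nat.mem_primeFactors]
      exact ⟨hp, Int.natCast_dvd.mp hpβ, by simpa using hβ⟩
    obtain ⟨u, hu⟩ := hz0 p hpS
    have hmem : mp p ∈ M := (hM _).mpr (hmp p hp hpβ)
    rw [dif_pos hmem] at hu
    have hu' : m0 = mp p + (p : ℤ) • (u : N) := by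
      rw [hm0, hu]
      rfl
    obtain ⟨c, hc⟩ := hpβ
    refine dm_congr (u := (u : N) + (c * T) • m1) ?_
    rw [hu', hc]
    module

end Pool.Agent.AllRank
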