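import Pool.Agent.AllRank.MCrt
import Pool.Agent.MP4d0966.R4Rec

set_option autoImplicit false

/-!
ALLRANK, file MFive: the choice of the vector `m` in rank at least `5`.
NOTATION: `M = {m | B(m, e) = B(m, f) = 0}`, `α = B(f, l)`, `β = B(e, l) ≠ 0`.
-/

namespace Pool.Agent.AllRank

open Pool.Agent.MP4d0966
open scoped NumberTheorySymbols

variable {N : Type*} [AddCommGroup N]

/-- The local vector: `dm m ≡ 1` modulo the odd prime `p ∣ β`. -/
private theorem exists_mp [Module.Free ℤ N] [Module.Finite ℤ N] {L : EvenForm N}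
    (hr : 5 ≤ Module.finrank ℤ N) {p : ℕ} (hp : p.Prime) (hp2 : p ≠ 2)
    (hun : ∀ x, (∀ y, (p : ℤ) ∣ L.B x y) → ∃ x', x = (p : ℤ) • x') {e f l : N} (he : L.q e = 0)
    (hf : L.q f = 0) (hef : L.B e f = 1) (hl : L.q l = 1) (hpb : (p : ℤ) ∣ L.B e l) :
    ∃ m, L.B m e = 0 ∧ L.B m f = 0 ∧ (p : ℤ) ∣ dm L e f l m - 1 := by
  have hee : L.B e e = 0 := by rw [L.hq, he, mul_zero]
  have hff : L.B f f = 0 := by rw [L.hq, hf, mul_zero]
  have hfe : L.B f e = 1 := by rw [L.symm, hef]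
  have hle : L.B l e = L.B e l := L.symm l e
  have hlf : L.B l f = L.B f l := L.symm l f
  obtain ⟨β', hβ'⟩ := hpb
  have hpI : Prime (p : ℤ) := Nat.prime_iff_prime_int.mp hp
  have hp1 : ¬ (p : ℤ) ∣ 1 := fun h => hpI.not_isUnit (isUnit_of_dvd_one h)
  have hpn2 : ¬ (p : ℤ) ∣ 2 := by
    intro h
    have h1 : p ∣ 2 := by exact_mod_cast h
    exact hp2 ((Nat.prime_dvd_prime_iff_eq hp Nat.prime_two).mp h1)
  set la : N := l - L.B f l • e - L.B e l • f with hla
  have hae : L.B la e = 0 := by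
    simp only [hla, map_sub, map_smul, LinearMap.sub_apply, LinearMap.smul_apply, smul_eq_mul,
      hee, hfe, hle]
    ring
  have haf : L.B la f = 0 := by
    simp only [hla, map_sub, map_smul, LinearMap.sub_apply, LinearMap.smul_apply, smul_eq_mul,
      hff, hef, hlf]
    ring
  have hea : L.B e la = 0 := by rw [L.symm, hae]
  have hfa : L.B f la = 0 := by rw [L.symm, haf]
  have hqa : L.q la = 1 - L.B f l * L.B e l := by
    simp only [hla, EvenForm.q_sub, EvenForm.q_smul, map_sub, map_smul, LinearMap.sub_apply,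
      LinearMap.smul_apply, smul_eq_mul, hl, he, hf, hef, hle, hlf]
    ring
  have hq1 : L.q (e + f) = 1 := by rw [EvenForm.q_add, he, hf, hef]; norm_num
  have hq2 : L.q (e - f) = -1 := by rw [EvenForm.q_sub, he, hf, hef]; norm_num
  have hnd1 : ¬ (p : ℤ) ∣ 2 * L.q (e + f) := by rw [hq1, mul_one]; exact hpn2
  have hnd2 : ¬ (p : ℤ) ∣ 2 * L.q (e - f) := by
    rw [hq2, mul_neg, mul_one, dvd_neg]; exact hpn2
  have hnd3 : ¬ (p : ℤ) ∣ 2 * L.q la := by
    rw [hqa, hβ']
    intro h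
    rcases hpI.dvd_or_dvd h with h | h
    · exact hpn2 h
    · apply hp1
      have h2 : (p : ℤ) ∣ L.B f l * (p * β') := ⟨L.B f l * β', by ring⟩
      exact (dvd_sub_left h2).mp h
  have h12 : L.B (e + f) (e - f) = 0 := by
    simp only [map_add, map_sub, LinearMap.add_apply, hee, hff, hef, hfe]
    norm_num
  have h21 : L.B (e - f) (e + f) = 0 := by rw [L.symm, h12]
  have h13 : L.B (e + f) la = 0 := by
    simp only [map_add, LinearMap.add_apply, hea, hfa]
    norm_num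
  have h31 : L.B la (e + f) = 0 := by rw [L.symm, h13]
  have h23 : L.B (e - f) la = 0 := by
    simp only [map_sub, LinearMap.sub_apply, hea, hfa]
    norm_num
  have h32 : L.B la (e - f) = 0 := by rw [L.symm, h23]
  obtain ⟨x1, hx1, hx1q⟩ := exists_orth (L := L) (k := 3) hp hun (by omega) ![e + f, e - f, la]
    (by
      intro i j hij
      fin_cases i <;> fin_cases j <;> simp_all)
    (by
      intro i
      fin_cases i
      · simpa using hnd1
      · simpa using hnd2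
      · simpa using hnd3)
  have hx11 : L.B x1 (e + f) = 0 := by simpa using hx1 0
  have hx12 : L.B x1 (e - f) = 0 := by simpa using hx1 1
  have hx13 : L.B x1 la = 0 := by simpa using hx1 2
  have hnd4 : ¬ (p : ℤ) ∣ 2 * L.q x1 := by
    intro h
    rcases hpI.dvd_or_dvd h with h | h
    · exact hpn2 h
    · exact hx1q h
  have hx11' : L.B (e + f) x1 = 0 := by rw [L.symm, hx11]
  have hx12' : L.B (e - f) x1 = 0 := by rw [L.symm, hx12]
  have hx13' : L.B la x1 = 0 := by rw [L.symm, hx13]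
  obtain ⟨x2, hx2, hx2q⟩ := exists_orth (L := L) (k := 4) hp hun (by omega)
    ![e + f, e - f, la, x1]
    (by
      intro i j hij
      fin_cases i <;> fin_cases j <;> first | exact absurd rfl hij | assumption)
    (by
      intro i
      fin_cases i
      · simpa using hnd1
      · simpa using hnd2
      · simpa using hnd3
      · simpa using hnd4)
  have hx21 : L.B x2 (e + f) = 0 := by simpa using hx2 0
  have hx22 : L.B x2 (e - f) = 0 := by simpa using hx2 1
  have hx23 : L.B x2 la = 0 := by simpa using hx2 2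
  have hx24 : L.B x2 x1 = 0 := by simpa using hx2 3
  have hx42 : L.B x1 x2 = 0 := by rw [L.symm, hx24]
  rw [map_add] at hx11 hx21
  rw [map_sub] at hx12 hx22
  have hx1e : L.B x1 e = 0 := by linarith
  have hx1f : L.B x1 f = 0 := by linarith
  have hx2e : L.B x2 e = 0 := by linarith
  have hx2f : L.B x2 f = 0 := by linarith
  have hx1l : L.B l x1 = 0 := by
    rw [L.symm]
    simpa [hla, map_sub, map_smul, hx1e, hx1f] using hx13
  have hx2l : L.B l x2 = 0 := by
    rw [L.symm]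
    simpa [hla, map_sub, map_smul, hx2e, hx2f] using hx23
  have hpn4 : ¬ (p : ℤ) ∣ 4 := by
    intro h
    have h1 : (p : ℤ) ∣ 2 * 2 := by norm_num; exact h
    rcases hpI.dvd_or_dvd h1 with h | h <;> exact hpn2 h
  obtain ⟨s, t, hst⟩ := quad_prime_pow hp hp2 (α := 4 * L.q x1) (β := 4 * L.q x2) (γ := -1)
    (by
      intro h
      rcases hpI.dvd_or_dvd h with h | h
      · exact hpn4 h
      · exact hx1q h)
    (by
      intro h
      rcases hpI.dvd_or_dvd h with h | h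
      · exact hpn4 h
      · exact hx2q h)
    (by rw [dvd_neg]; exact hp1) 0
  obtain ⟨c, hc⟩ := hst
  refine ⟨s • x1 + t • x2, ?_, ?_, ?_⟩
  · simp [hx1e, hx2e]
  · simp [hx1f, hx2f]
  · have h1 : dm L e f l (s • x1 + t • x2)
        = -4 * (1 - L.B f l * L.B e l) * (s ^ 2 * L.q x1 + t ^ 2 * L.q x2) := by
      simp only [dm, EvenForm.q_add, EvenForm.q_smul, map_add, map_smul, LinearMap.smul_apply,
        smul_eq_mul, hx1l, hx2l, hx42]
      ring
    rw [h1, hβ']
    refine ⟨4 * L.B f l * β' * (s ^ 2 * L.q x1 + t ^ 2 * L.q x2) - c, ?_⟩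
    rw [zero_add, pow_one] at hc
    linear_combination (-1 : ℤ) * hc

/-- RANK at least `5`: the vector `m` with `dm ≡ 1` modulo every prime dividing `β`.
PROOF. Let `p ∣ β` be a prime; `p` is odd and `p ∤ W`. Put `λ := l - B(f,l) e - B(e,l) f ∈ M`,
`q(λ) = 1 - αβ ≡ 1` modulo `p`. The vectors `e + f`, `e - f`, `λ` are orthogonal with `q` equal to
`1`, `-1`,
`1 - αβ`. `exists_orth` (with `hW`) with these three gives `x1`, with these four (`k = 4 < 5`)
gives `x2`, orthogonal to all of them with `p ∤ q(x1) q(x2)`. `x1, x2 ∈ M` (`2 B(x, e) = 0`), and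
`B(l, x_i) = B(λ, x_i) = 0`. So for `m_p := s x1 + t x2`:
`dm m_p = -4 (1 - αβ) (q(x1) s² + q(x2) t²) ≡ -4 (q(x1) s² + q(x2) t²)` modulo `p`, and there are
`s, t` with `4 q(x1) s² + 4 q(x2) t² + 1 ≡ 0` modulo `p` (`FiniteField.exists_root_sum_quadratic`
over
`ZMod p`). So `dm m_p ≡ 1`. `exists_m` gives `m` with `dm m ≡ 1` modulo all primes `p ∣ β`. So
`β` is prime to `dm m` (and to `2`), and `J(dm m | |β|) = 1` (`jacobi_eq_one_of_primes` in
`Pool.Agent.MP4d0966.R4Rec`, or the same induction; `J(1 | p) = 1`). -/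
theorem exists_m5 [Module.Free ℤ N] [Module.Finite ℤ N] {L : EvenForm N}
    (hr : 5 ≤ Module.finrank ℤ N) {W : ℤ} (hW : ∀ p : ℕ, p.Prime → ¬ (p : ℤ) ∣ W →
      ∀ x, (∀ y, (p : ℤ) ∣ L.B x y) → ∃ x', x = (p : ℤ) • x') {e f l : N} (he : L.q e = 0)
    (hf : L.q f = 0) (hef : L.B e f = 1) (hl : L.q l = 1)
    (hco : IsCoprime (L.B e l) (2 * W)) (hpos : ∃ u, L.B u l = 0 ∧ 0 < L.q u) :
    ∃ m, L.B m e = 0 ∧ L.B m f = 0 ∧ 0 < L.q m ∧ IsCoprime (L.B e l) (2 * dm L e f l m) ∧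
      J(dm L e f l m | (L.B e l).natAbs) = 1 := by
  have hβ : L.B e l ≠ 0 := by
    intro h
    rw [h, isCoprime_zero_left] at hco
    have h1 : (2 : ℤ) ∣ 1 := (dvd_mul_right 2 W).trans (isUnit_iff_dvd_one.mp hco)
    omega
  have hodd : ∀ p : ℕ, p.Prime → (p : ℤ) ∣ L.B e l → p ≠ 2 ∧ ¬ (p : ℤ) ∣ W := by
    intro p hp hpb
    have hpI : Prime (p : ℤ) := Nat.prime_iff_prime_int.mp hp
    have h1 : ∀ z : ℤ, (p : ℤ) ∣ z → z ∣ 2 * W → False := fun z hz hz2 =>
      hpI.not_isUnit (hco.isUnit_of_dvd' hpb (hz.trans hz2))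
    refine ⟨?_, fun h => h1 W h (dvd_mul_left W 2)⟩
    rintro rfl
    exact h1 2 (by norm_num) (dvd_mul_right 2 W)
  have hex : ∀ p : ℕ, p.Prime → (p : ℤ) ∣ L.B e l →
      ∃ m, L.B m e = 0 ∧ L.B m f = 0 ∧ (p : ℤ) ∣ dm L e f l m - 1 := fun p hp hpb =>
    exists_mp hr hp (hodd p hp hpb).1 (hW p hp (hodd p hp hpb).2) he hf hef hl hpb
  choose! mp hmp1 hmp2 hmp3 using hex
  obtain ⟨m, hme, hmf, hmq, hm⟩ := exists_m he hef hl hβ hpos mp
    fun p hp hpb => ⟨hmp1 p hp hpb, hmp2 p hp hpb⟩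
  have hm1 : ∀ p : ℕ, p.Prime → (p : ℤ) ∣ L.B e l → (p : ℤ) ∣ dm L e f l m - 1 := by
    intro p hp hpb
    have h := dvd_add (hm p hp hpb) (hmp3 p hp hpb)
    rwa [sub_add_sub_cancel] at h
  refine ⟨m, hme, hmf, hmq, ?_, ?_⟩
  · apply IsCoprime.symm
    apply isCoprime_of_primes hβ
    intro p hp hpb h
    have hpI : Prime (p : ℤ) := Nat.prime_iff_prime_int.mp hp
    rcases hpI.dvd_or_dvd h with h | h
    · have h1 : p ∣ 2 := by exact_mod_cast h
      exact (hodd p hp hpb).1 ((Nat.prime_dvd_prime_iff_eq hp Nat.prime_two).mp h1)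
    · have h1 := dvd_sub h (hm1 p hp hpb)
      rw [sub_sub_cancel] at h1
      exact hpI.not_isUnit (isUnit_of_dvd_one h1)
  · apply R4.jacobi_eq_one_of_primes _ (Int.natAbs_ne_zero.mpr hβ)
    intro p hp hpb
    have h1 := hm1 p hp (Int.natCast_dvd.mpr hpb)
    have h2 : dm L e f l m ≡ 1 [ZMOD p] := (Int.modEq_iff_dvd.mpr h1).symm
    rw [jacobiSym.mod_left' h2, jacobiSym.one_left]

end Pool.Agent.AllRank
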