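import Pool.Agent.AllRank.MCrt

set_option autoImplicit false

/-!
ALLRANK, file MFour: the choice of the vector `m` in rank `4`.
NOTATION: `M = {m | B(m, e) = B(m, f) = 0}`, `α = B(f, l)`, `β = B(e, l) ≠ 0`,
`λ = l - α e - β f`.
-/

namespace Pool.Agent.AllRank

open Pool.Agent.MP4d0966
open scoped NumberTheorySymbols

variable {N : Type*} [AddCommGroup N]

/-- The Gram determinant of four vectors. -/
private theorem gram_det (L : EvenForm N) (b : Module.Basis (Fin 4) ℤ N) (w : Fin 4 → N) :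
    (Matrix.of fun i j => L.B (w i) (w j)).det =
      gdet L b * (Matrix.of fun i j => b.repr (w i) j).det ^ 2 := by
  have h : (Matrix.of fun i j => L.B (w i) (w j)) =
      (Matrix.of fun i j => b.repr (w i) j) * (Matrix.of fun i j => L.B (b i) (b j)) *
        (Matrix.of fun i j => b.repr (w i) j).transpose := by
    ext i j
    simp only [Matrix.mul_apply, Matrix.of_apply, Matrix.transpose_apply]
    conv_lhs => rw [← b.sum_repr (w i), ← b.sum_repr (w j)]
    simp only [map_sum, map_smul, LinearMap.sum_apply, LinearMap.smul_apply, smul_eq_mul]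
    refine Finset.sum_congr rfl fun k _ => ?_
    rw [mul_comm, Finset.sum_mul]
  rw [h, Matrix.det_mul, Matrix.det_mul, Matrix.det_transpose, gdet]
  ring

private theorem det_aux (a b c : ℤ) :
    (!![0, 1, 0, 0; 1, 0, 0, 0; 0, 0, a, b; 0, 0, b, c] : Matrix (Fin 4) (Fin 4) ℤ).det =
      b ^ 2 - a * c := by
  simp [Matrix.det_succ_row_zero, Fin.sum_univ_succ, Fin.succAbove]
  ring

/-- `dm` is the Gram determinant times a square. -/
private theorem dm_eq (L : EvenForm N) (b : Module.Basis (Fin 4) ℤ N) {e f l m : N}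
    (he : L.q e = 0) (hf : L.q f = 0) (hef : L.B e f = 1) (hl : L.q l = 1)
    (hme : L.B m e = 0) (hmf : L.B m f = 0) :
    ∃ P : ℤ, dm L e f l m = gdet L b * P ^ 2 := by
  have hee : L.B e e = 0 := by rw [L.hq, he, mul_zero]
  have hff : L.B f f = 0 := by rw [L.hq, hf, mul_zero]
  have hfe : L.B f e = 1 := by rw [L.symm, hef]
  have hll : L.B l l = 2 := by rw [L.hq, hl, mul_one]
  have hmm : L.B m m = 2 * L.q m := L.hq m
  have hem : L.B e m = 0 := by rw [L.symm, hme]
  have hfm : L.B f m = 0 := by rw [L.symm, hmf]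
  have hle : L.B l e = L.B e l := L.symm _ _
  have hlf : L.B l f = L.B f l := L.symm _ _
  have hml : L.B m l = L.B l m := L.symm _ _
  refine ⟨(Matrix.of fun i j =>
    b.repr (![e, f, l - L.B f l • e - L.B e l • f, m] i) j).det, ?_⟩
  rw [← gram_det L b ![e, f, l - L.B f l • e - L.B e l • f, m]]
  have h : (Matrix.of fun i j => L.B (![e, f, l - L.B f l • e - L.B e l • f, m] i)
      (![e, f, l - L.B f l • e - L.B e l • f, m] j)) =
      !![0, 1, 0, 0; 1, 0, 0, 0; 0, 0, 2 * (1 - L.B f l * L.B e l), L.B l m;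
        0, 0, L.B l m, 2 * L.q m] := by
    ext i j
    fin_cases i <;> fin_cases j <;>
      (simp [hee, hff, hef, hfe, hll, hmm, hem, hfm, hme, hmf, hle, hlf, hml]; try ring)
  rw [h, det_aux, dm]
  ring

/-- the local choice -/
private theorem exists_local {L : EvenForm N} {b : Module.Basis (Fin 4) ℤ N} {e f l : N}
    (he : L.q e = 0) (hf : L.q f = 0) (hef : L.B e f = 1) (hl : L.q l = 1) {p : ℕ}
    (hp : p.Prime) (hp2 : ¬ (p : ℤ) ∣ 2 * gdet L b) (hpβ : (p : ℤ) ∣ L.B e l) :
    ∃ m, L.B m e = 0 ∧ L.B m f = 0 ∧ ¬ (p : ℤ) ∣ 2 * dm L e f l m := by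
  have := Module.Free.of_basis b
  have := Module.Finite.of_basis b
  have hpi : Prime (p : ℤ) := Nat.prime_iff_prime_int.1 hp
  have hee : L.B e e = 0 := by rw [L.hq, he, mul_zero]
  have hff : L.B f f = 0 := by rw [L.hq, hf, mul_zero]
  have hfe : L.B f e = 1 := by rw [L.symm, hef]
  have hle : L.B l e = L.B e l := L.symm _ _
  have hlf : L.B l f = L.B f l := L.symm _ _
  have h2 : ¬ (p : ℤ) ∣ 2 := fun h => hp2 (h.mul_right _)
  have hg : ¬ (p : ℤ) ∣ gdet L b := fun h => hp2 (h.mul_left _)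
  have h1 : ¬ (p : ℤ) ∣ 1 - L.B f l * L.B e l := by
    intro h
    have h3 : (p : ℤ) ∣ 1 := by
      have h4 := dvd_add h (hpβ.mul_left (L.B f l))
      rwa [sub_add_cancel] at h4
    exact hpi.not_dvd_one h3
  obtain ⟨x, hx, hqx⟩ := exists_orth (L := L) hp (fun x hx => unim hp hg hx) (k := 3)
    (by rw [Module.finrank_eq_card_basis b]; decide)
    ![e + f, e - f, l - L.B f l • e - L.B e l • f] (by
      intro i j hij
      fin_cases i <;> fin_cases j <;>
        first
          | exact absurd rfl hij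
          | simp [hee, hff, hef, hfe, hle, hlf])
    (by
      intro i
      fin_cases i
      · simp [L.q_add, he, hf, hef]
        exact h2
      · simp [L.q_sub, he, hf, hef]
        exact h2
      · have h3 : L.q (l - L.B f l • e - L.B e l • f) = 1 - L.B f l * L.B e l := by
          simp [L.q_sub, L.q_smul, he, hf, hef, hl, hle, hlf]
        simp only [Fin.reduceFinMk, Matrix.cons_val]
        rw [h3]
        intro h
        rcases hpi.dvd_or_dvd h with h | h
        · exact h2 h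
        · exact h1 h)
  have x0 := hx 0
  have x1 := hx 1
  have x2 := hx 2
  simp at x0 x1 x2
  have hxe : L.B x e = 0 := by omega
  have hxf : L.B x f = 0 := by omega
  have hxl : L.B l x = 0 := by
    rw [L.symm]
    rw [hxe, hxf] at x2
    simpa using x2
  refine ⟨x, hxe, hxf, ?_⟩
  rw [dm, hxl]
  intro h
  have h3 : (p : ℤ) ∣ 2 * (2 * (2 * ((1 - L.B f l * L.B e l) * L.q x))) := by
    have h4 := dvd_neg.2 h
    have h5 : 2 * (2 * (2 * ((1 - L.B f l * L.B e l) * L.q x))) =
        -(2 * (0 ^ 2 - 4 * (1 - L.B f l * L.B e l) * L.q x)) := by ring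
    rw [h5]
    exact h4
  rcases hpi.dvd_or_dvd h3 with h | h
  · exact h2 h
  rcases hpi.dvd_or_dvd h with h | h
  · exact h2 h
  rcases hpi.dvd_or_dvd h with h | h
  · exact h2 h
  rcases hpi.dvd_or_dvd h with h | h
  · exact h1 h
  · exact hqx h

/-- RANK `4`. PROOF. (a) For `m ∈ M`, `dm L e f l m = gdet L b * P(m)²`, where `P(m)` is the
determinant of the matrix of coordinates of `(e, f, λ, m)`: the Gram matrix of these four
vectors is `(0, 1; 1, 0) ⊕ (2 q(λ), B(λ,m); B(λ,m), 2 q(m))` with determinant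
`-(4 q(λ) q(m) - B(λ,m)²) = dm`.
(b) For a prime `p ∣ β` (odd, `p ∤ gdet`): `exists_orth` (with `unim`) with `e + f, e - f, λ`
gives `m_p ∈ M` orthogonal to `λ` with `p ∤ q(m_p)`; `dm m_p = -4 (1 - αβ) q(m_p) ≡ -4 q(m_p)`, not
divisible by `p`.
(c) `exists_m` gives `m`, with `p ∤ dm m` for all primes `p ∣ β`: `β` is coprime to `2 dm m`, and
`J(dm m | |β|) = J(gdet | |β|) J(P(m) | |β|)² = 1` (`jacobiSym.mul_left`, `P(m)` is prime to `β`
because `dm m` is). -/
theorem exists_m4 {L : EvenForm N} {b : Module.Basis (Fin 4) ℤ N} {e f l : N}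
    (he : L.q e = 0) (hf : L.q f = 0) (hef : L.B e f = 1) (hl : L.q l = 1)
    (hco : IsCoprime (L.B e l) (2 * gdet L b)) (hJ : J(gdet L b | (L.B e l).natAbs) = 1)
    (hpos : ∃ u, L.B u l = 0 ∧ 0 < L.q u) :
    ∃ m, L.B m e = 0 ∧ L.B m f = 0 ∧ 0 < L.q m ∧ IsCoprime (L.B e l) (2 * dm L e f l m) ∧
      J(dm L e f l m | (L.B e l).natAbs) = 1 := by
  have hβ : L.B e l ≠ 0 := by
    intro h
    rw [h, isCoprime_zero_left] at hco
    have h1 : IsUnit (2 : ℤ) := isUnit_of_mul_isUnit_left hco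
    exact absurd h1 (by decide)
  have hloc : ∀ p : ℕ, ∃ m, (p.Prime → (p : ℤ) ∣ L.B e l → L.B m e = 0 ∧ L.B m f = 0 ∧
      ¬ (p : ℤ) ∣ 2 * dm L e f l m) := by
    intro p
    by_cases hp : p.Prime
    · by_cases hpβ : (p : ℤ) ∣ L.B e l
      · have hp2 : ¬ (p : ℤ) ∣ 2 * gdet L b := by
          intro h
          have h1 := hco.isUnit_of_dvd' hpβ h
          exact (Nat.prime_iff_prime_int.1 hp).not_isUnit h1
        obtain ⟨m, h1, h2, h3⟩ := exists_local (b := b) he hf hef hl hp hp2 hpβ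
        exact ⟨m, fun _ _ => ⟨h1, h2, h3⟩⟩
      · exact ⟨0, fun _ h => absurd h hpβ⟩
    · exact ⟨0, fun h => absurd h hp⟩
  choose mp hmp using hloc
  obtain ⟨m, hme, hmf, hmpos, hm⟩ := exists_m he hef hl hβ hpos mp
    (fun p hp hpβ => ⟨(hmp p hp hpβ).1, (hmp p hp hpβ).2.1⟩)
  have hcop : IsCoprime (L.B e l) (2 * dm L e f l m) := by
    apply IsCoprime.symm
    apply isCoprime_of_primes hβ
    intro p hp hpβ hpd
    apply (hmp p hp hpβ).2.2
    have h1 := hm p hp hpβ
    have h2 : 2 * dm L e f l (mp p) =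
        2 * dm L e f l m - 2 * (dm L e f l m - dm L e f l (mp p)) := by ring
    rw [h2]
    exact dvd_sub hpd (h1.mul_left _)
  refine ⟨m, hme, hmf, hmpos, hcop, ?_⟩
  obtain ⟨P, hP⟩ := dm_eq L b he hf hef hl hme hmf
  have hc : P.gcd ((L.B e l).natAbs : ℤ) = 1 := by
    rw [hP] at hcop
    have h1 : IsCoprime (L.B e l) P := by
      have h2 : 2 * (gdet L b * P ^ 2) = 2 * gdet L b * P * P := by ring
      rw [h2] at hcop
      exact hcop.of_mul_right_right
    have h3 := Int.isCoprime_iff_gcd_eq_one.1 h1.symm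
    rw [Int.gcd_def] at h3 ⊢
    rw [Int.natAbs_natCast]
    exact h3
  rw [hP, jacobiSym.mul_left, hJ, one_mul, pow_two, jacobiSym.mul_left, ← pow_two]
  exact jacobiSym.sq_one hc

end Pool.Agent.AllRank
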