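import Pool.Agent.AllRank.SymNorm
import Pool.Agent.AllRank.Conic
import Pool.Agent.MP4d0966.Arith

set_option autoImplicit false

/-!
ALLRANK, file NormCrit: the norm theorem for `ℚ(√d)`, `d > 1` odd and squarefree.
-/

namespace Pool.Agent.AllRank

open scoped NumberTheorySymbols

private theorem nc_crt {B c : ℤ} (hB : Squarefree B)
    (h : ∀ p : ℕ, p.Prime → (p : ℤ) ∣ B → ∃ s : ℤ, (p : ℤ) ∣ s ^ 2 - c) :
    ∃ s : ℤ, B ∣ s ^ 2 - c := by
  classical
  have h1 : ∀ p : ℕ, ∃ s : ℤ, p.Prime → (p : ℤ) ∣ B → (p : ℤ) ∣ s ^ 2 - c := by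
    intro p
    by_cases hp : p.Prime ∧ (p : ℤ) ∣ B
    · obtain ⟨s, hs⟩ := h p hp.1 hp.2
      exact ⟨s, fun _ _ => hs⟩
    · exact ⟨0, fun h2 h3 => absurd ⟨h2, h3⟩ hp⟩
  choose z hz using h1
  have hsq : Squarefree B.natAbs := Int.squarefree_natAbs.2 hB
  obtain ⟨z0, hz0⟩ := Pool.Agent.MP4d0966.exists_crt (G := ℤ) B.natAbs.primeFactors
    (fun p hp => Nat.prime_of_mem_primeFactors hp) z
  refine ⟨z0, ?_⟩
  rw [← Int.natAbs_dvd_natAbs, ← Nat.prod_primeFactors_of_squarefree hsq]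
  refine Finset.prod_primes_dvd _ ?_ ?_
  · intro p hp
    exact (Nat.prime_of_mem_primeFactors hp).prime
  · intro p hp
    obtain ⟨u, hu⟩ := hz0 p hp
    have h2 : (p : ℤ) ∣ B := Int.natCast_dvd.2 (Nat.dvd_of_mem_primeFactors hp)
    have h3 := hz p (Nat.prime_of_mem_primeFactors hp) h2
    rw [← Int.natCast_dvd]
    have h4 : z0 ^ 2 - c = (z p ^ 2 - c) + (p : ℤ) * (u * (2 * z p + (p : ℤ) * u)) := by
      rw [hu, smul_eq_mul]
      ring
    rw [h4]
    exact dvd_add h3 (dvd_mul_right _ _)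

private theorem nc_sq {p : ℕ} (hp : p.Prime) {a : ℤ} (h : J(a | p) = 1) :
    ∃ s : ℤ, (p : ℤ) ∣ s ^ 2 - a := by
  have : Fact p.Prime := ⟨hp⟩
  rw [← jacobiSym.legendreSym.to_jacobiSym] at h
  have ha0 : (a : ZMod p) ≠ 0 := by
    intro h0
    rw [(legendreSym.eq_zero_iff p a).2 h0] at h
    exact zero_ne_one h
  rw [legendreSym.eq_one_iff p ha0] at h
  obtain ⟨t, ht⟩ := h
  obtain ⟨s, hs⟩ := ZMod.intCast_surjective t
  refine ⟨s, ?_⟩
  rw [← ZMod.intCast_zmod_eq_zero_iff_dvd, Int.cast_sub, Int.cast_pow, ht, hs]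
  ring

private theorem nc_val_mul {p : ℕ} (hp : p.Prime) {a b : ℤ} (ha : a ≠ 0) (hb : b ≠ 0) :
    padicValInt p (a * b) = padicValInt p a + padicValInt p b := by
  have : Fact p.Prime := ⟨hp⟩
  exact padicValInt.mul ha hb

private theorem nc_val_one {p : ℕ} (hp : p.Prime) {a : ℤ} (h1 : ¬ (p : ℤ) ∣ a) :
    padicValInt p ((p : ℤ) * a) = 1 := by
  have := padic_pow_mul hp (v := 1) h1
  rwa [pow_one] at this

private theorem nc_not_sq {d : ℕ} (hsq : Squarefree d) (hd1 : 1 < d) {x y : ℤ} (hy : y ≠ 0)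
    (h : x ^ 2 = d * y ^ 2) : False := by
  have h1 : y ^ 2 ∣ x ^ 2 := ⟨d, by rw [h]; ring⟩
  rw [Int.pow_dvd_pow_iff (by norm_num)] at h1
  obtain ⟨c, rfl⟩ := h1
  have h2 : y ^ 2 * (c ^ 2 - d) = 0 := by linear_combination h
  have h3 : c ^ 2 = d := by
    rcases mul_eq_zero.1 h2 with h3 | h3
    · exact absurd (pow_eq_zero_iff (by norm_num) |>.1 h3) hy
    · linarith
  have h4 : c.natAbs * c.natAbs = d := by
    have h5 := congrArg Int.natAbs h3
    rw [Int.natAbs_pow, Int.natAbs_natCast] at h5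
    rw [← h5]
    ring
  have h6 := Nat.isUnit_iff.1 (hsq c.natAbs ⟨1, by rw [mul_one, h4]⟩)
  rw [h6] at h4
  omega

/-- the multiplier `g` of step (1) -/
private theorem nc_g {d : ℕ} (hsq : Squarefree d) (hd1 : 1 < d) {n : ℤ} (hn : n ≠ 0) :
    ∃ g : ℕ, (g : ℤ) ^ 2 - d ≠ 0 ∧ ∀ p : ℕ, p.Prime → p ∣ d →
      Even (padicValInt p (n * ((g : ℤ) ^ 2 - d))) := by
  classical
  obtain ⟨S, hS⟩ : ∃ S : Finset ℕ, S = d.primeFactors.filter (fun p => Odd (padicValInt p n)) :=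
    ⟨_, rfl⟩
  have hSp : ∀ p ∈ S, p.Prime := by
    intro p hp
    rw [hS, Finset.mem_filter] at hp
    exact Nat.prime_of_mem_primeFactors hp.1
  have hSd : ∀ p ∈ S, p ∣ d := by
    intro p hp
    rw [hS, Finset.mem_filter] at hp
    exact Nat.dvd_of_mem_primeFactors hp.1
  obtain ⟨e, he⟩ : (∏ p ∈ S, p) ∣ d :=
    Finset.prod_primes_dvd _ (fun p hp => (hSp p hp).prime) hSd
  obtain ⟨g, hg⟩ : ∃ g, g = ∏ p ∈ S, p := ⟨_, rfl⟩
  rw [← hg] at he
  have hN : (g : ℤ) ^ 2 - d ≠ 0 := by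
    intro h0
    exact nc_not_sq hsq hd1 (x := g) (y := 1) one_ne_zero (by linarith)
  refine ⟨g, hN, fun p hp hpd => ?_⟩
  rw [nc_val_mul hp hn hN]
  by_cases hodd : Odd (padicValInt p n)
  · have hpS : p ∈ S := by
      rw [hS, Finset.mem_filter]
      exact ⟨Nat.mem_primeFactors.2 ⟨hp, hpd, by omega⟩, hodd⟩
    have hpg : p ∣ g := hg ▸ Finset.dvd_prod_of_mem _ hpS
    obtain ⟨g1, rfl⟩ := hpg
    have hpg1 : ¬ p ∣ g1 := by
      rintro ⟨g2, rfl⟩
      have := hsq p ⟨g2 * e, by rw [he]; ring⟩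
      exact hp.one_lt.ne' (Nat.isUnit_iff.mp this)
    have hpe : ¬ p ∣ e := by
      rintro ⟨e2, rfl⟩
      have := hsq p ⟨g1 * e2, by rw [he]; ring⟩
      exact hp.one_lt.ne' (Nat.isUnit_iff.mp this)
    have h1 : (((p * g1 : ℕ) : ℤ) ^ 2 - d) = (p : ℤ) * (g1 * (p * g1 - e)) := by
      rw [he]
      push_cast
      ring
    have h2 : ¬ (p : ℤ) ∣ g1 * (p * g1 - e) := by
      intro h3
      rcases (Nat.prime_iff_prime_int.mp hp).dvd_or_dvd h3 with h4 | h4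
      · exact hpg1 (by exact_mod_cast h4)
      · have h5 : (p : ℤ) ∣ e := by
          have h6 := dvd_sub (dvd_mul_right (p : ℤ) g1) h4
          have h7 : (p : ℤ) * g1 - (p * g1 - e) = e := by ring
          rwa [h7] at h6
        exact hpe (by exact_mod_cast h5)
    rw [h1, nc_val_one hp h2]
    exact hodd.add_one
  · have hpg : ¬ p ∣ g := by
      intro h1
      rw [hg, Prime.dvd_finsetProd_iff hp.prime] at h1
      obtain ⟨q, hq, hpq⟩ := h1
      have h2 : p = q := (Nat.prime_dvd_prime_iff_eq hp (hSp q hq)).1 hpq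
      subst h2
      rw [hS, Finset.mem_filter] at hq
      exact hodd hq.2
    have h1 : ¬ (p : ℤ) ∣ (g : ℤ) ^ 2 - d := by
      intro h2
      have h3 : (p : ℤ) ∣ d := by exact_mod_cast hpd
      have h4 := dvd_add h2 h3
      rw [sub_add_cancel] at h4
      have h5 := (Nat.prime_iff_prime_int.mp hp).dvd_of_dvd_pow h4
      exact hpg (by exact_mod_cast h5)
    rw [padicValInt.eq_zero_of_not_dvd h1, add_zero]
    exact Nat.not_odd_iff_even.1 hodd

/-- PROOF. `d` is not a square (squarefree, `> 1`).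
(1) Let `g` be the product of the primes `p ∣ d` with `padicValInt p n` odd, `N := g² - d`. It is
not `0`; for `p ∣ g`: `p ∣ N`, `p² ∤ N` (`N = g (g - d / g)` and `p ∤ d / g`); for
`p ∣ d`, `p ∤ g`: `p ∤ N`. So all `padicValInt p (n N)`, `p ∣ d`, are even, and
`hs d p (n N) = hs d p n * hs d p N = 1` for odd `p` (`hs_norm` with `k = 1`, `X = g`, `Y = 1`).
(2) Write `n N = n0 s²`, `n0` squarefree (`Nat.sq_mul_squarefree` for the absolute value), `s ≠ 0`.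
`hs d p n0 = 1` for odd `p` (`hs_mul`, `hs_sq`). No `p ∣ d` divides `n0`, so `d` and `n0` are
coprime. For an odd prime `ℓ ∣ n0`: `hs d ℓ n0 = J(d | ℓ)` (`hs_unr`, `v = 1`), so
`d` is a square modulo `ℓ`; modulo `2` everything is a square; `n0` is squarefree, so by the
Chinese remainder theorem (`exists_crt` in `Pool.Agent.AllRank.Orth`, or induction on a product of
distinct primes) there is `s1` with `n0 ∣ s1² - d`. For `p ∣ d`:
`hs d p n0 = J(n0 | p) = 1` (`hs_ram_unit`), so `n0` is a square modulo `p`, and there is `s2` with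
`d ∣ s2² - n0`.
(3) `conic` (file Conic) with `B = d`, `T = n0` gives `(x, y, z) ≠ 0` with `x² = d y² + n0 z²`. Here
`z ≠ 0`: otherwise `x² = d y²` and `d` is a square or `x = y = 0`.
(4) `X := s (x g + d y)`, `Y := s (x + g y)`, `Z := N z`:
`X² - d Y² = s² (x² - d y²)(g² - d) = s² n0 z² N = n N² z²`. -/
theorem exists_norm {d : ℕ} (hd : Odd d) (hsq : Squarefree d) (hd1 : 1 < d) {n : ℤ} (hn : n ≠ 0)
    (h : ∀ p : ℕ, p.Prime → p ≠ 2 → hs d p n = 1) :
    ∃ X Y Z : ℤ, Z ≠ 0 ∧ X ^ 2 - d * Y ^ 2 = n * Z ^ 2 := by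
  obtain ⟨g, hN, hev⟩ := nc_g hsq hd1 hn
  obtain ⟨N, hNdef⟩ : ∃ N : ℤ, N = (g : ℤ) ^ 2 - d := ⟨_, rfl⟩
  rw [← hNdef] at hN
  simp only [← hNdef] at hev
  have hnN : n * N ≠ 0 := mul_ne_zero hn hN
  -- step (2)
  obtain ⟨n0, s, hs0, hn0sq, hnN2⟩ : ∃ n0 s : ℤ, s ≠ 0 ∧ Squarefree n0 ∧ n * N = n0 * s ^ 2 := by
    obtain ⟨a, b, hab, ha⟩ := Nat.sq_mul_squarefree (n * N).natAbs
    have hb : (b : ℤ) ≠ 0 := by
      rintro hb0
      have hb1 : b = 0 := by exact_mod_cast hb0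
      rw [hb1] at hab
      have h1 : (n * N).natAbs = 0 := by
        rw [← hab]
        ring
      exact hnN (Int.natAbs_eq_zero.1 h1)
    rcases Int.natAbs_eq (n * N) with h1 | h1
    · refine ⟨a, b, hb, Int.squarefree_natCast.2 ha, ?_⟩
      rw [h1, ← hab]
      push_cast
      ring
    · refine ⟨-a, b, hb, ?_, ?_⟩
      · rw [← Int.squarefree_natAbs, Int.natAbs_neg, Int.natAbs_natCast]
        exact ha
      · rw [h1, ← hab]
        push_cast
        ring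
  have hn00 : n0 ≠ 0 := hn0sq.ne_zero
  have hsn0 : ∀ p : ℕ, p.Prime → p ≠ 2 → hs d p n0 = 1 := by
    intro p hp hp2
    have h1 : hs d p (n * N) = 1 := by
      rw [hs_mul hp hd hn hN, h p hp hp2, one_mul]
      exact hs_norm hp hd hsq (k := 1) (X := g) (Y := 1) one_ne_zero hN (by rw [hNdef]; ring)
    rw [hnN2, hs_mul hp hd hn00 (pow_ne_zero 2 hs0), hs_sq hp hd hsq hs0, mul_one] at h1
    exact h1
  have hpn0 : ∀ p : ℕ, p.Prime → p ∣ d → ¬ (p : ℤ) ∣ n0 := by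
    intro p hp hpd hpn
    have h1 := hev p hp hpd
    obtain ⟨n1, rfl⟩ := hpn
    have h2 : ¬ (p : ℤ) ∣ n1 := by
      rintro ⟨n2, rfl⟩
      have h3 := hn0sq (p : ℤ) ⟨n2, by ring⟩
      exact (Nat.prime_iff_prime_int.mp hp).not_isUnit h3
    rw [hnN2, nc_val_mul hp hn00 (pow_ne_zero 2 hs0), nc_val_one hp h2, sq,
      nc_val_mul hp hs0 hs0] at h1
    rcases h1 with ⟨r, hr⟩
    omega
  have hodd : ∀ p : ℕ, p ∣ d → p ≠ 2 := by
    rintro p hpd rfl
    rw [Nat.odd_iff] at hd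
    omega
  have hco : IsCoprime (d : ℤ) n0 := by
    rw [Int.isCoprime_iff_gcd_eq_one]
    by_contra h1
    obtain ⟨p, hp, hpg⟩ := Nat.exists_prime_and_dvd h1
    have h2 : (p : ℤ) ∣ d := (Int.natCast_dvd_natCast.2 hpg).trans (Int.gcd_dvd_left ..)
    have h3 : (p : ℤ) ∣ n0 := (Int.natCast_dvd_natCast.2 hpg).trans (Int.gcd_dvd_right ..)
    exact hpn0 p hp (by exact_mod_cast h2) h3
  obtain ⟨s1, hs1⟩ : ∃ s1 : ℤ, n0 ∣ s1 ^ 2 - d := by
    refine nc_crt hn0sq fun p hp hpn => ?_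
    by_cases hp2 : p = 2
    · subst hp2
      refine ⟨d, ?_⟩
      have h1 : (d : ℤ) ^ 2 - d = (d - 1) * d := by ring
      rw [h1]
      refine Dvd.dvd.mul_right ?_ _
      rw [Nat.odd_iff] at hd
      push_cast
      omega
    · obtain ⟨n1, rfl⟩ := hpn
      have h2 : ¬ (p : ℤ) ∣ n1 := by
        rintro ⟨n2, rfl⟩
        have h3 := hn0sq (p : ℤ) ⟨n2, by ring⟩
        exact (Nat.prime_iff_prime_int.mp hp).not_isUnit h3
      have hpd : ¬ p ∣ d := fun h3 => hpn0 p hp h3 (dvd_mul_right _ _)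
      have h4 := hs_unr hp hp2 hpd 1 h2
      rw [pow_one, pow_one, hsn0 p hp hp2] at h4
      exact nc_sq hp h4.symm
  obtain ⟨s2, hs2⟩ : ∃ s2 : ℤ, (d : ℤ) ∣ s2 ^ 2 - n0 := by
    refine nc_crt (Int.squarefree_natCast.2 hsq) fun p hp hpd => ?_
    have hpd' : p ∣ d := by exact_mod_cast hpd
    have h1 := hs_ram_unit hp (hodd p hpd') hpd' (hpn0 p hp hpd')
    rw [hsn0 p hp (hodd p hpd')] at h1
    exact nc_sq hp h1.symm
  -- step (3)
  obtain ⟨x, y, z, hxyz, hcon⟩ := conic (B := d) (T := n0) (by omega) hn00 hco hs1 hs2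
  have hz : z ≠ 0 := by
    rintro rfl
    by_cases hy : y = 0
    · subst hy
      have h1 : x ^ 2 = 0 := by rw [hcon]; ring
      have h2 : x = 0 := pow_eq_zero_iff (by norm_num) |>.1 h1
      rcases hxyz with h3 | h3 | h3
      · exact h3 h2
      · exact h3 rfl
      · exact h3 rfl
    · exact nc_not_sq hsq hd1 (x := x) hy (by rw [hcon]; ring)
  -- step (4)
  refine ⟨s * (x * g + d * y), s * (x + g * y), N * z, mul_ne_zero hN hz, ?_⟩
  have e1 : n * (N * z) ^ 2 = (n * N) * N * z ^ 2 := by ring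
  rw [e1, hnN2]
  have e2 : N = (g : ℤ) ^ 2 - d := hNdef
  rw [e2]
  linear_combination s ^ 2 * ((g : ℤ) ^ 2 - d) * hcon

end Pool.Agent.AllRank
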