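import Pool.Agent.AllRank.Orth

set_option autoImplicit false

/-!
ALLRANK, file OrthB: orthogonal bases of lattices of rank `4`.
-/

namespace Pool.Agent.AllRank

open Pool.Agent.MP4d0966

variable {N : Type*} [AddCommGroup N]

/-- The matrix of coordinates. -/
private noncomputable def cm (b : Module.Basis (Fin 4) ℤ N) (u : Fin 4 → N) :
    Matrix (Fin 4) (Fin 4) ℤ := Matrix.of fun i j => b.repr (u i) j

private theorem bx (L : EvenForm N) (b : Module.Basis (Fin 4) ℤ N) (x y : N) :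
    L.B x y = ∑ k, b.repr x k * L.B (b k) y := by
  conv_lhs => rw [← b.sum_repr x]
  rw [map_sum, LinearMap.sum_apply]
  refine Finset.sum_congr rfl fun k _ => ?_
  rw [map_smul, LinearMap.smul_apply, smul_eq_mul]

private theorem bxr (L : EvenForm N) (b : Module.Basis (Fin 4) ℤ N) (x y : N) :
    L.B x y = ∑ k, L.B x (b k) * b.repr y k := by
  conv_lhs => rw [← b.sum_repr y]
  rw [map_sum]
  refine Finset.sum_congr rfl fun k _ => ?_
  rw [map_smul, smul_eq_mul, mul_comm]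

private theorem gram (L : EvenForm N) (b : Module.Basis (Fin 4) ℤ N) (u : Fin 4 → N) :
    (Matrix.of fun i j => L.B (u i) (u j)) =
      cm b u * (Matrix.of fun i j => L.B (b i) (b j)) * (cm b u).transpose := by
  ext i j
  rw [Matrix.mul_apply]
  show L.B (u i) (u j) = _
  rw [bxr L b]
  refine Finset.sum_congr rfl fun m _ => ?_
  rw [Matrix.mul_apply, bx L b]
  rfl

private theorem gram_det {L : EvenForm N} {l v0 v1 v2 : N}
    (hl : L.q l = 1) (h0 : L.B v0 l = 0) (h1 : L.B v1 l = 0) (h2 : L.B v2 l = 0)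
    (h01 : L.B v0 v1 = 0) (h02 : L.B v0 v2 = 0) (h12 : L.B v1 v2 = 0) :
    (Matrix.of fun i j => L.B (![l, v0, v1, v2] i) (![l, v0, v1, v2] j)).det =
      16 * L.q v0 * L.q v1 * L.q v2 := by
  have e : (Matrix.of fun i j => L.B (![l, v0, v1, v2] i) (![l, v0, v1, v2] j)) =
      Matrix.diagonal ![2, 2 * L.q v0, 2 * L.q v1, 2 * L.q v2] := by
    ext i j
    fin_cases i <;> fin_cases j <;>
      simp [L.hq, hl, h0, h1, h2, h01, h02, h12, L.symm l v0, L.symm l v1, L.symm l v2,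
        L.symm v1 v0, L.symm v2 v0, L.symm v2 v1]
  rw [e, Matrix.det_diagonal, Fin.prod_univ_four]
  simp
  ring

private theorem det_eq {L : EvenForm N} {b : Module.Basis (Fin 4) ℤ N} {l v0 v1 v2 : N}
    (hl : L.q l = 1) (h0 : L.B v0 l = 0) (h1 : L.B v1 l = 0) (h2 : L.B v2 l = 0)
    (h01 : L.B v0 v1 = 0) (h02 : L.B v0 v2 = 0) (h12 : L.B v1 v2 = 0) :
    gdet L b * (cm b ![l, v0, v1, v2]).det ^ 2 = 16 * L.q v0 * L.q v1 * L.q v2 := by
  rw [← gram_det hl h0 h1 h2 h01 h02 h12, gram L b, Matrix.det_mul, Matrix.det_mul,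
    Matrix.det_transpose, gdet]
  ring

/-- The determinant of an orthogonal basis. PROOF. The Gram matrix of
`(l, v 0, v 1, v 2)` is diagonal with entries `2, 2 q(v0), 2 q(v1), 2 q(v2)` and equals
`P G Pᵀ`, `P` the matrix of coordinates; take determinants. -/
theorem gdet_mul_sq {L : EvenForm N} {b : Module.Basis (Fin 4) ℤ N} {l v0 v1 v2 : N}
    (hl : L.q l = 1) (h0 : L.B v0 l = 0) (h1 : L.B v1 l = 0) (h2 : L.B v2 l = 0)
    (h01 : L.B v0 v1 = 0) (h02 : L.B v0 v2 = 0) (h12 : L.B v1 v2 = 0) :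
    ∃ P : ℤ, gdet L b * P ^ 2 = 16 * L.q v0 * L.q v1 * L.q v2 :=
  ⟨_, det_eq hl h0 h1 h2 h01 h02 h12⟩

/-- The expansion in an orthogonal basis. PROOF. `gdet * P² = 16 q0 q1 q2 ≠ 0`, so `P ≠ 0`, where
`P` is the determinant of the matrix of coordinates of `(l, v0, v1, v2)`; so `P • y` is a
combination of these four vectors for every `y` (adjugate). Let `d` be the difference of the two
sides. Pairing with `l, v0, v1, v2` one gets `0`; so `P * L.B d y = L.B d (P • y) = 0` for all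
`y`, and `d = 0` because the form is nondegenerate (`gdet ≠ 0`; if you prefer, redo the proof of
`gdet_mul_sq` and the expansion at once). -/
theorem span_eq {L : EvenForm N} {b : Module.Basis (Fin 4) ℤ N} {l v0 v1 v2 : N}
    (hl : L.q l = 1) (h0 : L.B v0 l = 0) (h1 : L.B v1 l = 0) (h2 : L.B v2 l = 0)
    (h01 : L.B v0 v1 = 0) (h02 : L.B v0 v2 = 0) (h12 : L.B v1 v2 = 0)
    (n0 : L.q v0 ≠ 0) (n1 : L.q v1 ≠ 0) (n2 : L.q v2 ≠ 0) (hD : gdet L b ≠ 0) (x : N) :
    (4 * L.q v0 * L.q v1 * L.q v2) • x =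
      (2 * L.q v0 * L.q v1 * L.q v2 * L.B x l) • l + (2 * L.q v1 * L.q v2 * L.B x v0) • v0
        + (2 * L.q v0 * L.q v2 * L.B x v1) • v1 + (2 * L.q v0 * L.q v1 * L.B x v2) • v2 := by
  have hdet := det_eq (b := b) hl h0 h1 h2 h01 h02 h12
  have hP : (cm b ![l, v0, v1, v2]).det ≠ 0 := by
    intro h
    rw [h, zero_pow two_ne_zero, mul_zero] at hdet
    have h3 : 16 * L.q v0 * L.q v1 * L.q v2 ≠ 0 :=
      mul_ne_zero (mul_ne_zero (mul_ne_zero (by norm_num) n0) n1) n2
    exact h3 hdet.symm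
  rw [← sub_eq_zero]
  set d := (4 * L.q v0 * L.q v1 * L.q v2) • x -
    ((2 * L.q v0 * L.q v1 * L.q v2 * L.B x l) • l + (2 * L.q v1 * L.q v2 * L.B x v0) • v0
        + (2 * L.q v0 * L.q v2 * L.B x v1) • v1 + (2 * L.q v0 * L.q v1 * L.B x v2) • v2) with hd
  have k0 : L.B l v0 = 0 := by rw [L.symm, h0]
  have k1 : L.B l v1 = 0 := by rw [L.symm, h1]
  have k2 : L.B l v2 = 0 := by rw [L.symm, h2]
  have k01 : L.B v1 v0 = 0 := by rw [L.symm, h01]
  have k02 : L.B v2 v0 = 0 := by rw [L.symm, h02]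
  have k12 : L.B v2 v1 = 0 := by rw [L.symm, h12]
  have key : ∀ y, L.B d y = 4 * L.q v0 * L.q v1 * L.q v2 * L.B x y -
      (2 * L.q v0 * L.q v1 * L.q v2 * L.B x l * L.B l y + 2 * L.q v1 * L.q v2 * L.B x v0 * L.B v0 y
        + 2 * L.q v0 * L.q v2 * L.B x v1 * L.B v1 y
        + 2 * L.q v0 * L.q v1 * L.B x v2 * L.B v2 y) := by
    intro y
    simp only [hd, map_sub, map_add, map_smul, LinearMap.sub_apply, LinearMap.add_apply,
      LinearMap.smul_apply, smul_eq_mul]
  have e : ∀ i, L.B d (![l, v0, v1, v2] i) = 0 := by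
    intro i
    fin_cases i
    · show L.B d l = 0
      rw [key, L.hq, hl, h0, h1, h2]
      ring
    · show L.B d v0 = 0
      rw [key, L.hq, k0, k01, k02]
      ring
    · show L.B d v1 = 0
      rw [key, L.hq, k1, h01, k12]
      ring
    · show L.B d v2 = 0
      rw [key, L.hq, k2, h02, h12]
      ring
  have e1 : (fun j => L.B d (b j)) = 0 := by
    refine Matrix.eq_zero_of_mulVec_eq_zero hP ?_
    funext i
    rw [Pi.zero_apply, ← e i, bxr L b]
    show ∑ j, b.repr (![l, v0, v1, v2] i) j * L.B d (b j) =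
      ∑ j, L.B d (b j) * b.repr (![l, v0, v1, v2] i) j
    exact Finset.sum_congr rfl fun j _ => mul_comm _ _
  have e2 : (fun j => b.repr d j) = 0 := by
    refine Matrix.eq_zero_of_mulVec_eq_zero
      (M := Matrix.of fun i j => L.B (b i) (b j)) hD ?_
    funext i
    have h3 : L.B (b i) d = 0 := by
      rw [L.symm]
      exact congrFun e1 i
    rw [Pi.zero_apply, ← h3, bxr L b]
    rfl
  have e3 : b.repr d = 0 := Finsupp.ext fun j => congrFun e2 j
  exact b.repr.map_eq_zero_iff.1 e3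

end Pool.Agent.AllRank
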