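import Pool.Agent.AllRank.Lat

set_option autoImplicit false

/-!
ALLRANK, file PairMk: changing hyperbolic pairs. `M = {m | B(m, e) = B(m, f) = 0}`.
-/

namespace Pool.Agent.AllRank

open Pool.Agent.MP4d0966

variable {N : Type*} [AddCommGroup N]

/-- PROOF. `α = B(f, l)`, `β = B(e, l)`, `λ = l - α e - β f ∈ M`, `q(λ) = 1 - α β`;
`r β + w W = 1`; `m1 := r • λ`, `f1 := f + m1 - q(m1) e`. Then `q(f1) = 0`, `B(e, f1) = 1`, and
`β B(f1, l) = 1 - q(λ - β m1) = 1 - q((w W) • λ)`. For `m ∈ M` put `m' := m - B(m, m1) e`: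
`B(m', e) = 0`, `B(m', f1) = B(m, m1) - B(m, m1) = 0`, `q(m') = q(m)`. -/
theorem exists_adapt_pair {L : EvenForm N} {e f l : N} (he : L.q e = 0) (hf : L.q f = 0)
    (hef : L.B e f = 1) (hl : L.q l = 1) {W : ℤ} (hW : IsCoprime (L.B e l) W) :
    ∃ f1 : N, L.q f1 = 0 ∧ L.B e f1 = 1 ∧ W ∣ L.B e l * L.B f1 l - 1 ∧
      ∀ m, L.B m e = 0 → L.B m f = 0 → ∃ m', L.B m' e = 0 ∧ L.B m' f1 = 0 ∧ L.q m' = L.q m := by
  obtain ⟨r, w, hrw⟩ := hW
  have hee : L.B e e = 0 := by rw [L.hq, he, mul_zero]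
  have hff : L.B f f = 0 := by rw [L.hq, hf, mul_zero]
  have hll : L.B l l = 2 := by rw [L.hq, hl]; norm_num
  have hfe : L.B f e = 1 := by rw [L.symm, hef]
  have hle : L.B l e = L.B e l := L.symm l e
  have hlf : L.B l f = L.B f l := L.symm l f
  set α := L.B f l with hα
  set β := L.B e l with hβ
  obtain ⟨lam, hlam⟩ : ∃ lam : N, lam = l - α • e - β • f := ⟨_, rfl⟩
  have h1 : L.B lam e = 0 := by
    rw [hlam]
    simp only [map_sub, map_smul, LinearMap.sub_apply, LinearMap.smul_apply, smul_eq_mul, hee, hfe,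
      hle]
    ring
  have h2 : L.B lam f = 0 := by
    rw [hlam]
    simp only [map_sub, map_smul, LinearMap.sub_apply, LinearMap.smul_apply, smul_eq_mul, hef, hff,
      hlf]
    ring
  have h3 : L.B lam l = 2 - 2 * α * β := by
    rw [hlam]
    simp only [map_sub, map_smul, LinearMap.sub_apply, LinearMap.smul_apply, smul_eq_mul, hll,
      ← hα, ← hβ]
    ring
  have h4 : L.q lam = 1 - α * β := by
    have h5 : L.B lam lam = 2 - 2 * α * β := by
      conv_lhs => rw [hlam, map_sub, map_sub, map_smul, map_smul, ← hlam, h1, h2, h3]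
      simp
    have h6 := L.hq lam
    rw [h5] at h6
    linarith
  have h1' : L.B e lam = 0 := by rw [L.symm, h1]
  have h2' : L.B f lam = 0 := by rw [L.symm, h2]
  have h7 : L.q (r • lam) = r ^ 2 * (1 - α * β) := by rw [EvenForm.q_smul, h4]
  have hf1 : L.q (f + r • lam - L.q (r • lam) • e) = 0 := by
    rw [EvenForm.q_sub, EvenForm.q_add, EvenForm.q_smul L (L.q (r • lam)) e, he, hf]
    simp only [map_add, map_smul, LinearMap.add_apply, LinearMap.smul_apply, smul_eq_mul, h2',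
      hfe, h1]
    ring
  refine ⟨f + r • lam - L.q (r • lam) • e, hf1, ?_, ?_, ?_⟩
  · simp only [map_add, map_sub, map_smul, smul_eq_mul, hef, h1', hee]
    ring
  · refine ⟨-(w ^ 2 * W * (1 - α * β)), ?_⟩
    simp only [map_add, map_sub, map_smul, LinearMap.add_apply, LinearMap.sub_apply,
      LinearMap.smul_apply, smul_eq_mul, h3, h7, ← hα, ← hβ]
    have : w * W = 1 - r * β := by linarith
    have e1 : W * -(w ^ 2 * W * (1 - α * β)) = -((w * W) ^ 2 * (1 - α * β)) := by ring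
    rw [e1, this]
    ring
  · intro m hme hmf
    refine ⟨m - L.B m (r • lam) • e, ?_, ?_, ?_⟩
    · simp only [map_sub, map_smul, LinearMap.sub_apply, LinearMap.smul_apply, smul_eq_mul, hme,
        hee]
      ring
    · simp only [map_add, map_sub, map_smul, LinearMap.sub_apply, LinearMap.smul_apply,
        smul_eq_mul, hme, hmf, hee, hef, h1']
      ring
    · rw [EvenForm.q_sub, EvenForm.q_smul L (L.B m (r • lam)) e, he,
        map_smul (L.B m) (L.B m (r • lam)) e, hme]
      simp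

/-- PROOF. `e2 := x e + y f + m` is isotropic. With `a x + c y = 1` put `z := c e + a f`; then
`B(e2, z) = a x + c y = 1`, and `f2 := z - q(z) e2` is isotropic with `B(e2, f2) = 1`. -/
theorem exists_pair {L : EvenForm N} {e f m : N} (he : L.q e = 0) (hf : L.q f = 0)
    (hef : L.B e f = 1) (hme : L.B m e = 0) (hmf : L.B m f = 0) {x y : ℤ}
    (hxy : x * y = -L.q m) (hco : IsCoprime x y) :
    ∃ e2 f2 : N, L.q e2 = 0 ∧ L.q f2 = 0 ∧ L.B e2 f2 = 1 ∧
      ∀ l, L.B e2 l = x * L.B e l + y * L.B f l + L.B m l := by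
  obtain ⟨a, c, hac⟩ := hco
  have hee : L.B e e = 0 := by rw [L.hq, he, mul_zero]
  have hff : L.B f f = 0 := by rw [L.hq, hf, mul_zero]
  have hfe : L.B f e = 1 := by rw [L.symm, hef]
  have hem : L.B e m = 0 := by rw [L.symm, hme]
  have hfm : L.B f m = 0 := by rw [L.symm, hmf]
  obtain ⟨e2, he2⟩ : ∃ e2 : N, e2 = x • e + y • f + m := ⟨_, rfl⟩
  obtain ⟨z, hz⟩ : ∃ z : N, z = c • e + a • f := ⟨_, rfl⟩
  have q2 : L.q e2 = 0 := by
    rw [he2, EvenForm.q_add, EvenForm.q_add, EvenForm.q_smul, EvenForm.q_smul, he, hf]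
    simp only [map_add, map_smul, LinearMap.add_apply, LinearMap.smul_apply, smul_eq_mul, hef, hem,
      hfm]
    linarith
  have hB : L.B e2 z = 1 := by
    rw [he2, hz]
    simp only [map_add, map_smul, LinearMap.add_apply, LinearMap.smul_apply, smul_eq_mul, hef, hfe,
      hee, hff, hme, hmf]
    linarith
  have hB' : L.B z e2 = 1 := by rw [L.symm, hB]
  have hBee : L.B e2 e2 = 0 := by rw [L.hq, q2, mul_zero]
  refine ⟨e2, z - L.q z • e2, q2, ?_, ?_, ?_⟩
  · rw [EvenForm.q_sub, EvenForm.q_smul, q2, map_smul, hB']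
    simp
  · rw [map_sub, map_smul, hB, hBee]
    simp
  · intro l
    rw [he2]
    simp only [map_add, map_smul, LinearMap.add_apply, LinearMap.smul_apply, smul_eq_mul]

end Pool.Agent.AllRank
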