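import Mathlib

set_option autoImplicit false

/-!
ALLRANK, file Pell: a sequence of Pell units tending to `1` at all primes, with exactly known
valuation at `q` of the second coordinate.

PROOF. Let `W := M q²` (nonzero). `Δ W²` is positive and not a square, so by
`Pell.exists_of_not_isSquare` there are `x', y'` with `x'² - Δ W² y'² = 1`, `y' ≠ 0`. Put
`x 0 := 2 x'² - 1`, `y 0 := 2 x' W y'` (the square of `x' + W y' √Δ`). Then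
`x 0 - 1 = 2 (x'² - 1) = 2 Δ W² y'²` is divisible by `W`, `y 0` is divisible by `W`, and
`y 0 ≠ 0` (`x' ≠ 0`, since `-Δ W² y'² = 1` is impossible).
RECURSION. `(x (i+1), y (i+1))` is the `q`-th power: `x (i+1) + y (i+1) √Δ = (x i + y i √Δ)^q` in
`ℤ√Δ` (`Zsqrtd Δ`), i.e. `z i := (z 0) ^ (q ^ i)`, `x i := (z i).re`, `y i := (z i).im`.
Norm `1` is clear (multiplicativity). Every `z i` is congruent to `1` modulo `W` (products of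
elements congruent to `1`): `W ∣ x i - 1`, `W ∣ y i`; in particular `M` and `q²` divide these.
VALUATION. `z (i+1) = (x + y √Δ)^q` with `x = x i`, `y = y i`. In a commutative ring
`(a + b)^q = a^q + q a^(q-1) b + k b²` (`Polynomial.powAddExpansion`); with `b = y √Δ`:
`y (i+1) = q x^(q-1) y + y² · (integer)`, and `q² ∣ y`, so
`y (i+1) = q y (x^(q-1) + q · (integer))`, where `q ∤ x` (`q ∣ x - 1`); so
`‖y (i+1)‖ = ‖y i‖ / q` in `ℚ_[q]` and `y (i+1) ≠ 0`.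
LAST CLAIM. `(x i - 1)(x i + 1) = Δ (y i)²` and `‖x i + 1‖ = ‖2‖ = 1` (`q ≠ 2`, `q ∣ x i - 1`), so
`‖x i - 1‖ = ‖Δ‖ ‖y i‖² ≤ ‖y i‖ ≤ q^(-i)`.
-/

namespace Pool.Agent.AllRank

private theorem norm_eq_one_of_not_dvd (q : ℕ) [Fact q.Prime] {k : ℤ} (h : ¬ (q : ℤ) ∣ k) :
    ‖((k : ℤ) : ℚ_[q])‖ = 1 := by
  by_contra hne
  have h1 : ‖((k : ℤ) : ℚ_[q])‖ < 1 := lt_of_le_of_ne (Padic.norm_int_le_one k) hne
  exact h (Padic.norm_intCast_lt_one_iff.1 h1)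

private theorem im_pow_eq {Δ : ℤ} (z : ℤ√Δ) (n : ℕ) :
    ∃ k : ℤ, (z ^ n).im = n * z.re ^ (n - 1) * z.im + z.im ^ 2 * k := by
  obtain ⟨k, hk⟩ := Polynomial.powAddExpansion (z.re : ℤ√Δ) (⟨0, z.im⟩ : ℤ√Δ) n
  have hz : (z.re : ℤ√Δ) + (⟨0, z.im⟩ : ℤ√Δ) = z := by
    ext <;> simp
  rw [hz] at hk
  refine ⟨Δ * k.im, ?_⟩
  rw [hk]
  have h1 : ((⟨0, z.im⟩ : ℤ√Δ)) ^ 2 = ((Δ * z.im ^ 2 : ℤ) : ℤ√Δ) := by
    rw [pow_two]
    ext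
    · rw [Zsqrtd.re_mul, Zsqrtd.re_intCast]
      ring
    · rw [Zsqrtd.im_mul, Zsqrtd.im_intCast]
      ring
  have h2 : ((n : ℤ√Δ) * (z.re : ℤ√Δ) ^ (n - 1)) = ((n * z.re ^ (n - 1) : ℤ) : ℤ√Δ) := by
    push_cast; rfl
  have h3 : ((z.re : ℤ√Δ) ^ n) = ((z.re ^ n : ℤ) : ℤ√Δ) := by
    push_cast; rfl
  rw [h1, h2, h3]
  simp only [Zsqrtd.im_add, Zsqrtd.im_mul, Zsqrtd.im_intCast, Zsqrtd.re_intCast]
  ring

theorem exists_pell_seq (q : ℕ) [Fact q.Prime] (hq2 : q ≠ 2) {Δ M : ℤ} (h0 : 0 < Δ)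
    (hns : ¬ IsSquare Δ) (hM : M ≠ 0) :
    ∃ x y : ℕ → ℤ, (∀ i, x i ^ 2 - Δ * y i ^ 2 = 1) ∧ (∀ i, M ∣ x i - 1) ∧ (∀ i, M ∣ y i) ∧
      y 0 ≠ 0 ∧
      (∀ i, ‖((y i : ℤ) : ℚ_[q])‖ = ‖((y 0 : ℤ) : ℚ_[q])‖ * ((q : ℝ) ^ i)⁻¹) ∧
      ∀ i, ‖((x i : ℤ) : ℚ_[q]) - 1‖ ≤ ((q : ℝ) ^ i)⁻¹ := by
  have hqp : q.Prime := Fact.out
  have hq0 : (q : ℤ) ≠ 0 := by exact_mod_cast hqp.ne_zero
  have hqpr : Prime (q : ℤ) := Nat.prime_iff_prime_int.1 hqp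
  obtain ⟨W, hWdef⟩ : ∃ W : ℤ, W = M * (q : ℤ) ^ 2 := ⟨_, rfl⟩
  have hW : W ≠ 0 := by rw [hWdef]; exact mul_ne_zero hM (pow_ne_zero _ hq0)
  have hD : 0 < Δ * W ^ 2 := by positivity
  have hDn : ¬ IsSquare (Δ * W ^ 2) := by
    rintro ⟨r, hr⟩
    have h1 : W ^ 2 ∣ r ^ 2 := ⟨Δ, by rw [pow_two r, ← hr]; ring⟩
    have h2 : W ∣ r := (Int.pow_dvd_pow_iff two_ne_zero).1 h1
    obtain ⟨s, rfl⟩ := h2
    apply hns
    refine ⟨s, ?_⟩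
    have h3 : W ^ 2 * Δ = W ^ 2 * (s * s) := by linear_combination hr
    exact mul_left_cancel₀ (pow_ne_zero 2 hW) h3
  obtain ⟨a, b, hab, hb⟩ := Pell.exists_of_not_isSquare hD hDn
  have ha : a ≠ 0 := by
    rintro rfl
    have : 0 < Δ * W ^ 2 * b ^ 2 := by positivity
    nlinarith
  obtain ⟨z0, hz0⟩ : ∃ z0 : ℤ√Δ, z0 = ⟨2 * a ^ 2 - 1, 2 * a * (W * b)⟩ := ⟨_, rfl⟩
  have hnorm0 : z0.norm = 1 := by
    rw [Zsqrtd.norm_def, hz0]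
    linear_combination (4 * a ^ 2) * hab
  have hW0 : (W : ℤ√Δ) ∣ z0 - 1 := by
    refine ⟨⟨2 * Δ * W * b ^ 2, 2 * a * b⟩, ?_⟩
    rw [hz0]
    ext
    · simp only [Zsqrtd.re_sub, Zsqrtd.re_one, Zsqrtd.re_mul, Zsqrtd.re_intCast,
        Zsqrtd.im_intCast]
      linear_combination 2 * hab
    · simp only [Zsqrtd.im_sub, Zsqrtd.im_one, Zsqrtd.im_mul, Zsqrtd.re_intCast,
        Zsqrtd.im_intCast]
      ring
  have hWn : ∀ n : ℕ, (W : ℤ√Δ) ∣ z0 ^ n - 1 := by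
    intro n
    have h1 := sub_dvd_pow_sub_pow z0 1 n
    rw [one_pow] at h1
    exact hW0.trans h1
  have hre : ∀ n : ℕ, W ∣ (z0 ^ n).re - 1 := by
    intro n
    obtain ⟨w, hw⟩ := hWn n
    refine ⟨w.re, ?_⟩
    have := congrArg Zsqrtd.re hw
    simpa [Zsqrtd.re_mul] using this
  have him : ∀ n : ℕ, W ∣ (z0 ^ n).im := by
    intro n
    obtain ⟨w, hw⟩ := hWn n
    refine ⟨w.im, ?_⟩
    have := congrArg Zsqrtd.im hw
    simpa [Zsqrtd.im_mul] using this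
  have hMW : M ∣ W := ⟨_, hWdef⟩
  have hqW : (q : ℤ) ^ 2 ∣ W := ⟨M, by rw [hWdef]; ring⟩
  have hnorm : ∀ n : ℕ, (z0 ^ n).re ^ 2 - Δ * (z0 ^ n).im ^ 2 = 1 := by
    intro n
    have h1 : (z0 ^ n).norm = 1 := by
      have : (z0 ^ n).norm = z0.norm ^ n := map_pow Zsqrtd.normMonoidHom z0 n
      rw [this, hnorm0, one_pow]
    rw [Zsqrtd.norm_def] at h1
    linear_combination h1
  have hqre : ∀ n : ℕ, ¬ (q : ℤ) ∣ (z0 ^ n).re := by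
    intro n h
    have h1 : (q : ℤ) ∣ (z0 ^ n).re - 1 :=
      ((dvd_pow_self (q : ℤ) two_ne_zero).trans hqW).trans (hre n)
    have h2 : (q : ℤ) ∣ 1 := by
      have := dvd_sub h h1
      simpa using this
    exact hqpr.not_isUnit (isUnit_of_dvd_one h2)
  have hval : ∀ i : ℕ, ‖(((z0 ^ q ^ i).im : ℤ) : ℚ_[q])‖ =
      ‖(((z0 ^ q ^ 0).im : ℤ) : ℚ_[q])‖ * ((q : ℝ) ^ i)⁻¹ := by
    intro i
    induction i with
    | zero => simp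
    | succ i ih =>
      have hpow : z0 ^ q ^ (i + 1) = (z0 ^ q ^ i) ^ q := by rw [pow_succ, pow_mul]
      obtain ⟨k, hk⟩ := im_pow_eq (z0 ^ q ^ i) q
      obtain ⟨t, ht⟩ := hqW.trans (him (q ^ i))
      have h1 : (z0 ^ q ^ (i + 1)).im = q * (z0 ^ q ^ i).im *
          ((z0 ^ q ^ i).re ^ (q - 1) + q * (t * k)) := by
        rw [hpow, hk]
        rw [ht]
        ring
      have h2 : ¬ (q : ℤ) ∣ (z0 ^ q ^ i).re ^ (q - 1) + q * (t * k) := by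
        intro h
        have h3 : (q : ℤ) ∣ (z0 ^ q ^ i).re ^ (q - 1) :=
          (dvd_add_left (dvd_mul_right _ _)).1 h
        exact hqre _ (hqpr.dvd_of_dvd_pow h3)
      have h4 := norm_eq_one_of_not_dvd q h2
      rw [h1]
      push_cast at h4 ⊢
      rw [norm_mul, norm_mul, h4, mul_one, Padic.norm_p, ih, pow_succ, mul_inv]
      ring
  refine ⟨fun i => (z0 ^ q ^ i).re, fun i => (z0 ^ q ^ i).im, fun i => hnorm _,
    fun i => hMW.trans (hre _), fun i => hMW.trans (him _), ?_, hval, ?_⟩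
  · simp only [pow_zero, pow_one, hz0]
    have : (2 : ℤ) ≠ 0 := two_ne_zero
    positivity
  · intro i
    simp only
    obtain ⟨x, hx⟩ : ∃ x : ℤ, x = (z0 ^ q ^ i).re := ⟨_, rfl⟩
    obtain ⟨y, hy⟩ : ∃ y : ℤ, y = (z0 ^ q ^ i).im := ⟨_, rfl⟩
    have h1 := hnorm (q ^ i)
    have h2 : ¬ (q : ℤ) ∣ x + 1 := by
      intro h
      have h3 : (q : ℤ) ∣ x - 1 := by
        rw [hx]
        exact ((dvd_pow_self (q : ℤ) two_ne_zero).trans hqW).trans (hre _)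
      have h4 : (q : ℤ) ∣ 2 := by
        have := dvd_sub h h3
        have h5 : x + 1 - (x - 1) = 2 := by ring
        rwa [h5] at this
      have h6 : q ∣ 2 := by exact_mod_cast h4
      exact hq2 ((Nat.prime_dvd_prime_iff_eq hqp Nat.prime_two).1 h6)
    have h3 := norm_eq_one_of_not_dvd q h2
    have h4 : (x - 1) * (x + 1) = Δ * y ^ 2 := by
      rw [hx, hy]; linear_combination h1
    have h5 : ‖((x : ℤ) : ℚ_[q]) - 1‖ = ‖((Δ : ℤ) : ℚ_[q])‖ * ‖((y : ℤ) : ℚ_[q])‖ ^ 2 := by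
      have h6 : (((x : ℤ) : ℚ_[q]) - 1) * (((x + 1 : ℤ)) : ℚ_[q]) =
          ((Δ : ℤ) : ℚ_[q]) * ((y : ℤ) : ℚ_[q]) ^ 2 := by
        exact_mod_cast congrArg (fun n : ℤ => (n : ℚ_[q])) h4
      have h7 := congrArg (fun n => ‖n‖) h6
      simp only [norm_mul, norm_pow] at h7
      rw [h3, mul_one] at h7
      exact h7
    rw [← hx, h5]
    have hyi : ‖((y : ℤ) : ℚ_[q])‖ ≤ ((q : ℝ) ^ i)⁻¹ := by
      rw [hy, hval i]
      have : (0 : ℝ) ≤ ((q : ℝ) ^ i)⁻¹ := by positivity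
      calc _ ≤ 1 * ((q : ℝ) ^ i)⁻¹ :=
            mul_le_mul_of_nonneg_right (Padic.norm_int_le_one _) this
        _ = _ := one_mul _
    have hy1 : ‖((y : ℤ) : ℚ_[q])‖ ≤ 1 := Padic.norm_int_le_one y
    have hΔ1 : ‖((Δ : ℤ) : ℚ_[q])‖ ≤ 1 := Padic.norm_int_le_one Δ
    calc ‖((Δ : ℤ) : ℚ_[q])‖ * ‖((y : ℤ) : ℚ_[q])‖ ^ 2
        ≤ 1 * (‖((y : ℤ) : ℚ_[q])‖ ^ 2) := mul_le_mul_of_nonneg_right hΔ1 (by positivity)
      _ = ‖((y : ℤ) : ℚ_[q])‖ * ‖((y : ℤ) : ℚ_[q])‖ := by ring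
      _ ≤ 1 * ‖((y : ℤ) : ℚ_[q])‖ := mul_le_mul_of_nonneg_right hy1 (norm_nonneg _)
      _ = ‖((y : ℤ) : ℚ_[q])‖ := one_mul _
      _ ≤ _ := hyi

end Pool.Agent.AllRank
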