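import Pool.Agent.AllRank.Defs

set_option autoImplicit false

/-!
ALLRANK, file Prim: from a point of the quadric to a primitive isotropic vector.

NOTATION. `N = ℤ⁴` with `q(x, y, s, t) = x y + A s² + B s t + C t²`, `l = (α, β, 1, 0)`,
`(w, l) = β x + α y + 2 A s + B t`, `q(l) = α β + A = 1`, `D = B² - 4 A C`.
The point `x0² - bq s0 t0 = β n z0²` gives the isotropic vector
`E = (-(bq m1 m2), X², X m1, X m2)`, where `X = β x0`, `(m1, m2) = (x0 - s0, -t0)`.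

PROOF.
(1) `q(E) = 0` is clear. `(E, l) = β² n z0²`: indeed
`β (E, l) = -β² bq m1 m2 + α β X² + β X (2 A m1 + B m2)` with `α β = 1 - A`, which equals
`X² - bq (X - β m1) (-β m2) = X² - bq (β s0) (β t0) = β² (x0² - bq s0 t0) = β³ n z0²`
(`linear_combination`); cancel `β ≠ 0`.
`β ≠ 0`, `z0 ≠ 0`, `D ≠ 0`: they are coprime to `2 D`, an even number (`D = 0` is impossible?
if `D = 0` then `β` and `z0` and `n` are units; then `n` is not prime: contradiction).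
(2) Let `h := gcd (X, m1, m2) > 0` (`X ≠ 0` or `(m1, m2) ≠ 0` since `(E, l) ≠ 0`),
`X = h X'`, `m = h m'`, `E = h² E''`, `E'' = (-(bq m1' m2'), X'², X' m1', X' m2')`. Let
`g := gcd` of the four coordinates of `E''`, `g > 0`, `E'' = g e2`, `e2 = (x', y', s', t')`
primitive and isotropic, and `a := (e2, l)` satisfies `a g h² = β² n z0² > 0`; so `a > 0`. The
right hand side is coprime to `2 D`, so `a` is.
(3) Let `p` be a prime with `J(D | p) = -1`. Then `p ≠ n`, `p ∤ D`, `p` odd (`J(D | 2)` is `0` or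
`1`: `jacobiSym` at `2` is `ZMod.χ`-like: `legendreSym 2 D` is `0` or `1`).
INERT LEMMA: `p ∣ bq m1 m2` implies `p ∣ m1` and `p ∣ m2`. Since
`4 A bq = (2 A m1 + B m2)² - D m2²` and `D` is not a square modulo `p`, `p ∣ m2` and
`p ∣ 2 A m1 + B m2`; if `p ∤ A` we get `p ∣ m1`; if `p ∣ A` then `D ≡ B²` modulo `p` is a square:
contradiction.
So `p ∤ g`: otherwise `p ∣ X'²` and `p ∣ bq m1' m2'`, so `p ∣ X', m1', m2'`, contradiction with
`gcd (X', m1', m2') = 1`. Therefore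
`v_p(a) = v_p(a g) = 2 v_p(β) + v_p(n) + 2 v_p(z0) - 2 v_p(h)` is even (`v_p(n) = 0`):
use `padicValInt.mul`, `padicValInt.pow`-like lemmas.
-/

namespace Pool.Agent.AllRank

open scoped NumberTheorySymbols

/-- Four integers, not all zero, are a positive multiple of a primitive quadruple. -/
private theorem prim4 (a b c d : ℤ) (h0 : ¬ (a = 0 ∧ b = 0 ∧ c = 0 ∧ d = 0)) :
    ∃ g a' b' c' d' : ℤ, 0 < g ∧ a = g * a' ∧ b = g * b' ∧ c = g * c' ∧ d = g * d' ∧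
      ∀ p : ℕ, p.Prime → ¬ ((p : ℤ) ∣ a' ∧ (p : ℤ) ∣ b' ∧ (p : ℤ) ∣ c' ∧ (p : ℤ) ∣ d') := by
  obtain ⟨g, hga, hgb, hgc, hgd, hu⟩ : ∃ g : ℕ, (g : ℤ) ∣ a ∧ (g : ℤ) ∣ b ∧ (g : ℤ) ∣ c ∧
      (g : ℤ) ∣ d ∧ ∀ k : ℤ, k ∣ a → k ∣ b → k ∣ c → k ∣ d → k ∣ (g : ℤ) := by
    refine ⟨Int.gcd a (Int.gcd b (Int.gcd c d)), Int.gcd_dvd_left .., ?_, ?_, ?_, ?_⟩
    · exact (Int.gcd_dvd_right ..).trans (Int.gcd_dvd_left ..)
    · exact ((Int.gcd_dvd_right ..).trans (Int.gcd_dvd_right ..)).trans (Int.gcd_dvd_left ..)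
    · exact ((Int.gcd_dvd_right ..).trans (Int.gcd_dvd_right ..)).trans (Int.gcd_dvd_right ..)
    · intro k h1 h2 h3 h4
      exact Int.dvd_coe_gcd h1 (Int.dvd_coe_gcd h2 (Int.dvd_coe_gcd h3 h4))
  have hg0 : (g : ℤ) ≠ 0 := by
    intro h
    rw [h] at hga hgb hgc hgd
    exact h0 ⟨zero_dvd_iff.1 hga, zero_dvd_iff.1 hgb, zero_dvd_iff.1 hgc, zero_dvd_iff.1 hgd⟩
  obtain ⟨a', ha⟩ := hga
  obtain ⟨b', hb⟩ := hgb
  obtain ⟨c', hc⟩ := hgc
  obtain ⟨d', hd⟩ := hgd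
  refine ⟨g, a', b', c', d', by positivity, ha, hb, hc, hd, ?_⟩
  rintro p hp ⟨h1, h2, h3, h4⟩
  have k : (g : ℤ) * p ∣ g := hu _ (ha ▸ mul_dvd_mul_left _ h1) (hb ▸ mul_dvd_mul_left _ h2)
    (hc ▸ mul_dvd_mul_left _ h3) (hd ▸ mul_dvd_mul_left _ h4)
  have k2 : (g : ℤ) * p ∣ g * 1 := by rwa [mul_one]
  have k3 : (p : ℤ) ∣ 1 := (mul_dvd_mul_iff_left hg0).1 k2
  have k4 : p ∣ 1 := by exact_mod_cast k3
  exact hp.one_lt.ne' (Nat.dvd_one.1 k4)

/-- `D` is not a square modulo a prime with `J(D | p) = -1`. -/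
private theorem not_sq {D : ℤ} {p : ℕ} [Fact p.Prime] (hJ : J(D | p) = -1) :
    ¬ IsSquare (D : ZMod p) := by
  rw [← jacobiSym.legendreSym.to_jacobiSym] at hJ
  exact (legendreSym.eq_neg_one_iff p).1 hJ

/-- The inert lemma. -/
private theorem inert {A B C D : ℤ} (hD : D = B ^ 2 - 4 * A * C) {p : ℕ} (hp : p.Prime)
    (hJ : J(D | p) = -1) {m1 m2 : ℤ} (h : (p : ℤ) ∣ bq A B C m1 m2) :
    (p : ℤ) ∣ m1 ∧ (p : ℤ) ∣ m2 := by
  have : Fact p.Prime := ⟨hp⟩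
  have hns := not_sq hJ
  have h' : ((bq A B C m1 m2 : ℤ) : ZMod p) = 0 := (ZMod.intCast_zmod_eq_zero_iff_dvd _ p).2 h
  have hDz : (D : ZMod p) = (B : ZMod p) ^ 2 - 4 * A * C := by
    rw [hD]; push_cast; ring
  have hA : (4 * A : ZMod p) ≠ 0 := by
    intro h4
    exact hns ⟨B, by rw [hDz, h4]; ring⟩
  have key : (2 * A * m1 + B * m2 : ZMod p) ^ 2 = D * (m2 : ZMod p) ^ 2 := by
    rw [bq] at h'
    push_cast at h'
    rw [hDz]
    linear_combination (4 * (A : ZMod p)) * h'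
  have hm2 : (m2 : ZMod p) = 0 := by
    by_contra hm
    refine hns ⟨(2 * A * m1 + B * m2 : ZMod p) / m2, ?_⟩
    field_simp
    rw [key]
  have hm1 : (m1 : ZMod p) = 0 := by
    rw [hm2] at key
    have h5 : (4 * A : ZMod p) * (A * (m1 : ZMod p) ^ 2) = 0 := by linear_combination key
    have h6 : (A : ZMod p) * (m1 : ZMod p) ^ 2 = 0 := (mul_eq_zero.1 h5).resolve_left hA
    have hA' : (A : ZMod p) ≠ 0 := fun h7 => hA (by rw [h7, mul_zero])
    exact pow_eq_zero_iff (two_ne_zero) |>.1 ((mul_eq_zero.1 h6).resolve_left hA')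
  exact ⟨(ZMod.intCast_zmod_eq_zero_iff_dvd _ p).1 hm1,
    (ZMod.intCast_zmod_eq_zero_iff_dvd _ p).1 hm2⟩

theorem exists_prim {α A B C D : ℤ} {β n : ℕ} (hD : D = B ^ 2 - 4 * A * C)
    (hαβ : α * β + A = 1) (hβ : IsCoprime (β : ℤ) (2 * D)) (hn : n.Prime)
    (hnD : IsCoprime (n : ℤ) (2 * D)) (hnJ : J(D | n) = 1) {x z s t : ℤ}
    (h : x ^ 2 - bq A B C s t = β * n * z ^ 2) (hz : IsCoprime z (2 * D)) :
    ∃ x' y' s' t' : ℤ, x' * y' + bq A B C s' t' = 0 ∧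
      (∀ p : ℕ, p.Prime → ¬ ((p : ℤ) ∣ x' ∧ (p : ℤ) ∣ y' ∧ (p : ℤ) ∣ s' ∧ (p : ℤ) ∣ t')) ∧
      0 < β * x' + α * y' + 2 * A * s' + B * t' ∧
      IsCoprime (β * x' + α * y' + 2 * A * s' + B * t') (2 * D) ∧
      ∀ p : ℕ, p.Prime → J(D | p) = -1 →
        Even (padicValInt p (β * x' + α * y' + 2 * A * s' + B * t')) := by
  have hcop0 : ∀ y : ℤ, IsCoprime y (2 * D) → y ≠ 0 := by
    rintro y hy rfl
    rw [isCoprime_zero_left, Int.isUnit_iff] at hy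
    omega
  have hβ0 : (β : ℤ) ≠ 0 := hcop0 _ hβ
  have hz0 : z ≠ 0 := hcop0 _ hz
  have hn0 : (n : ℤ) ≠ 0 := by exact_mod_cast hn.ne_zero
  have hnpos : (0 : ℤ) < n := by exact_mod_cast hn.pos
  -- the vector `E`
  have hEl : ∀ X m1 m2 : ℤ, X = β * x → m1 = x - s → m2 = - t →
      β * (-(bq A B C m1 m2)) + α * X ^ 2 + 2 * A * (X * m1) + B * (X * m2)
        = β ^ 2 * n * z ^ 2 := by
    rintro X m1 m2 rfl rfl rfl
    apply mul_left_cancel₀ hβ0
    simp only [bq] at h ⊢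
    linear_combination (β : ℤ) ^ 2 * h + (β : ℤ) ^ 2 * x ^ 2 * hαβ
  have hE := hEl _ _ _ rfl rfl rfl
  set X : ℤ := β * x with hX
  set m1 : ℤ := x - s with hm1
  set m2 : ℤ := - t with hm2
  have hR : 0 < (β : ℤ) ^ 2 * n * z ^ 2 := by positivity
  -- first gcd
  obtain ⟨k, X', m1', m2', w, hk, eX, em1, em2, ew, hprim⟩ := prim4 X m1 m2 0 (by
    rintro ⟨h1, h2, h3, -⟩
    rw [h1, h2, h3] at hE
    simp [bq] at hE
    rcases hE with (h4 | h4) | h4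
    · exact hβ0 (by exact_mod_cast h4)
    · exact hn.ne_zero h4
    · exact hz0 h4)
  -- second gcd
  have hE2 : k ^ 2 * (β * (-(bq A B C m1' m2')) + α * X' ^ 2 + 2 * A * (X' * m1')
      + B * (X' * m2')) = β ^ 2 * n * z ^ 2 := by
    rw [← hE, eX, em1, em2]
    simp only [bq]
    ring
  obtain ⟨g, x', y', s', t', hg, ex, ey, es, et, hpr⟩ := prim4 (-(bq A B C m1' m2')) (X' ^ 2)
    (X' * m1') (X' * m2') (by
    rintro ⟨h1, h2, h3, h4⟩
    rw [h1, h2, h3, h4] at hE2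
    simp only [mul_zero, add_zero] at hE2
    exact hR.ne hE2)
  set a : ℤ := β * x' + α * y' + 2 * A * s' + B * t' with ha
  have hkey : k ^ 2 * (g * a) = β ^ 2 * n * z ^ 2 := by
    rw [← hE2, ex, ey, es, et, ha]
    ring
  have hapos : 0 < a := by
    have h1 : 0 < k ^ 2 * (g * a) := by rw [hkey]; exact hR
    exact (mul_pos_iff_of_pos_left hg).1 ((mul_pos_iff_of_pos_left (by positivity)).1 h1)
  refine ⟨x', y', s', t', ?_, hpr, hapos, ?_, ?_⟩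
  · have h1 : g ^ 2 * (x' * y' + bq A B C s' t') = 0 := by
      have h2 : g ^ 2 * (x' * y' + bq A B C s' t') =
          (g * x') * (g * y') + (A * (g * s') ^ 2 + B * (g * s') * (g * t')
            + C * (g * t') ^ 2) := by
        simp only [bq]
        ring
      rw [h2, ← ex, ← ey, ← es, ← et]
      simp only [bq]
      ring
    exact (mul_eq_zero.1 h1).resolve_left (by positivity)
  · have h1 : IsCoprime ((β : ℤ) ^ 2 * n * z ^ 2) (2 * D) :=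
      ((hβ.pow_left).mul_left hnD).mul_left hz.pow_left
    exact h1.of_isCoprime_of_dvd_left ⟨k ^ 2 * g, by rw [← hkey]; ring⟩
  · intro p hp hJ
    have : Fact p.Prime := ⟨hp⟩
    have hpg : ¬ (p : ℤ) ∣ g := by
      intro hd
      have h1 : (p : ℤ) ∣ X' ^ 2 := by rw [ey]; exact hd.mul_right _
      have h2 : (p : ℤ) ∣ bq A B C m1' m2' := by
        rw [← dvd_neg, ex]; exact hd.mul_right _
      obtain ⟨h3, h4⟩ := inert hD hp hJ h2
      have hw : w = 0 := (mul_eq_zero.1 ew.symm).resolve_left hk.ne'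
      exact hprim p hp ⟨(Nat.prime_iff_prime_int.1 hp).dvd_of_dvd_pow h1, h3, h4,
        hw ▸ dvd_zero _⟩
    have hpn : ¬ (p : ℤ) ∣ n := by
      intro hd
      have h1 : p ∣ n := by exact_mod_cast hd
      have h2 : p = n := (Nat.prime_dvd_prime_iff_eq hp hn).1 h1
      rw [h2, hnJ] at hJ
      exact absurd hJ (by decide)
    have hv := congrArg (padicValInt p) hkey
    have hg0 : g ≠ 0 := hg.ne'
    have ha0 : a ≠ 0 := hapos.ne'
    have hk0 : k ≠ 0 := hk.ne'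
    rw [padicValInt.mul (pow_ne_zero 2 hk0) (mul_ne_zero hg0 ha0), padicValInt.mul hg0 ha0,
      padicValInt.mul (mul_ne_zero (pow_ne_zero 2 hβ0) hn0) (pow_ne_zero 2 hz0),
      padicValInt.mul (pow_ne_zero 2 hβ0) hn0, sq, padicValInt.mul hk0 hk0, sq,
      padicValInt.mul hβ0 hβ0, sq, padicValInt.mul hz0 hz0,
      padicValInt.eq_zero_of_not_dvd hpg, padicValInt.eq_zero_of_not_dvd hpn] at hv
    change Even (padicValInt p a)
    rw [Nat.even_iff]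
    omega

end Pool.Agent.AllRank
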