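import Mathlib

set_option autoImplicit false

/-!
ALLRANK, file QThue: integers of the imaginary quadratic order `ℤ[√δ]` whose norm is a large
power of `q` times a bounded number, and square roots in `ℚ_q`.
-/

namespace Pool.Agent.AllRank

/-- Square roots in `ℚ_q` of an integer prime to `q` which is a square modulo `q`, `q` odd.
PROOF. Hensel's lemma in `ℤ_[q]` (`hensels_lemma`) for `X² - a` at the approximate root `s`:
`‖s² - a‖ < 1 = ‖2 s‖²`. -/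
theorem exists_theta (q : ℕ) [Fact q.Prime] (hq2 : q ≠ 2) {a : ℤ} (ha : ¬ (q : ℤ) ∣ a)
    (h : ∃ s : ℤ, (q : ℤ) ∣ s ^ 2 - a) : ∃ θ : ℚ_[q], θ ^ 2 = a ∧ ‖θ‖ = 1 := by
  obtain ⟨s, hs⟩ := h
  have hqp : Prime (q : ℤ) := Nat.prime_iff_prime_int.1 Fact.out
  have hqs : ¬ (q : ℤ) ∣ s := fun h1 => ha (by
    have h2 := dvd_sub (dvd_pow h1 two_ne_zero) hs
    rwa [sub_sub_cancel] at h2)
  have hq2' : ¬ (q : ℤ) ∣ 2 := by
    intro h1
    have h2 : q ∣ 2 := by exact_mod_cast h1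
    exact hq2 ((Nat.prime_dvd_prime_iff_eq Fact.out Nat.prime_two).1 h2)
  have h2s : ¬ (q : ℤ) ∣ 2 * s := fun h1 => (hqp.dvd_or_dvd h1).elim hq2' hqs
  have h1 : ‖((s ^ 2 - a : ℤ) : ℤ_[q])‖ < 1 := (PadicInt.norm_int_lt_one_iff_dvd _).2 hs
  have h2 : ‖((2 * s : ℤ) : ℤ_[q])‖ = 1 := by
    refine le_antisymm (PadicInt.norm_le_one _) (not_lt.1 fun h3 => h2s ?_)
    exact (PadicInt.norm_int_lt_one_iff_dvd _).1 h3
  let F : Polynomial ℤ_[q] := Polynomial.X ^ 2 - Polynomial.C (a : ℤ_[q])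
  have hF : ∀ z : ℤ_[q], F.aeval z = z ^ 2 - a := fun z => by simp [F]
  have hF' : ∀ z : ℤ_[q], F.derivative.aeval z = 2 * z := fun z => by
    simp only [F, Polynomial.derivative_sub, Polynomial.derivative_X_pow,
      Polynomial.derivative_C, sub_zero]
    norm_num
  obtain ⟨z, hz, -⟩ := hensels_lemma (p := q) (F := F) (a := (s : ℤ_[q])) (by
    rw [hF, hF']
    have e1 : (s : ℤ_[q]) ^ 2 - a = ((s ^ 2 - a : ℤ) : ℤ_[q]) := by push_cast; ring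
    have e2 : 2 * (s : ℤ_[q]) = ((2 * s : ℤ) : ℤ_[q]) := by push_cast; ring
    rw [e1, e2, h2, one_pow]
    exact h1)
  rw [hF] at hz
  have hz2 : z ^ 2 = (a : ℤ_[q]) := sub_eq_zero.1 hz
  have hza : ‖(a : ℤ_[q])‖ = 1 := by
    refine le_antisymm (PadicInt.norm_le_one _) (not_lt.1 fun h3 => ha ?_)
    exact (PadicInt.norm_int_lt_one_iff_dvd _).1 h3
  refine ⟨(z : ℚ_[q]), by exact_mod_cast congrArg (fun x : ℤ_[q] => (x : ℚ_[q])) hz2, ?_⟩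
  have h3 : ‖z‖ ^ 2 = 1 := by rw [← norm_pow, hz2, hza]
  have h4 : ‖z‖ = 1 := (pow_eq_one_iff_of_nonneg (norm_nonneg z) two_ne_zero).1 h3
  exact h4

/-- PROOF. Note `‖θ‖ = 1` (`‖θ‖² = ‖δ‖ = 1`). Let `N := 2 n + 2` and let `t` be an integer with
`‖t - θ‖ ≤ q^(-N)` in `ℚ_[q]` (density of the integers in `ℤ_[q]`, `PadicInt.appr` or
`PadicInt.exists_mem_range_of_norm_rat_le_one`-like lemmas). So `q^N ∣ t² - δ`.
THUE. Let `a := Nat.sqrt (q^N)`. The box `[0, a]²` has `(a+1)² > q^N` points; two distinct ones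
have the same `r - t s` modulo `q^N`; their difference `(r, s) ≠ (0, 0)` has `q^N ∣ r - t s`,
`r² ≤ q^N`, `s² ≤ q^N`. So `0 < r² - δ s² ≤ (1 - δ) q^N` (`δ < 0`).
Let `q^i` be the exact power of `q` in `gcd r s`, `r = q^i r'`, `s = q^i s'`. As
`q^(2i) ≤ q^N` (a nonzero one of `r², s²` is at most `q^N`), `2 i ≤ N`, `i ≤ n + 1`,
`N - i ≥ n + 1 ≥ 1`. `q^(N-i) ∣ r' - t s'`, so `q^(N-i) ∣ r'² - t² s'²`, and
`q^(N - i) ∣ r'² - δ s'²`. Write `r'² - δ s'² = q^m c` with `q ∤ c`, so `m ≥ N - i ≥ n`; `c > 0`;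
`q^m c = (r² - δ s²) / q^(2i) ≤ (1 - δ) q^(N - 2i)`, and `m ≥ N - i ≥ N - 2 i`, so `c ≤ 1 - δ`.
`‖r' - θ s'‖ ≤ max (‖r' - t s'‖) (‖t - θ‖) < 1`. If `q ∣ r'` then `q ∣ t s'`, `q ∤ t` (`‖t‖ = 1`),
so
`q ∣ s'`, contradiction. -/
theorem thue_q (q : ℕ) [Fact q.Prime] (hq2 : q ≠ 2) {δ : ℤ} (hδ : δ < 0)
    (hqδ : ¬ (q : ℤ) ∣ δ) {θ : ℚ_[q]} (hθ : θ ^ 2 = δ) (n : ℕ) :
    ∃ (m : ℕ) (r s c : ℤ), n ≤ m ∧ r ^ 2 - δ * s ^ 2 = (q : ℤ) ^ m * c ∧ 0 < c ∧ c ≤ 1 - δ ∧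
      ¬ (q : ℤ) ∣ c ∧ ¬ (q : ℤ) ∣ r ∧ ‖(r : ℚ_[q]) - θ * s‖ < 1 := by
  have hq1 : (1 : ℤ) < q := by exact_mod_cast (Fact.out : q.Prime).one_lt
  have hq0 : (0 : ℤ) < q := by linarith
  have hqp : Prime (q : ℤ) := Nat.prime_iff_prime_int.1 Fact.out
  have hδ1 : ‖(δ : ℚ_[q])‖ = 1 := by
    refine le_antisymm (Padic.norm_int_le_one δ) (not_lt.1 fun h3 => hqδ ?_)
    exact Padic.norm_intCast_lt_one_iff.1 h3
  have hθ1 : ‖θ‖ = 1 := by
    have h3 : ‖θ‖ ^ 2 = 1 := by rw [← norm_pow, hθ, hδ1]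
    exact (pow_eq_one_iff_of_nonneg (norm_nonneg θ) two_ne_zero).1 h3
  obtain ⟨N, hN⟩ : ∃ N : ℕ, N = 2 * n + 2 := ⟨_, rfl⟩
  let z : ℤ_[q] := ⟨θ, hθ1.le⟩
  have hz2 : z ^ 2 = (δ : ℤ_[q]) := by
    apply Subtype.ext
    push_cast
    exact hθ
  obtain ⟨t, ht⟩ : ∃ t : ℤ, z - (t : ℤ_[q]) ∈ Ideal.span {(q : ℤ_[q]) ^ N} :=
    ⟨(z.appr N : ℤ), by
      have h1 := PadicInt.appr_spec N z
      exact_mod_cast h1⟩
  have htn : ‖θ - (t : ℚ_[q])‖ ≤ (q : ℝ) ^ (-N : ℤ) := by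
    have h1 := (PadicInt.norm_le_pow_iff_mem_span_pow _ N).2 ht
    have h2 : ‖z - (t : ℤ_[q])‖ = ‖θ - (t : ℚ_[q])‖ := by
      rw [PadicInt.norm_def]
      push_cast
      rfl
    rwa [h2] at h1
  have hpN : (q : ℝ) ^ (-N : ℤ) < 1 := by
    rw [zpow_neg, zpow_natCast]
    refine inv_lt_one_of_one_lt₀ (one_lt_pow₀ ?_ (by omega))
    exact_mod_cast (Fact.out : q.Prime).one_lt
  have htδ : (q : ℤ) ^ N ∣ t ^ 2 - δ := by
    rw [← PadicInt.norm_int_le_pow_iff_dvd, PadicInt.norm_le_pow_iff_mem_span_pow]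
    have h1 : ((t ^ 2 - δ : ℤ) : ℤ_[q]) = -((z + t) * (z - t)) := by
      push_cast
      rw [← hz2]
      ring
    rw [h1]
    exact neg_mem (Ideal.mul_mem_left _ _ ht)
  have hqt : ¬ (q : ℤ) ∣ t := fun h1 => hqδ (by
    have h2 := dvd_sub (dvd_pow h1 two_ne_zero) ((dvd_pow_self (q : ℤ) (by omega)).trans htδ)
    rwa [sub_sub_cancel] at h2)
  -- Thue
  have hM0 : NeZero (q ^ N) := ⟨pow_ne_zero _ (Fact.out : q.Prime).ne_zero⟩
  obtain ⟨a, ha⟩ : ∃ a : ℕ, a = Nat.sqrt (q ^ N) := ⟨_, rfl⟩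
  have ha1 : a * a ≤ q ^ N := by rw [ha]; exact Nat.sqrt_le _
  have ha2 : q ^ N < (a + 1) * (a + 1) := by rw [ha]; exact Nat.lt_succ_sqrt _
  obtain ⟨x, y, hxy, hf⟩ := Fintype.exists_ne_map_eq_of_card_lt
    (fun x : Fin (a + 1) × Fin (a + 1) =>
      (((x.1 : ℕ) : ZMod (q ^ N)) - (t : ZMod (q ^ N)) * ((x.2 : ℕ) : ZMod (q ^ N)))) (by
      rw [ZMod.card, Fintype.card_prod, Fintype.card_fin]
      exact ha2)
  obtain ⟨r, hr⟩ : ∃ r : ℤ, r = (x.1 : ℤ) - (y.1 : ℤ) := ⟨_, rfl⟩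
  obtain ⟨s, hs⟩ : ∃ s : ℤ, s = (x.2 : ℤ) - (y.2 : ℤ) := ⟨_, rfl⟩
  have hrs : (q : ℤ) ^ N ∣ r - t * s := by
    have h1 : (((r - t * s : ℤ)) : ZMod (q ^ N)) = 0 := by
      rw [hr, hs]
      push_cast
      linear_combination hf
    have h2 := (ZMod.intCast_zmod_eq_zero_iff_dvd (r - t * s) (q ^ N)).1 h1
    exact_mod_cast h2
  have hne : r ≠ 0 ∨ s ≠ 0 := by
    by_contra hcon
    rw [not_or, not_not, not_not] at hcon
    apply hxy
    ext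
    · have h1 := hcon.1
      rw [hr] at h1
      exact_mod_cast sub_eq_zero.1 h1
    · have h1 := hcon.2
      rw [hs] at h1
      exact_mod_cast sub_eq_zero.1 h1
  have hbd : ∀ u v : Fin (a + 1), ((u : ℤ) - (v : ℤ)) ^ 2 ≤ (q : ℤ) ^ N := by
    intro u v
    have h1 : (u : ℤ) ≤ a := by exact_mod_cast Nat.lt_succ_iff.1 u.2
    have h2 : (v : ℤ) ≤ a := by exact_mod_cast Nat.lt_succ_iff.1 v.2
    have h3 : (0 : ℤ) ≤ (u : ℤ) := by positivity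
    have h4 : (0 : ℤ) ≤ (v : ℤ) := by positivity
    have h5 : (a : ℤ) * a ≤ (q : ℤ) ^ N := by exact_mod_cast ha1
    nlinarith
  have hr2 : r ^ 2 ≤ (q : ℤ) ^ N := by rw [hr]; exact hbd _ _
  have hs2 : s ^ 2 ≤ (q : ℤ) ^ N := by rw [hs]; exact hbd _ _
  -- the common power of q
  have hg0 : Int.gcd r s ≠ 0 := by
    rw [Ne, Int.gcd_eq_zero_iff]
    tauto
  obtain ⟨i, g, hqg, hg⟩ := Nat.exists_eq_pow_mul_and_not_dvd hg0 q (Fact.out : q.Prime).ne_one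
  have hir : (q : ℤ) ^ i ∣ r := by
    have h1 : ((q ^ i * g : ℕ) : ℤ) ∣ r := by rw [← hg]; exact Int.gcd_dvd_left ..
    refine dvd_trans ?_ h1
    push_cast
    exact dvd_mul_right _ _
  have his : (q : ℤ) ^ i ∣ s := by
    have h1 : ((q ^ i * g : ℕ) : ℤ) ∣ s := by rw [← hg]; exact Int.gcd_dvd_right ..
    refine dvd_trans ?_ h1
    push_cast
    exact dvd_mul_right _ _
  obtain ⟨r', hr'⟩ := hir
  obtain ⟨s', hs'⟩ := his
  have hnd : ¬ ((q : ℤ) ∣ r' ∧ (q : ℤ) ∣ s') := by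
    rintro ⟨h1, h2⟩
    have h3 : ((q ^ (i + 1) : ℕ) : ℤ) ∣ (Int.gcd r s : ℤ) := by
      push_cast
      refine Int.dvd_coe_gcd ?_ ?_
      · rw [hr', pow_succ]
        exact mul_dvd_mul_left _ h1
      · rw [hs', pow_succ]
        exact mul_dvd_mul_left _ h2
    rw [hg] at h3
    have h4 : q ^ (i + 1) ∣ q ^ i * g := by exact_mod_cast h3
    rw [pow_succ] at h4
    exact hqg (Nat.dvd_of_mul_dvd_mul_left (pow_pos (Fact.out : q.Prime).pos i) h4)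
  have hpi : (0 : ℤ) < (q : ℤ) ^ i := pow_pos hq0 i
  have h2i : 2 * i ≤ N := by
    have key : ∀ u : ℤ, u ≠ 0 → ((q : ℤ) ^ i * u) ^ 2 ≤ (q : ℤ) ^ N → 2 * i ≤ N := by
      intro u hu h1
      have h2 : 1 ≤ u ^ 2 := by
        have := pow_pos (abs_pos.2 hu) 2
        rw [sq_abs] at this
        linarith
      have h3 : (q : ℤ) ^ (2 * i) ≤ (q : ℤ) ^ N := by
        calc (q : ℤ) ^ (2 * i) = ((q : ℤ) ^ i) ^ 2 * 1 := by rw [mul_one, ← pow_mul, mul_comm i 2]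
          _ ≤ ((q : ℤ) ^ i) ^ 2 * u ^ 2 := mul_le_mul_of_nonneg_left h2 (by positivity)
          _ = ((q : ℤ) ^ i * u) ^ 2 := by ring
          _ ≤ _ := h1
      exact (pow_le_pow_iff_right₀ hq1).1 h3
    rcases hne with h1 | h1
    · refine key r' ?_ (by rw [← hr']; exact hr2)
      rintro rfl
      exact h1 (by rw [hr', mul_zero])
    · refine key s' ?_ (by rw [← hs']; exact hs2)
      rintro rfl
      exact h1 (by rw [hs', mul_zero])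
  have hiN : N - i + i = N := by omega
  have hd1 : (q : ℤ) ^ (N - i) ∣ r' - t * s' := by
    have h1 : (q : ℤ) ^ (N - i) * (q : ℤ) ^ i ∣ (r' - t * s') * (q : ℤ) ^ i := by
      rw [← pow_add, hiN]
      have h2 : (r' - t * s') * (q : ℤ) ^ i = r - t * s := by rw [hr', hs']; ring
      rw [h2]
      exact hrs
    exact Int.dvd_of_mul_dvd_mul_right hpi.ne' h1
  have hd2 : (q : ℤ) ^ (N - i) ∣ r' ^ 2 - δ * s' ^ 2 := by
    have h1 : r' ^ 2 - δ * s' ^ 2 = (r' - t * s') * (r' + t * s') + (t ^ 2 - δ) * s' ^ 2 := by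
      ring
    rw [h1]
    refine dvd_add (hd1.mul_right _) (Dvd.dvd.mul_right ?_ _)
    exact (pow_dvd_pow _ (by omega)).trans htδ
  have hne' : r' ≠ 0 ∨ s' ≠ 0 := by
    rcases hne with h1 | h1
    · left
      rintro rfl
      exact h1 (by rw [hr', mul_zero])
    · right
      rintro rfl
      exact h1 (by rw [hs', mul_zero])
  have hpos : 0 < r' ^ 2 - δ * s' ^ 2 := by
    rcases hne' with h1 | h1
    · have h2 : 0 < r' ^ 2 := by positivity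
      nlinarith [sq_nonneg s']
    · have h2 : 0 < s' ^ 2 := by positivity
      nlinarith [sq_nonneg r']
  obtain ⟨v, hv⟩ := Int.eq_ofNat_of_zero_le hpos.le
  have hv0 : v ≠ 0 := by
    rintro rfl
    rw [hv] at hpos
    exact lt_irrefl _ hpos
  obtain ⟨m, c, hqc, hc⟩ := Nat.exists_eq_pow_mul_and_not_dvd hv0 q (Fact.out : q.Prime).ne_one
  have hvc : r' ^ 2 - δ * s' ^ 2 = (q : ℤ) ^ m * (c : ℤ) := by
    rw [hv, hc]
    push_cast
    rfl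
  have hqc' : ¬ (q : ℤ) ∣ (c : ℤ) := fun h1 => hqc (by exact_mod_cast h1)
  have hc0 : (0 : ℤ) < c := by
    have h1 : c ≠ 0 := by
      rintro rfl
      exact hqc (dvd_zero q)
    exact_mod_cast Nat.pos_of_ne_zero h1
  have hm : N - i ≤ m := by
    by_contra hcon
    rw [hvc] at hd2
    have h1 : (q : ℤ) ^ (m + 1) ∣ (q : ℤ) ^ m * c :=
      (pow_dvd_pow _ (by omega)).trans hd2
    rw [pow_succ] at h1
    exact hqc' (Int.dvd_of_mul_dvd_mul_left (pow_pos hq0 m).ne' h1)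
  have hqr : (q : ℤ) ∣ r' - t * s' := (dvd_pow_self (q : ℤ) (by omega)).trans hd1
  refine ⟨m, r', s', c, by omega, hvc, hc0, ?_, hqc', ?_, ?_⟩
  · have h1 : (q : ℤ) ^ (2 * i + m) * c = r ^ 2 - δ * s ^ 2 := by
      rw [hr', hs', pow_add, mul_assoc, ← hvc, pow_mul']
      ring
    have h2 : (q : ℤ) ^ N ≤ (q : ℤ) ^ (2 * i + m) := pow_le_pow_right₀ hq1.le (by omega)
    have h3 : r ^ 2 - δ * s ^ 2 ≤ (1 - δ) * (q : ℤ) ^ N := by nlinarith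
    have h4 : (q : ℤ) ^ (2 * i + m) * c ≤ (q : ℤ) ^ (2 * i + m) * (1 - δ) := by
      rw [h1]
      refine h3.trans ?_
      rw [mul_comm]
      exact mul_le_mul_of_nonneg_right h2 (by linarith)
    exact le_of_mul_le_mul_left h4 (pow_pos hq0 _)
  · intro h1
    have h2 : (q : ℤ) ∣ t * s' := by
      have h3 := dvd_sub h1 hqr
      rwa [sub_sub_cancel] at h3
    rcases hqp.dvd_or_dvd h2 with h3 | h3
    · exact hqt h3
    · exact hnd ⟨h1, h3⟩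
  · have h1 : (r' : ℚ_[q]) - θ * s' = ((r' - t * s' : ℤ) : ℚ_[q]) + (-((θ - t) * s')) := by
      push_cast
      ring
    rw [h1]
    refine (Padic.nonarchimedean _ _).trans_lt (max_lt (Padic.norm_intCast_lt_one_iff.2 hqr) ?_)
    rw [norm_neg, norm_mul]
    calc ‖θ - (t : ℚ_[q])‖ * ‖(s' : ℚ_[q])‖ ≤ ‖θ - (t : ℚ_[q])‖ * 1 :=
          mul_le_mul_of_nonneg_left (Padic.norm_int_le_one s') (norm_nonneg _)
      _ ≤ (q : ℝ) ^ (-N : ℤ) := by rw [mul_one]; exact htn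
      _ < 1 := hpN

end Pool.Agent.AllRank
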