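import Pool.Agent.AllRank.QThue

set_option autoImplicit false

/-!
ALLRANK, file QUnit: an element of `ℤ[√δ]` (`δ < 0`) of norm a power of `q`, not divisible by
`q`, and congruent to a rational integer modulo `M`.

PROOF. Let `K := (1 - δ)!` (factorial of the natural number `(1 - δ).toNat`) and
`Q := |M| K > 0`. For every `n` choose `(m, r, s, c)` by `thue_q`. The map
`n ↦ (c, r mod Q, s mod Q)` from `ℕ` to the finite set `{1, …, 1 - δ} × ZMod Q × ZMod Q` has an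
infinite fibre; choose `n2` in it, with data `(m2, r2, s2, c)`, and `n1 > m2` in the same fibre,
with data `(m1, r1, s1, c)`, so `m1 ≥ n1 > m2`, the same `c`, `r1 ≡ r2`, `s1 ≡ s2` modulo `Q`,
and `c M ∣ Q` up to sign (`c ∣ K`).
Put `U := r1 r2 - δ s1 s2`, `V := s1 r2 - r1 s2` (`U + V √δ = (r1 + s1 √δ)(r2 - s2 √δ)`). Then
`U² - δ V² = q^(m1+m2) c²`. Modulo `c M`: `U ≡ r2² - δ s2² = q^m2 c`, so `c ∣ U`; `V ≡ 0`, so
`c M ∣ V`. Write `U = c U'`, `V = c V'`, `M ∣ V'`: `U'² - δ V'² = q^(m1+m2)`.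
AT `q` (norms in `ℚ_[q]`): `‖θ‖ = 1`, `‖r_i‖ = 1`, `‖r_i - θ s_i‖ < 1`, so
`‖r_i + θ s_i‖ = ‖2 r_i - (r_i - θ s_i)‖ = 1`, and as the product is `q^(m_i) c` with
`‖c‖ = 1`, `‖r_i - θ s_i‖ = q^(-m_i)`. So
`‖U + θ V‖ = ‖(r1 + θ s1)(r2 - θ s2)‖ = q^(-m2)`, `‖U - θ V‖ = ‖(r1 - θ s1)(r2 + θ s2)‖ = q^(-m1)`
(`‖c‖ = 1`, so the same for `U', V'`). As `q^(-m1) ≤ q^(-m2)`, `‖2 U'‖, ‖2 θ V'‖ ≤ q^(-m2)`, so
`q^m2 ∣ U'`, `q^m2 ∣ V'` (`q` odd). Put `r := U' / q^m2`, `s := V' / q^m2`, `h := m1 - m2 ≥ 1`: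
`r² - δ s² = q^(m1 - m2)`, `M ∣ s` (`M` is prime to `q`), `‖r + θ s‖ = 1`, `‖r - θ s‖ = q^(-h) < 1`,
so `‖2 r‖ = 1`, `q ∤ r`.
-/

namespace Pool.Agent.AllRank

section

variable {q : ℕ} [Fact q.Prime]

/-- an integer prime to `q` has norm one -/
private theorem norm_unit {k : ℤ} (hk : ¬ (q : ℤ) ∣ k) : ‖(k : ℚ_[q])‖ = 1 := by
  refine le_antisymm (Padic.norm_int_le_one k) (not_lt.1 fun h => hk ?_)
  exact Padic.norm_intCast_lt_one_iff.1 h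

/-- the ultrametric inequality for a difference -/
private theorem norm_sub_le_max (x y : ℚ_[q]) : ‖x - y‖ ≤ max ‖x‖ ‖y‖ := by
  rw [sub_eq_add_neg, ← norm_neg y]
  exact Padic.nonarchimedean x (-y)

private theorem norm_two (hq2 : q ≠ 2) : ‖(2 : ℚ_[q])‖ = 1 := by
  have h : ¬ (q : ℤ) ∣ 2 := by
    intro h
    have h1 : q ∣ 2 := by exact_mod_cast h
    rcases (Nat.dvd_prime Nat.prime_two).1 h1 with h2 | h2
    · exact (Fact.out : q.Prime).one_lt.ne' h2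
    · exact hq2 h2
  have := norm_unit (q := q) h
  simpa using this

/-- the norm of the second factor -/
private theorem norm_beta (hq2 : q ≠ 2) {r s : ℤ} {θ : ℚ_[q]} (hr : ¬ (q : ℤ) ∣ r)
    (h : ‖(r : ℚ_[q]) - θ * s‖ < 1) : ‖(r : ℚ_[q]) + θ * s‖ = 1 := by
  have h2r : ‖(2 : ℚ_[q]) * r‖ = 1 := by rw [norm_mul, norm_two hq2, norm_unit hr, mul_one]
  have e : (r : ℚ_[q]) + θ * s = 2 * r + -((r : ℚ_[q]) - θ * s) := by ring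
  rw [e, Padic.add_eq_max_of_ne, h2r, norm_neg]
  · exact max_eq_left h.le
  · rw [h2r, norm_neg]
    exact h.ne'

/-- the norm of the first factor -/
private theorem norm_alpha (hq2 : q ≠ 2) {δ r s c : ℤ} {m : ℕ} {θ : ℚ_[q]} (hθ : θ ^ 2 = δ)
    (hr : ¬ (q : ℤ) ∣ r) (h : ‖(r : ℚ_[q]) - θ * s‖ < 1)
    (hN : r ^ 2 - δ * s ^ 2 = (q : ℤ) ^ m * c) (hc : ¬ (q : ℤ) ∣ c) :
    ‖(r : ℚ_[q]) - θ * s‖ = (q : ℝ) ^ (-m : ℤ) := by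
  have hb := norm_beta hq2 hr h
  have e : ((r : ℚ_[q]) - θ * s) * (r + θ * s) = (q : ℚ_[q]) ^ m * c := by
    have h1 : ((r : ℚ_[q]) - θ * s) * (r + θ * s) = (r : ℚ_[q]) ^ 2 - θ ^ 2 * (s : ℚ_[q]) ^ 2 := by
      ring
    rw [h1, hθ]
    exact_mod_cast hN
  have h2 := congrArg norm e
  rw [norm_mul, norm_mul, hb, norm_unit hc, mul_one, mul_one, Padic.norm_p_pow] at h2
  exact h2

/-- infinitely many data with the same class -/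
private theorem exists_fibre {Q : ℕ} [NeZero Q] {D : ℤ} (r s c : ℕ → ℤ)
    (hc0 : ∀ n, 0 < c n) (hcD : ∀ n, c n ≤ D) (m : ℕ → ℕ) (hm : ∀ n, n ≤ m n) :
    ∃ n₁ n₂ : ℕ, m n₂ < m n₁ ∧ c n₁ = c n₂ ∧ (Q : ℤ) ∣ r n₁ - r n₂ ∧
      (Q : ℤ) ∣ s n₁ - s n₂ := by
  let f : ℕ → Fin (D.toNat + 1) × ZMod Q × ZMod Q := fun n =>
    (⟨(c n).toNat, by have := hc0 n; have := hcD n; omega⟩, (r n : ZMod Q), (s n : ZMod Q))
  obtain ⟨y, hy⟩ := Finite.exists_infinite_fiber f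
  have hinf : (f ⁻¹' {y}).Infinite := Set.infinite_coe_iff.1 hy
  obtain ⟨n₂, hn₂⟩ := hinf.nonempty
  obtain ⟨n₁, hn₁, hlt⟩ := hinf.exists_gt (m n₂)
  have e : f n₁ = f n₂ := by
    rw [Set.mem_preimage, Set.mem_singleton_iff] at hn₁ hn₂
    rw [hn₁, hn₂]
  simp only [f, Prod.mk.injEq, Fin.mk.injEq] at e
  obtain ⟨e1, e2, e3⟩ := e
  refine ⟨n₁, n₂, hlt.trans_le (hm n₁), ?_, ?_, ?_⟩
  · have := hc0 n₁
    have := hc0 n₂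
    omega
  · exact (ZMod.intCast_eq_intCast_iff_dvd_sub _ _ _).1 e2.symm
  · exact (ZMod.intCast_eq_intCast_iff_dvd_sub _ _ _).1 e3.symm

end

theorem exists_qunit (q : ℕ) [Fact q.Prime] (hq2 : q ≠ 2) {δ M : ℤ} (hδ : δ < 0)
    (hqδ : ¬ (q : ℤ) ∣ δ) {θ : ℚ_[q]} (hθ : θ ^ 2 = δ) (hM : M ≠ 0) (hqM : ¬ (q : ℤ) ∣ M) :
    ∃ (h : ℕ) (r s : ℤ), 1 ≤ h ∧ r ^ 2 - δ * s ^ 2 = (q : ℤ) ^ h ∧ M ∣ s ∧ ¬ (q : ℤ) ∣ r := by
  have hqp : q.Prime := Fact.out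
  have hq0 : (q : ℤ) ≠ 0 := by exact_mod_cast hqp.ne_zero
  choose m r s c hnm hN hc0 hcle hqc hqr hθn using fun n => thue_q q hq2 hδ hqδ hθ n
  set K : ℕ := (1 - δ).toNat.factorial with hK
  set Q : ℕ := M.natAbs * K with hQ
  have hQ0 : Q ≠ 0 := mul_ne_zero (Int.natAbs_ne_zero.2 hM) (Nat.factorial_ne_zero _)
  have : NeZero Q := ⟨hQ0⟩
  obtain ⟨n₁, n₂, hlt, hc, hr12, hs12⟩ := exists_fibre (Q := Q) r s c hc0 hcle m hnm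
  -- names
  obtain ⟨r1, hr1⟩ : ∃ x, x = r n₁ := ⟨_, rfl⟩
  obtain ⟨s1, hs1⟩ : ∃ x, x = s n₁ := ⟨_, rfl⟩
  obtain ⟨r2, hr2⟩ : ∃ x, x = r n₂ := ⟨_, rfl⟩
  obtain ⟨s2, hs2⟩ : ∃ x, x = s n₂ := ⟨_, rfl⟩
  obtain ⟨m1, hm1⟩ : ∃ x, x = m n₁ := ⟨_, rfl⟩
  obtain ⟨m2, hm2⟩ : ∃ x, x = m n₂ := ⟨_, rfl⟩
  obtain ⟨d, hd⟩ : ∃ x, x = c n₂ := ⟨_, rfl⟩
  have hN1 := hN n₁
  have hN2 := hN n₂
  have hθ1 := hθn n₁
  have hθ2 := hθn n₂
  have hq1 := hqr n₁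
  have hq2' := hqr n₂
  have hqd := hqc n₂
  have hd0 := hc0 n₂
  have hdle := hcle n₂
  rw [hc] at hN1
  rw [← hr1, ← hs1, ← hm1, ← hd] at hN1
  rw [← hr2, ← hs2, ← hm2, ← hd] at hN2
  rw [← hr1, ← hs1] at hθ1
  rw [← hr2, ← hs2] at hθ2
  rw [← hr1] at hq1
  rw [← hr2] at hq2'
  rw [← hd] at hqd hd0 hdle
  rw [← hm1, ← hm2] at hlt
  rw [← hr1, ← hr2] at hr12
  rw [← hs1, ← hs2] at hs12
  -- divisibility of `Q`
  have hdM : d * M ∣ (Q : ℤ) := by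
    have h1 : d.toNat ∣ K := Nat.dvd_factorial (by omega) (by omega)
    have h2 : d ∣ (K : ℤ) := by
      have h3 : ((d.toNat : ℕ) : ℤ) ∣ (K : ℤ) := Int.natCast_dvd_natCast.2 h1
      rwa [Int.toNat_of_nonneg hd0.le] at h3
    have h4 : M ∣ ((M.natAbs : ℕ) : ℤ) := Int.dvd_natAbs.2 dvd_rfl
    rw [hQ, mul_comm d M]
    push_cast
    exact mul_dvd_mul (by simp) h2
  have hrd : d * M ∣ r1 - r2 := hdM.trans hr12
  have hsd : d * M ∣ s1 - s2 := hdM.trans hs12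
  obtain ⟨a, ha⟩ := hrd
  obtain ⟨b, hb⟩ := hsd
  -- `U = d * U'`, `V = d * V'`, `V' = M * V''`
  obtain ⟨U', hU'⟩ : ∃ U', r1 * r2 - δ * (s1 * s2) = d * U' := by
    refine ⟨(q : ℤ) ^ m2 + M * a * r2 - δ * (M * b * s2), ?_⟩
    have e1 : r1 = r2 + d * M * a := by linarith
    have e2 : s1 = s2 + d * M * b := by linarith
    rw [e1, e2]
    linear_combination hN2
  set V'' : ℤ := b * r2 - a * s2 with hV''
  have hV : s1 * r2 - r1 * s2 = d * (M * V'') := by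
    have e1 : r1 = r2 + d * M * a := by linarith
    have e2 : s1 = s2 + d * M * b := by linarith
    rw [e1, e2, hV'']
    ring
  have hnorm : U' ^ 2 - δ * (M * V'') ^ 2 = (q : ℤ) ^ (m1 + m2) := by
    have h1 : (d * U') ^ 2 - δ * (d * (M * V'')) ^ 2 = (q : ℤ) ^ (m1 + m2) * d ^ 2 := by
      rw [← hU', ← hV, pow_add]
      have e : (r1 * r2 - δ * (s1 * s2)) ^ 2 - δ * (s1 * r2 - r1 * s2) ^ 2 =
          (r1 ^ 2 - δ * s1 ^ 2) * (r2 ^ 2 - δ * s2 ^ 2) := by ring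
      rw [e, hN1, hN2]
      ring
    have h2 : d ^ 2 * (U' ^ 2 - δ * (M * V'') ^ 2) = d ^ 2 * (q : ℤ) ^ (m1 + m2) := by
      linear_combination h1
    exact mul_left_cancel₀ (pow_ne_zero 2 hd0.ne') h2
  -- norms
  have nα1 := norm_alpha hq2 hθ hq1 hθ1 hN1 hqd
  have nα2 := norm_alpha hq2 hθ hq2' hθ2 hN2 hqd
  have nβ1 := norm_beta hq2 hq1 hθ1
  have nβ2 := norm_beta hq2 hq2' hθ2
  have nd := norm_unit hqd
  have hUq : (r1 : ℚ_[q]) * r2 - δ * (s1 * s2) = d * U' := by exact_mod_cast hU'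
  have hVq : (s1 : ℚ_[q]) * r2 - r1 * s2 = d * ((M * V'' : ℤ) : ℚ_[q]) := by exact_mod_cast hV
  have eP : (d : ℚ_[q]) * (U' + θ * ((M * V'' : ℤ) : ℚ_[q])) =
      ((r1 : ℚ_[q]) + θ * s1) * (r2 - θ * s2) := by
    have : (d : ℚ_[q]) * (U' + θ * ((M * V'' : ℤ) : ℚ_[q])) =
        d * U' + θ * (d * ((M * V'' : ℤ) : ℚ_[q])) := by ring
    rw [this, ← hUq, ← hVq]
    linear_combination (s1 : ℚ_[q]) * s2 * hθ
  have eM : (d : ℚ_[q]) * (U' - θ * ((M * V'' : ℤ) : ℚ_[q])) =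
      ((r1 : ℚ_[q]) - θ * s1) * (r2 + θ * s2) := by
    have : (d : ℚ_[q]) * (U' - θ * ((M * V'' : ℤ) : ℚ_[q])) =
        d * U' - θ * (d * ((M * V'' : ℤ) : ℚ_[q])) := by ring
    rw [this, ← hUq, ← hVq]
    linear_combination (s1 : ℚ_[q]) * s2 * hθ
  have nP : ‖(U' : ℚ_[q]) + θ * ((M * V'' : ℤ) : ℚ_[q])‖ = (q : ℝ) ^ (-m2 : ℤ) := by
    have h1 := congrArg norm eP
    rw [norm_mul, norm_mul, nd, nβ1, nα2, one_mul, one_mul] at h1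
    exact h1
  have nM : ‖(U' : ℚ_[q]) - θ * ((M * V'' : ℤ) : ℚ_[q])‖ = (q : ℝ) ^ (-m1 : ℤ) := by
    have h1 := congrArg norm eM
    rw [norm_mul, norm_mul, nd, nα1, nβ2, one_mul, mul_one] at h1
    exact h1
  have hqR : (1 : ℝ) < q := by exact_mod_cast hqp.one_lt
  have hle : (q : ℝ) ^ (-m1 : ℤ) ≤ (q : ℝ) ^ (-m2 : ℤ) :=
    zpow_le_zpow_right₀ hqR.le (by omega)
  have nθ : ‖θ‖ = 1 := by
    have h1 : ‖θ‖ ^ 2 = 1 := by rw [← norm_pow, hθ, norm_unit hqδ]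
    exact (pow_eq_one_iff_of_nonneg (norm_nonneg _) two_ne_zero).1 h1
  have hdU : (q : ℤ) ^ m2 ∣ U' := by
    rw [← Padic.norm_int_le_pow_iff_dvd]
    have e : (2 : ℚ_[q]) * U' = (U' + θ * ((M * V'' : ℤ) : ℚ_[q])) +
        (U' - θ * ((M * V'' : ℤ) : ℚ_[q])) := by ring
    have h1 : ‖(2 : ℚ_[q]) * U'‖ ≤ (q : ℝ) ^ (-m2 : ℤ) := by
      rw [e]
      refine (Padic.nonarchimedean _ _).trans (max_le ?_ ?_)
      · exact nP.le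
      · exact nM.le.trans hle
    rwa [norm_mul, norm_two hq2, one_mul] at h1
  have hdV : (q : ℤ) ^ m2 ∣ M * V'' := by
    rw [← Padic.norm_int_le_pow_iff_dvd]
    have e : (2 : ℚ_[q]) * (θ * ((M * V'' : ℤ) : ℚ_[q])) =
        (U' + θ * ((M * V'' : ℤ) : ℚ_[q])) - (U' - θ * ((M * V'' : ℤ) : ℚ_[q])) := by ring
    have h1 : ‖(2 : ℚ_[q]) * (θ * ((M * V'' : ℤ) : ℚ_[q]))‖ ≤ (q : ℝ) ^ (-m2 : ℤ) := by
      rw [e]
      refine (norm_sub_le_max _ _).trans (max_le ?_ ?_)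
      · exact nP.le
      · exact nM.le.trans hle
    rwa [norm_mul, norm_two hq2, one_mul, norm_mul, nθ, one_mul] at h1
  obtain ⟨ρ, hρ⟩ := hdU
  obtain ⟨σ, hσ⟩ := hdV
  refine ⟨m1 - m2, ρ, σ, by omega, ?_, ?_, ?_⟩
  · have h1 : (q : ℤ) ^ (2 * m2) * (ρ ^ 2 - δ * σ ^ 2) =
        (q : ℤ) ^ (2 * m2) * (q : ℤ) ^ (m1 - m2) := by
      rw [← pow_add, show 2 * m2 + (m1 - m2) = m1 + m2 by omega, ← hnorm, hρ, hσ, two_mul, pow_add]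
      ring
    exact mul_left_cancel₀ (pow_ne_zero _ hq0) h1
  · have hcop : IsCoprime M ((q : ℤ) ^ m2) := by
      refine IsCoprime.pow_right ?_
      have hirr : Irreducible (q : ℤ) := (Nat.prime_iff_prime_int.1 hqp).irreducible
      exact (hirr.coprime_iff_not_dvd.2 hqM).symm
    exact hcop.dvd_of_dvd_mul_left ⟨V'', hσ.symm⟩
  · intro hdvd
    have hqq : (0 : ℝ) < (q : ℝ) ^ (-m2 : ℤ) := by positivity
    have e1 : (U' : ℚ_[q]) + θ * ((M * V'' : ℤ) : ℚ_[q]) = (q : ℚ_[q]) ^ m2 * (ρ + θ * σ) := by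
      rw [hρ, hσ]
      push_cast
      ring
    have e2 : (U' : ℚ_[q]) - θ * ((M * V'' : ℤ) : ℚ_[q]) = (q : ℚ_[q]) ^ m2 * (ρ - θ * σ) := by
      rw [hρ, hσ]
      push_cast
      ring
    have n1 : ‖(ρ : ℚ_[q]) + θ * σ‖ = 1 := by
      rw [e1, norm_mul, Padic.norm_p_pow] at nP
      have := mul_left_cancel₀ hqq.ne' (nP.trans (mul_one _).symm)
      exact this
    have n2 : ‖(ρ : ℚ_[q]) - θ * σ‖ < 1 := by
      rw [e2, norm_mul, Padic.norm_p_pow] at nM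
      have h1 : (q : ℝ) ^ (-m1 : ℤ) < (q : ℝ) ^ (-m2 : ℤ) :=
        zpow_lt_zpow_right₀ hqR (by omega)
      rw [← nM] at h1
      exact lt_of_mul_lt_mul_left (by rwa [mul_one]) hqq.le
    have n3 : ‖(ρ : ℚ_[q])‖ < 1 := Padic.norm_intCast_lt_one_iff.2 hdvd
    have e3 : (ρ : ℚ_[q]) + θ * σ = 2 * ρ - (ρ - θ * σ) := by ring
    have n4 : ‖(ρ : ℚ_[q]) + θ * σ‖ < 1 := by
      rw [e3]
      refine (norm_sub_le_max _ _).trans_lt (max_lt ?_ n2)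
      rw [norm_mul, norm_two hq2, one_mul]
      exact n3
    exact absurd n1 n4.ne

end Pool.Agent.AllRank
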