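import Pool.Agent.AllRank.Defs
import Pool.Agent.AllRank.Conic
import Pool.Agent.AllRank.Recip

set_option autoImplicit false

/-!
ALLRANK, file Quad: a rational point on the quadric `x² - (A s² + B s t + C t²) = β n z²` for a
suitable prime `n`.

PROOF. `D ≠ 0` and `A ≠ 0` (otherwise `D = B²` is a square). `W := 16 D A`; `β` is coprime to
`W` (from `hβ2`, `hβA`). `exists_n` (with `K := β + |A| + |D|`) gives a prime `n` with
`W ∣ β n - 1` and `J(D | n) = 1`; put `b := β n` (a natural number). `8 A D ∣ b - 1`. `exists_r`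
with `K := b + |A| + |D|` gives a prime `r` with `8 D ∣ r - 1`, `b ∣ A r - 1`, `D` and `b` squares
modulo `r`.
CONIC 1. `conic` with `B := r`, `T := D` (coprime, since `8 D ∣ r - 1`), `s1 := 1`
(`D ∣ 1 - r`), `s2` the square root of `D` modulo `r`: integers `(u, w, v) ≠ 0` with
`u² = r w² + D v²`. `w ≠ 0`: otherwise `u² = D v²`, `v ≠ 0`, and `D` would be a square
(`D v² = u²` with `v ≠ 0` implies `v ∣ u`, `Int.pow_dvd_pow_iff`).
CONIC 2. `conic` with `B := b`, `T := A r` (coprime: `A ∣ b - 1`; `r` is prime and `r > b > 0` so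
`r ∤ b`); `s1`: a number with `s1 ≡ 1` modulo `A`, `s1 ≡` a square root of `b` modulo `r`
(`A`, `r` coprime because `r > |A|`; then `A r ∣ s1² - b`); `s2 := 1` (`b ∣ 1 - A r`): integers
`(x0, z0, t0) ≠ 0` with `x0² = b z0² + A r t0²`. `t0 ≠ 0`: otherwise `b` would be a square; but
`b = β n`, `n` prime, `n > β`, so the exact power of `n` dividing `b` is `1`.
COMBINATION. `s := t0 (u - B v)`, `t := t0 · 2 A v`, `x := x0 w`, `z := z0 w`. Since
`4 A (A s² + B s t + C t²) = (2 A s + B t)² - D t²` and `2 A s + B t = 2 A u t0`, one gets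
`bq A B C s t = A t0² (u² - D v²) = A r w² t0²` (`linear_combination` with the equation
`u² = r w² + D v²` and `D = B² - 4 A C`), nonzero, and `x² - bq = w² (x0² - A r t0²) = b z²`.
-/

namespace Pool.Agent.AllRank

open scoped NumberTheorySymbols

/-- `D v² = u²`, `v ≠ 0` implies that `D` is a square -/
private theorem sq_of_mul_sq {D u v : ℤ} (hv : v ≠ 0) (h : u ^ 2 = D * v ^ 2) : IsSquare D := by
  have h1 : v ^ 2 ∣ u ^ 2 := ⟨D, by rw [h]; ring⟩
  obtain ⟨w, hw⟩ := (Int.pow_dvd_pow_iff two_ne_zero).1 h1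
  refine ⟨w, ?_⟩
  have h2 : v ^ 2 * (w * w) = v ^ 2 * D := by
    rw [hw] at h
    linear_combination h
  exact (mul_left_cancel₀ (pow_ne_zero 2 hv) h2).symm

/-- Chinese remainder theorem -/
private theorem crt {A r s0 : ℤ} (h : IsCoprime A r) : ∃ s : ℤ, A ∣ s - 1 ∧ r ∣ s - s0 := by
  obtain ⟨a, b, hab⟩ := h
  refine ⟨s0 * (a * A) + b * r, ?_, ?_⟩
  · exact ⟨(s0 - 1) * a, by linear_combination hab⟩
  · exact ⟨(1 - s0) * b, by linear_combination s0 * hab⟩

/-- a product of `β > 0` and a prime `n > β` is not a square -/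
private theorem not_sq {β n : ℕ} (hβ : 0 < β) (hn : n.Prime) (hlt : β < n) :
    ¬ IsSquare ((β : ℤ) * n) := by
  rintro ⟨w, hw⟩
  have hnp : Prime (n : ℤ) := Nat.prime_iff_prime_int.1 hn
  have h1 : (n : ℤ) ∣ w := by
    have h2 : (n : ℤ) ∣ w * w := ⟨β, by rw [← hw]; ring⟩
    exact (hnp.dvd_or_dvd h2).elim id id
  obtain ⟨c, hc⟩ := h1
  have hn0 : (n : ℤ) ≠ 0 := by exact_mod_cast hn.ne_zero
  have h3 : (n : ℤ) * (n * (c * c)) = n * β := by
    rw [hc] at hw
    linear_combination -hw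
  have h4 := mul_left_cancel₀ hn0 h3
  have h5 : (n : ℤ) ∣ β := ⟨c * c, h4.symm⟩
  have h6 : n ∣ β := Int.natCast_dvd_natCast.1 h5
  have h7 := Nat.le_of_dvd hβ h6
  omega

theorem exists_point {A B C D : ℤ} {β : ℕ} (hD : D = B ^ 2 - 4 * A * C) (hns : ¬ IsSquare D)
    (hβ : 1 < β) (hβ2 : IsCoprime (β : ℤ) (2 * D)) (hβA : IsCoprime (β : ℤ) A)
    (hJ : J(D | β) = 1) :
    ∃ n : ℕ, n.Prime ∧ J(D | n) = 1 ∧ 16 * D ∣ (β : ℤ) * n - 1 ∧
      ∃ x z s t : ℤ, x ^ 2 - bq A B C s t = β * n * z ^ 2 ∧ bq A B C s t ≠ 0 := by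
  have hD0 : D ≠ 0 := by
    rintro h
    exact hns (h ▸ ⟨0, by ring⟩)
  have hA0 : A ≠ 0 := by
    rintro h
    refine hns ⟨B, ?_⟩
    rw [hD, h]
    ring
  have hW : 16 * D * A ≠ 0 := mul_ne_zero (mul_ne_zero (by norm_num) hD0) hA0
  have hβD : IsCoprime (β : ℤ) D := IsCoprime.of_mul_right_right hβ2
  have hβt : IsCoprime (β : ℤ) 2 := IsCoprime.of_mul_right_left hβ2
  have hβW : IsCoprime (β : ℤ) (16 * D * A) := by
    have h16 : IsCoprime (β : ℤ) 16 := by
      have h := hβt.pow_right (n := 4)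
      norm_num at h
      exact h
    exact (h16.mul_right hβD).mul_right hβA
  obtain ⟨n, hn, hnK, hnW, hJn⟩ := exists_n hD0 hW ⟨2 * A, by ring⟩ hβW hJ
    (β + A.natAbs + D.natAbs)
  have hβn : β < n := by omega
  have hb8 : 8 * A * D ∣ ((β * n : ℕ) : ℤ) - 1 := by
    push_cast
    exact Dvd.dvd.trans ⟨2, by ring⟩ hnW
  obtain ⟨r, hr, hrK, hr8, hbr, ⟨s2, hs2⟩, s3, hs3⟩ := exists_r hD0 hA0 hb8
    (β * n + A.natAbs + D.natAbs)
  have hrb : β * n < r := by omega
  have hrA : A.natAbs < r := by omega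
  have hbpos : 0 < β * n := Nat.mul_pos (by omega) hn.pos
  have hr0 : (0 : ℤ) < r := by exact_mod_cast hr.pos
  have hrp : Prime (r : ℤ) := Nat.prime_iff_prime_int.1 hr
  -- the first conic
  have hcrD : IsCoprime (r : ℤ) D := by
    obtain ⟨c, hc⟩ := hr8
    exact ⟨1, -(8 * c), by linear_combination hc⟩
  obtain ⟨u, w, v, hne, h1⟩ := conic hr0 hD0 hcrD (s1 := 1) (s2 := s2)
    (by
      obtain ⟨c, hc⟩ := hr8
      exact ⟨-(8 * c), by linear_combination -hc⟩) hs2
  have hw : w ≠ 0 := by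
    rintro rfl
    have h2 : u ^ 2 = D * v ^ 2 := by linear_combination h1
    by_cases hv : v = 0
    · subst hv
      have h3 : u = 0 := by
        have : u ^ 2 = 0 := by linear_combination h2
        exact pow_eq_zero_iff two_ne_zero |>.1 this
      rcases hne with h | h | h
      · exact h h3
      · exact h rfl
      · exact h rfl
    · exact hns (sq_of_mul_sq hv h2)
  -- the second conic
  have hcAr : IsCoprime A (r : ℤ) := by
    refine IsCoprime.symm ((Prime.coprime_iff_not_dvd hrp).2 fun h => ?_)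
    have h2 : r ∣ A.natAbs := Int.natCast_dvd.1 h
    have h3 := Nat.le_of_dvd (Int.natAbs_pos.2 hA0) h2
    omega
  obtain ⟨s1, hs1A, hs1r⟩ := crt (s0 := s3) hcAr
  have hbA : A ∣ ((β * n : ℕ) : ℤ) - 1 := Dvd.dvd.trans ⟨8 * D, by ring⟩ hb8
  have hcb : IsCoprime ((β * n : ℕ) : ℤ) (A * r) := by
    obtain ⟨c, hc⟩ := hbr
    exact ⟨-c, 1, by linear_combination hc⟩
  have hd1 : A * (r : ℤ) ∣ s1 ^ 2 - ((β * n : ℕ) : ℤ) := by
    refine hcAr.mul_dvd ?_ ?_
    · obtain ⟨c, hc⟩ := hs1A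
      obtain ⟨d, hd⟩ := hbA
      exact ⟨c * (s1 + 1) - d, by linear_combination (s1 + 1) * hc - hd⟩
    · obtain ⟨c, hc⟩ := hs1r
      obtain ⟨d, hd⟩ := hs3
      exact ⟨c * (s1 + s3) + d, by linear_combination (s1 + s3) * hc + hd⟩
  obtain ⟨x0, z0, t0, hne', h2⟩ := conic (by exact_mod_cast hbpos)
    (mul_ne_zero hA0 hr0.ne') hcb hd1 (s2 := 1)
    (by
      obtain ⟨c, hc⟩ := hbr
      exact ⟨-c, by linear_combination -hc⟩)
  have ht0 : t0 ≠ 0 := by
    rintro rfl
    have h3 : x0 ^ 2 = ((β * n : ℕ) : ℤ) * z0 ^ 2 := by linear_combination h2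
    by_cases hz : z0 = 0
    · subst hz
      have h4 : x0 = 0 := by
        have : x0 ^ 2 = 0 := by linear_combination h3
        exact pow_eq_zero_iff two_ne_zero |>.1 this
      rcases hne' with h | h | h
      · exact h h4
      · exact h rfl
      · exact h rfl
    · have h5 := sq_of_mul_sq hz h3
      push_cast at h5
      exact not_sq (by omega) hn hβn h5
  push_cast at h2
  -- combination
  have key : bq A B C (t0 * (u - B * v)) (t0 * (2 * A * v)) = A * r * w ^ 2 * t0 ^ 2 := by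
    unfold bq
    linear_combination A * t0 ^ 2 * h1 + A * t0 ^ 2 * v ^ 2 * hD
  refine ⟨n, hn, hJn, Dvd.dvd.trans ⟨A, by ring⟩ hnW, x0 * w, z0 * w,
    t0 * (u - B * v), t0 * (2 * A * v), ?_, ?_⟩
  · rw [key]
    linear_combination w ^ 2 * h2
  · rw [key]
    exact mul_ne_zero (mul_ne_zero (mul_ne_zero hA0 hr0.ne') (pow_ne_zero 2 hw))
      (pow_ne_zero 2 ht0)

end Pool.Agent.AllRank
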