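import Pool.Agent.AllRank.Adapt

set_option autoImplicit false

/-!
ALLRANK, file Rad: a radical of dimension `2` modulo an odd prime `p` makes `q` divisible by `p` on
the orthogonal complement of a hyperbolic pair (rank `4`).
-/

namespace Pool.Agent.AllRank

open Pool.Agent.MP4d0966 Module

variable {N : Type*} [AddCommGroup N]

/-- PROOF. Let `c` be the basis of `exists_adapted` (`c 0 = e`, `c 1 = f`, `c 2, c 3 ∈ M`). With
`u = ∑ uᵢ cᵢ`: `B(u, f) = u₀` and `B(u, e) = u₁`, so `p ∣ u₀, u₁`; the same for `v`. If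
`p ∣ u₂ v₃ - u₃ v₂`, then `v₃ u - u₃ v`, `v₂ u - u₂ v ∈ p N` (all coordinates are divisible by `p`),
so `p ∣ u₂, u₃, v₂, v₃`, and then `1 • u + 0 • v ∈ p N`, a contradiction with `huv`. So
`p ∤ δ := u₂ v₃ - u₃ v₂`. For `m = s c₂ + t c₃ ∈ M`: `δ m ≡ (s v₃ - t v₂) u + (t u₂ - s u₃) v`
modulo `p N` (compare coordinates), so `p ∣ δ B(m, m)`, `p ∣ B(m, m) = 2 q(m)`, `p ∣ q(m)`. -/
theorem radical_dvd {L : EvenForm N} (b : Basis (Fin 4) ℤ N) {e f : N} (he : L.q e = 0)
    (hf : L.q f = 0) (hef : L.B e f = 1) {p : ℕ} (hp : p.Prime) (hp2 : p ≠ 2) {u v : N}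
    (hu : ∀ x, (p : ℤ) ∣ L.B u x) (hv : ∀ x, (p : ℤ) ∣ L.B v x)
    (huv : ∀ (i j : ℤ) (x : N), i • u + j • v = (p : ℤ) • x → (p : ℤ) ∣ i ∧ (p : ℤ) ∣ j)
    {m : N} (hme : L.B m e = 0) (hmf : L.B m f = 0) : (p : ℤ) ∣ L.q m := by
  obtain ⟨c, h0, h1, h2e, h2f, h3e, h3f⟩ := exists_adapted b he hf hef
  have hee : L.B e e = 0 := by rw [L.hq, he, mul_zero]
  have hff : L.B f f = 0 := by rw [L.hq, hf, mul_zero]
  have hfe : L.B f e = 1 := by rw [L.symm, hef]
  have hdec : ∀ w, w = c.repr w 0 • c 0 + c.repr w 1 • c 1 + c.repr w 2 • c 2 +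
      c.repr w 3 • c 3 := by
    intro w
    conv_lhs => rw [← c.sum_repr w, Fin.sum_univ_four]
  have hBf : ∀ w, L.B w f = c.repr w 0 := by
    intro w
    conv_lhs => rw [hdec w]
    simp only [map_add, map_smul, LinearMap.add_apply, LinearMap.smul_apply, h0, h1, hef, hff,
      h2f, h3f, smul_eq_mul]
    ring
  have hBe : ∀ w, L.B w e = c.repr w 1 := by
    intro w
    conv_lhs => rw [hdec w]
    simp only [map_add, map_smul, LinearMap.add_apply, LinearMap.smul_apply, h0, h1, hee, hfe,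
      h2e, h3e, smul_eq_mul]
    ring
  have hdiv : ∀ w, (∀ i, (p : ℤ) ∣ c.repr w i) → ∃ x, w = (p : ℤ) • x := by
    intro w hw
    choose k hk using hw
    refine ⟨∑ i, k i • c i, ?_⟩
    conv_lhs => rw [← c.sum_repr w]
    rw [Finset.smul_sum]
    exact Finset.sum_congr rfl fun i _ => by rw [hk, smul_smul]
  have hu0 : (p : ℤ) ∣ c.repr u 0 := by rw [← hBf]; exact hu f
  have hu1 : (p : ℤ) ∣ c.repr u 1 := by rw [← hBe]; exact hu e
  have hv0 : (p : ℤ) ∣ c.repr v 0 := by rw [← hBf]; exact hv f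
  have hv1 : (p : ℤ) ∣ c.repr v 1 := by rw [← hBe]; exact hv e
  have hm0 : c.repr m 0 = 0 := by rw [← hBf]; exact hmf
  have hm1 : c.repr m 1 = 0 := by rw [← hBe]; exact hme
  have hpp : Prime (p : ℤ) := Nat.prime_iff_prime_int.1 hp
  have hcomb : ∀ i j : ℤ, (p : ℤ) ∣ i * c.repr u 2 + j * c.repr v 2 →
      (p : ℤ) ∣ i * c.repr u 3 + j * c.repr v 3 → (p : ℤ) ∣ i ∧ (p : ℤ) ∣ j := by
    intro i j h4 h5
    obtain ⟨x, hx⟩ := hdiv (i • u + j • v) (by
      intro l
      simp only [map_add, map_smul, Finsupp.add_apply, Finsupp.smul_apply, smul_eq_mul]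
      fin_cases l
      · exact dvd_add (dvd_mul_of_dvd_right hu0 _) (dvd_mul_of_dvd_right hv0 _)
      · exact dvd_add (dvd_mul_of_dvd_right hu1 _) (dvd_mul_of_dvd_right hv1 _)
      · exact h4
      · exact h5)
    exact huv i j x hx
  have hδ : ¬ (p : ℤ) ∣ c.repr u 2 * c.repr v 3 - c.repr u 3 * c.repr v 2 := by
    intro h
    have e1 : c.repr v 3 * c.repr u 2 + -c.repr u 3 * c.repr v 2 =
        c.repr u 2 * c.repr v 3 - c.repr u 3 * c.repr v 2 := by ring
    have e2 : c.repr v 3 * c.repr u 3 + -c.repr u 3 * c.repr v 3 = 0 := by ring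
    have e3 : c.repr v 2 * c.repr u 2 + -c.repr u 2 * c.repr v 2 = 0 := by ring
    have e4 : c.repr v 2 * c.repr u 3 + -c.repr u 2 * c.repr v 3 =
        -(c.repr u 2 * c.repr v 3 - c.repr u 3 * c.repr v 2) := by ring
    obtain ⟨h4, h5⟩ := hcomb (c.repr v 3) (-c.repr u 3) (by rw [e1]; exact h)
      (by rw [e2]; exact dvd_zero _)
    obtain ⟨h6, h7⟩ := hcomb (c.repr v 2) (-c.repr u 2) (by rw [e3]; exact dvd_zero _)
      (by rw [e4]; exact dvd_neg.2 h)
    obtain ⟨h8, -⟩ := hcomb 1 0 (by simpa using dvd_neg.1 h7) (by simpa using dvd_neg.1 h5)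
    exact hpp.not_isUnit (isUnit_of_dvd_one h8)
  obtain ⟨x, hx⟩ := hdiv ((c.repr u 2 * c.repr v 3 - c.repr u 3 * c.repr v 2) • m -
    ((c.repr m 2 * c.repr v 3 - c.repr m 3 * c.repr v 2) • u +
      (c.repr m 3 * c.repr u 2 - c.repr m 2 * c.repr u 3) • v)) (by
    intro l
    simp only [map_add, map_sub, map_smul, Finsupp.add_apply, Finsupp.sub_apply,
      Finsupp.smul_apply, smul_eq_mul]
    obtain rfl | rfl | rfl | rfl : l = 0 ∨ l = 1 ∨ l = 2 ∨ l = 3 := by omega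
    · rw [hm0, mul_zero]
      exact dvd_sub (dvd_zero _) (dvd_add (dvd_mul_of_dvd_right hu0 _)
        (dvd_mul_of_dvd_right hv0 _))
    · rw [hm1, mul_zero]
      exact dvd_sub (dvd_zero _) (dvd_add (dvd_mul_of_dvd_right hu1 _)
        (dvd_mul_of_dvd_right hv1 _))
    · refine (Dvd.intro 0 ?_)
      ring
    · refine (Dvd.intro 0 ?_)
      ring)
  have h9 := congrArg (fun w => L.B w m) hx
  simp only [map_add, map_sub, map_smul, LinearMap.add_apply, LinearMap.sub_apply,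
    LinearMap.smul_apply, smul_eq_mul] at h9
  have h10 : (p : ℤ) ∣ (c.repr u 2 * c.repr v 3 - c.repr u 3 * c.repr v 2) * (2 * L.q m) := by
    rw [← L.hq m]
    have h11 : (c.repr u 2 * c.repr v 3 - c.repr u 3 * c.repr v 2) * L.B m m =
        (c.repr m 2 * c.repr v 3 - c.repr m 3 * c.repr v 2) * L.B u m +
          (c.repr m 3 * c.repr u 2 - c.repr m 2 * c.repr u 3) * L.B v m + p * L.B x m := by
      linear_combination h9
    rw [h11]
    exact dvd_add (dvd_add (dvd_mul_of_dvd_right (hu m) _) (dvd_mul_of_dvd_right (hv m) _))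
      (dvd_mul_right _ _)
  rcases hpp.dvd_or_dvd h10 with h | h
  · exact absurd h hδ
  · rcases hpp.dvd_or_dvd h with h | h
    · exfalso
      have h12 : p ∣ 2 := by exact_mod_cast h
      exact hp2 ((Nat.prime_dvd_prime_iff_eq hp Nat.prime_two).1 h12)
    · exact h

end Pool.Agent.AllRank
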