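import Pool.Agent.AllRank.Lat

set_option autoImplicit false

/-!
ALLRANK, file Rot: the action of the quaternions on the lattice.
`A1 = q(v 0)`, `A2 = q(v 1)`, `A3 = q(v 2)`, `δ = dl L v = -A2 A3`, `c = cc L v = -A1 A3`.
-/

namespace Pool.Agent.AllRank

open Pool.Agent.MP4d0966

variable {N : Type*} [AddCommGroup N]

/-- PROOF. Write `b = q^j + M b0` (`InG`; `b0` a quaternion) and `Y = yq L v x`, `star Y = -Y`.
`b Y (star b) - q^(2j) Y = M Z` with `Z = q^j (b0 Y + Y star b0) + M b0 Y star b0`; its real part is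
`0` (`star` of `b Y star b` is its negative), so `Z = ⟨0, z1, z2, z3⟩` (it is easiest to get
`z1, z2, z3` from explicit coordinates). Let `M = 2 A1 A2 A3 M'`. Put
`x' := q^(2j) x + (A2 M' z1) v 0 + (A1 M' z2) v 1 - (A1 A2 M' z3) v 2`.
Then `B(x', l) = q^(2j) B(x, l)` and `B(x', v 0) = q^(2j) B(x, v 0) + 2 A1 A2 M' z1`, so the
`i`-coordinate of `yq x'` is `A3 q^(2j) B(x, v 0) + M z1`; similarly
`A3 B(x', v 1) = A3 q^(2j) B(x, v 1) + 2 A1 A2 A3 M' z2` and
`-B(x', v 2) = -q^(2j) B(x, v 2) + 2 A3 A1 A2 M' z3`. -/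
theorem rot {L : EvenForm N} {l : N} {v : Fin 3 → N} (F : Frame L l v) {q j : ℕ} {M : ℤ}
    (hM : 2 * L.q (v 0) * L.q (v 1) * L.q (v 2) ∣ M) {b : Q (dl L v) (cc L v)}
    (hb : InG q M j b) (x : N) :
    ∃ x', L.B x' l = (q : ℤ) ^ (2 * j) * L.B x l ∧ yq L v x' = b * yq L v x * star b := by
  obtain ⟨M', hM'⟩ := hM
  obtain ⟨-, ⟨β0, h0⟩, ⟨β1, h1⟩, ⟨β2, h2⟩, ⟨β3, h3⟩⟩ := hb
  obtain ⟨b0, b1, b2, b3⟩ := b
  simp only at h0 h1 h2 h3
  obtain ⟨t, ht⟩ : ∃ t : ℤ, t = (q : ℤ) ^ j := ⟨_, rfl⟩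
  have ht2 : (q : ℤ) ^ (2 * j) = t ^ 2 := by rw [ht, ← pow_mul, mul_comm j 2]
  rw [← ht] at h0
  rw [ht2]
  have h0' : b0 = t + M * β0 := by linarith
  obtain ⟨Z, hZ⟩ : ∃ Z : Q (dl L v) (cc L v), Z =
      ⟨t, 0, 0, 0⟩ * ((⟨β0, β1, β2, β3⟩ : Q (dl L v) (cc L v)) * yq L v x +
        yq L v x * star (⟨β0, β1, β2, β3⟩ : Q (dl L v) (cc L v))) +
      ⟨M, 0, 0, 0⟩ * ((⟨β0, β1, β2, β3⟩ : Q (dl L v) (cc L v)) * yq L v x *
        star (⟨β0, β1, β2, β3⟩ : Q (dl L v) (cc L v))) := ⟨_, rfl⟩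
  have e10 : L.B (v 1) (v 0) = 0 := by rw [L.symm, F.o01]
  have e20 : L.B (v 2) (v 0) = 0 := by rw [L.symm, F.o02]
  have e21 : L.B (v 2) (v 1) = 0 := by rw [L.symm, F.o12]
  refine ⟨(t ^ 2) • x + (L.q (v 1) * M' * Z.imI) • v 0 + (L.q (v 0) * M' * Z.imJ) • v 1 -
    (L.q (v 0) * L.q (v 1) * M' * Z.imK) • v 2, ?_, ?_⟩
  · simp only [map_add, map_sub, map_smul, LinearMap.add_apply, LinearMap.sub_apply,
      LinearMap.smul_apply, smul_eq_mul, F.ol]
    ring
  · have k0 : L.B ((t ^ 2) • x + (L.q (v 1) * M' * Z.imI) • v 0 +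
        (L.q (v 0) * M' * Z.imJ) • v 1 - (L.q (v 0) * L.q (v 1) * M' * Z.imK) • v 2) (v 0) =
        t ^ 2 * L.B x (v 0) + 2 * L.q (v 0) * L.q (v 1) * M' * Z.imI := by
      simp only [map_add, map_sub, map_smul, LinearMap.add_apply, LinearMap.sub_apply,
        LinearMap.smul_apply, smul_eq_mul, e10, e20, L.hq]
      ring
    have k1 : L.B ((t ^ 2) • x + (L.q (v 1) * M' * Z.imI) • v 0 +
        (L.q (v 0) * M' * Z.imJ) • v 1 - (L.q (v 0) * L.q (v 1) * M' * Z.imK) • v 2) (v 1) =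
        t ^ 2 * L.B x (v 1) + 2 * L.q (v 0) * L.q (v 1) * M' * Z.imJ := by
      simp only [map_add, map_sub, map_smul, LinearMap.add_apply, LinearMap.sub_apply,
        LinearMap.smul_apply, smul_eq_mul, F.o01, e21, L.hq]
      ring
    have k2 : L.B ((t ^ 2) • x + (L.q (v 1) * M' * Z.imI) • v 0 +
        (L.q (v 0) * M' * Z.imJ) • v 1 - (L.q (v 0) * L.q (v 1) * M' * Z.imK) • v 2) (v 2) =
        t ^ 2 * L.B x (v 2) - 2 * L.q (v 0) * L.q (v 1) * L.q (v 2) * M' * Z.imK := by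
      simp only [map_add, map_sub, map_smul, LinearMap.add_apply, LinearMap.sub_apply,
        LinearMap.smul_apply, smul_eq_mul, F.o02, F.o12, L.hq]
      ring
    have hy : yq L v ((t ^ 2) • x + (L.q (v 1) * M' * Z.imI) • v 0 +
        (L.q (v 0) * M' * Z.imJ) • v 1 - (L.q (v 0) * L.q (v 1) * M' * Z.imK) • v 2) =
        ⟨0, t ^ 2 * (yq L v x).imI + M * Z.imI, t ^ 2 * (yq L v x).imJ + M * Z.imJ,
          t ^ 2 * (yq L v x).imK + M * Z.imK⟩ := by
      unfold yq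
      rw [k0, k1, k2, hM']
      ext
      · rfl
      · show L.q (v 2) * _ = t ^ 2 * (L.q (v 2) * L.B x (v 0)) + _
        ring
      · show L.q (v 2) * _ = t ^ 2 * (L.q (v 2) * L.B x (v 1)) + _
        ring
      · show -_ = t ^ 2 * (-L.B x (v 2)) + _
        ring
    rw [hy, hZ, h0', h1, h2, h3]
    have hre : (yq L v x).re = 0 := rfl
    ext
    · simp only [QuaternionAlgebra.re_mul, QuaternionAlgebra.imI_mul, QuaternionAlgebra.imJ_mul,
        QuaternionAlgebra.imK_mul, QuaternionAlgebra.re_star, QuaternionAlgebra.imI_star,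
        QuaternionAlgebra.imJ_star, QuaternionAlgebra.imK_star, hre]
      ring
    · simp only [QuaternionAlgebra.re_mul, QuaternionAlgebra.imI_mul, QuaternionAlgebra.imJ_mul,
        QuaternionAlgebra.imK_mul, QuaternionAlgebra.re_star, QuaternionAlgebra.imI_star,
        QuaternionAlgebra.imJ_star, QuaternionAlgebra.imK_star, QuaternionAlgebra.re_add,
        QuaternionAlgebra.imI_add, QuaternionAlgebra.imJ_add, QuaternionAlgebra.imK_add, hre]
      ring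
    · simp only [QuaternionAlgebra.re_mul, QuaternionAlgebra.imI_mul, QuaternionAlgebra.imJ_mul,
        QuaternionAlgebra.imK_mul, QuaternionAlgebra.re_star, QuaternionAlgebra.imI_star,
        QuaternionAlgebra.imJ_star, QuaternionAlgebra.imK_star, QuaternionAlgebra.re_add,
        QuaternionAlgebra.imI_add, QuaternionAlgebra.imJ_add, QuaternionAlgebra.imK_add, hre]
      ring
    · simp only [QuaternionAlgebra.re_mul, QuaternionAlgebra.imI_mul, QuaternionAlgebra.imJ_mul,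
        QuaternionAlgebra.imK_mul, QuaternionAlgebra.re_star, QuaternionAlgebra.imI_star,
        QuaternionAlgebra.imJ_star, QuaternionAlgebra.imK_star, QuaternionAlgebra.re_add,
        QuaternionAlgebra.imI_add, QuaternionAlgebra.imJ_add, QuaternionAlgebra.imK_add, hre]
      ring

/-- The norm form: `nrd (yq x) = A1 A2 A3² (4 A3 q(x) - A3 B(x, l)²)`. PROOF. By
`F.span`, `F.ol`, ... one has `4 q(x) = B(x,l)² + p1²/A1 + p2²/A2 + p3²/A3`,
`p_i = B(x, v (i-1))`: pair the expansion of `(4 A1 A2 A3) • x` with `x`: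
`8 A1 A2 A3 q(x) = 2 A1 A2 A3 B(x,l)² + 2 A2 A3 p1² + 2 A1 A3 p2² + 2 A1 A2 p3²`. And
`nrd (yq x) = A2 A3 A3² p1² + A1 A3 A3² p2² + A1 A2 A3² p3²`. -/
theorem nrd_yq {L : EvenForm N} {l : N} {v : Fin 3 → N} (F : Frame L l v) (x : N) :
    nrd (yq L v x) = L.q (v 0) * L.q (v 1) * L.q (v 2) ^ 3 * (4 * L.q x - L.B x l ^ 2) := by
  have h1 := congrArg (fun z => L.B z x) (F.span x)
  simp only [map_add, map_smul, LinearMap.add_apply, LinearMap.smul_apply, smul_eq_mul] at h1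
  rw [L.hq, L.symm l x, L.symm (v 0) x, L.symm (v 1) x, L.symm (v 2) x] at h1
  have h2 : 2 * nrd (yq L v x) =
      2 * (L.q (v 0) * L.q (v 1) * L.q (v 2) ^ 3 * (4 * L.q x - L.B x l ^ 2)) := by
    simp only [nrd, yq, dl, cc]
    linear_combination (-L.q (v 2) ^ 2) * h1
  linarith

/-- A vector is determined by `B(x, l)` and `yq x`. PROOF. `q(v 2) ≠ 0`, so all `B(x, v i)` agree,
and `F.span` gives `(4 A1 A2 A3) • x = (4 A1 A2 A3) • y`; `N` is free, hence torsion-free. -/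
theorem frame_ext {L : EvenForm N} (bN : Module.Basis (Fin 4) ℤ N) {l : N} {v : Fin 3 → N}
    (F : Frame L l v) {x y : N} (h1 : L.B x l = L.B y l) (h2 : yq L v x = yq L v y) : x = y := by
  have e0 : L.q (v 2) * L.B x (v 0) = L.q (v 2) * L.B y (v 0) :=
    congrArg QuaternionAlgebra.imI h2
  have e1 : L.q (v 2) * L.B x (v 1) = L.q (v 2) * L.B y (v 1) :=
    congrArg QuaternionAlgebra.imJ h2
  have e2 : -L.B x (v 2) = -L.B y (v 2) := congrArg QuaternionAlgebra.imK h2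
  have e0' := mul_left_cancel₀ F.n2 e0
  have e1' := mul_left_cancel₀ F.n2 e1
  have e2' := neg_injective e2
  have h3 : (4 * L.q (v 0) * L.q (v 1) * L.q (v 2)) • x =
      (4 * L.q (v 0) * L.q (v 1) * L.q (v 2)) • y := by
    rw [F.span x, F.span y, h1, e0', e1', e2']
  have hne : 4 * L.q (v 0) * L.q (v 1) * L.q (v 2) ≠ 0 :=
    mul_ne_zero (mul_ne_zero (mul_ne_zero (by norm_num) F.n0) F.n1) F.n2
  refine bN.ext_elem fun i => ?_
  have h4 := congrArg (fun z => bN.repr z i) h3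
  simp only [map_smul, Finsupp.smul_apply, smul_eq_mul] at h4
  exact mul_left_cancel₀ hne h4

end Pool.Agent.AllRank
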