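import Mathlib

set_option autoImplicit false

/-!
ALLRANK, file Unip: a closed submonoid of the `2 × 2` matrices over `ℚ_q` which contains a
hyperbolic diagonal matrix, its inverse and a suitable sequence tending to `1` contains
`SL₂(ℚ_q)`. This is the heart of the elementary proof of strong approximation.
-/

namespace Pool.Agent.AllRank

variable {q : ℕ} [Fact q.Prime]

private theorem diag_pow (u v : ℚ_[q]) (m : ℕ) : (!![u, 0; 0, v]) ^ m = !![u ^ m, 0; 0, v ^ m] := by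
  induction m with
  | zero => ext i j; fin_cases i <;> fin_cases j <;> simp
  | succ m ih =>
    rw [pow_succ, ih]
    ext i j
    fin_cases i <;> fin_cases j <;> simp [Matrix.mul_apply, Fin.sum_univ_two, pow_succ]

/-- PROOF. Put `G = diag (λ, λ⁻¹)`, `G' = diag (λ⁻¹, λ)`, `Z i` the given matrices.
(1) For `m ∈ ℕ` put `w m := G^m * Z (2 h m) * G'^m ∈ H`. Its entries are
`(1,1)`: `x + y a`; `(1,2)`: `λ^(2m) y b`; `(2,1)`: `λ^(-2m) y c`; `(2,2)`: `x - y a`, with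
`x = x (2hm)`, `y = y (2hm)`. `‖λ^(2m)‖ = q^(2hm)` and `‖y (2hm)‖ = ‖y 0‖ q^(-2hm)`, so the norm of
the `(1,2)` entry is the constant `ρ = ‖y 0‖ ‖b‖ > 0`; the other entries tend to `1, 0, 1`.
(2) `ℚ_[q]` is proper (`ProperSpace`), so a subsequence of the `(1,2)` entries converges
(`tendsto_subseq_of_bounded` or `IsCompact.tendsto_subseq` for the closed ball) to some `t0` with
`‖t0‖ = ρ`, `t0 ≠ 0`. As `H` is closed, `upper t0 := (1, t0; 0, 1) ∈ H`
(`IsClosed.mem_of_tendsto`; convergence of matrices is entrywise, `tendsto_pi_nhds`).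
(3) `upper (n t0) = (upper t0)^n ∈ H` for `n ∈ ℕ`; the natural numbers are dense in `ℤ_[q]`
(`PadicInt.denseRange_natCast`) and `z ↦ upper (z t0)` is continuous, so `upper (z t0) ∈ H` for
all `z` with `‖z‖ ≤ 1`.
(4) For `t` arbitrary choose `i` with `‖t‖ ≤ ‖λ^(2i) t0‖` (`‖λ‖ = q^h > 1`) and put
`z = t / (λ^(2i) t0)`, `‖z‖ ≤ 1`: `upper t = G^i * upper (z t0) * G'^i ∈ H`. -/
theorem upper_mem (H : Submonoid (Matrix (Fin 2) (Fin 2) ℚ_[q]))
    (hH : IsClosed (H : Set (Matrix (Fin 2) (Fin 2) ℚ_[q]))) {l a b c : ℚ_[q]} {h : ℕ}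
    (hh : 1 ≤ h) (hl : ‖l‖ = (q : ℝ) ^ h) (hG : !![l, 0; 0, l⁻¹] ∈ H)
    (hG' : !![l⁻¹, 0; 0, l] ∈ H) (hb : b ≠ 0) {x y : ℕ → ℚ_[q]} (hy0 : y 0 ≠ 0)
    (hy : ∀ i, ‖y i‖ = ‖y 0‖ * ((q : ℝ) ^ i)⁻¹) (hx : ∀ i, ‖x i - 1‖ ≤ ((q : ℝ) ^ i)⁻¹)
    (hZ : ∀ i, !![x i + y i * a, y i * b; y i * c, x i - y i * a] ∈ H) (t : ℚ_[q]) :
    !![1, t; 0, 1] ∈ H := by
  classical
  have hq0 : (0 : ℝ) < (q : ℝ) := by exact_mod_cast (Fact.out : q.Prime).pos
  have hq1 : (1 : ℝ) < (q : ℝ) := by exact_mod_cast (Fact.out : q.Prime).one_lt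
  have hl0 : l ≠ 0 := by
    intro h0
    rw [h0, norm_zero] at hl
    exact absurd hl.symm (pow_pos hq0 h).ne'
  have hGp : ∀ m : ℕ, !![l ^ m, 0; 0, (l ^ m)⁻¹] ∈ H := fun m => by
    have := H.pow_mem hG m
    rw [diag_pow] at this
    simpa only [inv_pow] using this
  have hGp' : ∀ m : ℕ, !![(l ^ m)⁻¹, 0; 0, l ^ m] ∈ H := fun m => by
    have := H.pow_mem hG' m
    rw [diag_pow] at this
    simpa only [inv_pow] using this
  -- conjugates
  have hconj : ∀ (m : ℕ) (p r s u : ℚ_[q]), !![p, r; s, u] ∈ H →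
      !![p, (l ^ m) * (l ^ m) * r; (l ^ m)⁻¹ * (l ^ m)⁻¹ * s, u] ∈ H := by
    intro m p r s u hm
    have hm0 : l ^ m ≠ 0 := pow_ne_zero _ hl0
    have h1 := H.mul_mem (H.mul_mem (hGp m) hm) (hGp' m)
    have h2 : !![l ^ m, 0; 0, (l ^ m)⁻¹] * !![p, r; s, u] * !![(l ^ m)⁻¹, 0; 0, l ^ m] =
        !![p, (l ^ m) * (l ^ m) * r; (l ^ m)⁻¹ * (l ^ m)⁻¹ * s, u] := by
      ext i j
      fin_cases i <;> fin_cases j <;>
        simp [Matrix.mul_apply, Fin.sum_univ_two] <;> field_simp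
    rwa [h2] at h1
  have hnl : ∀ m : ℕ, ‖l ^ m * l ^ m‖ = (q : ℝ) ^ (2 * h * m) := by
    intro m
    rw [norm_mul, norm_pow, hl, ← pow_mul, ← pow_add]
    congr 1
    ring
  -- the (1,2) entries
  obtain ⟨ρ, hρ⟩ : ∃ ρ : ℝ, ρ = ‖y 0‖ * ‖b‖ := ⟨_, rfl⟩
  have hρ0 : 0 < ρ := by
    rw [hρ]; exact mul_pos (norm_pos_iff.mpr hy0) (norm_pos_iff.mpr hb)
  let e : ℕ → ℚ_[q] := fun m => l ^ m * l ^ m * (y (2 * h * m) * b)
  have he : ∀ m, ‖e m‖ = ρ := by
    intro m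
    show ‖l ^ m * l ^ m * (y (2 * h * m) * b)‖ = ρ
    rw [norm_mul, hnl, norm_mul, hy, hρ]
    have h7 : (q : ℝ) ^ (2 * h * m) ≠ 0 := pow_ne_zero _ hq0.ne'
    calc (q : ℝ) ^ (2 * h * m) * (‖y 0‖ * ((q : ℝ) ^ (2 * h * m))⁻¹ * ‖b‖)
        = ((q : ℝ) ^ (2 * h * m) * ((q : ℝ) ^ (2 * h * m))⁻¹) * (‖y 0‖ * ‖b‖) := by ring
      _ = ‖y 0‖ * ‖b‖ := by rw [mul_inv_cancel₀ h7, one_mul]
  have hcomp : IsCompact (Metric.closedBall (0 : ℚ_[q]) ρ) := isCompact_closedBall _ _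
  obtain ⟨t0, -, φ, hφ, hlim⟩ := hcomp.tendsto_subseq (x := e)
    (fun m => by rw [mem_closedBall_zero_iff, he])
  have ht0n : ‖t0‖ = ρ := by
    have h1 := hlim.norm
    have h2 : (fun m => ‖(e ∘ φ) m‖) = fun _ => ρ := by
      funext m; exact he _
    rw [h2] at h1
    exact (tendsto_nhds_unique h1 tendsto_const_nhds)
  have ht0 : t0 ≠ 0 := by
    intro h0
    rw [h0, norm_zero] at ht0n
    exact hρ0.ne ht0n
  -- the powers of q tend to 0
  have hqt : Filter.Tendsto (fun i : ℕ => ((q : ℝ) ^ i)⁻¹) Filter.atTop (nhds 0) := by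
    simpa only [inv_pow] using
      tendsto_pow_atTop_nhds_zero_of_lt_one (inv_nonneg.mpr hq0.le) (inv_lt_one_of_one_lt₀ hq1)
  have hyt : Filter.Tendsto y Filter.atTop (nhds 0) := by
    rw [tendsto_zero_iff_norm_tendsto_zero]
    rw [show (fun i => ‖y i‖) = fun i => ‖y 0‖ * ((q : ℝ) ^ i)⁻¹ from funext hy]
    simpa only [mul_zero] using hqt.const_mul ‖y 0‖
  have hxt : Filter.Tendsto x Filter.atTop (nhds 1) := by
    rw [tendsto_iff_norm_sub_tendsto_zero]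
    exact squeeze_zero (fun _ => norm_nonneg _) hx hqt
  have hidx : Filter.Tendsto (fun m => 2 * h * φ m) Filter.atTop Filter.atTop := by
    refine Filter.tendsto_atTop_mono (fun m => ?_) hφ.tendsto_atTop
    nlinarith [Nat.zero_le (φ m)]
  have hidx2 : Filter.Tendsto (fun m => (2 * h * φ m)) Filter.atTop Filter.atTop := hidx
  have hyφ := hyt.comp hidx
  have hxφ := hxt.comp hidx
  have hlow : Filter.Tendsto (fun m => (l ^ φ m)⁻¹ * (l ^ φ m)⁻¹ * (y (2 * h * φ m) * c))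
      Filter.atTop (nhds 0) := by
    rw [tendsto_zero_iff_norm_tendsto_zero]
    have hb1 : ∀ m, ‖(l ^ φ m)⁻¹ * (l ^ φ m)⁻¹ * (y (2 * h * φ m) * c)‖ ≤
        ‖y (2 * h * φ m)‖ * ‖c‖ := by
      intro m
      rw [norm_mul ((l ^ φ m)⁻¹ * (l ^ φ m)⁻¹), norm_mul (y (2 * h * φ m)) c]
      refine mul_le_of_le_one_left (by positivity) ?_
      rw [← mul_inv, norm_inv, hnl]
      exact inv_le_one_of_one_le₀ (one_le_pow₀ hq1.le)
    refine squeeze_zero (fun _ => norm_nonneg _) hb1 ?_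
    have := (hyφ.norm).mul_const ‖c‖
    simpa using this
  have hup0 : !![1, t0; 0, 1] ∈ H := by
    have hmem : ∀ m, !![x (2 * h * φ m) + y (2 * h * φ m) * a, e (φ m);
        (l ^ φ m)⁻¹ * (l ^ φ m)⁻¹ * (y (2 * h * φ m) * c),
        x (2 * h * φ m) - y (2 * h * φ m) * a] ∈ H := by
      intro m
      exact hconj (φ m) _ _ _ _ (hZ (2 * h * φ m))
    refine hH.mem_of_tendsto (b := Filter.atTop) ?_ (Filter.Eventually.of_forall hmem)
    refine tendsto_pi_nhds.mpr ?_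
    intro i
    refine tendsto_pi_nhds.mpr ?_
    intro j
    fin_cases i <;> fin_cases j
    · have := hxφ.add (hyφ.mul_const a)
      simpa using this
    · exact hlim
    · exact hlow
    · have := hxφ.sub (hyφ.mul_const a)
      simpa using this
  -- natural multiples
  have hnat : ∀ n : ℕ, !![1, (n : ℚ_[q]) * t0; 0, 1] ∈ H := by
    intro n
    induction n with
    | zero =>
      have : !![1, ((0 : ℕ) : ℚ_[q]) * t0; 0, 1] = 1 := by
        ext i j; fin_cases i <;> fin_cases j <;> simp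
      rw [this]; exact H.one_mem
    | succ n ih =>
      have h1 := H.mul_mem ih hup0
      have h2 : !![1, (n : ℚ_[q]) * t0; 0, 1] * !![1, t0; 0, 1] =
          !![1, ((n + 1 : ℕ) : ℚ_[q]) * t0; 0, 1] := by
        ext i j
        fin_cases i <;> fin_cases j <;> simp [Matrix.mul_apply, Fin.sum_univ_two]
        ring
      rwa [h2] at h1
  have hint : ∀ z : ℤ_[q], !![1, (z : ℚ_[q]) * t0; 0, 1] ∈ H := by
    intro z
    have hcont : Continuous (fun z : ℤ_[q] => !![1, (z : ℚ_[q]) * t0; 0, 1]) := by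
      refine continuous_matrix ?_
      intro i j
      fin_cases i <;> fin_cases j
      · exact continuous_const
      · exact (continuous_subtype_val).mul continuous_const
      · exact continuous_const
      · exact continuous_const
    have hcl : IsClosed {z : ℤ_[q] | !![1, (z : ℚ_[q]) * t0; 0, 1] ∈ H} := hH.preimage hcont
    have hd := PadicInt.denseRange_natCast (p := q)
    have hsub : Set.range (Nat.cast : ℕ → ℤ_[q]) ⊆
        {z : ℤ_[q] | !![1, (z : ℚ_[q]) * t0; 0, 1] ∈ H} := by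
      rintro _ ⟨n, rfl⟩
      simpa using hnat n
    have := hcl.closure_subset_iff.mpr hsub
    exact this (hd z)
  -- conjugate back
  obtain ⟨i, hi⟩ : ∃ i : ℕ, ‖t‖ ≤ (q : ℝ) ^ i * ρ := by
    obtain ⟨i, hi⟩ := pow_unbounded_of_one_lt (‖t‖ / ρ) hq1
    exact ⟨i, by rw [div_lt_iff₀ hρ0] at hi; exact hi.le⟩
  have hli0 : l ^ i ≠ 0 := pow_ne_zero _ hl0
  have hz : ‖t / (l ^ i * l ^ i * t0)‖ ≤ 1 := by
    rw [norm_div, norm_mul, hnl, ht0n]
    rw [div_le_one (mul_pos (pow_pos hq0 _) hρ0)]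
    refine hi.trans (mul_le_mul_of_nonneg_right ?_ hρ0.le)
    refine pow_le_pow_right₀ hq1.le ?_
    nlinarith [Nat.zero_le i]
  have h3 := hconj i _ _ _ _ (hint ⟨_, hz⟩)
  have h4 : !![1, l ^ i * l ^ i * (((⟨_, hz⟩ : ℤ_[q]) : ℚ_[q]) * t0);
      (l ^ i)⁻¹ * (l ^ i)⁻¹ * 0, 1] = !![1, t; 0, 1] := by
    ext i' j'
    fin_cases i' <;> fin_cases j' <;> simp
    field_simp
  rwa [h4] at h3

/-- PROOF. Apply `upper_mem` to the submonoid `H' = {g | w g w ∈ H}`, `w = (0, 1; 1, 0)`, `w² = 1`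
(closed because `g ↦ w g w` is continuous): `w (p, q; r, s) w = (s, r; q, p)`. The two diagonal
matrices are exchanged, and the matrices `Z i` become
`(x i + y i (-a), y i c; y i b, x i - y i (-a))`. -/
theorem lower_mem (H : Submonoid (Matrix (Fin 2) (Fin 2) ℚ_[q]))
    (hH : IsClosed (H : Set (Matrix (Fin 2) (Fin 2) ℚ_[q]))) {l a b c : ℚ_[q]} {h : ℕ}
    (hh : 1 ≤ h) (hl : ‖l‖ = (q : ℝ) ^ h) (hG : !![l, 0; 0, l⁻¹] ∈ H)
    (hG' : !![l⁻¹, 0; 0, l] ∈ H) (hc : c ≠ 0) {x y : ℕ → ℚ_[q]} (hy0 : y 0 ≠ 0)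
    (hy : ∀ i, ‖y i‖ = ‖y 0‖ * ((q : ℝ) ^ i)⁻¹) (hx : ∀ i, ‖x i - 1‖ ≤ ((q : ℝ) ^ i)⁻¹)
    (hZ : ∀ i, !![x i + y i * a, y i * b; y i * c, x i - y i * a] ∈ H) (t : ℚ_[q]) :
    !![1, 0; t, 1] ∈ H := by
  have hwc : ∀ p r s u : ℚ_[q], !![0, 1; 1, 0] * !![p, r; s, u] * !![0, 1; 1, 0] =
      !![u, s; r, p] := by
    intro p r s u
    ext i j
    fin_cases i <;> fin_cases j <;> simp [Matrix.mul_apply, Fin.sum_univ_two]
  have hww : (!![0, 1; 1, 0] : Matrix (Fin 2) (Fin 2) ℚ_[q]) * !![0, 1; 1, 0] = 1 := by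
    ext i j
    fin_cases i <;> fin_cases j <;> simp [Matrix.mul_apply, Fin.sum_univ_two]
  let H' : Submonoid (Matrix (Fin 2) (Fin 2) ℚ_[q]) :=
    { carrier := {g | !![0, 1; 1, 0] * g * !![0, 1; 1, 0] ∈ H}
      one_mem' := by
        show !![0, 1; 1, 0] * 1 * !![0, 1; 1, 0] ∈ H
        rw [mul_one, hww]
        exact H.one_mem
      mul_mem' := by
        intro g g' hg hg'
        show !![0, 1; 1, 0] * (g * g') * !![0, 1; 1, 0] ∈ H
        have h1 := H.mul_mem (show !![0, 1; 1, 0] * g * !![0, 1; 1, 0] ∈ H from hg)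
          (show !![0, 1; 1, 0] * g' * !![0, 1; 1, 0] ∈ H from hg')
        have h2 : !![0, 1; 1, 0] * g * !![0, 1; 1, 0] * (!![0, 1; 1, 0] * g' * !![0, 1; 1, 0]) =
            !![0, 1; 1, 0] * (g * g') * !![0, 1; 1, 0] := by
          rw [← mul_assoc (!![0, 1; 1, 0] * g * !![0, 1; 1, 0]),
            ← mul_assoc (!![0, 1; 1, 0] * g * !![0, 1; 1, 0]),
            mul_assoc (!![0, 1; 1, 0] * g), hww, mul_one, mul_assoc (!![0, 1; 1, 0]) g g']
        rwa [h2] at h1 }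
  have hmem' : ∀ p r s u : ℚ_[q], !![u, s; r, p] ∈ H → !![p, r; s, u] ∈ H' := by
    intro p r s u h1
    show !![0, 1; 1, 0] * !![p, r; s, u] * !![0, 1; 1, 0] ∈ H
    rw [hwc]; exact h1
  have hcl : IsClosed (H' : Set (Matrix (Fin 2) (Fin 2) ℚ_[q])) := by
    have hc : Continuous (fun g : Matrix (Fin 2) (Fin 2) ℚ_[q] =>
        !![0, 1; 1, 0] * g * !![0, 1; 1, 0]) :=
      (continuous_const.matrix_mul continuous_id).matrix_mul continuous_const
    exact hH.preimage hc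
  have h1 : !![1, t; 0, 1] ∈ H' :=
    upper_mem H' hcl (l := l) (a := -a) (b := c) (c := b) hh hl (hmem' _ _ _ _ hG')
      (hmem' _ _ _ _ hG) hc (x := x) (y := y) hy0 hy hx
      (fun i => hmem' _ _ _ _ (by
        have h2 := hZ i
        have h3 : x i - y i * -a = x i + y i * a := by ring
        have h4 : x i + y i * -a = x i - y i * a := by ring
        rw [h3, h4]
        exact h2)) t
  have h5 : !![0, 1; 1, 0] * !![1, t; 0, 1] * !![0, 1; 1, 0] ∈ H := h1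
  rwa [hwc] at h5

/-- Every matrix `(a, b; c, d)` of determinant `1` is a product of upper and lower unipotent
matrices. PROOF. If `c ≠ 0`: it is `upper ((a-1)/c) * lower c * upper ((d-1)/c)`. If `c = 0`
(so `a ≠ 0`): `lower 1 * g` has lower left entry `a ≠ 0` and determinant `1`, and
`g = lower (-1) * (lower 1 * g)`. -/
theorem sl2_mem (H : Submonoid (Matrix (Fin 2) (Fin 2) ℚ_[q]))
    (hu : ∀ t : ℚ_[q], !![1, t; 0, 1] ∈ H) (hl : ∀ t : ℚ_[q], !![1, 0; t, 1] ∈ H)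
    {g : Matrix (Fin 2) (Fin 2) ℚ_[q]} (hg : g.det = 1) : g ∈ H := by
  have key : ∀ p r s u : ℚ_[q], s ≠ 0 → p * u - r * s = 1 → !![p, r; s, u] ∈ H := by
    intro p r s u hs hd
    have h1 := H.mul_mem (H.mul_mem (hu ((p - 1) / s)) (hl s)) (hu ((u - 1) / s))
    have h2 : !![1, (p - 1) / s; 0, 1] * !![1, 0; s, 1] * !![1, (u - 1) / s; 0, 1] =
        !![p, r; s, u] := by
      have e1 : (p - 1) / s * s = p - 1 := div_mul_cancel₀ _ hs
      have e2 : s * ((u - 1) / s) = u - 1 := mul_div_cancel₀ _ hs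
      have e3 : p * ((u - 1) / s) + (p - 1) / s = r := by
        field_simp
        linear_combination hd
      ext i j
      fin_cases i <;> fin_cases j <;> simp [Matrix.mul_apply, Fin.sum_univ_two]
      · rw [e1]; ring
      · rw [e1]
        have : (1 + (p - 1)) * ((u - 1) / s) + (p - 1) / s = r := by
          rw [← e3]; ring
        exact this
      · rw [e2]; ring
    rwa [h2] at h1
  have hg' : g 0 0 * g 1 1 - g 0 1 * g 1 0 = 1 := by
    rw [← Matrix.det_fin_two]; exact hg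
  have hgeq : g = !![g 0 0, g 0 1; g 1 0, g 1 1] := Matrix.eta_fin_two g
  by_cases hc : g 1 0 = 0
  · have ha : g 0 0 ≠ 0 := by
      intro h0
      rw [h0, hc] at hg'
      simp at hg'
    have h1 : !![g 0 0, g 0 1; g 0 0, g 0 1 + g 1 1] ∈ H := by
      refine key _ _ _ _ ha ?_
      rw [hc] at hg'
      linear_combination hg'
    have h2 := H.mul_mem (hl (-1)) h1
    have h3 : !![1, 0; -1, 1] * !![g 0 0, g 0 1; g 0 0, g 0 1 + g 1 1] = g := by
      rw [hgeq]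
      ext i j
      fin_cases i <;> fin_cases j <;> simp [Matrix.mul_apply, Fin.sum_univ_two, hc]
    rwa [h3] at h2
  · rw [hgeq]
    exact key _ _ _ _ hc hg'

end Pool.Agent.AllRank
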