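import Pool.Agent.AllRank.Defs
import Pool.Agent.AllRank.Pell
import Pool.Agent.AllRank.QUnit
import Pool.Agent.AllRank.Unip

set_option autoImplicit false

/-!
ALLRANK, file SA: strong approximation at the prime `q` for the quaternion algebra
`(δ, c)`, `δ < 0 < c`: the closure of the congruence subgroup `Gam` of level `M` (coordinates in
`ℤ[1/q]`) in the matrices over `ℚ_q` contains `SL₂(ℚ_q)`.

PROOF. Write `H := GamBar δ c M θ hθ`, closed (`Submonoid.isClosed_topologicalClosure`), containing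
`Gam` (`Submonoid.le_topologicalClosure`).
(1) THE VECTOR `ν`. There are integers `n1, n2` with `n2 ≠ 0` such that
`Δ := δ n1² + c n2²` is positive and not a square: if `c` is not a square take `(0, 1)`; if
`c = g²`, `g > 0`, take `n1 = 1`, `n2 = |δ| + 1`: `Δ = (g n2)² - |δ|` lies strictly between
`(g n2 - 1)²` and `(g n2)²`, because `0 < |δ| < 2 g n2 - 1`; and it is positive.
(2) THE PELL SEQUENCE `x, y` of `exists_pell_seq q hq2 (Δ := Δ) (M := M)`. The quaternions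
`⟨x i, n1 y i, n2 y i, 0⟩` satisfy `InG q M 0` (their norm is
`x² - (δ n1² + c n2²) y² = 1`). So the matrices
`Z i = (x i + y i (n1 θ), y i (c n2); y i n2, x i - y i (n1 θ))` are in `H`. This is the form
needed in `Unip` with `a = n1 θ`, `b = c n2 ≠ 0`, `c = n2 ≠ 0`.
(3) THE `q`-UNIT. `exists_qunit` gives `h ≥ 1`, `r, s` with `r² - δ s² = q^h`, `M ∣ s`, `q ∤ r`.
In `ℚ_[q]`: `(r + s θ)(r - s θ) = q^h`, both factors have norm at most `1` (`‖θ‖ ≤ 1` since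
`θ² = δ`), and their sum `2 r` has norm `1`; so one of them has norm `1` and the other one norm
`q^(-h)`. Changing the sign of `s` we may assume `‖r + s θ‖ = 1`. Let
`g := ⟨r² + δ s², 2 r s, 0, 0⟩` (the square of `r + s i`): `InG q M h g`, since its norm is
`(r² - δ s²)² = q^(2h)`, `r² + δ s² - q^h = 2 δ s²` and `2 r s` are divisible by `M`. Its matrix
divided by `q^h` is `diag (l, l⁻¹)` with `l = (r + s θ)² / q^h`, `‖l‖ = q^h`,
`l⁻¹ = (r - s θ)² / q^h`. The conjugate `star g` gives `diag (l⁻¹, l)`.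
(4) `upper_mem`, `lower_mem`, `sl2_mem`.
-/

namespace Pool.Agent.AllRank

/-- The vector `ν`. -/
private theorem exists_vec {δ c : ℤ} (hδ : δ < 0) (hc : 0 < c) :
    ∃ n1 n2 : ℤ, n2 ≠ 0 ∧ 0 < δ * n1 ^ 2 + c * n2 ^ 2 ∧
      ¬ IsSquare (δ * n1 ^ 2 + c * n2 ^ 2) := by
  by_cases hsq : IsSquare c
  · obtain ⟨g, hg⟩ := hsq
    obtain ⟨G, hG, hG0⟩ : ∃ G : ℤ, c = G * G ∧ 0 < G := by
      refine ⟨|g|, by rw [hg, abs_mul_abs_self], ?_⟩
      rw [abs_pos]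
      rintro rfl
      rw [hg, mul_zero] at hc
      exact lt_irrefl _ hc
    obtain ⟨a, ha⟩ : ∃ a : ℤ, a = G * (1 - δ) := ⟨_, rfl⟩
    have ha1 : 1 - δ ≤ a := by rw [ha]; nlinarith
    have e : δ * 1 ^ 2 + c * (1 - δ) ^ 2 = a ^ 2 + δ := by rw [ha, hG]; ring
    have h1 : (a - 1) ^ 2 < a ^ 2 + δ := by nlinarith
    have h2 : a ^ 2 + δ < a ^ 2 := by linarith
    refine ⟨1, 1 - δ, by omega, ?_, ?_⟩
    · rw [e]
      exact lt_of_le_of_lt (sq_nonneg _) h1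
    · rw [e]
      rintro ⟨s, hs⟩
      have h3 : a ^ 2 + δ = |s| ^ 2 := by rw [hs, sq_abs]; ring
      rw [h3] at h1 h2
      have h4 : a - 1 < |s| := lt_of_pow_lt_pow_left₀ 2 (abs_nonneg s) h1
      have h5 : |s| < a := lt_of_pow_lt_pow_left₀ 2 (by omega) h2
      omega
  · refine ⟨0, 1, one_ne_zero, ?_, ?_⟩
    · linarith
    · have e : δ * 0 ^ 2 + c * 1 ^ 2 = c := by ring
      rwa [e]

variable {q : ℕ} [Fact q.Prime]

/-- The unit with a factor of norm `1`. -/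
private theorem exists_unit (hq2 : q ≠ 2) {δ M : ℤ} (hδ : δ < 0) (hqδ : ¬ (q : ℤ) ∣ δ)
    (hM : M ≠ 0) (hqM : ¬ (q : ℤ) ∣ M) {θ : ℚ_[q]} (hθ : θ ^ 2 = δ) :
    ∃ (h : ℕ) (r s : ℤ), 1 ≤ h ∧ r ^ 2 - δ * s ^ 2 = (q : ℤ) ^ h ∧ M ∣ s ∧
      ‖(r : ℚ_[q]) + s * θ‖ = 1 := by
  obtain ⟨h, r, s, h1, h2, h3, h4⟩ := exists_qunit q hq2 hδ hqδ hθ hM hqM
  have hθ1 : ‖θ‖ ≤ 1 := by
    have e : ‖θ‖ ^ 2 ≤ 1 := by
      rw [← norm_pow, hθ]
      exact Padic.norm_int_le_one δ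
    exact (sq_le_one_iff₀ (norm_nonneg _)).1 e
  have hr : ‖(r : ℚ_[q])‖ = 1 := by
    refine le_antisymm (Padic.norm_int_le_one r) (not_lt.1 fun h5 => h4 ?_)
    exact (Padic.norm_intCast_lt_one_iff).1 h5
  have h22 : ‖((2 : ℤ) : ℚ_[q])‖ = 1 := by
    refine le_antisymm (Padic.norm_int_le_one 2) (not_lt.1 fun h5 => hq2 ?_)
    have h6 := (Padic.norm_intCast_lt_one_iff).1 h5
    have h7 : q ∣ 2 := by exact_mod_cast h6
    exact (Nat.prime_dvd_prime_iff_eq (Fact.out : q.Prime) Nat.prime_two).1 h7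
  have hsθ : ‖(s : ℚ_[q]) * θ‖ ≤ 1 := by
    rw [norm_mul]
    exact mul_le_one₀ (Padic.norm_int_le_one s) (norm_nonneg _) hθ1
  have hu : ‖(r : ℚ_[q]) + s * θ‖ ≤ 1 :=
    (Padic.nonarchimedean _ _).trans (max_le (hr.le) hsθ)
  have hv : ‖(r : ℚ_[q]) - s * θ‖ ≤ 1 := by
    rw [sub_eq_add_neg]
    refine (Padic.nonarchimedean _ _).trans (max_le hr.le ?_)
    rwa [norm_neg]
  have hsum : ‖((r : ℚ_[q]) + s * θ) + ((r : ℚ_[q]) - s * θ)‖ = 1 := by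
    have e : ((r : ℚ_[q]) + s * θ) + ((r : ℚ_[q]) - s * θ) = ((2 : ℤ) : ℚ_[q]) * r := by
      push_cast
      ring
    rw [e, norm_mul, h22, hr, mul_one]
  rcases hu.lt_or_eq with h5 | h5
  · rcases hv.lt_or_eq with h6 | h6
    · exfalso
      have h7 : ‖((r : ℚ_[q]) + s * θ) + ((r : ℚ_[q]) - s * θ)‖ ≤
          max ‖(r : ℚ_[q]) + s * θ‖ ‖(r : ℚ_[q]) - s * θ‖ := Padic.nonarchimedean _ _
      rw [hsum] at h7
      exact absurd h7 (not_le.2 (max_lt h5 h6))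
    · refine ⟨h, r, -s, h1, by rw [← h2]; ring, (dvd_neg).2 h3, ?_⟩
      have e : (r : ℚ_[q]) + ((-s : ℤ) : ℚ_[q]) * θ = (r : ℚ_[q]) - s * θ := by
        push_cast
        ring
      rw [e, h6]
  · exact ⟨h, r, s, h1, h2, h3, h5⟩

theorem strong_approx {q : ℕ} [Fact q.Prime] (hq2 : q ≠ 2) {δ c M : ℤ} (hδ : δ < 0)
    (hc : 0 < c) (hqδ : ¬ (q : ℤ) ∣ δ) (hM : M ≠ 0) (hqM : ¬ (q : ℤ) ∣ M) {θ : ℚ_[q]}
    (hθ : θ ^ 2 = δ) {g : Matrix (Fin 2) (Fin 2) ℚ_[q]} (hg : g.det = 1) :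
    g ∈ GamBar δ c M θ hθ := by
  have hcl : IsClosed (GamBar δ c M θ hθ : Set (Matrix (Fin 2) (Fin 2) ℚ_[q])) :=
    Submonoid.isClosed_topologicalClosure _
  have hle : ∀ g ∈ Gam δ c M θ hθ, g ∈ GamBar δ c M θ hθ := fun g hg =>
    Submonoid.le_topologicalClosure _ hg
  -- the Pell sequence
  obtain ⟨n1, n2, hn2, hΔ, hns⟩ := exists_vec hδ hc
  obtain ⟨x, y, p1, p2, p3, p4, p5, p6⟩ := exists_pell_seq q hq2 hΔ hns hM
  have hZ : ∀ i, !![((x i : ℤ) : ℚ_[q]) + ((y i : ℤ) : ℚ_[q]) * (n1 * θ),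
      ((y i : ℤ) : ℚ_[q]) * (c * n2); ((y i : ℤ) : ℚ_[q]) * n2,
      ((x i : ℤ) : ℚ_[q]) - ((y i : ℤ) : ℚ_[q]) * (n1 * θ)] ∈ GamBar δ c M θ hθ := by
    intro i
    refine hle _ ⟨0, ⟨x i, n1 * y i, n2 * y i, 0⟩, ⟨?_, ?_, ?_, ?_, ?_⟩, ?_⟩
    · rw [nrd]
      have := p1 i
      linear_combination this
    · rw [pow_zero]
      exact p2 i
    · exact (p3 i).mul_left _
    · exact (p3 i).mul_left _
    · exact dvd_zero _
    · rw [pow_zero, inv_one, one_smul, iota_apply, mat]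
      ext i j
      fin_cases i <;> fin_cases j <;> simp <;> ring
  -- the unit
  obtain ⟨h, r, s, u1, u2, u3, u4⟩ := exists_unit hq2 hδ hqδ hM hqM hθ
  have hq0 : (q : ℚ_[q]) ≠ 0 := by
    exact_mod_cast (Fact.out : q.Prime).ne_zero
  have hqh : (q : ℚ_[q]) ^ h ≠ 0 := pow_ne_zero _ hq0
  have huv : ((r : ℚ_[q]) + s * θ) * ((r : ℚ_[q]) - s * θ) = (q : ℚ_[q]) ^ h := by
    have e : ((r : ℚ_[q]) ^ 2 - δ * s ^ 2) = (q : ℚ_[q]) ^ h := by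
      exact_mod_cast congrArg (fun z : ℤ => (z : ℚ_[q])) u2
    rw [← e, ← hθ]
    ring
  obtain ⟨l, hl⟩ : ∃ l : ℚ_[q], l = ((q : ℚ_[q]) ^ h)⁻¹ * ((r : ℚ_[q]) + s * θ) ^ 2 := ⟨_, rfl⟩
  have hu0 : (r : ℚ_[q]) + s * θ ≠ 0 := by
    intro h0
    rw [h0, zero_mul] at huv
    exact hqh huv.symm
  have hl' : l⁻¹ = ((q : ℚ_[q]) ^ h)⁻¹ * ((r : ℚ_[q]) - s * θ) ^ 2 := by
    refine inv_eq_of_mul_eq_one_right ?_
    rw [hl]
    have e : ((q : ℚ_[q]) ^ h)⁻¹ * ((r : ℚ_[q]) + s * θ) ^ 2 *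
        (((q : ℚ_[q]) ^ h)⁻¹ * ((r : ℚ_[q]) - s * θ) ^ 2) =
        (((q : ℚ_[q]) ^ h)⁻¹ * (((r : ℚ_[q]) + s * θ) * ((r : ℚ_[q]) - s * θ))) ^ 2 := by ring
    rw [e, huv, inv_mul_cancel₀ hqh, one_pow]
  have hln : ‖l‖ = (q : ℝ) ^ h := by
    rw [hl, norm_mul, norm_pow, u4, one_pow, mul_one, norm_inv, norm_pow, Padic.norm_p, inv_pow,
      inv_inv]
  have hmem : ∀ (σ : ℤ), σ ^ 2 = 1 → ∀ d e : ℚ_[q],
      d = ((q : ℚ_[q]) ^ h)⁻¹ * ((r : ℚ_[q]) + σ * (s * θ)) ^ 2 →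
      e = ((q : ℚ_[q]) ^ h)⁻¹ * ((r : ℚ_[q]) - σ * (s * θ)) ^ 2 →
      !![d, 0; 0, e] ∈ GamBar δ c M θ hθ := by
    intro σ hσ d e hd he
    refine hle _ ⟨h, ⟨r ^ 2 + δ * s ^ 2, σ * (2 * r * s), 0, 0⟩, ⟨?_, ?_, ?_, ?_, ?_⟩, ?_⟩
    · rw [nrd, mul_comm 2 h, pow_mul, ← u2]
      show (r ^ 2 + δ * s ^ 2) ^ 2 - δ * (σ * (2 * r * s)) ^ 2 - c * 0 ^ 2 + δ * c * 0 ^ 2 =
        (r ^ 2 - δ * s ^ 2) ^ 2
      linear_combination (-4 * δ * r ^ 2 * s ^ 2) * hσ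
    · rw [← u2]
      obtain ⟨w, hw⟩ := u3
      refine ⟨2 * δ * s * w, ?_⟩
      show r ^ 2 + δ * s ^ 2 - (r ^ 2 - δ * s ^ 2) = M * (2 * δ * s * w)
      linear_combination (2 * δ * s) * hw
    · exact (u3.mul_left _).mul_left _
    · exact dvd_zero _
    · exact dvd_zero _
    · have hσ' : (σ : ℚ_[q]) ^ 2 = 1 := by exact_mod_cast congrArg (fun z : ℤ => (z : ℚ_[q])) hσ
      rw [iota_apply, mat, hd, he]
      ext i j
      fin_cases i <;> fin_cases j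
      · simp only [Fin.zero_eta, Matrix.of_apply, Matrix.cons_val_zero, Matrix.cons_val',
          Matrix.smul_apply, smul_eq_mul, Matrix.cons_val_fin_one]
        push_cast
        rw [← hθ]
        linear_combination (((q : ℚ_[q]) ^ h)⁻¹ * s ^ 2 * θ ^ 2) * hσ'
      · simp
      · simp
      · simp only [Fin.mk_one, Matrix.of_apply, Matrix.cons_val_one, Matrix.cons_val',
          Matrix.smul_apply, smul_eq_mul, Matrix.cons_val_fin_one]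
        push_cast
        rw [← hθ]
        linear_combination (((q : ℚ_[q]) ^ h)⁻¹ * s ^ 2 * θ ^ 2) * hσ'
  have hG : !![l, 0; 0, l⁻¹] ∈ GamBar δ c M θ hθ :=
    hmem 1 (one_pow 2) _ _ (by rw [hl]; push_cast; ring) (by rw [hl']; push_cast; ring)
  have hG' : !![l⁻¹, 0; 0, l] ∈ GamBar δ c M θ hθ :=
    hmem (-1) (by norm_num) _ _ (by rw [hl']; push_cast; ring) (by rw [hl]; push_cast; ring)
  -- the conclusion
  have hy0 : ((y 0 : ℤ) : ℚ_[q]) ≠ 0 := by exact_mod_cast p4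
  have hn2' : (n2 : ℚ_[q]) ≠ 0 := by exact_mod_cast hn2
  have hc' : (c : ℚ_[q]) ≠ 0 := by exact_mod_cast hc.ne'
  refine sl2_mem _ (fun t => ?_) (fun t => ?_) hg
  · exact upper_mem _ hcl u1 hln hG hG' (mul_ne_zero hc' hn2')
      (x := fun i => ((x i : ℤ) : ℚ_[q])) (y := fun i => ((y i : ℤ) : ℚ_[q])) hy0 p5 p6 hZ t
  · exact lower_mem _ hcl u1 hln hG hG' hn2'
      (x := fun i => ((x i : ℤ) : ℚ_[q])) (y := fun i => ((y i : ℤ) : ℚ_[q])) hy0 p5 p6 hZ t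

end Pool.Agent.AllRank
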