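import Mathlib

set_option autoImplicit false

/-! ALLRANK, file Sqf: numbers whose odd valuations are at least `3`. -/

namespace Pool.Agent.AllRank

theorem exists_decomp {D : ℕ} (hD : 0 < D) (hns : ¬ IsSquare D)
    (h : ∀ p : ℕ, p.Prime → Odd (padicValNat p D) → p ^ 2 ∣ D) :
    ∃ d t : ℕ, 1 < d ∧ Squarefree d ∧ D = d ^ 3 * t ^ 2 ∧
      ∀ p : ℕ, p.Prime → p ∣ d → Odd (padicValNat p D) := by
  obtain ⟨a, b, ha, hb, hab, hsq⟩ := Nat.sq_mul_squarefree_of_pos hD
  have hval : ∀ p : ℕ, p.Prime → p ∣ a → padicValNat p D = 2 * padicValNat p b + 1 := by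
    intro p hp hpa
    have : Fact p.Prime := ⟨hp⟩
    rw [← hab, padicValNat.mul (pow_ne_zero _ hb.ne') ha.ne', padicValNat.pow]
    have h1 : padicValNat p a = 1 := by
      have h2 : 1 ≤ padicValNat p a := one_le_padicValNat_of_dvd ha.ne' hpa
      have h3 : padicValNat p a ≤ 1 := by
        by_contra h4
        push Not at h4
        have h5 : p ^ 2 ∣ a := (padicValNat_dvd_iff_le ha.ne').mpr h4
        rw [sq] at h5
        exact hp.ne_one (Nat.isUnit_iff.mp (hsq p h5))
      omega
    rw [h1]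
  have hdvd : a ∣ b := by
    have h1 : a.primeFactors ⊆ b.primeFactors := by
      intro p hp
      rw [Nat.mem_primeFactors] at hp ⊢
      obtain ⟨hp1, hp2, -⟩ := hp
      have : Fact p.Prime := ⟨hp1⟩
      refine ⟨hp1, ?_, hb.ne'⟩
      have h2 := hval p hp1 hp2
      have h3 := h p hp1 (by rw [h2]; exact odd_two_mul_add_one _)
      have h4 : 2 ≤ padicValNat p D := (padicValNat_dvd_iff_le hD.ne').mp h3
      have h5 : padicValNat p b ≠ 0 := by omega
      exact dvd_of_one_le_padicValNat (by omega)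
    rw [← Nat.prod_primeFactors_of_squarefree hsq]
    exact (Finset.prod_dvd_prod_of_subset _ _ _ h1).trans (Nat.prod_primeFactors_dvd b)
  obtain ⟨t, ht⟩ := hdvd
  refine ⟨a, t, ?_, hsq, ?_, ?_⟩
  · by_contra h1
    have h2 : a = 1 := by omega
    exact hns ⟨b, by rw [← hab, h2]; ring⟩
  · rw [← hab, ht]
    ring
  · intro p hp hpa
    rw [hval p hp hpa]
    exact odd_two_mul_add_one _

end Pool.Agent.AllRank
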