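import Pool.Agent.AllRank.Lat

set_option autoImplicit false

/-!
ALLRANK, file Std: the standard lattice `ℤ⁴` with `q(x, y, s, t) = x y + A s² + B s t + C t²`.
-/

namespace Pool.Agent.AllRank

open Pool.Agent.MP4d0966

/-- The bilinear form of the standard lattice. -/
def stdB (A B C : ℤ) : (Fin 4 → ℤ) →ₗ[ℤ] (Fin 4 → ℤ) →ₗ[ℤ] ℤ :=
  LinearMap.mk₂ ℤ (fun x y => x 0 * y 1 + x 1 * y 0 + 2 * A * x 2 * y 2
    + B * (x 2 * y 3 + x 3 * y 2) + 2 * C * x 3 * y 3)
    (fun x x' y => by simp only [Pi.add_apply]; ring)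
    (fun c x y => by simp only [Pi.smul_apply, smul_eq_mul]; ring)
    (fun x y y' => by simp only [Pi.add_apply]; ring)
    (fun c x y => by simp only [Pi.smul_apply, smul_eq_mul]; ring)

theorem stdB_apply (A B C : ℤ) (x y : Fin 4 → ℤ) :
    stdB A B C x y = x 0 * y 1 + x 1 * y 0 + 2 * A * x 2 * y 2
      + B * (x 2 * y 3 + x 3 * y 2) + 2 * C * x 3 * y 3 := rfl

/-- The standard lattice. -/
def std (A B C : ℤ) : EvenForm (Fin 4 → ℤ) where
  B := stdB A B C
  q x := x 0 * x 1 + bq A B C (x 2) (x 3)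
  symm x y := by rw [stdB_apply, stdB_apply]; ring
  hq x := by rw [stdB_apply, bq]; ring

theorem gdet_std (A B C : ℤ) :
    gdet (std A B C) (Pi.basisFun ℤ (Fin 4)) = B ^ 2 - 4 * A * C := by
  have h : (Matrix.of fun i j : Fin 4 => (std A B C).B ((Pi.basisFun ℤ (Fin 4)) i)
      ((Pi.basisFun ℤ (Fin 4)) j)) =
      !![0, 1, 0, 0; 1, 0, 0, 0; 0, 0, 2 * A, B; 0, 0, B, 2 * C] := by
    ext i j
    fin_cases i <;> fin_cases j <;> simp [std, stdB_apply, Pi.single_apply]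
  rw [gdet, h, Matrix.det_succ_row_zero, Fin.sum_univ_four]
  simp [Matrix.det_fin_three, Matrix.submatrix, Fin.succAbove]
  ring

end Pool.Agent.AllRank
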