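import Pool.Agent.AllRank.Frm
import Pool.Agent.AllRank.Rot
import Pool.Agent.AllRank.SA
import Pool.Agent.AllRank.Loc

set_option autoImplicit false

/-!
ALLRANK, file Step: removing the prime `q` from `(E, l)`.

PROOF. `D = gdet L b`. Take the frame `v` of `exists_frame`; `A1, A2, A3` as in `Rot`;
`δ = dl L v < 0`, `c = cc L v > 0`, `q ∤ δ`; `θ` with `θ² = δ`, `‖θ‖ = 1` from `exists_theta`
(file QThue). `M := 2 A1 A2 A3`, prime to `q`. Write `ι := iota (dl L v) (cc L v) θ hθ`.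
(1) Let `Y0 := yq L v E` and `Y := ι Y0`. `Y 1 1 = - Y 0 0` (real part `0`), its entries have norm
at most `1`. By `nrd_yq`, `det Y = nrd Y0 = A1 A2 A3³ (0 - a²) = -(q^(2k) u)` with `a = q^k a'`,
`u := A1 A2 A3³ a'²`, `‖u‖ = 1`.
(2) `hprim` (of `loc`): if all entries of `Y` had norm `< 1` and `k ≥ 1`, then
(entries `y θ`, `c (z + w θ)`, `z - w θ` for `Y0 = ⟨0, y, z, w⟩`, `θ, c, 2` units) `q` would divide
`y, z, w`, so all `B(E, v i)`, and `q ∣ B(E, l) = q^k a'`; by `F.span` `q` divides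
`(4 A1 A2 A3) • E`, so `E ∈ q N` (Bezout), contradiction to the primitivity. (If `k = 0` the
theorem is trivial: `E' = E`; treat it first.)
(3) `hk` (of `loc`): if `J(D | q) = 1` then `D` is a nonzero square modulo `q`; as
`D P² = 16 A1 A2 A3` (so `q ∤ P`) `A1 A2 A3` and `u = A1 A2 A3 (A3 a')²` are squares modulo `q`, so
`u` (an integer prime to `q`) is a square in `ℚ_q` by `exists_theta`.
(4) `loc` gives `g`, `det g = 1`, with `‖(g Y adj g) i j‖ ≤ q^(-k)`. By `strong_approx`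
`g ∈ GamBar (dl L v) (cc L v) M θ hθ`, the closure of `Gam`. The set
`{g' | ∀ i j, ‖(g' Y adj g') i j‖ ≤ q^(-k)}` is open (finite intersection of preimages of closed
balls, which are open, under continuous functions) and contains `g`, so it contains an
element `q^(-j) ι(x)` of `Gam`, `InG q M j x` (`mem_closure_iff`). By `iota_star`,
`W := x Y0 star x` satisfies: all entries of `ι W = ι x * Y * adj (ι x)` have norm at most
`q^(-k-2j)`.
(5) So (as in (2)) the coordinates of `W` are divisible by `q^(k+2j)`.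
(6) `rot` applied to `x` and `E` gives `E1 ∈ N` with `B(E1, l) = q^(2j) B(E, l) = q^(2j+k) a'` and
`yq E1 = W`. So `q^(2j+k)` divides all the pairings of `E1` with `l, v i` (`q ∤ A3`), so by
`F.span` it
divides `(4 A1 A2 A3) • E1`, and `E1 = q^(2j+k) • E'` (Bezout). `B(E', l) = a'`.
(7) `q(E') = 0`: `nrd (yq E1) = nrd x · nrd Y0 · nrd x = q^(4j) nrd Y0`, so by `nrd_yq`
`4 q(E1) - B(E1,l)² = q^(4j) (4 q(E) - B(E,l)²)`, so `q(E1) = q^(4j) q(E) = 0`.
(8) LAST CLAIM. Let `p ≠ q` be a prime with `E' = p • E''`. Apply `rot` with `star x` to `E''`: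
`F1` with `B(F1, l) = q^(2j) B(E'', l)`, `yq F1 = star x * yq E'' * x`. Then
`(p q^(2j+k)) • F1 = q^(4j) • E` by `frame_ext`: the pairings with `l`:
`p q^(2j+k) q^(2j) B(E'',l) = q^(4j+k) B(E', l) = q^(4j) B(E, l)`; and
`yq (p q^(2j+k) E'') = yq E1 = x Y0 star x`, so `star x * (x Y0 star x) * x = q^(4j) Y0`
(`star_mul_eq`, `InG`). (`yq` is additive.) So `p` divides `q^(4j) • E` and, `p` and `q`
being coprime, `E ∈ p N`.
-/

namespace Pool.Agent.AllRank

open Pool.Agent.MP4d0966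
open scoped NumberTheorySymbols

variable {N : Type*} [AddCommGroup N]

/-- scalars coprime to the index of the frame can be divided out -/
private theorem st_div {L : EvenForm N} {l : N} {v : Fin 3 → N} (F : Frame L l v) {d : ℤ}
    (hd : IsCoprime d (4 * L.q (v 0) * L.q (v 1) * L.q (v 2))) {x : N} (hl : d ∣ L.B x l)
    (hv : ∀ i, d ∣ L.B x (v i)) : ∃ x', x = d • x' := by
  obtain ⟨b, hb⟩ := hl
  obtain ⟨c0, hc0⟩ := hv 0
  obtain ⟨c1, hc1⟩ := hv 1
  obtain ⟨c2, hc2⟩ := hv 2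
  obtain ⟨s, t, hst⟩ := hd
  have h1 := F.span x
  rw [hb, hc0, hc1, hc2] at h1
  refine ⟨s • x + t • ((2 * L.q (v 0) * L.q (v 1) * L.q (v 2) * b) • l
      + (2 * L.q (v 1) * L.q (v 2) * c0) • v 0
      + (2 * L.q (v 0) * L.q (v 2) * c1) • v 1
      + (2 * L.q (v 0) * L.q (v 1) * c2) • v 2), ?_⟩
  calc x = (s * d + t * (4 * L.q (v 0) * L.q (v 1) * L.q (v 2))) • x := by
        rw [hst, one_smul]
    _ = (d * s) • x + t • ((4 * L.q (v 0) * L.q (v 1) * L.q (v 2)) • x) := by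
        rw [add_smul, mul_smul t, mul_comm s d]
    _ = _ := by
        rw [h1]
        module

private theorem st_yq_smul {L : EvenForm N} {v : Fin 3 → N} (n : ℤ) (x : N) :
    yq L v (n • x) = n • yq L v x := by
  ext
  · simp [yq]
  · simp [yq]
    ring
  · simp [yq]
    ring
  · simp [yq]

/-- the coordinates of a pure quaternion are bounded by the entries of its matrix -/
private theorem st_norm {q : ℕ} [Fact q.Prime] (hq2 : q ≠ 2) {δ c : ℤ} (hc : ¬ (q : ℤ) ∣ c)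
    {θ : ℚ_[q]} (hθ : θ ^ 2 = δ) (hθ1 : ‖θ‖ = 1) {X : Q δ c} (hX : X.re = 0) {r : ℝ}
    (h : ∀ i j, ‖iota δ c θ hθ X i j‖ ≤ r) :
    ‖(X.imI : ℚ_[q])‖ ≤ r ∧ ‖(X.imJ : ℚ_[q])‖ ≤ r ∧ ‖(X.imK : ℚ_[q])‖ ≤ r := by
  have hc1 : ‖(c : ℚ_[q])‖ = 1 := by
    refine le_antisymm (Padic.norm_int_le_one c) ?_
    by_contra hlt
    exact hc (Padic.norm_intCast_lt_one_iff.1 (not_le.1 hlt))
  have h2 : ‖(2 : ℚ_[q])‖ = 1 := by
    have h3 : ‖((2 : ℤ) : ℚ_[q])‖ = 1 := by
      refine le_antisymm (Padic.norm_int_le_one 2) ?_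
      by_contra hlt
      have h4 := (Padic.norm_intCast_lt_one_iff (k := (2 : ℤ))).1 (not_le.1 hlt)
      have h5 : q ∣ 2 := by exact_mod_cast h4
      exact hq2 ((Nat.prime_dvd_prime_iff_eq Fact.out Nat.prime_two).1 h5)
    exact_mod_cast h3
  have h00 := h 0 0
  have h01 := h 0 1
  have h10 := h 1 0
  rw [iota_apply] at h00 h01 h10
  simp only [mat, hX, Int.cast_zero, zero_add, Matrix.of_apply, Matrix.cons_val',
    Matrix.cons_val_zero, Matrix.cons_val_one, Matrix.cons_val_fin_one, norm_mul, hθ1,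
    mul_one, hc1, one_mul] at h00 h01 h10
  refine ⟨h00, ?_, ?_⟩
  · have h5 : (2 : ℚ_[q]) * X.imJ = (X.imJ + X.imK * θ) + (X.imJ - X.imK * θ) := by ring
    calc ‖(X.imJ : ℚ_[q])‖ = ‖(2 : ℚ_[q]) * X.imJ‖ := by rw [norm_mul, h2, one_mul]
      _ ≤ max ‖(X.imJ : ℚ_[q]) + X.imK * θ‖ ‖(X.imJ : ℚ_[q]) - X.imK * θ‖ := by
          rw [h5]
          exact Padic.nonarchimedean _ _
      _ ≤ r := max_le h01 h10
  · have h5 : (2 : ℚ_[q]) * X.imK * θ = (X.imJ + X.imK * θ) + -(X.imJ - X.imK * θ) := by ring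
    calc ‖(X.imK : ℚ_[q])‖ = ‖(2 : ℚ_[q]) * X.imK * θ‖ := by
          rw [norm_mul, norm_mul, h2, one_mul, hθ1, mul_one]
      _ ≤ max ‖(X.imJ : ℚ_[q]) + X.imK * θ‖ ‖-((X.imJ : ℚ_[q]) - X.imK * θ)‖ := by
          rw [h5]
          exact Padic.nonarchimedean _ _
      _ ≤ r := by
          rw [norm_neg]
          exact max_le h01 h10

private theorem st_norm_int {q : ℕ} [Fact q.Prime] {c : ℤ} (hc : ¬ (q : ℤ) ∣ c) :
    ‖(c : ℚ_[q])‖ = 1 := by
  refine le_antisymm (Padic.norm_int_le_one c) ?_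
  by_contra hlt
  exact hc (Padic.norm_intCast_lt_one_iff.1 (not_le.1 hlt))

private theorem st_open {q : ℕ} [Fact q.Prime] (Y : Matrix (Fin 2) (Fin 2) ℚ_[q]) {r : ℝ}
    (hr : r ≠ 0) : IsOpen {g : Matrix (Fin 2) (Fin 2) ℚ_[q] |
      ∀ i j, ‖(g * Y * g.adjugate) i j‖ ≤ r} := by
  have h1 : {g : Matrix (Fin 2) (Fin 2) ℚ_[q] | ∀ i j, ‖(g * Y * g.adjugate) i j‖ ≤ r} =
      ⋂ i, ⋂ j, (fun g : Matrix (Fin 2) (Fin 2) ℚ_[q] => (g * Y * g.adjugate) i j) ⁻¹'
        Metric.closedBall 0 r := by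
    ext g
    simp
  rw [h1]
  refine isOpen_iInter_of_finite fun i => isOpen_iInter_of_finite fun j => ?_
  refine (IsUltrametricDist.isOpen_closedBall (0 : ℚ_[q]) hr).preimage ?_
  have h2 : Continuous fun g : Matrix (Fin 2) (Fin 2) ℚ_[q] => g * Y * g.adjugate :=
    (continuous_id.matrix_mul continuous_const).matrix_mul continuous_id.matrix_adjugate
  exact h2.matrix_elem i j

theorem step {L : EvenForm N} {b : Module.Basis (Fin 4) ℤ N} {l : N} (hl : L.q l = 1)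
    (hpos : ∃ u, L.B u l = 0 ∧ 0 < L.q u) (hneg : ∃ u, L.B u l = 0 ∧ L.q u < 0) {q : ℕ}
    (hqp : q.Prime) (hq2 : q ≠ 2) (hq : ¬ (q : ℤ) ∣ gdet L b) {E : N} (hE : L.q E = 0)
    (hprim : ¬ ∃ E', E = (q : ℤ) • E') {k : ℕ} {a' : ℤ} (ha : L.B E l = (q : ℤ) ^ k * a')
    (ha' : ¬ (q : ℤ) ∣ a') (hk : Even k ∨ J(gdet L b | q) = 1) :
    ∃ E' : N, L.q E' = 0 ∧ L.B E' l = a' ∧
      ∀ p : ℕ, p.Prime → p ≠ q → (∃ E'', E' = (p : ℤ) • E'') → ∃ E'', E = (p : ℤ) • E'' := by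
  classical
  haveI : Fact q.Prime := ⟨hqp⟩
  rcases Nat.eq_zero_or_pos k with rfl | hk0
  · refine ⟨E, hE, ?_, fun p _ _ h => h⟩
    rw [ha, pow_zero, one_mul]
  obtain ⟨v, F, hv0, hv1, hv2, h12, h02, hs, P, hP⟩ := exists_frame hl hpos hneg hqp hq2 hq
  have hqZ : Prime (q : ℤ) := Nat.prime_iff_prime_int.1 hqp
  have hq0 : (q : ℤ) ≠ 0 := hqZ.ne_zero
  have hqQ : (q : ℚ_[q]) ≠ 0 := by exact_mod_cast hqp.ne_zero
  have hdl : dl L v = -(L.q (v 1) * L.q (v 2)) := rfl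
  have hcc : cc L v = -(L.q (v 0) * L.q (v 2)) := rfl
  have hdlq : ¬ (q : ℤ) ∣ dl L v := by
    rw [hdl, dvd_neg]
    exact fun h => (hqZ.dvd_or_dvd h).elim hv1 hv2
  have hccq : ¬ (q : ℤ) ∣ cc L v := by
    rw [hcc, dvd_neg]
    exact fun h => (hqZ.dvd_or_dvd h).elim hv0 hv2
  have hq2Z : ¬ (q : ℤ) ∣ 2 := by
    intro h
    have h5 : q ∣ 2 := by exact_mod_cast h
    exact hq2 ((Nat.prime_dvd_prime_iff_eq hqp Nat.prime_two).1 h5)
  have h4A : ¬ (q : ℤ) ∣ 4 * L.q (v 0) * L.q (v 1) * L.q (v 2) := by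
    intro h
    rcases hqZ.dvd_or_dvd h with h | h
    · rcases hqZ.dvd_or_dvd h with h | h
      · rcases hqZ.dvd_or_dvd h with h | h
        · rw [show (4 : ℤ) = 2 * 2 by norm_num] at h
          exact (hqZ.dvd_or_dvd h).elim hq2Z hq2Z
        · exact hv0 h
      · exact hv1 h
    · exact hv2 h
  have hcop : ∀ n : ℕ, IsCoprime ((q : ℤ) ^ n) (4 * L.q (v 0) * L.q (v 1) * L.q (v 2)) := by
    intro n
    exact IsCoprime.pow_left ((Prime.coprime_iff_not_dvd hqZ).2 h4A)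
  obtain ⟨θ, hθ, hθ1⟩ := exists_theta q hq2 hdlq hs
  set A1 := L.q (v 0) with hA1
  set A2 := L.q (v 1) with hA2
  set A3 := L.q (v 2) with hA3
  set M : ℤ := 2 * A1 * A2 * A3 with hM
  have hMne : M ≠ 0 := by
    rw [hM]
    exact mul_ne_zero (mul_ne_zero (mul_ne_zero two_ne_zero F.n0) F.n1) F.n2
  have hqM : ¬ (q : ℤ) ∣ M := by
    rw [hM]
    intro h
    apply h4A
    rw [show 4 * A1 * A2 * A3 = 2 * (2 * A1 * A2 * A3) by ring]
    exact Dvd.dvd.mul_left h 2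
  set Y := iota (dl L v) (cc L v) θ hθ (yq L v E) with hY
  have hre : ∀ x, (yq L v x).re = 0 := fun x => rfl
  -- entries
  have hYle : ∀ i j, ‖Y i j‖ ≤ 1 := by
    have hi : ∀ n : ℤ, ‖(n : ℚ_[q])‖ ≤ 1 := Padic.norm_int_le_one
    have hn : ∀ n : ℤ, ‖(n : ℚ_[q]) * θ‖ ≤ 1 := by
      intro n
      rw [norm_mul, hθ1, mul_one]
      exact hi n
    intro i j
    rw [hY, iota_apply]
    fin_cases i <;> fin_cases j
    · simp only [mat]
      exact (Padic.nonarchimedean _ _).trans (max_le (hi _) (hn _))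
    · simp only [mat]
      change ‖(cc L v : ℚ_[q]) * _‖ ≤ 1
      rw [norm_mul]
      exact mul_le_one₀ (hi _) (norm_nonneg _)
        ((Padic.nonarchimedean _ _).trans (max_le (hi _) (hn _)))
    · simp only [mat]
      change ‖((yq L v E).imJ : ℚ_[q]) - (yq L v E).imK * θ‖ ≤ 1
      rw [sub_eq_add_neg]
      refine (Padic.nonarchimedean _ _).trans (max_le (hi _) ?_)
      rw [norm_neg]
      exact hn _
    · simp only [mat]
      change ‖((yq L v E).re : ℚ_[q]) - (yq L v E).imI * θ‖ ≤ 1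
      rw [sub_eq_add_neg]
      refine (Padic.nonarchimedean _ _).trans (max_le (hi _) ?_)
      rw [norm_neg]
      exact hn _
  have htr : Y 1 1 = - Y 0 0 := by
    rw [hY, iota_apply]
    simp [mat, hre]
  -- divisibility from norms
  have hdiv : ∀ (x : N) (n : ℕ), (q : ℤ) ^ n ∣ L.B x l →
      (∀ i j, ‖iota (dl L v) (cc L v) θ hθ (yq L v x) i j‖ ≤ (q : ℝ) ^ (-n : ℤ)) →
      ∃ x', x = ((q : ℤ) ^ n) • x' := by
    intro x n h1 h2
    obtain ⟨h3, h4, h5⟩ := st_norm hq2 hccq hθ hθ1 (hre x) h2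
    rw [Padic.norm_int_le_pow_iff_dvd] at h3 h4 h5
    have h6 : IsCoprime ((q : ℤ) ^ n) A3 :=
      IsCoprime.pow_left ((Prime.coprime_iff_not_dvd hqZ).2 hv2)
    refine st_div F (hcop n) h1 fun i => ?_
    fin_cases i
    · exact h6.dvd_of_dvd_mul_left h3
    · exact h6.dvd_of_dvd_mul_left h4
    · have h7 : (yq L v x).imK = -L.B x (v 2) := rfl
      rw [h7, dvd_neg] at h5
      exact h5
  have hprim' : ∃ i j, ‖Y i j‖ = 1 := by
    by_contra hcon
    push Not at hcon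
    apply hprim
    have h1 : ∀ i j, ‖Y i j‖ < 1 := fun i j => lt_of_le_of_ne (hYle i j) (hcon i j)
    have h2 := hdiv E 1 (by
      rw [pow_one, ha]
      exact Dvd.dvd.mul_right (dvd_pow_self _ hk0.ne') _) (by
      obtain ⟨r, hr1, hr2⟩ : ∃ r : ℝ, r < 1 ∧ ∀ i j, ‖Y i j‖ ≤ r := by
        refine ⟨max (max ‖Y 0 0‖ ‖Y 0 1‖) (max ‖Y 1 0‖ ‖Y 1 1‖),
          max_lt (max_lt (h1 _ _) (h1 _ _)) (max_lt (h1 _ _) (h1 _ _)), ?_⟩
        intro i j
        fin_cases i <;> fin_cases j <;> simp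
      intro i j
      have h3 : ‖Y i j‖ < 1 := h1 i j
      have h4 : ‖Y i j‖ ≤ (q : ℝ) ^ (-1 : ℤ) := by
        by_cases h5 : Y i j = 0
        · rw [h5, norm_zero]
          positivity
        · rw [Padic.norm_eq_zpow_neg_valuation h5] at h3 ⊢
          have hq1 : (1 : ℝ) < q := by exact_mod_cast hqp.one_lt
          have h6 : -(Y i j).valuation < 0 := by
            by_contra h7
            push Not at h7
            exact absurd h3 (not_lt.2 (one_le_zpow₀ hq1.le h7))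
          exact zpow_le_zpow_right₀ hq1.le (by omega)
      simpa using h4)
    simpa using h2
  -- the determinant
  set u : ℤ := A1 * A2 * A3 ^ 3 * a' ^ 2 with hu
  have huq : ¬ (q : ℤ) ∣ u := by
    rw [hu]
    intro h
    rcases hqZ.dvd_or_dvd h with h | h
    · rcases hqZ.dvd_or_dvd h with h | h
      · exact (hqZ.dvd_or_dvd h).elim hv0 hv1
      · exact hv2 (hqZ.dvd_of_dvd_pow h)
    · exact ha' (hqZ.dvd_of_dvd_pow h)
  have hdet : Y.det = -((q : ℚ_[q]) ^ (2 * k) * (u : ℚ_[q])) := by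
    rw [hY, iota_det, nrd_yq F, hE, ha, ← hA1, ← hA2, ← hA3, hu]
    push_cast
    ring
  have hsq : Even k ∨ IsSquare (u : ℚ_[q]) := by
    rcases hk with hk | hk
    · exact Or.inl hk
    right
    have hD0 : ((gdet L b : ℤ) : ZMod q) ≠ 0 := by
      intro h
      exact hq ((ZMod.intCast_zmod_eq_zero_iff_dvd _ _).1 h)
    rw [← jacobiSym.legendreSym.to_jacobiSym, legendreSym.eq_one_iff q hD0] at hk
    obtain ⟨s, hs'⟩ := hk
    obtain ⟨s, rfl⟩ := ZMod.intCast_surjective s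
    have h16 : (q : ℤ) ∣ (s * P * A3 * a') ^ 2 - 16 * u := by
      have h1 : (q : ℤ) ∣ s * s - gdet L b := by
        rw [← ZMod.intCast_zmod_eq_zero_iff_dvd]
        push_cast
        rw [hs', sub_self]
      have h2 : (s * P * A3 * a') ^ 2 - 16 * u =
          (s * s - gdet L b) * (P * A3 * a') ^ 2 := by
        have h3 : (gdet L b * P ^ 2) * (A3 * a') ^ 2 = (16 * A1 * A2 * A3) * (A3 * a') ^ 2 := by
          rw [hP]
        rw [hu]
        linear_combination h3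
      rw [h2]
      exact Dvd.dvd.mul_right h1 _
    have h16q : ¬ (q : ℤ) ∣ 16 * u := by
      intro h
      rcases hqZ.dvd_or_dvd h with h | h
      · rw [show (16 : ℤ) = 2 ^ 4 by norm_num] at h
        exact hq2Z (hqZ.dvd_of_dvd_pow h)
      · exact huq h
    obtain ⟨ω, hω, -⟩ := exists_theta q hq2 h16q ⟨_, h16⟩
    refine ⟨ω / 4, ?_⟩
    have h4 : (4 : ℚ_[q]) ≠ 0 := by norm_num
    field_simp
    push_cast at hω
    rw [hω]
    ring
  obtain ⟨g, hg1, hg2⟩ := loc hq2 hYle htr hprim' (st_norm_int huq) hdet hsq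
  have hδneg : dl L v < 0 := by
    rw [hdl]
    exact neg_neg_of_pos h12
  have hcpos : 0 < cc L v := by
    rw [hcc]
    exact neg_pos.2 h02
  have hgm := strong_approx hq2 hδneg hcpos hdlq hMne hqM hθ hg1
  have hq0R : (0 : ℝ) < q := by exact_mod_cast hqp.pos
  have hgm' : g ∈ closure (Gam (dl L v) (cc L v) M θ hθ : Set (Matrix (Fin 2) (Fin 2) ℚ_[q])) :=
    hgm
  obtain ⟨g', hg'1, j, x, hx, rfl⟩ := mem_closure_iff.1 hgm' _
    (st_open Y (r := ((q : ℝ) ^ k)⁻¹) (by positivity)) hg2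
  obtain ⟨E1, hE1l, hE1y⟩ := rot F (dvd_refl M) hx E
  -- the entries of the matrix of `E1`
  have hW : ∀ i i', ‖iota (dl L v) (cc L v) θ hθ (yq L v E1) i i'‖ ≤
      (q : ℝ) ^ (-(k + 2 * j : ℕ) : ℤ) := by
    intro i i'
    have h1 : iota (dl L v) (cc L v) θ hθ (yq L v E1) = ((q : ℚ_[q]) ^ (2 * j)) •
        ((((q : ℚ_[q]) ^ j)⁻¹ • iota (dl L v) (cc L v) θ hθ x) * Y *
          (((q : ℚ_[q]) ^ j)⁻¹ • iota (dl L v) (cc L v) θ hθ x).adjugate) := by
      rw [hE1y, map_mul, map_mul, iota_star, ← hY, Matrix.adjugate_smul]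
      simp only [Fintype.card_fin, Nat.add_one_sub_one, pow_one, Matrix.smul_mul,
        Matrix.mul_smul, smul_smul]
      have h2 : (q : ℚ_[q]) ^ (2 * j) * (((q : ℚ_[q]) ^ j)⁻¹ * ((q : ℚ_[q]) ^ j)⁻¹) = 1 := by
        rw [two_mul, pow_add]
        field_simp
      rw [h2, one_smul]
    rw [h1, Matrix.smul_apply, smul_eq_mul, norm_mul, norm_pow, Padic.norm_p]
    have h3 := hg'1 i i'
    calc ((q : ℝ)⁻¹) ^ (2 * j) * _ ≤ ((q : ℝ)⁻¹) ^ (2 * j) * ((q : ℝ) ^ k)⁻¹ :=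
          mul_le_mul_of_nonneg_left h3 (by positivity)
      _ = (q : ℝ) ^ (-(k + 2 * j : ℕ) : ℤ) := by
          rw [zpow_neg, zpow_natCast, pow_add, mul_inv, inv_pow]
          ring
  obtain ⟨E', hE'⟩ := hdiv E1 (k + 2 * j) (by
    rw [hE1l, ha, pow_add]
    exact ⟨a', by ring⟩) hW
  have hqn : ((q : ℤ) ^ (k + 2 * j)) ≠ 0 := pow_ne_zero _ hq0
  have hE'l : L.B E' l = a' := by
    have h1 : (q : ℤ) ^ (k + 2 * j) * L.B E' l = (q : ℤ) ^ (k + 2 * j) * a' := by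
      have h2 : L.B E1 l = (q : ℤ) ^ (k + 2 * j) * L.B E' l := by
        rw [hE', map_smul, LinearMap.smul_apply, smul_eq_mul]
      rw [← h2, hE1l, ha, pow_add]
      ring
    exact mul_left_cancel₀ hqn h1
  refine ⟨E', ?_, hE'l, ?_⟩
  · have h1 := nrd_yq F E1
    have h2 := nrd_yq F E
    rw [hE1y, nrd_mul, nrd_mul, nrd_star, hx.1, h2, hE, hE1l, ← hA1, ← hA2, ← hA3] at h1
    have h3 : A1 * A2 * A3 ^ 3 * (4 * L.q E1) = 0 := by
      linear_combination -h1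
    have h4 : L.q E1 = 0 := by
      have h5 : A1 * A2 * A3 ^ 3 ≠ 0 :=
        mul_ne_zero (mul_ne_zero F.n0 F.n1) (pow_ne_zero _ F.n2)
      have h6 := (mul_eq_zero.1 h3).resolve_left h5
      omega
    rw [hE', L.q_smul] at h4
    exact (mul_eq_zero.1 h4).resolve_left (pow_ne_zero _ hqn)
  · rintro p hp hpq ⟨E'', hE''⟩
    obtain ⟨F1, hF1l, hF1y⟩ := rot F (dvd_refl M) hx.star E''
    rw [star_star] at hF1y
    have hkey : ((p : ℤ) * (q : ℤ) ^ (k + 2 * j)) • F1 = ((q : ℤ) ^ (4 * j)) • E := by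
      apply frame_ext b F
      · rw [map_smul, map_smul, LinearMap.smul_apply, LinearMap.smul_apply, smul_eq_mul,
          smul_eq_mul, hF1l, ha]
        have h1 : (p : ℤ) * L.B E'' l = a' := by
          rw [← hE'l, hE'', map_smul, LinearMap.smul_apply, smul_eq_mul]
        rw [← h1, pow_add, show 4 * j = 2 * j + 2 * j by ring, pow_add]
        ring
      · rw [st_yq_smul, st_yq_smul, hF1y]
        have h1 : ((p : ℤ) * (q : ℤ) ^ (k + 2 * j)) • yq L v E'' =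
            x * yq L v E * star x := by
          rw [← hE1y, hE', hE'', ← st_yq_smul, smul_smul, mul_comm]
        have h2 : ((p : ℤ) * (q : ℤ) ^ (k + 2 * j)) • (star x * yq L v E'' * x) =
            star x * (((p : ℤ) * (q : ℤ) ^ (k + 2 * j)) • yq L v E'') * x := by
          rw [mul_smul_comm, smul_mul_assoc]
        rw [h2, h1]
        have h3 : star x * (x * yq L v E * star x) * x =
            (star x * x) * yq L v E * (star x * x) := by
          simp only [mul_assoc]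
        rw [h3, star_mul_eq, hx.1]
        rw [show (4 * j) = 2 * j + 2 * j by ring, pow_add, mul_smul]
        rw [← zsmul_eq_mul, (Int.cast_commute _ _).eq.symm, ← zsmul_eq_mul]
    have hpZ : Prime (p : ℤ) := Nat.prime_iff_prime_int.1 hp
    have hco : IsCoprime (p : ℤ) ((q : ℤ) ^ (4 * j)) := by
      apply IsCoprime.pow_right
      exact Nat.isCoprime_iff_coprime.2 ((Nat.coprime_primes hp hqp).2 hpq)
    obtain ⟨s, t, hst⟩ := hco
    refine ⟨s • E + t • ((q : ℤ) ^ (k + 2 * j)) • F1, ?_⟩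
    calc E = (s * (p : ℤ) + t * (q : ℤ) ^ (4 * j)) • E := by rw [hst, one_smul]
      _ = ((p : ℤ) * s) • E + t • (((q : ℤ) ^ (4 * j)) • E) := by
          rw [add_smul, mul_smul t, mul_comm s]
      _ = _ := by
          rw [← hkey]
          module

end Pool.Agent.AllRank
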