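import Pool.Agent.AllRank.ThmC
import Pool.Agent.MP4d0966.Solv

set_option autoImplicit false

/-!
ALLRANK, file Sub: the core theorem applied to the sublattice `⟨e, f, λ, m⟩`.
-/

namespace Pool.Agent.AllRank

open Pool.Agent.MP4d0966
open scoped NumberTheorySymbols

variable {N : Type*} [AddCommGroup N]

/-- Minus the determinant of the Gram matrix of `(λ, m)`, where `λ = l - B(f,l) e - B(e,l) f`,
`q(λ) = 1 - B(f,l) B(e,l)`, `B(λ, m) = B(l, m)` for `m` orthogonal to `e` and `f`. -/
def dm (L : EvenForm N) (e f l m : N) : ℤ :=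
  L.B l m ^ 2 - 4 * (1 - L.B f l * L.B e l) * L.q m

/-- PROOF. `α := B(f, l)`, `β := B(e, l)`, `A := 1 - α β`, `B := B(l, m)`, `C := q(m)`,
`D := dm L e f l m = B² - 4 A C`, `λ := l - α e - β f`: `B(λ, e) = B(λ, f) = 0`, `q(λ) = A`,
`B(λ, m) = B(l, m) = B`, `B(λ, l) = 2 A`, `B(m, l) = B`.
If `β = ±1`, `w := β e`. Otherwise `D ≠ 0` (`IsCoprime β (2 D)`).
(1) `D` not a square: `thmC` gives `(x, y, s, t)`, and `w := x e + y f + s λ + t m` has
`q(w) = x y + A s² + B s t + C t² = 0`, `B(w, l) = β x + α y + 2 A s + B t = 1`.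
(2) `D = d²`, `d ≠ 0`. Put `m0 := (2 C) λ + (d - B) m`: `q(m0) = 0`
(`4 C q(s λ + t m) = (2 C t + B s)² - D s²` with `s = 2 C`, `t = d - B`, `C ≠ 0`),
`B(m0, e) = B(m0, f) = 0`, and `m0 ≠ 0`: `B(m0, m) = 2 C B + (d - B) 2 C = 2 C d ≠ 0`. So `e, m0`
span
a totally isotropic plane: they are linearly independent (`a e + b m0 = 0`: pair with `f` to
get `a = 0`, with `m` to get `b = 0`), `solvable_of_plane` gives `w0`, and `exists_w`
(with `x1 := -l2`) gives `w`. -/
theorem gs_of_m [Module.Free ℤ N] [Module.Finite ℤ N] {L : EvenForm N}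
    (hnd : ∀ x, (∀ y, L.B x y = 0) → x = 0) {e f l l2 m : N} (he : L.q e = 0)
    (hf : L.q f = 0) (hef : L.B e f = 1) (hl : L.q l = 1) (hl2 : L.B l l2 = -1)
    (hme : L.B m e = 0) (hmf : L.B m f = 0) (hm : 0 < L.q m)
    (hco : IsCoprime (L.B e l) (2 * dm L e f l m))
    (hJ : J(dm L e f l m | (L.B e l).natAbs) = 1) :
    ∃ w, L.q w = 0 ∧ L.B w l = 1 := by
  unfold dm at hco hJ
  obtain ⟨α, hα⟩ : ∃ α, L.B f l = α := ⟨_, rfl⟩
  obtain ⟨β, hβ⟩ : ∃ β, L.B e l = β := ⟨_, rfl⟩
  obtain ⟨b, hb⟩ : ∃ b, L.B l m = b := ⟨_, rfl⟩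
  obtain ⟨C, hC⟩ : ∃ C, L.q m = C := ⟨_, rfl⟩
  rw [hα, hβ, hb, hC] at hco hJ
  rw [hC] at hm
  have hee : L.B e e = 0 := by rw [L.hq, he, mul_zero]
  have hff : L.B f f = 0 := by rw [L.hq, hf, mul_zero]
  have hll : L.B l l = 2 := by rw [L.hq, hl, mul_one]
  have hmm : L.B m m = 2 * C := by rw [L.hq, hC]
  have hfe : L.B f e = 1 := by rw [L.symm, hef]
  have hem : L.B e m = 0 := by rw [L.symm, hme]
  have hfm : L.B f m = 0 := by rw [L.symm, hmf]
  have hlf : L.B l f = α := by rw [L.symm, hα]
  have hle : L.B l e = β := by rw [L.symm, hβ]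
  have hml : L.B m l = b := by rw [L.symm, hb]
  obtain ⟨D, hD⟩ : ∃ D : ℤ, D = b ^ 2 - 4 * (1 - α * β) * C := ⟨_, rfl⟩
  rw [← hD] at hco hJ
  by_cases hns : IsSquare D
  · by_cases hD0 : D = 0
    · rw [hD0, mul_zero, isCoprime_zero_right, Int.isUnit_iff] at hco
      refine ⟨β • e, ?_, ?_⟩
      · rw [L.q_smul, he, mul_zero]
      · rw [map_smul, LinearMap.smul_apply, smul_eq_mul, hβ]
        rcases hco with h | h <;> rw [h] <;> norm_num
    · obtain ⟨d, hd⟩ := hns
      have hd0 : d ≠ 0 := by
        rintro rfl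
        exact hD0 (by rw [hd, mul_zero])
      obtain ⟨m0, hm0⟩ : ∃ m0 : N, m0 = (2 * C) • (l - α • e - β • f) + (d - b) • m := ⟨_, rfl⟩
      have hm0e : L.B m0 e = 0 := by
        rw [hm0]
        simp only [map_add, map_sub, map_smul, LinearMap.add_apply, LinearMap.sub_apply,
          LinearMap.smul_apply, smul_eq_mul, hee, hfe, hle, hme]
        ring
      have hm0f : L.B m0 f = 0 := by
        rw [hm0]
        simp only [map_add, map_sub, map_smul, LinearMap.add_apply, LinearMap.sub_apply,
          LinearMap.smul_apply, smul_eq_mul, hef, hff, hlf, hmf]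
        ring
      have hm0m : L.B m0 m = 2 * C * d := by
        rw [hm0]
        simp only [map_add, map_sub, map_smul, LinearMap.add_apply, LinearMap.sub_apply,
          LinearMap.smul_apply, smul_eq_mul, hem, hfm, hb, hmm]
        ring
      have hm0l : L.B m0 l = 2 * C * (2 * (1 - α * β)) + (d - b) * b := by
        rw [hm0]
        simp only [map_add, map_sub, map_smul, LinearMap.add_apply, LinearMap.sub_apply,
          LinearMap.smul_apply, smul_eq_mul, hβ, hα, hll, hml]
        ring
      have hm0q : L.q m0 = 0 := by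
        have h1 : L.B m0 m0 = 0 := by
          have h2 : L.B m0 m0 = L.B m0 ((2 * C) • (l - α • e - β • f) + (d - b) • m) := by
            rw [← hm0]
          rw [h2]
          simp only [map_add, map_sub, map_smul, smul_eq_mul, hm0e, hm0f, hm0m, hm0l]
          linear_combination (2 * C) * hD - (2 * C) * hd
        rw [L.hq] at h1
        linarith
      have hli : LinearIndependent ℤ ![e, m0] := by
        rw [LinearIndependent.pair_iff]
        intro s t hst
        have h1 : L.B (s • e + t • m0) f = 0 := by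
          rw [hst, map_zero, LinearMap.zero_apply]
        have h2 : L.B (s • e + t • m0) m = 0 := by
          rw [hst, map_zero, LinearMap.zero_apply]
        simp only [map_add, map_smul, LinearMap.add_apply, LinearMap.smul_apply, smul_eq_mul,
          hef, hm0f, hem, hm0m] at h1 h2
        refine ⟨by linarith, ?_⟩
        have h3 : t * (2 * C * d) = 0 := by linarith
        rcases mul_eq_zero.1 h3 with h4 | h4
        · exact h4
        · exact absurd h4 (mul_ne_zero (mul_ne_zero two_ne_zero hm.ne') hd0)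
      obtain ⟨w0, h1, h2, h3, h4⟩ := L.solvable_of_plane hnd hl hli he hm0q
        (by rw [L.symm, hm0e])
      exact L.exists_w hnd he hf hef hl (x1 := -l2) (by rw [map_neg, hl2, neg_neg]) h2 h1 h3 h4
  · obtain ⟨x, y, s, t, h1, h2⟩ := thmC (α := α) (β := β) (A := 1 - α * β) (B := b) (C := C)
      (D := D) (by ring) hD hns hco hJ hm
    unfold bq at h1
    obtain ⟨w, hw⟩ : ∃ w : N, w = x • e + y • f + s • (l - α • e - β • f) + t • m := ⟨_, rfl⟩
    have hwe : L.B w e = y := by
      rw [hw]
      simp only [map_add, map_sub, map_smul, LinearMap.add_apply, LinearMap.sub_apply,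
        LinearMap.smul_apply, smul_eq_mul, hee, hfe, hle, hme]
      ring
    have hwf : L.B w f = x := by
      rw [hw]
      simp only [map_add, map_sub, map_smul, LinearMap.add_apply, LinearMap.sub_apply,
        LinearMap.smul_apply, smul_eq_mul, hef, hff, hlf, hmf]
      ring
    have hwm : L.B w m = s * b + t * (2 * C) := by
      rw [hw]
      simp only [map_add, map_sub, map_smul, LinearMap.add_apply, LinearMap.sub_apply,
        LinearMap.smul_apply, smul_eq_mul, hem, hfm, hb, hmm]
      ring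
    have hwl : L.B w l = 1 := by
      rw [hw]
      simp only [map_add, map_sub, map_smul, LinearMap.add_apply, LinearMap.sub_apply,
        LinearMap.smul_apply, smul_eq_mul, hβ, hα, hll, hml]
      linear_combination h2
    refine ⟨w, ?_, hwl⟩
    have h3 : L.B w w = 0 := by
      have h4 : L.B w w = L.B w (x • e + y • f + s • (l - α • e - β • f) + t • m) := by
        rw [← hw]
      rw [h4]
      simp only [map_add, map_sub, map_smul, smul_eq_mul, hwe, hwf, hwm, hwl]
      linear_combination 2 * h1 - s * h2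
    rw [L.hq] at h3
    linarith

end Pool.Agent.AllRank
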