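import Mathlib

set_option autoImplicit false

/-!
ALLRANK, file Sym: the Hilbert symbol `(n, d)_p` for a fixed odd squarefree `d > 0`
(a number `1` or `-1`), and its basic properties.
-/

namespace Pool.Agent.AllRank

open scoped NumberTheorySymbols

/-- The Hilbert symbol `(n, d)_p` for an odd squarefree `d > 0`. With `n = p ^ v n'`, `p ∤ n'`, it
is: for `p = 2`: `1` if `d ≡ 1 (8)`, `(-1) ^ v` if `d ≡ 5 (8)`, `(-1/n') (2/d) ^ v` if `d ≡ 3 (4)`;
for `p ∣ d`: `(n' (-d/p) ^ v / p)`; for `p ∤ 2 d`: `(d/p) ^ v`. -/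
noncomputable def hs (d p : ℕ) (n : ℤ) : ℤ :=
  if p = 2 then
    if d % 8 = 1 then 1
    else if d % 8 = 5 then (-1) ^ padicValInt 2 n
    else ZMod.χ₄ ((n / 2 ^ padicValInt 2 n : ℤ) : ZMod 4) * ZMod.χ₈ (d : ZMod 8) ^ padicValInt 2 n
  else if p ∣ d then J((n / p ^ padicValInt p n) * (-((d / p : ℕ) : ℤ)) ^ padicValInt p n | p)
  else J(d | p) ^ padicValInt p n

theorem padic_pow_mul {p : ℕ} (hp : p.Prime) {v : ℕ} {n : ℤ} (hn : ¬ (p : ℤ) ∣ n) :
    padicValInt p ((p : ℤ) ^ v * n) = v := by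
  have : Fact p.Prime := ⟨hp⟩
  have hn0 : n ≠ 0 := by
    rintro rfl
    exact hn (dvd_zero _)
  have hp0 : (p : ℤ) ≠ 0 := by exact_mod_cast hp.ne_zero
  rw [padicValInt.mul (pow_ne_zero _ hp0) hn0, padicValInt.eq_zero_of_not_dvd hn, add_zero]
  rw [← Nat.cast_pow, padicValInt.of_nat, padicValNat.prime_pow]

theorem exists_pow_mul {p : ℕ} (hp : p.Prime) {n : ℤ} (hn : n ≠ 0) :
    ∃ (v : ℕ) (n' : ℤ), n = (p : ℤ) ^ v * n' ∧ ¬ (p : ℤ) ∣ n' := by
  obtain ⟨v, n', h1, h2⟩ := Nat.exists_eq_pow_mul_and_not_dvd (Int.natAbs_ne_zero.mpr hn) p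
    hp.ne_one
  rcases Int.natAbs_eq n with h | h
  · exact ⟨v, n', by rw [h, h2]; push_cast; ring, fun h3 => h1 (by exact_mod_cast h3)⟩
  · refine ⟨v, -n', by rw [h, h2]; push_cast; ring, fun h3 => h1 ?_⟩
    rw [dvd_neg] at h3
    exact_mod_cast h3

private theorem div_pow {p : ℕ} (hp : p.Prime) (v : ℕ) (n : ℤ) :
    ((p : ℤ) ^ v * n) / (p : ℤ) ^ v = n :=
  Int.mul_ediv_cancel_left _ (pow_ne_zero _ (by exact_mod_cast hp.ne_zero))

theorem hs_two_one {d : ℕ} (hd : d % 8 = 1) (n : ℤ) : hs d 2 n = 1 := by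
  simp [hs, hd]

theorem hs_two_five {d : ℕ} (hd : d % 8 = 5) (v : ℕ) {n : ℤ} (hn : ¬ (2 : ℤ) ∣ n) :
    hs d 2 (2 ^ v * n) = (-1) ^ v := by
  have h := padic_pow_mul Nat.prime_two (v := v) (n := n) (by exact_mod_cast hn)
  rw [Nat.cast_two] at h
  simp [hs, hd, h]

theorem hs_two_three {d : ℕ} (hd : d % 4 = 3) (v : ℕ) {n : ℤ} (hn : ¬ (2 : ℤ) ∣ n) :
    hs d 2 (2 ^ v * n) = ZMod.χ₄ (n : ZMod 4) * ZMod.χ₈ (d : ZMod 8) ^ v := by
  have h := padic_pow_mul Nat.prime_two (v := v) (n := n) (by exact_mod_cast hn)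
  rw [Nat.cast_two] at h
  have h2 := div_pow Nat.prime_two v n
  rw [Nat.cast_two] at h2
  rw [hs, if_pos rfl, if_neg (by omega), if_neg (by omega), h, h2]

theorem hs_ram {d p : ℕ} (hp : p.Prime) (hp2 : p ≠ 2) (hpd : p ∣ d) (v : ℕ) {n : ℤ}
    (hn : ¬ (p : ℤ) ∣ n) :
    hs d p ((p : ℤ) ^ v * n) = J(n * (-((d / p : ℕ) : ℤ)) ^ v | p) := by
  rw [hs, if_neg hp2, if_pos hpd, padic_pow_mul hp hn, div_pow hp]

theorem hs_unr {d p : ℕ} (hp : p.Prime) (hp2 : p ≠ 2) (hpd : ¬ p ∣ d) (v : ℕ) {n : ℤ}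
    (hn : ¬ (p : ℤ) ∣ n) : hs d p ((p : ℤ) ^ v * n) = J(d | p) ^ v := by
  rw [hs, if_neg hp2, if_neg hpd, padic_pow_mul hp hn]

theorem hs_mul {d p : ℕ} (hp : p.Prime) (hd : Odd d) {m n : ℤ} (hm : m ≠ 0) (hn : n ≠ 0) :
    hs d p (m * n) = hs d p m * hs d p n := by
  obtain ⟨v, m, rfl, hm'⟩ := exists_pow_mul hp hm
  obtain ⟨w, n, rfl, hn'⟩ := exists_pow_mul hp hn
  have hmn : ¬ (p : ℤ) ∣ m * n := by
    intro h
    rcases (Nat.prime_iff_prime_int.mp hp).dvd_or_dvd h with h | h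
    · exact hm' h
    · exact hn' h
  have e : (p : ℤ) ^ v * m * ((p : ℤ) ^ w * n) = (p : ℤ) ^ (v + w) * (m * n) := by
    rw [pow_add]
    ring
  rw [e]
  by_cases hp2 : p = 2
  · subst hp2
    rw [Nat.cast_two] at *
    have h4 : d % 8 = 1 ∨ d % 8 = 5 ∨ d % 4 = 3 := by
      rw [Nat.odd_iff] at hd
      omega
    rcases h4 with h4 | h4 | h4
    · simp [hs_two_one h4]
    · rw [hs_two_five h4 _ hmn, hs_two_five h4 _ hm', hs_two_five h4 _ hn', pow_add]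
    · rw [hs_two_three h4 _ hmn, hs_two_three h4 _ hm', hs_two_three h4 _ hn', pow_add,
        Int.cast_mul, map_mul]
      ring
  · by_cases hpd : p ∣ d
    · rw [hs_ram hp hp2 hpd _ hmn, hs_ram hp hp2 hpd _ hm', hs_ram hp hp2 hpd _ hn',
        ← jacobiSym.mul_left, pow_add]
      congr 1
      ring
    · rw [hs_unr hp hp2 hpd _ hmn, hs_unr hp hp2 hpd _ hm', hs_unr hp hp2 hpd _ hn', pow_add]

theorem hs_unit {d p : ℕ} (hp : p.Prime) (hp2 : p ≠ 2) (hpd : ¬ p ∣ d) {n : ℤ}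
    (hn : ¬ (p : ℤ) ∣ n) : hs d p n = 1 := by
  have := hs_unr hp hp2 hpd 0 hn
  rwa [pow_zero, pow_zero, one_mul] at this

theorem hs_ram_unit {d p : ℕ} (hp : p.Prime) (hp2 : p ≠ 2) (hpd : p ∣ d) {n : ℤ}
    (hn : ¬ (p : ℤ) ∣ n) : hs d p n = J(n | p) := by
  have := hs_ram hp hp2 hpd 0 hn
  rwa [pow_zero, pow_zero, one_mul, mul_one] at this

/-- Local constancy at odd `p`. -/
theorem hs_congr {d p : ℕ} (hp : p.Prime) (hp2 : p ≠ 2) {n n' : ℤ}
    (hn : ¬ (p : ℤ) ∣ n) (h : (p : ℤ) ∣ n - n') : hs d p n = hs d p n' := by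
  have hn' : ¬ (p : ℤ) ∣ n' := by
    intro h2
    apply hn
    have e : n = (n - n') + n' := by ring
    rw [e]
    exact dvd_add h h2
  by_cases hpd : p ∣ d
  · rw [hs_ram_unit hp hp2 hpd hn, hs_ram_unit hp hp2 hpd hn']
    exact jacobiSym.mod_left' ((Int.modEq_iff_dvd).2 h).symm
  · rw [hs_unit hp hp2 hpd hn, hs_unit hp hp2 hpd hn']

/-- Local constancy at `2`. -/
theorem hs_congr_two {d : ℕ} (hd : Odd d) {n n' : ℤ} (hn : ¬ (2 : ℤ) ∣ n) (h : 4 ∣ n - n') :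
    hs d 2 n = hs d 2 n' := by
  have hn' : ¬ (2 : ℤ) ∣ n' := by omega
  have h4 : d % 8 = 1 ∨ d % 8 = 5 ∨ d % 4 = 3 := by
    rw [Nat.odd_iff] at hd
    omega
  rcases h4 with h4 | h4 | h4
  · simp [hs_two_one h4]
  · have h1 := hs_two_five h4 0 hn
    have h2 := hs_two_five h4 0 hn'
    simp only [pow_zero, one_mul] at h1 h2
    rw [h1, h2]
  · have h1 := hs_two_three h4 0 hn
    have h2 := hs_two_three h4 0 hn'
    simp only [pow_zero, one_mul, mul_one] at h1 h2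
    rw [h1, h2]
    congr 1
    have h3 : ((n - n' : ℤ) : ZMod 4) = 0 := (ZMod.intCast_zmod_eq_zero_iff_dvd _ 4).mpr
      (by exact_mod_cast h)
    rw [Int.cast_sub, sub_eq_zero] at h3
    exact h3

theorem hs_one {d p : ℕ} (hp : p.Prime) (hd : Odd d) : hs d p 1 = 1 := by
  by_cases hp2 : p = 2
  · subst hp2
    have h4 : d % 8 = 1 ∨ d % 8 = 5 ∨ d % 4 = 3 := by
      rw [Nat.odd_iff] at hd
      omega
    rcases h4 with h4 | h4 | h4
    · rw [hs_two_one h4]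
    · have h1 := hs_two_five h4 0 (n := 1) (by norm_num)
      simpa using h1
    · have h1 := hs_two_three h4 0 (n := 1) (by norm_num)
      simpa using h1
  · have h1 : ¬ (p : ℤ) ∣ 1 := by
      intro h
      exact hp.one_lt.ne' (by exact_mod_cast (Int.eq_one_of_dvd_one (by positivity) h))
    by_cases hpd : p ∣ d
    · rw [hs_ram_unit hp hp2 hpd h1, jacobiSym.one_left]
    · rw [hs_unit hp hp2 hpd h1]

/-- The values are `1` and `-1`. -/
theorem hs_eq {d p : ℕ} (hp : p.Prime) (hd : Odd d) (hsq : Squarefree d) {n : ℤ} (hn : n ≠ 0) :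
    hs d p n = 1 ∨ hs d p n = -1 := by
  obtain ⟨v, n, rfl, hn'⟩ := exists_pow_mul hp hn
  by_cases hp2 : p = 2
  · subst hp2
    rw [Nat.cast_two] at *
    have h4 : d % 8 = 1 ∨ d % 8 = 5 ∨ d % 4 = 3 := by
      rw [Nat.odd_iff] at hd
      omega
    rcases h4 with h4 | h4 | h4
    · left
      exact hs_two_one h4 _
    · rw [hs_two_five h4 _ hn']
      exact neg_one_pow_eq_or ℤ v
    · rw [hs_two_three h4 _ hn']
      have h1 : ZMod.χ₄ (n : ZMod 4) = 1 ∨ ZMod.χ₄ (n : ZMod 4) = -1 := by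
        rw [ZMod.χ₄_int_eq_if_mod_four]
        rw [if_neg (by omega)]
        by_cases h : n % 4 = 1
        · simp [h]
        · simp [h]
      have h2 : ZMod.χ₈ (d : ZMod 8) = 1 ∨ ZMod.χ₈ (d : ZMod 8) = -1 := by
        rw [ZMod.χ₈_nat_eq_if_mod_eight, if_neg (by omega)]
        by_cases h : d % 8 = 1 ∨ d % 8 = 7
        · simp [h]
        · simp [h]
      have h3 : ZMod.χ₈ (d : ZMod 8) ^ v = 1 ∨ ZMod.χ₈ (d : ZMod 8) ^ v = -1 := by
        rcases h2 with h | h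
        · left
          rw [h, one_pow]
        · rw [h]
          exact neg_one_pow_eq_or ℤ v
      rcases h1 with h | h <;> rcases h3 with h' | h' <;> rw [h, h'] <;> norm_num
  · by_cases hpd : p ∣ d
    · rw [hs_ram hp hp2 hpd _ hn']
      have : Fact p.Prime := ⟨hp⟩
      refine jacobiSym.eq_one_or_neg_one ?_
      have hpp := Nat.prime_iff_prime_int.mp hp
      rw [Int.gcd_comm]
      refine Int.isCoprime_iff_gcd_eq_one.mp ((hpp.coprime_iff_not_dvd).mpr fun h => ?_)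
      rcases hpp.dvd_or_dvd h with h | h
      · exact hn' h
      · have h1 := hpp.dvd_of_dvd_pow h
        rw [dvd_neg] at h1
        have h2 : p ∣ d / p := by exact_mod_cast h1
        obtain ⟨c, hc⟩ := hpd
        rw [hc, Nat.mul_div_cancel_left _ hp.pos] at h2
        rw [hc] at hsq
        obtain ⟨c', rfl⟩ := h2
        have h3 := hsq p ⟨c', by ring⟩
        exact hp.one_lt.ne' (Nat.isUnit_iff.mp h3)
    · rw [hs_unr hp hp2 hpd _ hn']
      have h1 : J(d | p) = 1 ∨ J(d | p) = -1 := by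
        refine jacobiSym.eq_one_or_neg_one ?_
        rw [Int.gcd_comm]
        exact Int.isCoprime_iff_gcd_eq_one.mp
          ((Nat.isCoprime_iff_coprime).mpr ((Nat.Prime.coprime_iff_not_dvd hp).mpr hpd))
      rcases h1 with h | h
      · left
        rw [h, one_pow]
      · rw [h]
        exact neg_one_pow_eq_or ℤ v

theorem hs_mul_self {d p : ℕ} (hp : p.Prime) (hd : Odd d) (hsq : Squarefree d) {n : ℤ}
    (hn : n ≠ 0) : hs d p n * hs d p n = 1 := by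
  rcases hs_eq hp hd hsq hn with h | h <;> rw [h] <;> norm_num

theorem hs_sq {d p : ℕ} (hp : p.Prime) (hd : Odd d) (hsq : Squarefree d) {n : ℤ}
    (hn : n ≠ 0) : hs d p (n ^ 2) = 1 := by
  rw [sq, hs_mul hp hd hn hn, hs_mul_self hp hd hsq hn]

end Pool.Agent.AllRank
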