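import Pool.Agent.AllRank.Sym

set_option autoImplicit false

/-!
ALLRANK, file SymProd: the product formula for the symbols `hs d p n` (file Sym), `d` odd and
squarefree.
-/

namespace Pool.Agent.AllRank

open scoped NumberTheorySymbols

private theorem jac_prod (a : ℤ) (s : Finset ℕ) (hs : ∀ p ∈ s, p ≠ 0) :
    J(a | ∏ p ∈ s, p) = ∏ p ∈ s, J(a | p) := by
  classical
  induction s using Finset.induction_on with
  | empty => rw [Finset.prod_empty, Finset.prod_empty, jacobiSym.one_right]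
  | insert q s hq ih =>
    have h1 : ∀ p ∈ s, p ≠ 0 := fun p hp => hs p (Finset.mem_insert_of_mem hp)
    rw [Finset.prod_insert hq, Finset.prod_insert hq, jacobiSym.mul_right' a
      (hs q (Finset.mem_insert_self q s)) (Finset.prod_ne_zero_iff.2 h1), ih h1]

private theorem jac_sqf (a : ℤ) {d : ℕ} (hsq : Squarefree d) :
    J(a | d) = ∏ p ∈ d.primeFactors, J(a | p) := by
  have h1 := jac_prod a d.primeFactors fun p hp => (Nat.prime_of_mem_primeFactors hp).ne_zero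
  rw [Nat.prod_primeFactors_of_squarefree hsq] at h1
  exact h1

private theorem jac_sq {a b : ℕ} (h : Nat.Coprime a b) : J(a | b) * J(a | b) = 1 := by
  have h1 : J(a | b) = 1 ∨ J(a | b) = -1 := by
    refine jacobiSym.eq_one_or_neg_one ?_
    exact Int.isCoprime_iff_gcd_eq_one.mp (Nat.isCoprime_iff_coprime.mpr h)
  rcases h1 with h1 | h1 <;> rw [h1] <;> norm_num

/-- the symbol at `2` of an odd number -/
private theorem hs_two_odd {d : ℕ} (hd : Odd d) {n : ℤ} (hn : ¬ (2 : ℤ) ∣ n) :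
    (d % 4 = 1 ∧ hs d 2 n = 1) ∨ (d % 4 = 3 ∧ hs d 2 n = ZMod.χ₄ (n : ZMod 4)) := by
  have h4 : d % 8 = 1 ∨ d % 8 = 5 ∨ d % 4 = 3 := by
    rw [Nat.odd_iff] at hd
    omega
  rcases h4 with h4 | h4 | h4
  · exact Or.inl ⟨by omega, hs_two_one h4 n⟩
  · refine Or.inl ⟨by omega, ?_⟩
    have h1 := hs_two_five h4 0 hn
    rwa [pow_zero, pow_zero, one_mul] at h1
  · refine Or.inr ⟨h4, ?_⟩
    have h1 := hs_two_three h4 0 hn
    rwa [pow_zero, pow_zero, one_mul, mul_one] at h1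

private theorem split {d : ℕ} (hsq : Squarefree d) (f : ℕ → ℤ) {T : Finset ℕ}
    (hT : ∀ p ∈ T, p.Prime) (h : ∀ p : ℕ, p.Prime → p ∣ d → p ∈ T) :
    ∏ p ∈ T, f p = (∏ p ∈ d.primeFactors, f p) * ∏ p ∈ T.filter (fun p => ¬ p ∣ d), f p := by
  rw [← Finset.prod_filter_mul_prod_filter_not T (fun p => p ∣ d)]
  congr 1
  refine Finset.prod_congr ?_ fun _ _ => rfl
  ext p
  rw [Finset.mem_filter, Nat.mem_primeFactors]
  exact ⟨fun h1 => ⟨hT p h1.1, h1.2, hsq.ne_zero⟩, fun h1 => ⟨h p h1.1 h1.2.1, h1.2.1⟩⟩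

private theorem ram_units {d : ℕ} (hd : Odd d) (hsq : Squarefree d) {n : ℤ}
    (hn : ∀ p : ℕ, p.Prime → p ∣ d → ¬ (p : ℤ) ∣ n) :
    ∏ p ∈ d.primeFactors, hs d p n = J(n | d) := by
  rw [jac_sqf n hsq]
  refine Finset.prod_congr rfl fun p hp => ?_
  have hp1 := Nat.prime_of_mem_primeFactors hp
  have hp2 := Nat.dvd_of_mem_primeFactors hp
  refine hs_ram_unit hp1 ?_ hp2 (hn p hp1 hp2)
  rintro rfl
  rw [Nat.odd_iff] at hd
  omega

/-- only `2` contributes outside `d` -/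
private theorem out_two {d : ℕ} (hd : Odd d) {n : ℤ} {T : Finset ℕ}
    (hT : ∀ p ∈ T, p.Prime) (h2 : 2 ∈ T)
    (hn : ∀ p : ℕ, p.Prime → p ≠ 2 → ¬ p ∣ d → ¬ (p : ℤ) ∣ n) :
    ∏ p ∈ T.filter (fun p => ¬ p ∣ d), hs d p n = hs d 2 n := by
  have h2d : ¬ 2 ∣ d := by
    rw [Nat.odd_iff] at hd
    omega
  refine Finset.prod_eq_single 2 ?_ ?_
  · intro p hp hp2
    rw [Finset.mem_filter] at hp
    have hp1 := hT p hp.1
    exact hs_unit hp1 hp2 hp.2 (hn p hp1 hp2 hp.2)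
  · intro h
    exact absurd (Finset.mem_filter.2 ⟨h2, h2d⟩) h

private theorem prod_neg_one {d : ℕ} (hd : Odd d) (hsq : Squarefree d) {T : Finset ℕ}
    (hT : ∀ p ∈ T, p.Prime) (h2 : 2 ∈ T) (h : ∀ p : ℕ, p.Prime → p ∣ d → p ∈ T) :
    ∏ p ∈ T, hs d p (-1) = 1 := by
  have hu : ∀ p : ℕ, p.Prime → ¬ (p : ℤ) ∣ -1 := by
    intro p hp h1
    rw [dvd_neg] at h1
    exact hp.one_lt.ne' (by exact_mod_cast (Int.eq_one_of_dvd_one (by positivity) h1))
  rw [split hsq _ hT h, ram_units hd hsq fun p hp _ => hu p hp,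
    out_two hd hT h2 fun p hp _ _ => hu p hp, jacobiSym.at_neg_one hd]
  rcases hs_two_odd hd (n := -1) (by norm_num) with ⟨h4, h5⟩ | ⟨h4, h5⟩
  · rw [h5, ZMod.χ₄_nat_one_mod_four h4, one_mul]
  · rw [h5, ZMod.χ₄_nat_three_mod_four h4]
    decide

private theorem prod_two {d : ℕ} (hd : Odd d) (hsq : Squarefree d) {T : Finset ℕ}
    (hT : ∀ p ∈ T, p.Prime) (h2 : 2 ∈ T) (h : ∀ p : ℕ, p.Prime → p ∣ d → p ∈ T) :
    ∏ p ∈ T, hs d p 2 = 1 := by
  have hu : ∀ p : ℕ, p.Prime → p ≠ 2 → ¬ (p : ℤ) ∣ 2 := by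
    intro p hp hp2 h1
    have h3 : p ∣ 2 := by exact_mod_cast h1
    exact hp2 ((Nat.prime_dvd_prime_iff_eq hp Nat.prime_two).1 h3)
  have h2d : ¬ 2 ∣ d := by
    rw [Nat.odd_iff] at hd
    omega
  rw [split hsq _ hT h, ram_units hd hsq fun p hp hpd => hu p hp fun h0 => h2d (h0 ▸ hpd),
    out_two hd hT h2 fun p hp hp2 _ => hu p hp hp2, jacobiSym.at_two hd]
  have h8 : d % 8 = 1 ∨ d % 8 = 5 ∨ d % 4 = 3 := by
    rw [Nat.odd_iff] at hd
    omega
  have e : (2 : ℤ) = 2 ^ 1 * 1 := by norm_num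
  rcases h8 with h8 | h8 | h8
  · rw [hs_two_one h8, ZMod.χ₈_nat_eq_if_mod_eight]
    simp [h8]
    omega
  · rw [e, hs_two_five h8 1 (by norm_num), ZMod.χ₈_nat_eq_if_mod_eight]
    simp [h8]
    omega
  · rw [e, hs_two_three h8 1 (by norm_num), ZMod.χ₈_nat_eq_if_mod_eight]
    have h3 : d % 2 ≠ 0 := by omega
    have h9 : ZMod.χ₄ (((1 : ℤ)) : ZMod 4) = 1 := by decide
    rw [h9, if_neg h3]
    split_ifs <;> norm_num

private theorem prod_odd {d : ℕ} (hd : Odd d) (hsq : Squarefree d) {q : ℕ} (hq : q.Prime)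
    (hq2 : q ≠ 2) (hqd : ¬ q ∣ d) {T : Finset ℕ}
    (hT : ∀ p ∈ T, p.Prime) (h2 : 2 ∈ T) (hqT : q ∈ T) (h : ∀ p : ℕ, p.Prime → p ∣ d → p ∈ T) :
    ∏ p ∈ T, hs d p q = 1 := by
  have hu : ∀ p : ℕ, p.Prime → p ≠ q → ¬ (p : ℤ) ∣ q := by
    intro p hp hpq h1
    have h3 : p ∣ q := by exact_mod_cast h1
    exact hpq ((Nat.prime_dvd_prime_iff_eq hp hq).1 h3)
  have h2d : ¬ 2 ∣ d := by
    rw [Nat.odd_iff] at hd
    omega
  have hqo : Odd q := hq.odd_of_ne_two hq2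
  have hout : ∏ p ∈ T.filter (fun p => ¬ p ∣ d), hs d p q = hs d 2 q * hs d q q := by
    refine Finset.prod_eq_mul 2 q hq2.symm ?_ ?_ ?_
    · intro p hp hpp
      rw [Finset.mem_filter] at hp
      have hp1 := hT p hp.1
      exact hs_unit hp1 hpp.1 hp.2 (hu p hp1 hpp.2)
    · intro h0
      exact absurd (Finset.mem_filter.2 ⟨h2, h2d⟩) h0
    · intro h0
      exact absurd (Finset.mem_filter.2 ⟨hqT, hqd⟩) h0
  rw [split hsq _ hT h, ram_units hd hsq fun p hp hpd => hu p hp fun h0 => hqd (h0 ▸ hpd), hout]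
  have h3 : hs d q q = J(d | q) := by
    have h4 := hs_unr hq hq2 hqd 1 (n := 1) (by
      intro h5
      exact hq.one_lt.ne' (by exact_mod_cast (Int.eq_one_of_dvd_one (by positivity) h5)))
    rwa [pow_one, pow_one, mul_one] at h4
  have hc : Nat.Coprime d q := ((Nat.Prime.coprime_iff_not_dvd hq).2 hqd).symm
  have hsq1 := jac_sq hc
  rw [h3]
  have hq4 : q % 4 = 1 ∨ q % 4 = 3 := by
    rw [Nat.odd_iff] at hqo
    omega
  rcases hs_two_odd hd (n := q) (by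
    intro h5
    have h6 : 2 ∣ q := by exact_mod_cast h5
    rw [Nat.odd_iff] at hqo
    omega) with ⟨h4, h5⟩ | ⟨h4, h5⟩
  · rw [h5, jacobiSym.quadratic_reciprocity_one_mod_four' hqo h4, one_mul, hsq1]
  · rw [h5, Int.cast_natCast]
    rcases hq4 with h6 | h6
    · rw [ZMod.χ₄_nat_one_mod_four h6, one_mul,
        jacobiSym.quadratic_reciprocity_one_mod_four h6 hd, hsq1]
    · rw [ZMod.χ₄_nat_three_mod_four h6, jacobiSym.quadratic_reciprocity_three_mod_four h6 h4]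
      linear_combination hsq1

private theorem prod_ram {d : ℕ} (hd : Odd d) (hsq : Squarefree d) {q : ℕ} (hq : q.Prime)
    (hqd : q ∣ d) {T : Finset ℕ}
    (hT : ∀ p ∈ T, p.Prime) (h2 : 2 ∈ T) (h : ∀ p : ℕ, p.Prime → p ∣ d → p ∈ T) :
    ∏ p ∈ T, hs d p q = 1 := by
  obtain ⟨e, rfl⟩ := hqd
  have hu : ∀ p : ℕ, p.Prime → p ≠ q → ¬ (p : ℤ) ∣ q := by
    intro p hp hpq h1
    have h3 : p ∣ q := by exact_mod_cast h1
    exact hpq ((Nat.prime_dvd_prime_iff_eq hp hq).1 h3)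
  have hc : Nat.Coprime q e := Nat.coprime_of_squarefree_mul hsq
  have hqo : Odd q := (Nat.odd_mul.1 hd).1
  have heo : Odd e := (Nat.odd_mul.1 hd).2
  have hq2 : q ≠ 2 := by
    rintro rfl
    rw [Nat.odd_iff] at hqo
    omega
  have hesq : Squarefree e := hsq.squarefree_of_dvd (dvd_mul_left e q)
  have hqe : q ∉ e.primeFactors := by
    intro h1
    have h3 := Nat.dvd_of_mem_primeFactors h1
    exact (Nat.Prime.coprime_iff_not_dvd hq).1 hc h3
  have hpf : (q * e).primeFactors = insert q e.primeFactors := by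
    rw [hc.primeFactors_mul, hq.primeFactors]
    rfl
  have hram : ∏ p ∈ (q * e).primeFactors, hs (q * e) p q = hs (q * e) q q * J(q | e) := by
    rw [hpf, Finset.prod_insert hqe, jac_sqf _ hesq]
    congr 1
    refine Finset.prod_congr rfl fun p hp => ?_
    have hp1 := Nat.prime_of_mem_primeFactors hp
    have hp2 := Nat.dvd_of_mem_primeFactors hp
    refine hs_ram_unit hp1 ?_ (hp2.mul_left q) (hu p hp1 ?_)
    · rintro rfl
      rw [Nat.odd_iff] at heo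
      omega
    · rintro rfl
      exact hqe hp
  rw [split hsq _ hT h, hram, out_two hd hT h2 fun p hp _ hpd => hu p hp fun h0 =>
    hpd (h0 ▸ dvd_mul_right q e)]
  have h3 : hs (q * e) q q = ZMod.χ₄ (q : ZMod 4) * J(e | q) := by
    have h4 := hs_ram hq hq2 (dvd_mul_right q e) 1 (n := 1) (by
      intro h5
      exact hq.one_lt.ne' (by exact_mod_cast (Int.eq_one_of_dvd_one (by positivity) h5)))
    rwa [pow_one, pow_one, mul_one, one_mul, Nat.mul_div_cancel_left _ hq.pos,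
      jacobiSym.neg _ hqo] at h4
  rw [h3]
  have hsq1 := jac_sq hc.symm
  have hq4 : q % 4 = 1 ∨ q % 4 = 3 := by
    rw [Nat.odd_iff] at hqo
    omega
  have he4 : e % 4 = 1 ∨ e % 4 = 3 := by
    rw [Nat.odd_iff] at heo
    omega
  have hqn : ¬ (2 : ℤ) ∣ q := by
    intro h5
    have h6 : 2 ∣ q := by exact_mod_cast h5
    rw [Nat.odd_iff] at hqo
    omega
  rcases hq4 with h6 | h6
  · have h7 : hs (q * e) 2 q = 1 := by
      rcases hs_two_odd hd hqn with ⟨_, h5⟩ | ⟨_, h5⟩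
      · exact h5
      · rw [h5, Int.cast_natCast, ZMod.χ₄_nat_one_mod_four h6]
    rw [h7, ZMod.χ₄_nat_one_mod_four h6, jacobiSym.quadratic_reciprocity_one_mod_four h6 heo]
    linear_combination hsq1
  · rw [ZMod.χ₄_nat_three_mod_four h6]
    rcases he4 with h8 | h8
    · have h9 : (q * e) % 4 = 3 := by rw [Nat.mul_mod, h6, h8]
      have h7 : hs (q * e) 2 q = -1 := by
        rcases hs_two_odd hd hqn with ⟨h10, _⟩ | ⟨_, h5⟩
        · omega
        · rw [h5, Int.cast_natCast, ZMod.χ₄_nat_three_mod_four h6]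
      rw [h7, jacobiSym.quadratic_reciprocity_one_mod_four' hqo h8]
      linear_combination hsq1
    · have h9 : (q * e) % 4 = 1 := by rw [Nat.mul_mod, h6, h8]
      have h7 : hs (q * e) 2 q = 1 := by
        rcases hs_two_odd hd hqn with ⟨_, h5⟩ | ⟨h10, _⟩
        · exact h5
        · omega
      rw [h7, jacobiSym.quadratic_reciprocity_three_mod_four h6 h8]
      linear_combination hsq1

private theorem prod_nat {d : ℕ} (hd : Odd d) (hsq : Squarefree d) {T : Finset ℕ}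
    (hT : ∀ p ∈ T, p.Prime) (h2 : 2 ∈ T) (h : ∀ p : ℕ, p.Prime → p ∣ d → p ∈ T) (m : ℕ) :
    m ≠ 0 → (∀ p : ℕ, p.Prime → p ∣ m → p ∈ T) → ∏ p ∈ T, hs d p m = 1 := by
  induction m using Nat.recOnMul with
  | zero => exact fun h0 => absurd rfl h0
  | one =>
    intro _ _
    refine Finset.prod_eq_one fun p hp => ?_
    rw [Nat.cast_one]
    exact hs_one (hT p hp) hd
  | prime q hq =>
    intro _ hqT
    by_cases hqd : q ∣ d
    · exact prod_ram hd hsq hq hqd hT h2 h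
    · by_cases hq2 : q = 2
      · subst hq2
        exact prod_two hd hsq hT h2 h
      · exact prod_odd hd hsq hq hq2 hqd hT h2 (hqT q hq dvd_rfl) h
  | mul a b iha ihb =>
    intro hab hp
    have ha : a ≠ 0 := left_ne_zero_of_mul hab
    have hb : b ≠ 0 := right_ne_zero_of_mul hab
    have h1 : ∏ p ∈ T, hs d p ((a * b : ℕ) : ℤ) = ∏ p ∈ T, hs d p a * hs d p b := by
      refine Finset.prod_congr rfl fun p hpT => ?_
      rw [Nat.cast_mul]
      exact hs_mul (hT p hpT) hd (by exact_mod_cast ha) (by exact_mod_cast hb)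
    rw [h1, Finset.prod_mul_distrib, iha ha fun p hp1 hp2 => hp p hp1 (hp2.mul_right b),
      ihb hb fun p hp1 hp2 => hp p hp1 (hp2.mul_left a), one_mul]

/-- PROOF. Let `F(n) = ∏ p ∈ T, hs d p n` for `n ≠ 0` whose prime divisors lie in `T` (`2 ∈ T` and
the primes dividing `d` are in `T`). `F` is multiplicative (`hs_mul`), `F(1) = 1` (`hs_one`), so it
suffices to treat `n = -1` and `n` a prime of `T` (write `n = ± |n|`, induction on `|n|` with
`Nat.recOnMul` or `induction_on_primes`).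
Every `p ∈ T`, `p ≠ 2`, `p ∤ d`, `p ∤ n` contributes `1` (`hs_unit`). For `p ∣ d` not dividing `n`
the factor is `J(n | p)` (`hs_ram_unit`), and the product of `J(n | p)` over the prime divisors of
`d` is `J(n | d)` (`d` squarefree: `Nat.prod_primeFactors_of_squarefree`, `jacobiSym.mul_right` or
`jacobiSym.prod_right`-like induction; also `J(a | b) = (b.primeFactorsList.pmap ..).prod`).
* `n = -1`: `hs d 2 (-1) J(-1 | d) = 1`: `d ≡ 1 (4)`: both are `1`; `d ≡ 3 (4)`: both are `-1`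
  (`jacobiSym.at_neg_one`).
* `n = 2`: `hs d 2 2 J(2 | d) = 1`, `J(2 | d) = χ₈ d` (`jacobiSym.at_two`), and `hs d 2 2` is `1`
  for `d ≡ 1 (8)`, `-1` for `d ≡ 5 (8)`, `χ₈ d` for `d ≡ 3 (4)` (`hs_two_three` with
  `v = 1, n = 1`).
* `n = ℓ` an odd prime not dividing `d`: the factors are `hs d ℓ ℓ = J(d | ℓ)` (`hs_unr`,
  `v = 1, n = 1`), `J(ℓ | d)`, and `hs d 2 ℓ`, which is `1` for `d ≡ 1 (4)` and `χ₄ ℓ` for
  `d ≡ 3 (4)`: quadratic reciprocity (`jacobiSym.quadratic_reciprocity`).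
* `n = p ∣ d`, `d = p d1`, `p ∤ d1`: the factors are `hs d p p = J(-d1 | p)` (`hs_ram`,
  `v = 1, n = 1`), `J(p | d1)` (the primes dividing `d1`), and `hs d 2 p` = `1` or `χ₄ p`.
  `J(d1 | p) J(p | d1) = (-1) ^ ((p-1)/2 (d1-1)/2)` and `J(-1 | p) = (-1) ^ ((p-1)/2)`. If
  `p ≡ 1 (4)` everything is `1`. If `p ≡ 3 (4)`: `d1 ≡ 1 (4)` gives `d ≡ 3 (4)`,
  `J(-1 | p) = -1`, `J(d1|p) J(p|d1) = 1`, `hs d 2 p = χ₄ p = -1`; `d1 ≡ 3 (4)` gives
  `d ≡ 1 (4)`, `-1`, `-1`, `1`. The product is always `1`. -/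
theorem hs_prod {d : ℕ} (hd : Odd d) (hsq : Squarefree d) {n : ℤ} (hn : n ≠ 0) {T : Finset ℕ}
    (hT : ∀ p ∈ T, p.Prime) (h : ∀ p : ℕ, p.Prime → (p : ℤ) ∣ 2 * d * n → p ∈ T) :
    ∏ p ∈ T, hs d p n = 1 := by
  have h2 : 2 ∈ T := h 2 Nat.prime_two ⟨d * n, by push_cast; ring⟩
  have hd' : ∀ p : ℕ, p.Prime → p ∣ d → p ∈ T := by
    intro p hp hpd
    refine h p hp ?_
    have h3 : (p : ℤ) ∣ d := by exact_mod_cast hpd
    exact (h3.mul_left 2).mul_right n
  have hm : ∀ p : ℕ, p.Prime → p ∣ n.natAbs → p ∈ T := by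
    intro p hp hpd
    refine h p hp ?_
    have h3 : (p : ℤ) ∣ n := Int.natCast_dvd.2 hpd
    exact h3.mul_left _
  have h3 := prod_nat hd hsq hT h2 hd' n.natAbs (Int.natAbs_ne_zero.2 hn) hm
  rcases Int.natAbs_eq n with h4 | h4
  · rw [← h4] at h3
    exact h3
  · have h5 : ∏ p ∈ T, hs d p n = ∏ p ∈ T, hs d p (-1) * hs d p (n.natAbs : ℤ) := by
      refine Finset.prod_congr rfl fun p hpT => ?_
      rw [← hs_mul (hT p hpT) hd (by norm_num) (by exact_mod_cast Int.natAbs_ne_zero.2 hn)]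
      congr 1
      linarith
    rw [h5, Finset.prod_mul_distrib, h3, prod_neg_one hd hsq hT h2 hd', one_mul]

end Pool.Agent.AllRank
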