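import Pool.Agent.AllRank.Defs

set_option autoImplicit false

/-!
ALLRANK, file Weak: weak approximation on the quadric `x² - (A s² + B s t + C t²) = b z²` at the
primes dividing `2 D`.
-/

namespace Pool.Agent.AllRank

/-- Square roots modulo powers. PROOF. We prove by induction on `k`: there is `s` with
`IsCoprime s S`, `8 * S ^ (k + 1) ∣ s ^ 2 - b` (this implies the claim; for `k = 0` in the claim
there is nothing to do anyway). Base: `s = 1`, from `hb`. Step: let `b - s² = 8 S^(k+1) w` and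
let `y` be an inverse of `s` modulo `S` (`S ∣ s y - 1`); put `s' = s + 4 S^(k+1) w y`. Then
`s'² = s² + 8 S^(k+1) w (s y) + 16 S^(2k+2) w² y²`, so
`b - s'² = 8 S^(k+1) w (1 - s y) - 16 S^(2k+2) w² y²` is divisible by `8 S^(k+2)` (for the second
term: `16 S^(2k+2) = 8 S^(k+2) · (2 S^k)`), and `s'` is coprime to `S` (`s' ≡ s` modulo `S`). -/
theorem exists_sqrt {S b : ℤ} (hb : 8 * S ∣ b - 1) (k : ℕ) : ∃ s : ℤ, S ^ k ∣ s ^ 2 - b := by
  have key : ∀ k : ℕ, ∃ s : ℤ, IsCoprime s S ∧ 8 * S ^ (k + 1) ∣ s ^ 2 - b := by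
    intro k
    induction k with
    | zero =>
      refine ⟨1, isCoprime_one_left, ?_⟩
      obtain ⟨c, hc⟩ := hb
      exact ⟨-c, by linear_combination -hc⟩
    | succ k ih =>
      obtain ⟨s, ⟨a, c, hac⟩, ⟨w, hw⟩⟩ := ih
      refine ⟨s + S * (4 * S ^ k * (-w) * a), ?_, ?_⟩
      · exact IsCoprime.add_mul_left_left ⟨a, c, hac⟩ _
      · refine ⟨w * c + 2 * S ^ k * w ^ 2 * a ^ 2, ?_⟩
        have h1 : s ^ 2 = b + 8 * S ^ (k + 1) * w := by linear_combination hw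
        have h2 : a * s = 1 - c * S := by linear_combination hac
        have h3 : (s + S * (4 * S ^ k * (-w) * a)) ^ 2 - b =
            s ^ 2 - b - 8 * S ^ (k + 1) * w * (a * s) +
              16 * S ^ 2 * (S ^ k) ^ 2 * w ^ 2 * a ^ 2 := by
          ring
        rw [h3, h2, h1]
        ring
  obtain ⟨s, -, h⟩ := key k
  refine ⟨s, ?_⟩
  refine Dvd.dvd.trans ?_ h
  exact ⟨8 * S, by ring⟩

/-- WEAK APPROXIMATION. Write `F (x, s, t, z) = x² - bq s t - b z²` and let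
`P0 = (x, s, t, z)` be the given zero of `F`, `G := b * bq A B C s t ≠ 0` (`b ≠ 0` since
`16 D ∣ b - 1`).
PROOF. Choose `k` with `2 ^ k > |2 G|` (`k := (2 * G).natAbs`, `Nat.lt_two_pow_self`), and by
`exists_sqrt` (with `S := 2 D`) an integer `σ` with `(2 D)^k ∣ w`, `w := σ² - b`. Put
`R := 2 (x σ - b z)` and
`x1 := w x - R σ`, `s1 := w s`, `t1 := w t`, `z1 := w z - R`. This is the second zero of `F` on the
line
through `P0` and `u = (σ, 0, 0, 1)`: `P1 = F(u) P0 - F(P0, u) u` (`F(u) = w`, `F(P0, u) = R`), so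
`x1² - bq s1 t1 = b z1²` (`ring`-type identity: use `bq A B C (w s) (w t) = w² bq A B C s t` and
the equation of `P0`).
CLAIM. For every prime `p ∣ 2 D`: `p^e ∣ R` implies `p^e ∣ 2 G` if `e ≤ k`; hence the exact power
`p^e` of `p` in `R` is finite with `e < k` (otherwise `p^k ∣ 2 G ≠ 0`, but `p^k ≥ 2^k > |2 G|`).
Indeed `(x σ - b z)(x σ + b z) = x² σ² - b² z² = x² w + b (x² - b z²) = x² w + G`, so
`R (x σ + b z) = 2 x² w + 2 G`, and `p^k ∣ (2 D)^k ∣ w`.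
Now let `p^e` be the exact power of `p` in `R`; `e + 1 ≤ k`, so `p^(e+1) ∣ w`. So `p^e` is the
exact power of `p` in `z1` and `p^e` divides `x1, s1, t1`.
Let `g := gcd (x1, s1, t1, z1)` (nonzero because `z1 ≠ 0`: use any prime `p ∣ 2 D`, e.g. `2`),
and divide: `x' = x1 / g`, ... The equation is preserved (divide by `g²`), and a prime `p ∣ 2 D`
does not divide `z1 / g`, since `p^e ∣ g` and `p^(e+1) ∤ z1`. So `z'` is coprime to `2 D`
(`Int.isCoprime_iff_gcd_eq_one`, or `isCoprime_of_primes` in `Pool.Agent.MP4d0966.Arith`). -/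
theorem weak_approx {A B C D b : ℤ} (hD : D ≠ 0) (hb : 16 * D ∣ b - 1) {x z s t : ℤ}
    (h : x ^ 2 - bq A B C s t = b * z ^ 2) (hq : bq A B C s t ≠ 0) :
    ∃ x' z' s' t' : ℤ, x' ^ 2 - bq A B C s' t' = b * z' ^ 2 ∧ IsCoprime z' (2 * D) := by
  have hb0 : b ≠ 0 := by
    rintro rfl
    have h1 : (2 : ℤ) ∣ 0 - 1 := (Dvd.intro (8 * D) (by ring)).trans hb
    omega
  have hG : 2 * (b * bq A B C s t) ≠ 0 := mul_ne_zero two_ne_zero (mul_ne_zero hb0 hq)
  obtain ⟨k, hk⟩ : ∃ k : ℕ, (2 * (b * bq A B C s t)).natAbs < 2 ^ k :=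
    ⟨_, Nat.lt_two_pow_self⟩
  obtain ⟨σ, hσ⟩ := exists_sqrt (S := 2 * D) (b := b) (by
    have h1 : 8 * (2 * D) = 16 * D := by ring
    rw [h1]
    exact hb) k
  obtain ⟨w, hw⟩ : ∃ w : ℤ, w = σ ^ 2 - b := ⟨_, rfl⟩
  rw [← hw] at hσ
  obtain ⟨R, hR⟩ : ∃ R : ℤ, R = 2 * (x * σ - b * z) := ⟨_, rfl⟩
  have hRG : R * (x * σ + b * z) = 2 * x ^ 2 * w + 2 * (b * bq A B C s t) := by
    rw [hR, hw]
    linear_combination (2 * b) * h
  have heq : (w * x - R * σ) ^ 2 - bq A B C (w * s) (w * t) = b * (w * z - R) ^ 2 := by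
    have h1 : bq A B C (w * s) (w * t) = w ^ 2 * bq A B C s t := by
      unfold bq
      ring
    rw [h1]
    have h2 : bq A B C s t = x ^ 2 - b * z ^ 2 := by linear_combination -h
    rw [h2, hR, hw]
    ring
  have hex : ∀ p : ℕ, p.Prime → (p : ℤ) ∣ 2 * D → ∃ e : ℕ, (p : ℤ) ^ e ∣ R ∧
      (p : ℤ) ^ (e + 1) ∣ w ∧ ¬ (p : ℤ) ^ (e + 1) ∣ w * z - R := by
    intro p hp hpD
    have hpw : (p : ℤ) ^ k ∣ w := (pow_dvd_pow_of_dvd hpD k).trans hσ
    have hnk : ¬ (p : ℤ) ^ k ∣ R := by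
      intro hd
      have h1 : (p : ℤ) ^ k ∣ 2 * (b * bq A B C s t) := by
        have h2 : (p : ℤ) ^ k ∣ 2 * x ^ 2 * w + 2 * (b * bq A B C s t) := by
          rw [← hRG]
          exact hd.mul_right _
        exact (dvd_add_right (hpw.mul_left _)).1 h2
      have h3 : p ^ k ≤ (2 * (b * bq A B C s t)).natAbs := by
        apply Nat.le_of_dvd (Int.natAbs_pos.2 hG)
        have h4 := Int.natAbs_dvd_natAbs.2 h1
        rw [Int.natAbs_pow, Int.natAbs_natCast] at h4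
        exact h4
      have h5 : 2 ^ k ≤ p ^ k := Nat.pow_le_pow_left hp.two_le k
      omega
    have hexm : ∃ m : ℕ, ¬ (p : ℤ) ^ m ∣ R := ⟨k, hnk⟩
    classical
    obtain ⟨m, hm, hmin⟩ : ∃ m : ℕ, ¬ (p : ℤ) ^ m ∣ R ∧ ∀ j < m, (p : ℤ) ^ j ∣ R :=
      ⟨Nat.find hexm, Nat.find_spec hexm, fun j hj => not_not.1 (Nat.find_min hexm hj)⟩
    have hmk : m ≤ k := by
      by_contra hlt
      exact hnk (hmin k (not_le.1 hlt))
    have hm0 : m ≠ 0 := by
      rintro rfl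
      exact hm (by simp)
    obtain ⟨e, rfl⟩ := Nat.exists_eq_succ_of_ne_zero hm0
    have hpe : (p : ℤ) ^ (e + 1) ∣ w := (pow_dvd_pow _ hmk).trans hpw
    refine ⟨e, hmin e (Nat.lt_succ_self e), hpe, fun hd => hm ?_⟩
    exact (dvd_sub_right (hpe.mul_right z)).1 hd
  obtain ⟨e2, he2, hw2, hz2⟩ := hex 2 Nat.prime_two ⟨D, by norm_num⟩
  have hz1 : w * z - R ≠ 0 := by
    intro h0
    apply hz2
    rw [h0]
    exact dvd_zero _
  obtain ⟨g, hg⟩ : ∃ g : ℤ, g = gcd (gcd (w * x - R * σ) (w * s)) (gcd (w * t) (w * z - R)) :=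
    ⟨_, rfl⟩
  have g1 : g ∣ w * x - R * σ := hg ▸ (gcd_dvd_left _ _).trans (gcd_dvd_left _ _)
  have g2 : g ∣ w * s := hg ▸ (gcd_dvd_left _ _).trans (gcd_dvd_right _ _)
  have g3 : g ∣ w * t := hg ▸ (gcd_dvd_right _ _).trans (gcd_dvd_left _ _)
  have g4 : g ∣ w * z - R := hg ▸ (gcd_dvd_right _ _).trans (gcd_dvd_right _ _)
  have hgall : ∀ d : ℤ, d ∣ w → d ∣ R → d ∣ g := by
    intro d h1 h2
    rw [hg]
    exact dvd_gcd (dvd_gcd (dvd_sub (h1.mul_right _) (h2.mul_right _)) (h1.mul_right _))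
      (dvd_gcd (h1.mul_right _) (dvd_sub (h1.mul_right _) h2))
  have hg0 : g ≠ 0 := by
    rintro rfl
    exact hz1 (zero_dvd_iff.1 g4)
  obtain ⟨x', hx'⟩ := g1
  obtain ⟨s', hs'⟩ := g2
  obtain ⟨t', ht'⟩ := g3
  obtain ⟨z', hz'⟩ := g4
  refine ⟨x', z', s', t', ?_, ?_⟩
  · rw [hx', hs', ht', hz'] at heq
    have h1 : g ^ 2 * (x' ^ 2 - bq A B C s' t') = g ^ 2 * (b * z' ^ 2) := by
      unfold bq at heq ⊢
      linear_combination heq
    exact mul_left_cancel₀ (pow_ne_zero 2 hg0) h1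
  · have h2D : 2 * D ≠ 0 := mul_ne_zero two_ne_zero hD
    apply MP4d0966.isCoprime_of_primes h2D
    intro p hp hpD hpz
    obtain ⟨e, he, hwe, hze⟩ := hex p hp hpD
    apply hze
    rw [hz', pow_succ]
    exact mul_dvd_mul (hgall _ ((pow_dvd_pow _ (Nat.le_succ e)).trans hwe) he) hpz

end Pool.Agent.AllRank
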