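import Pool.Agent.AllRank.Quad
import Pool.Agent.AllRank.Weak
import Pool.Agent.AllRank.Prim
import Pool.Agent.AllRank.Std
import Pool.Agent.AllRank.Desc

set_option autoImplicit false

/-! ALLRANK, file ThmC: the numerical core theorem (assembly). -/

namespace Pool.Agent.AllRank

open Pool.Agent.MP4d0966
open scoped NumberTheorySymbols

private theorem thmC_pos {α A B C D : ℤ} {β : ℕ} (hαβ : α * β + A = 1)
    (hD : D = B ^ 2 - 4 * A * C) (hns : ¬ IsSquare D) (hβ : IsCoprime (β : ℤ) (2 * D))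
    (hJ : J(D | β) = 1) (hC : 0 < C) :
    ∃ x y s t : ℤ, x * y + bq A B C s t = 0 ∧ β * x + α * y + 2 * A * s + B * t = 1 := by
  have hβ0 : β ≠ 0 := by
    rintro rfl
    rw [Nat.cast_zero, isCoprime_zero_left, Int.isUnit_iff] at hβ
    omega
  have hD0 : D ≠ 0 := by
    rintro rfl
    exact hns ⟨0, by simp⟩
  by_cases hβ1 : β = 1
  · refine ⟨1, 0, 0, 0, by simp [bq], ?_⟩
    rw [hβ1]
    push_cast
    ring
  have hβA : IsCoprime (β : ℤ) A := ⟨α, 1, by linarith⟩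
  obtain ⟨n, hn, hnJ, hn1, x, z, s, t, h1, h2⟩ := exists_point hD hns (by omega) hβ hβA hJ
  obtain ⟨x', z', s', t', h3, h4⟩ := weak_approx hD0 hn1 h1 h2
  have hnD : IsCoprime (n : ℤ) (2 * D) := by
    obtain ⟨w, hw⟩ := hn1
    exact ⟨β, -(8 * w), by linear_combination hw⟩
  obtain ⟨x2, y2, s2, t2, h5, h6, h7, h8, h9⟩ := exists_prim hD hαβ hβ hn hnD hnJ h3 h4
  set L := std A B C with hL
  have hgd : gdet L (Pi.basisFun ℤ (Fin 4)) = D := by rw [hL, gdet_std, hD]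
  have hq : ∀ v : Fin 4 → ℤ, L.q v = v 0 * v 1 + bq A B C (v 2) (v 3) := fun _ => rfl
  have hB : ∀ v w : Fin 4 → ℤ, L.B v w = v 0 * w 1 + v 1 * w 0 + 2 * A * v 2 * w 2
      + B * (v 2 * w 3 + v 3 * w 2) + 2 * C * v 3 * w 3 := fun _ _ => rfl
  have hl : L.q ![α, β, 1, 0] = 1 := by
    rw [hq]
    simp [bq]
    exact hαβ
  have hE : L.B ![x2, y2, s2, t2] ![α, β, 1, 0] = β * x2 + α * y2 + 2 * A * s2 + B * t2 := by
    rw [hB]
    simp
    ring
  have hβpos : (0 : ℤ) < β := by exact_mod_cast Nat.pos_of_ne_zero hβ0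
  obtain ⟨w, hw1, hw2⟩ := descent (L := L) (b := Pi.basisFun ℤ (Fin 4)) (l := ![α, β, 1, 0]) hl
    ⟨![-B, 0, 0, β], by rw [hB]; simp, by rw [hq]; simp [bq]; positivity⟩
    ⟨![2 - β * α, -(β : ℤ) ^ 2, -β, 0], by
      rw [hB]; simp
      linear_combination (-2 * β) * hαβ, by
      rw [hq]; simp [bq]
      nlinarith [mul_pos hβpos hβpos]⟩
    (E := ![x2, y2, s2, t2]) (by rw [hq]; simpa using h5)
    (by
      rintro p hp ⟨E', hE'⟩
      refine h6 p hp ⟨?_, ?_, ?_, ?_⟩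
      · have := congrFun hE' 0
        simp at this
        exact ⟨_, this⟩
      · have := congrFun hE' 1
        simp at this
        exact ⟨_, this⟩
      · have := congrFun hE' 2
        simp at this
        exact ⟨_, this⟩
      · have := congrFun hE' 3
        simp at this
        exact ⟨_, this⟩)
    (by rw [hE]; exact h7) (by rw [hE, hgd]; exact h8) (by rw [hE, hgd]; exact h9)
  refine ⟨w 0, w 1, w 2, w 3, ?_, ?_⟩
  · rw [← hw1, hq]
  · rw [← hw2, hB]
    simp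
    ring

/-- THEOREM C. `N = ℤ⁴`, `q(x, y, s, t) = x y + A s² + B s t + C t²`, `l = (α, β, 1, 0)`,
`q(l) = 1`, `e = (1, 0, 0, 0)`, `(e, l) = β`. If `β` is prime to `2 D`, `(D / |β|) = 1`, `D` is not
a square and `C > 0`, there is an isotropic `w` with `(w, l) = 1`. -/
theorem thmC {α β A B C D : ℤ} (hαβ : α * β + A = 1) (hD : D = B ^ 2 - 4 * A * C)
    (hns : ¬ IsSquare D) (hβ : IsCoprime β (2 * D)) (hJ : J(D | β.natAbs) = 1) (hC : 0 < C) :
    ∃ x y s t : ℤ, x * y + bq A B C s t = 0 ∧ β * x + α * y + 2 * A * s + B * t = 1 := by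
  rcases le_or_gt 0 β with h0 | h0
  · obtain ⟨b, rfl⟩ := Int.eq_ofNat_of_zero_le h0
    exact thmC_pos hαβ hD hns hβ (by simpa using hJ) hC
  · obtain ⟨b, hb⟩ := Int.eq_ofNat_of_zero_le (show (0 : ℤ) ≤ -β by omega)
    have hβb : β = -(b : ℤ) := by omega
    subst hβb
    obtain ⟨x, y, s, t, h1, h2⟩ := thmC_pos (α := -α) (β := b) (A := A) (B := B) (C := C) (D := D)
      (by linarith) hD hns (by simpa using hβ.neg_left) (by simpa using hJ) hC
    exact ⟨-x, -y, s, t, by rw [← h1]; ring, by rw [← h2]; ring⟩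

end Pool.Agent.AllRank
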