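import Pool.Agent.AllRank.Lat

set_option autoImplicit false

/-! ALLRANK, file Three: frozen primes are `3` or `1` modulo `3`. -/

namespace Pool.Agent.AllRank

open Pool.Agent.MP4d0966

/-- If `-3` is a square modulo the odd prime `p` then `p` is not `2` modulo `3`. -/
theorem mod_three {p : ℕ} (hp : p.Prime) (hp2 : p ≠ 2) {d : ℤ} (h : (p : ℤ) ∣ d ^ 2 + 3) :
    p % 3 ≠ 2 := by
  intro h3
  have : Fact p.Prime := ⟨hp⟩
  have h2 : (2 : ZMod p) ≠ 0 := by
    intro h0
    have h1 : ((2 : ℕ) : ZMod p) = 0 := by exact_mod_cast h0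
    rw [ZMod.natCast_eq_zero_iff] at h1
    exact hp2 ((Nat.prime_dvd_prime_iff_eq hp Nat.prime_two).mp h1)
  have h3' : (3 : ZMod p) ≠ 0 := by
    intro h0
    have h1 : ((3 : ℕ) : ZMod p) = 0 := by exact_mod_cast h0
    rw [ZMod.natCast_eq_zero_iff] at h1
    have := (Nat.prime_dvd_prime_iff_eq hp Nat.prime_three).mp h1
    omega
  have hd : ((d : ZMod p)) ^ 2 + 3 = 0 := by
    have h1 := (ZMod.intCast_zmod_eq_zero_iff_dvd (d ^ 2 + 3) p).mpr h
    push_cast at h1
    exact h1
  set y : ZMod p := ((d : ZMod p) - 1) / 2 with hy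
  have hy2 : y ^ 2 + y + 1 = 0 := by
    rw [hy]
    field_simp
    linear_combination hd
  have hy3 : y ^ 3 = 1 := by linear_combination (y - 1) * hy2
  have hy1 : y ≠ 1 := by
    intro h1
    rw [h1] at hy2
    apply h3'
    linear_combination hy2
  have hy0 : y ≠ 0 := by
    intro h1
    rw [h1] at hy3
    norm_num at hy3
  have ho : orderOf (Units.mk0 y hy0) = 3 := by
    have h4 : (Units.mk0 y hy0) ^ 3 = 1 := by
      ext
      simpa using hy3
    have h5 : orderOf (Units.mk0 y hy0) ∣ 3 := orderOf_dvd_of_pow_eq_one h4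
    rcases (Nat.dvd_prime Nat.prime_three).mp h5 with h6 | h6
    · rw [orderOf_eq_one_iff] at h6
      exact (hy1 (by simpa using congrArg Units.val h6)).elim
    · exact h6
  have h6 := orderOf_dvd_card (x := Units.mk0 y hy0)
  rw [ho, ZMod.card_units_eq_totient, Nat.totient_prime hp] at h6
  have := hp.two_le
  omega

variable {N : Type*} [AddCommGroup N]

/-- If `p` divides `q(m)` for all `m` orthogonal to the hyperbolic pair and `N` contains `A_2`
then `-3` is a square modulo `p`. -/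
theorem neg_three_square {L : EvenForm N} {e f l1 l2 : N} (he : L.q e = 0) (hf : L.q f = 0)
    (hef : L.B e f = 1) (h1 : L.q l1 = 1) (h2 : L.q l2 = 1) (h12 : L.B l1 l2 = -1) {p : ℤ}
    (hM : ∀ m, L.B m e = 0 → L.B m f = 0 → p ∣ L.q m) : ∃ d : ℤ, p ∣ d ^ 2 + 3 := by
  have hee : L.B e e = 0 := by rw [L.hq, he, mul_zero]
  have hff : L.B f f = 0 := by rw [L.hq, hf, mul_zero]
  have hfe : L.B f e = 1 := by rw [L.symm, hef]
  have key : ∀ x : N, p ∣ L.q x - L.B x f * L.B x e := by
    intro x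
    have h := hM (x - L.B x f • e - L.B x e • f) (by
      simp only [map_sub, map_smul, LinearMap.sub_apply, LinearMap.smul_apply, smul_eq_mul, hee,
        hfe]
      ring) (by
      simp only [map_sub, map_smul, LinearMap.sub_apply, LinearMap.smul_apply, smul_eq_mul, hef,
        hff]
      ring)
    have h3 : L.q (x - L.B x f • e - L.B x e • f) = L.q x - L.B x f * L.B x e := by
      rw [L.q_sub, L.q_sub, L.q_smul, L.q_smul, he, hf]
      simp only [map_sub, map_smul, LinearMap.sub_apply, LinearMap.smul_apply, smul_eq_mul, hef]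
      ring
    rwa [h3] at h
  obtain ⟨a, ha⟩ := key l1
  obtain ⟨b, hb⟩ := key l2
  obtain ⟨c, hc⟩ := key (l1 + l2)
  rw [L.q_add, h12, h1, h2] at hc
  rw [h1] at ha
  rw [h2] at hb
  simp only [map_add, LinearMap.add_apply] at hc
  refine ⟨L.B l1 f * L.B l2 e - L.B l2 f * L.B l1 e, ?_⟩
  set α1 := L.B l1 f
  set β1 := L.B l1 e
  set α2 := L.B l2 f
  set β2 := L.B l2 e
  have e1 : α1 * β1 = 1 - p * a := by linarith
  have e2 : α2 * β2 = 1 - p * b := by linarith
  have e3 : α1 * β2 + α2 * β1 = -1 - p * (c - a - b) := by linear_combination -hc + ha + hb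
  have e4 : (α1 * β2 - α2 * β1) ^ 2 = (α1 * β2 + α2 * β1) ^ 2 - 4 * (α1 * β1) * (α2 * β2) := by
    ring
  rw [e4, e3, e1, e2]
  exact ⟨2 * (c - a - b) + p * (c - a - b) ^ 2 + 4 * a + 4 * b - 4 * p * a * b, by ring⟩

end Pool.Agent.AllRank
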